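import Mathlib
import Pool.Agent.Lib.H55K.D0

/-! # H13D: the Hecke character of an elliptic curve over the rational numbers with complex multiplication (Deuring): definitions -/

open NumberField IsDedekindDomain WeierstrassCurve

namespace H13D

open H55P (IQ embF eF LF Per IsHecke Pt ac Inert Dec Nm)
open H35P (WAB Ker tt GoodW IntW)
open H55K

section

variable {F : Type} [Field F] {Ω : Type} [Field Ω] [DecidableEq Ω] [Algebra F Ω]

/-- The normalised x-coordinate: x = u^2 xn + r. -/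
noncomputable def xn {W : WeierstrassCurve F} (u r : Ω) (P : Pt W Ω) : Ω := (xc P - r) / u ^ 2

/-- The points of y^2 = x^3 + A x + B over Ω have good reduction at V: Kg is the kernel of reduction, xn the x-coordinate of a good equation. -/
structure RM (A B : F) (V : ValuationSubring Ω) (Kg : AddSubgroup (Pt (WAB A B) Ω)) (u r : Ω) : Prop where
  une : u ≠ 0
  tors : ∀ n : ℕ, V.valuation (n : Ω) = 1 → ∀ T ∈ Kg, n • T = 0 → T = 0
  int : ∀ P, P ∉ Kg → V.valuation (xn u r P) ≤ 1
  big : ∀ P ∈ Kg, P ≠ 0 → 1 < V.valuation (xn u r P)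
  diff : ∀ P Q, P ∉ Kg → Q ∉ Kg → P - Q ∉ Kg → P + Q ∉ Kg → V.valuation (xn u r P - xn u r Q) = 1
  conv : ∀ P Q, P ∉ Kg → Q - P ∈ Kg → V.valuation (xn u r Q - xn u r P) < 1

/-- S is the set of the nonzero points killed by b in the kernel of reduction. -/
def KN {W : WeierstrassCurve F} (act : 𝓞 F →+* AddMonoid.End (Pt W Ω)) (b : 𝓞 F) (Kg : AddSubgroup (Pt W Ω)) (S : Finset (Pt W Ω)) :
    Prop := ∀ T, T ∈ S ↔ act b T = 0 ∧ T ≠ 0 ∧ T ∈ Kg

end

end H13D
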