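import Mathlib
import Pool.Agent.Lib.H13D.D

/-! # H13D, part A: good reduction (generic) -/

open NumberField IsDedekindDomain WeierstrassCurve

namespace H13D

open H55P (IQ embF eF LF Per IsHecke Pt ac Inert Dec Nm)
open H35P (WAB Ker tt GoodW IntW)
open H55K

variable {F : Type} [Field F] [NumberField F] [IQ F] {A B : F} {Om : ℂ} {Ω : Type} [Field Ω] [DecidableEq Ω]
  [Algebra F Ω] {j : Ω →+* ℂ} {act : 𝓞 F →+* AddMonoid.End (Pt (WAB A B) Ω)} {V : ValuationSubring Ω}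
  {Kg : AddSubgroup (Pt (WAB A B) Ω)} {u r : Ω}

/-- Chunk A1 (S). Definition of xn. -/
theorem xn_sub (hu : u ≠ 0) (P Q : Pt (WAB A B) Ω) : xc P - xc Q = u ^ 2 * (xn u r P - xn u r Q) := by
  unfold xn
  field_simp
  ring

/-- Chunk A1 (S). h.e2 with xn_sub everywhere; divide by (u^2)^(S.card + 1) (Finset.prod_mul_distrib, Finset.prod_const). -/
theorem e2n (h : CMA F A B Om j act) (hu : u ≠ 0) {b : 𝓞 F} {S : Finset (Pt (WAB A B) Ω)} (hb : b ≠ 0) (hS : TN act b S)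
    {X Y : Pt (WAB A B) Ω} (hX : act b X ≠ 0) (hY : act b Y ≠ 0) :
    ak Ω b ^ 2 * (xn u r (act b X) - xn u r (act b Y)) * ∏ R ∈ S, (xn u r R - xn u r Y) =
      (xn u r X - xn u r Y) * ∏ R ∈ S, (xn u r (X + R) - xn u r Y) := by
  have h1 := h.e2 b S hb hS X Y hX hY
  simp only [xn_sub (u := u) (r := r) hu, Finset.prod_mul_distrib, Finset.prod_const] at h1
  have hu2 : u ^ 2 * (u ^ 2) ^ S.card ≠ 0 := mul_ne_zero (pow_ne_zero _ hu) (pow_ne_zero _ (pow_ne_zero _ hu))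
  apply mul_left_cancel₀ hu2
  linear_combination h1

/-- Chunk A1 (S). hR.int, hR.big. -/
theorem mem_iff (hR : RM A B V Kg u r) {P : Pt (WAB A B) Ω} (h0 : P ≠ 0) : P ∈ Kg ↔ 1 < V.valuation (xn u r P) := by
  constructor
  · intro hP
    exact hR.big P hP h0
  · intro h1
    by_contra hP
    exact absurd (hR.int P hP) (not_le.2 h1)

/-- Chunk A1 (S). hR.diff: otherwise the value would be 1. -/
theorem cls_of (hR : RM A B V Kg u r) {P Q : Pt (WAB A B) Ω} (hP : P ∉ Kg) (hQ : Q ∉ Kg)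
    (h : V.valuation (xn u r P - xn u r Q) < 1) : P - Q ∈ Kg ∨ P + Q ∈ Kg := by
  by_contra hcon
  push Not at hcon
  have h1 := hR.diff P Q hP hQ hcon.1 hcon.2
  rw [h1] at h
  exact lt_irrefl _ h

end H13D
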