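import Mathlib
import Pool.Agent.Lib.H13D.D
import Pool.Agent.Lib.H55K.G4A

/-! # H13D, part A: good reduction (generic) -/

open NumberField IsDedekindDomain WeierstrassCurve
open scoped Pointwise

namespace H13D

open H55P (IQ embF eF LF Per IsHecke Pt ac Inert Dec Nm)
open H35P (WAB Ker tt GoodW IntW)
open H55K

/-- Chunk A2 (S/M), pure group theory. A group is not a finite union of cosets of subgroups of infinite index (B. H. Neumann): Mathlib.GroupTheory.CosetCover,
Subgroup.exists_index_le_card_of_leftCoset_cover / AddSubgroup version or Subgroup.exists_finiteIndex_of_leftCoset_cover: the cosets c + H (c in C) and c + K (c in E);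
use the index set C ⊕ E (or Sum of subtypes). If every X lies in one of these cosets then one of the subgroups has finite index: contradiction to index = 0. -/
theorem avoid {G : Type} [AddCommGroup G] (H K : AddSubgroup G) (hH : H.index = 0) (hK : K.index = 0) (C E : Finset G) :
    ∃ X : G, (∀ c ∈ C, X - c ∉ H) ∧ ∀ c ∈ E, X - c ∉ K := by
  classical
  by_contra hcon
  push Not at hcon
  have hcov : ⋃ i ∈ (C.disjSum E : Finset (G ⊕ G)), (Sum.elim id id i : G) +ᵥ ((Sum.elim (fun _ => H) (fun _ => K) i : AddSubgroup G) : Set G) =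
      Set.univ := by
    rw [Set.eq_univ_iff_forall]
    intro X
    rw [Set.mem_iUnion₂]
    by_cases hX : ∃ c ∈ C, X - c ∈ H
    · obtain ⟨c, hc, hcH⟩ := hX
      refine ⟨Sum.inl c, Finset.inl_mem_disjSum.2 hc, ?_⟩
      rw [Set.mem_vadd_set]
      exact ⟨X - c, hcH, by simp⟩
    · push Not at hX
      obtain ⟨c, hc, hcK⟩ := hcon X hX
      refine ⟨Sum.inr c, Finset.inr_mem_disjSum.2 hc, ?_⟩
      rw [Set.mem_vadd_set]
      exact ⟨X - c, hcK, by simp⟩
  obtain ⟨i, _, hfin⟩ := AddSubgroup.exists_finiteIndex_of_leftCoset_cover hcov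
  rcases i with c | c
  · exact hfin.index_ne_zero hH
  · exact hfin.index_ne_zero hK

variable {F : Type} [Field F] [NumberField F] [IQ F] {A B : F} {Om : ℂ} {Ω : Type} [Field Ω] [DecidableEq Ω]
  [Algebra F Ω] {j : Ω →+* ℂ} {act : 𝓞 F →+* AddMonoid.End (Pt (WAB A B) Ω)} {V : ValuationSubring Ω}
  {Kg : AddSubgroup (Pt (WAB A B) Ω)} {u r : Ω}

/-- Chunk A2 (M). Port of H55K/G5A.lean (inf_cls). l = 2 or l = 3 with V(l) = 1 (if V(2) < 1 and V(3) < 1 then V(1) = V(3 - 2) < 1; V(n) ≤ 1 for natural numbers n). Tor act (l^k) has Nm (l^k) = l^(2k) elements (tor_card, Nm_nat), pairwise different modulo Kg: the difference T is in Kg and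
l^k • T = 0 (act n T = n • T: cu_nat or tor_nm), V(l^k) = 1: hR.tors. So the quotient has at least l^(2k) elements for all k: it is infinite, index 0 (AddSubgroup.index = Nat.card of the quotient). -/
theorem kg_index (h : CMA F A B Om j act) (hR : RM A B V Kg u r) : Kg.index = 0 := by
  classical
  have hle1 : ∀ n : ℕ, V.valuation (n : Ω) ≤ 1 := fun n => by
    have h1 : (n : Ω) ∈ V := natCast_mem V n
    exact (V.valuation_le_one_iff _).2 h1
  obtain ⟨l, hl2, hl⟩ : ∃ l : ℕ, 2 ≤ l ∧ V.valuation (l : Ω) = 1 := by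
    by_contra hcon
    push Not at hcon
    have h2 := lt_of_le_of_ne (hle1 2) (hcon 2 le_rfl)
    have h3 := lt_of_le_of_ne (hle1 3) (hcon 3 (by norm_num))
    have h4 : V.valuation ((3 : ℕ) - (2 : ℕ) : Ω) < 1 := lt_of_le_of_lt (Valuation.map_sub _ _ _) (max_lt h3 h2)
    have h5 : ((3 : ℕ) - (2 : ℕ) : Ω) = 1 := by push_cast; ring
    rw [h5, map_one] at h4
    exact lt_irrefl _ h4
  have hkey : ∀ k : ℕ, Kg.index ≠ 0 → (l ^ k) ^ 2 ≤ Kg.index := by
    intro k hi
    have hfin : Finite ((Pt (WAB A B) Ω) ⧸ Kg) := by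
      have : Kg.FiniteIndex := ⟨hi⟩
      exact AddSubgroup.finite_quotient_of_finiteIndex
    have hb0 : ((l ^ k : ℕ) : 𝓞 F) ≠ 0 := by exact_mod_cast (pow_ne_zero k (by omega : l ≠ 0))
    have hcard := tor_card h hb0
    rw [Nm_nat] at hcard
    have hinj : Function.Injective (fun T : Tor act ((l ^ k : ℕ) : 𝓞 F) => (QuotientAddGroup.mk (T : Pt (WAB A B) Ω) : (Pt (WAB A B) Ω) ⧸ Kg)) := by
      intro T T' hTT
      have h1 : -(T : Pt (WAB A B) Ω) + (T' : Pt (WAB A B) Ω) ∈ Kg := QuotientAddGroup.eq.1 hTT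
      have h5 : (l ^ k : ℕ) • (-(T : Pt (WAB A B) Ω) + T') = 0 := by
        have h6 : -(T : Pt (WAB A B) Ω) + T' ∈ Tor act ((l ^ k : ℕ) : 𝓞 F) :=
          AddSubgroup.add_mem _ (AddSubgroup.neg_mem _ T.2) T'.2
        have h7 : act ((l ^ k : ℕ) : 𝓞 F) (-(T : Pt (WAB A B) Ω) + T') = 0 := h6
        rw [map_natCast act] at h7
        exact h7
      have h6 : V.valuation (((l ^ k : ℕ) : ℕ) : Ω) = 1 := by
        rw [Nat.cast_pow, map_pow, hl, one_pow]
      have h7 := hR.tors _ h6 _ h1 h5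
      exact Subtype.ext (neg_add_eq_zero.1 h7)
    have hle := Nat.card_le_card_of_injective _ hinj
    rw [hcard] at hle
    exact hle
  by_contra hi
  have h1 := hkey Kg.index hi
  have h2 : Kg.index < l ^ Kg.index := Nat.lt_pow_self (by omega)
  have h3 : l ^ Kg.index ≤ (l ^ Kg.index) ^ 2 := Nat.le_self_pow (by norm_num) _
  omega

/-- Chunk A2 (S). act b is surjective (h.surj): AddSubgroup.index_comap_of_surjective. -/
theorem kgb_index (h : CMA F A B Om j act) (hR : RM A B V Kg u r) {b : 𝓞 F} (hb : b ≠ 0) :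
    (Kg.comap (act b : Pt (WAB A B) Ω →+ Pt (WAB A B) Ω)).index = 0 := by
  rw [AddSubgroup.index_comap_of_surjective _ (fun P => h.surj b hb P)]
  exact kg_index h hR

end H13D
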