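import Mathlib
import Pool.Agent.Lib.H13D.A1
import Pool.Agent.Lib.H13D.A2

/-! # H13D, part A: good reduction (generic) -/

open NumberField IsDedekindDomain WeierstrassCurve

namespace H13D

open H55P (IQ embF eF LF Per IsHecke Pt ac Inert Dec Nm)
open H35P (WAB Ker tt GoodW IntW)
open H55K

variable {F : Type} [Field F] [NumberField F] [IQ F] {A B : F} {Om : ℂ} {Ω : Type} [Field Ω] [DecidableEq Ω]
  [Algebra F Ω] {j : Ω →+* ℂ} {act : 𝓞 F →+* AddMonoid.End (Pt (WAB A B) Ω)} {V : ValuationSubring Ω}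
  {Kg : AddSubgroup (Pt (WAB A B) Ω)} {u r : Ω}

/-- Chunk A3 (M). Generic point. Let H = Kg.comap (act b) (index 0: kgb_index; kg_index). avoid with C = {0} for H and for Kg the finite set E = {0} together with R and -R for R in S:
Y is not in Kg, act b Y is not in Kg, Y - R and Y + R are not in Kg. Then, for R in S: xn R - xn Y has value 1 if R is not in Kg (hR.diff for R and Y: R - Y = -(Y - R), R + Y), and value V(xn R) if R is in Kg (R ≠ 0: V(xn R) > 1 ≥ V(xn Y)). -/
theorem exists_gen (h : CMA F A B Om j act) (hR : RM A B V Kg u r) {b : 𝓞 F} (hb : b ≠ 0) {S : Finset (Pt (WAB A B) Ω)}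
    (hS : TN act b S) : ∃ Y : Pt (WAB A B) Ω, Y ∉ Kg ∧ act b Y ∉ Kg ∧ (∀ R ∈ S, Y - R ∉ Kg ∧ Y + R ∉ Kg) ∧
      (∀ R ∈ S, R ∉ Kg → V.valuation (xn u r R - xn u r Y) = 1) ∧
      ∀ R ∈ S, R ∈ Kg → V.valuation (xn u r R - xn u r Y) = V.valuation (xn u r R) := by
  classical
  obtain ⟨Y, hY1, hY2⟩ := avoid (Kg.comap (act b : Pt (WAB A B) Ω →+ Pt (WAB A B) Ω)) Kg (kgb_index h hR hb) (kg_index h hR)
    {0} (insert 0 (S ∪ S.image fun R => -R))
  have h0 : Y ∉ Kg := by
    have := hY2 0 (Finset.mem_insert_self _ _)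
    rwa [sub_zero] at this
  have h1 : act b Y ∉ Kg := by
    have := hY1 0 (Finset.mem_singleton_self _)
    rw [sub_zero] at this
    exact this
  have h2 : ∀ R ∈ S, Y - R ∉ Kg ∧ Y + R ∉ Kg := by
    intro R hR'
    refine ⟨hY2 R (Finset.mem_insert_of_mem (Finset.mem_union_left _ hR')), ?_⟩
    have := hY2 (-R) (Finset.mem_insert_of_mem (Finset.mem_union_right _ (Finset.mem_image_of_mem _ hR')))
    rwa [sub_neg_eq_add] at this
  refine ⟨Y, h0, h1, h2, fun R hR' hRK => ?_, fun R hR' hRK => ?_⟩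
  · refine hR.diff R Y hRK h0 ?_ ?_
    · intro h3
      exact (h2 R hR').1 (by rw [← neg_sub]; exact Kg.neg_mem h3)
    · rw [add_comm]
      exact (h2 R hR').2
  · have hR0 : R ≠ 0 := ((hS R).1 hR').2
    exact Valuation.map_sub_eq_of_lt_left _ (lt_of_le_of_lt (hR.int Y h0) (hR.big R hRK hR0))

/-- Chunk A3 (M). THE PRODUCT FORMULA. S = all nonzero points killed by b (exists_TN), S₁ the points of S in Kg. Y from exists_gen. Now avoid again, with H and C = {0, Y, -Y}, Kg and E = the set of 0, Y, -Y, -R, Y - R, -Y - R for R in S (Finset.image): X with act b X, act b (X - Y), act b (X + Y) not in Kg and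
X, X - Y, X + Y, X + R, X + R - Y, X + R + Y not in Kg (R in S). e2n for X, Y (act b X, act b Y ≠ 0 because they are not in Kg). Values: V(xn (act b X) - xn (act b Y)) = 1 (hR.diff; act b X - act b Y = act b (X - Y)), the product over S of V(xn R - xn Y) is the product over S₁ of V(xn R) (exists_gen; split S, Finset.prod_subset or
Finset.prod_filter), V(xn X - xn Y) = 1, V(xn (X + R) - xn Y) = 1. -/
theorem kprod (h : CMA F A B Om j act) (hR : RM A B V Kg u r) {b : 𝓞 F} (hb : b ≠ 0) {S₁ : Finset (Pt (WAB A B) Ω)}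
    (hS₁ : KN act b Kg S₁) : V.valuation (ak Ω b) ^ 2 * ∏ R ∈ S₁, V.valuation (xn u r R) = 1 := by
  classical
  obtain ⟨S, hS, _⟩ := exists_TN h hb
  obtain ⟨Y, hY0, hbY, hYR, hYv, hYk⟩ := exists_gen h hR hb hS
  obtain ⟨X, hX1, hX2⟩ := avoid (Kg.comap (act b : Pt (WAB A B) Ω →+ Pt (WAB A B) Ω)) Kg (kgb_index h hR hb) (kg_index h hR)
    {0, Y, -Y} ({0, Y, -Y} ∪ (S.image fun R => -R) ∪ (S.image fun R => Y - R) ∪ S.image fun R => -Y - R)
  have hbX : act b X ∉ Kg := by
    have := hX1 0 (by simp)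
    rw [sub_zero] at this
    exact this
  have hbXY : act b (X - Y) ∉ Kg := hX1 Y (by simp)
  have hbXY' : act b (X + Y) ∉ Kg := by
    have := hX1 (-Y) (by simp)
    rw [sub_neg_eq_add] at this
    exact this
  have hX0 : X ∉ Kg := by
    have := hX2 0 (by simp)
    rwa [sub_zero] at this
  have hXY : X - Y ∉ Kg := hX2 Y (by simp)
  have hXY' : X + Y ∉ Kg := by
    have := hX2 (-Y) (by simp)
    rwa [sub_neg_eq_add] at this
  have hXR : ∀ R ∈ S, X + R ∉ Kg := by
    intro R hR'
    have := hX2 (-R) (Finset.mem_union_left _ (Finset.mem_union_left _ (Finset.mem_union_right _ (Finset.mem_image_of_mem _ hR'))))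
    rwa [sub_neg_eq_add] at this
  have hXRY : ∀ R ∈ S, X + R - Y ∉ Kg := by
    intro R hR'
    have := hX2 (Y - R) (Finset.mem_union_left _ (Finset.mem_union_right _ (Finset.mem_image_of_mem (fun R => Y - R) hR')))
    have e : X - (Y - R) = X + R - Y := by abel
    rwa [e] at this
  have hXRY' : ∀ R ∈ S, X + R + Y ∉ Kg := by
    intro R hR'
    have := hX2 (-Y - R) (Finset.mem_union_right _ (Finset.mem_image_of_mem (fun R => -Y - R) hR'))
    have e : X - (-Y - R) = X + R + Y := by abel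
    rwa [e] at this
  have hne : ∀ {P : Pt (WAB A B) Ω}, P ∉ Kg → P ≠ 0 := fun hP h0 => hP (h0 ▸ Kg.zero_mem)
  have key := congrArg V.valuation (e2n (u := u) (r := r) h hR.une hb hS (hne hbX) (hne hbY))
  rw [map_mul, map_mul, map_mul, map_prod, map_prod, map_pow] at key
  have v1 : V.valuation (xn u r (act b X) - xn u r (act b Y)) = 1 := by
    refine hR.diff _ _ hbX hbY ?_ ?_
    · rw [← map_sub]
      exact hbXY
    · rw [← map_add]
      exact hbXY'
  have v2 : V.valuation (xn u r X - xn u r Y) = 1 := hR.diff _ _ hX0 hY0 hXY hXY'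
  have v3 : ∏ R ∈ S, V.valuation (xn u r (X + R) - xn u r Y) = 1 :=
    Finset.prod_eq_one fun R hR' => hR.diff _ _ (hXR R hR') hY0 (hXRY R hR') (hXRY' R hR')
  have v4 : ∏ R ∈ S, V.valuation (xn u r R - xn u r Y) = ∏ R ∈ S₁, V.valuation (xn u r R) := by
    have hsub : S₁ ⊆ S := fun R hR' => by
      have := (hS₁ R).1 hR'
      exact (hS R).2 ⟨this.1, this.2.1⟩
    rw [← Finset.prod_subset hsub]
    · refine Finset.prod_congr rfl fun R hR' => ?_
      exact hYk R (hsub hR') ((hS₁ R).1 hR').2.2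
    · intro R hR' hR''
      refine hYv R hR' fun hK => hR'' ?_
      have := (hS R).1 hR'
      exact (hS₁ R).2 ⟨this.1, this.2, hK⟩
  rw [v1, v2, v3, v4, mul_one, one_mul] at key
  exact key

end H13D
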