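import Mathlib
import Pool.Agent.Lib.H13D.A3

/-! # H13D, part A: good reduction (generic) -/

open NumberField IsDedekindDomain WeierstrassCurve

namespace H13D

open H55P (IQ embF eF LF Per IsHecke Pt ac Inert Dec Nm)
open H35P (WAB Ker tt GoodW IntW)
open H55K

variable {F : Type} [Field F] [NumberField F] [IQ F] {A B : F} {Om : ℂ} {Ω : Type} [Field Ω] [DecidableEq Ω]
  [Algebra F Ω] {j : Ω →+* ℂ} {act : 𝓞 F →+* AddMonoid.End (Pt (WAB A B) Ω)} {V : ValuationSubring Ω}
  {Kg : AddSubgroup (Pt (WAB A B) Ω)} {u r : Ω}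

/-- Chunk A4 (M). The kernel of reduction is stable. b = 0 and act b X = 0 are clear (then the image is 0). So b ≠ 0, X ≠ 0, act b X ≠ 0. S, S₁ as in kprod (S₁ = S.filter (in Kg), classical), Y from exists_gen; act b Y ≠ 0. e2n for X, Y. Left side: V(b)^2 V(xn (act b X) - xn (act b Y)) times the product over S₁ of V(xn R) = V(xn (act b X) - xn (act b Y)) by kprod.
Right side: V(xn X - xn Y) = V(xn X) > 1 (hR.big, V(xn Y) ≤ 1); for R in S₁: X + R is in Kg and not 0 (else act b X = - act b R = 0), so V(xn (X + R) - xn Y) = V(xn (X + R)) > 1; for R in S not in Kg: X + R is not in Kg, X + R - Y and X + R + Y are not in Kg (X in Kg, exists_gen), so the value is 1. So V(xn (act b X) - xn (act b Y)) > 1,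
and V(xn (act b Y)) ≤ 1 (act b Y not in Kg), so V(xn (act b X)) > 1 and act b X is in Kg (hR.int). -/
theorem act_mem (h : CMA F A B Om j act) (hR : RM A B V Kg u r) (b : 𝓞 F) {X : Pt (WAB A B) Ω} (hX : X ∈ Kg) : act b X ∈ Kg := by
  classical
  by_cases hb : b = 0
  · subst hb
    rw [map_zero]
    exact Kg.zero_mem
  by_cases hbX : act b X = 0
  · rw [hbX]
    exact Kg.zero_mem
  by_cases hX0 : X = 0
  · rw [hX0, map_zero]
    exact Kg.zero_mem
  obtain ⟨S, hS, -⟩ := exists_TN h hb
  obtain ⟨S₁, hS₁e⟩ : ∃ S₁ : Finset (Pt (WAB A B) Ω), S₁ = S.filter fun R => R ∈ Kg := ⟨_, rfl⟩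
  have hS₁ : KN act b Kg S₁ := by
    intro T
    rw [hS₁e, Finset.mem_filter, hS T, and_assoc]
  obtain ⟨Y, hY0, hbY, hYR, hYv, hYk⟩ := exists_gen h hR hb hS
  have hne : ∀ {P : Pt (WAB A B) Ω}, P ∉ Kg → P ≠ 0 := fun hP h0 => hP (h0 ▸ Kg.zero_mem)
  have key := congrArg V.valuation (e2n (u := u) (r := r) h hR.une hb hS hbX (hne hbY))
  rw [map_mul, map_mul, map_mul, map_prod, map_prod, map_pow] at key
  have v4 : ∏ R ∈ S, V.valuation (xn u r R - xn u r Y) = ∏ R ∈ S₁, V.valuation (xn u r R) := by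
    have hsub : S₁ ⊆ S := by
      rw [hS₁e]
      exact Finset.filter_subset _ _
    rw [← Finset.prod_subset hsub]
    · refine Finset.prod_congr rfl fun R hR' => ?_
      exact hYk R (hsub hR') ((hS₁ R).1 hR').2.2
    · intro R hR' hR''
      refine hYv R hR' fun hK => hR'' ?_
      have := (hS R).1 hR'
      exact (hS₁ R).2 ⟨this.1, this.2, hK⟩
  have hk := kprod h hR hb hS₁
  rw [v4, mul_right_comm, hk, one_mul] at key
  have w1 : V.valuation (xn u r X - xn u r Y) = V.valuation (xn u r X) :=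
    Valuation.map_sub_eq_of_lt_left _ (lt_of_le_of_lt (hR.int Y hY0) (hR.big X hX hX0))
  have w2 : 1 < V.valuation (xn u r X) := hR.big X hX hX0
  have w3 : 1 ≤ ∏ R ∈ S, V.valuation (xn u r (X + R) - xn u r Y) := by
    refine Finset.one_le_prod' ?_
    intro R hR'
    have hb0 := (hS R).1 hR'
    by_cases hRK : R ∈ Kg
    · have h1 : X + R ∈ Kg := Kg.add_mem hX hRK
      have h2 : X + R ≠ 0 := by
        intro h0
        apply hbX
        have h3 : act b (X + R) = 0 := by rw [h0, map_zero]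
        rwa [map_add, hb0.1, add_zero] at h3
      have h4 := hR.big _ h1 h2
      rw [Valuation.map_sub_eq_of_lt_left _ (lt_of_le_of_lt (hR.int Y hY0) h4)]
      exact h4.le
    · refine le_of_eq (hR.diff (X + R) Y ?_ hY0 ?_ ?_).symm
      · intro h1
        exact hRK ((Kg.add_mem_cancel_left hX).1 h1)
      · intro h1
        have e : X + R - Y = X + (R - Y) := by abel
        rw [e] at h1
        have h2 := (Kg.add_mem_cancel_left hX).1 h1
        exact (hYR R hR').1 (by rw [← neg_sub]; exact Kg.neg_mem h2)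
      · intro h1
        have e : X + R + Y = X + (Y + R) := by abel
        rw [e] at h1
        exact (hYR R hR').2 ((Kg.add_mem_cancel_left hX).1 h1)
  by_contra hcon
  have w4 : V.valuation (xn u r (act b X) - xn u r (act b Y)) ≤ 1 :=
    (Valuation.map_sub _ _ _).trans (max_le (hR.int _ hcon) (hR.int _ hbY))
  rw [key, w1] at w4
  have w5 : V.valuation (xn u r X) * 1 ≤ V.valuation (xn u r X) * ∏ R ∈ S, V.valuation (xn u r (X + R) - xn u r Y) :=
    mul_le_mul_right w3 _
  rw [mul_one] at w5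
  exact absurd (w2.trans_le (w5.trans w4)) (lt_irrefl _)

end H13D
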