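import Mathlib
import Pool.Agent.Lib.H13D.A4
import Pool.Agent.Lib.H55K.G5B

/-! # H13D, part A: good reduction (generic) -/

open NumberField IsDedekindDomain WeierstrassCurve

namespace H13D

open H55P (IQ embF eF LF Per IsHecke Pt ac Inert Dec Nm)
open H35P (WAB Ker tt GoodW IntW)
open H55K

variable {F : Type} [Field F] [NumberField F] [IQ F] {A B : F} {Om : ℂ} {Ω : Type} [Field Ω] [DecidableEq Ω]
  [Algebra F Ω] {j : Ω →+* ℂ} {act : 𝓞 F →+* AddMonoid.End (Pt (WAB A B) Ω)} {V : ValuationSubring Ω}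
  {Kg : AddSubgroup (Pt (WAB A B) Ω)} {u r : Ω}

theorem a5_KN (h : CMA F A B Om j act) (Kg : AddSubgroup (Pt (WAB A B) Ω)) {b : 𝓞 F} (hb : b ≠ 0) :
    ∃ S₁ : Finset (Pt (WAB A B) Ω), KN act b Kg S₁ := by
  classical
  obtain ⟨S, hS, _⟩ := exists_TN h hb
  refine ⟨S.filter (fun T => T ∈ Kg), fun T => ?_⟩
  rw [Finset.mem_filter, hS T]
  tauto

theorem a5_ne {V : ValuationSubring Ω} {b : 𝓞 F} (hb : V.valuation (ak Ω b) = 1) : b ≠ 0 := by
  rintro rfl
  have h1 : ak Ω (0 : 𝓞 F) = 0 := by unfold ak; simp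
  rw [h1, map_zero] at hb
  exact zero_ne_one hb

/-- Chunk A5 (S). kprod for S₁ = the nonzero points killed by b in Kg (finite: exists_TN, filter): the product of V(xn R) > 1 (hR.big) over S₁ is 1, so S₁ is empty. b ≠ 0 because V(b) = 1. -/
theorem tor_unit' (h : CMA F A B Om j act) (hR : RM A B V Kg u r) {b : 𝓞 F} (hb : V.valuation (ak Ω b) = 1)
    {T : Pt (WAB A B) Ω} (hT : act b T = 0) (hK : T ∈ Kg) : T = 0 := by
  classical
  have hb0 : b ≠ 0 := a5_ne hb
  obtain ⟨S₁, hS₁⟩ := a5_KN h Kg hb0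
  have h1 := kprod h hR hb0 hS₁
  rw [hb, one_pow, one_mul] at h1
  by_contra h0
  have hTS : T ∈ S₁ := (hS₁ T).2 ⟨hT, h0, hK⟩
  have h2 : ∀ R ∈ S₁, 1 < V.valuation (xn u r R) := fun R hRS => by
    obtain ⟨_, h3, h4⟩ := (hS₁ R).1 hRS
    exact hR.big R h4 h3
  have h3 : (1 : V.ValueGroup) < ∏ R ∈ S₁, V.valuation (xn u r R) := by
    rw [← Finset.mul_prod_erase S₁ _ hTS]
    have h5 : (1 : V.ValueGroup) ≤ ∏ R ∈ S₁.erase T, V.valuation (xn u r R) :=
      Finset.one_le_prod' fun R hRS => (h2 R (Finset.mem_of_mem_erase hRS)).le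
    exact lt_of_lt_of_le (h2 T hTS) (le_mul_of_one_le_right' h5)
  rw [h1] at h3
  exact lt_irrefl _ h3

/-- Chunk A5 (S/M). kprod: V(β) < 1, so S₁ is not empty: there is R₀ ≠ 0 in Tor act β and in Kg. T = 0 clear; otherwise T = act c R₀ (H55K.tor_trans in G5B.lean), act_mem. -/
theorem tor_ker' (h : CMA F A B Om j act) (hR : RM A B V Kg u r) {β : 𝓞 F} (hβ : Prime β) (hv : V.valuation (ak Ω β) < 1)
    {T : Pt (WAB A B) Ω} (hT : act β T = 0) : T ∈ Kg := by
  classical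
  obtain ⟨S₁, hS₁⟩ := a5_KN h Kg hβ.ne_zero
  have h1 := kprod h hR hβ.ne_zero hS₁
  by_cases h0 : T = 0
  · rw [h0]
    exact Kg.zero_mem
  have hne : S₁.Nonempty := by
    rw [Finset.nonempty_iff_ne_empty]
    intro he
    rw [he, Finset.prod_empty, mul_one] at h1
    have h2 : V.valuation (ak Ω β) ^ 2 < 1 := pow_lt_one₀ zero_le hv two_ne_zero
    rw [h1] at h2
    exact lt_irrefl _ h2
  obtain ⟨R₀, hR₀⟩ := hne
  obtain ⟨h3, h4, h5⟩ := (hS₁ R₀).1 hR₀
  obtain ⟨c, hc, _⟩ := tor_trans h V hβ hv (R := R₀) (R' := T) h3 h4 hT h0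
  rw [hc]
  exact act_mem h hR c h5

/-- Chunk A5 (S). kprod with S₁ = S (tor_ker'). -/
theorem prod_xn (h : CMA F A B Om j act) (hR : RM A B V Kg u r) {β : 𝓞 F} (hβ : Prime β) (hv : V.valuation (ak Ω β) < 1)
    {S : Finset (Pt (WAB A B) Ω)} (hS : TN act β S) : V.valuation (ak Ω β ^ 2 * ∏ R ∈ S, xn u r R) = 1 := by
  classical
  have hK : KN act β Kg S := by
    intro T
    rw [hS T]
    constructor
    · rintro ⟨h1, h2⟩
      exact ⟨h1, h2, tor_ker' h hR hβ hv h1⟩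
    · rintro ⟨h1, h2, _⟩
      exact ⟨h1, h2⟩
  rw [map_mul, map_pow, map_prod]
  exact kprod h hR hβ.ne_zero hK

/-- Chunk A5 (M). Suppose act β X in Kg, X not in Kg. act β X ≠ 0 (tor_ker'). Y from exists_gen (b = β). e2n: the left side has value V(xn (act β X) - xn (act β Y)) (prod_xn; V(xn R - xn Y) = V(xn R) for all R in S), V(xn (act β Y)) ≤ 1, V(xn (act β X)) > 1: the left side has value > 1. The right side has value ≤ 1:
X, Y, X + R (R in Kg by tor_ker', X not in Kg) are not in Kg (hR.int). Contradiction. -/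
theorem ker_red' (h : CMA F A B Om j act) (hR : RM A B V Kg u r) {β : 𝓞 F} (hβ : Prime β) (hv : V.valuation (ak Ω β) < 1)
    {X : Pt (WAB A B) Ω} (hX : act β X ∈ Kg) : X ∈ Kg := by
  classical
  by_contra hXK
  have hX0 : act β X ≠ 0 := fun h0 => hXK (tor_ker' h hR hβ hv h0)
  obtain ⟨S, hS, _⟩ := exists_TN h hβ.ne_zero
  obtain ⟨Y, hY, hbY, _, _, hYK⟩ := exists_gen h hR hβ.ne_zero hS
  have hY0 : act β Y ≠ 0 := fun h0 => hbY (by rw [h0]; exact Kg.zero_mem)
  have he := e2n (r := r) h hR.une hβ.ne_zero hS hX0 hY0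
  have hSK : ∀ R ∈ S, R ∈ Kg := fun R hRS => tor_ker' h hR hβ hv ((hS R).1 hRS).1
  have hv1 := congrArg V.valuation he
  have h1 : V.valuation (xn u r (act β X) - xn u r (act β Y)) = V.valuation (xn u r (act β X)) :=
    Valuation.map_sub_eq_of_lt_left _ (lt_of_le_of_lt (hR.int _ hbY) (hR.big _ hX hX0))
  have h2 : ∏ R ∈ S, V.valuation (xn u r R - xn u r Y) = ∏ R ∈ S, V.valuation (xn u r R) :=
    Finset.prod_congr rfl fun R hRS => hYK R hRS (hSK R hRS)
  have h3 := prod_xn h hR hβ hv hS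
  rw [map_mul, map_pow, map_prod] at h3
  rw [map_mul, map_mul, map_pow, map_prod, map_mul, map_prod, h1, h2] at hv1
  have h4 : V.valuation (xn u r (act β X)) = V.valuation (xn u r X - xn u r Y) * ∏ R ∈ S, V.valuation (xn u r (X + R) - xn u r Y) := by
    rw [← hv1, mul_right_comm, h3, one_mul]
  have h5 : V.valuation (xn u r X - xn u r Y) ≤ 1 :=
    le_trans (Valuation.map_sub _ _ _) (max_le (hR.int X hXK) (hR.int Y hY))
  have h6 : ∏ R ∈ S, V.valuation (xn u r (X + R) - xn u r Y) ≤ 1 := by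
    refine Finset.prod_le_one' fun R hRS => ?_
    have h7 : X + R ∉ Kg := fun h8 => hXK (by
      have h9 := Kg.sub_mem h8 (hSK R hRS)
      rwa [add_sub_cancel_right] at h9)
    exact le_trans (Valuation.map_sub _ _ _) (max_le (hR.int _ h7) (hR.int Y hY))
  have h7 := hR.big _ hX hX0
  rw [h4] at h7
  exact absurd (mul_le_one' h5 h6) (not_le.2 h7)

end H13D
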