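import Mathlib
import Pool.Agent.Lib.H13D.A5

/-! # H13D, part A: good reduction (generic) -/

open NumberField IsDedekindDomain WeierstrassCurve

namespace H13D

open H55P (IQ embF eF LF Per IsHecke Pt ac Inert Dec Nm)
open H35P (WAB Ker tt GoodW IntW)
open H55K

variable {F : Type} [Field F] [NumberField F] [IQ F] {A B : F} {Om : ℂ} {Ω : Type} [Field Ω] [DecidableEq Ω]
  [Algebra F Ω] {j : Ω →+* ℂ} {act : 𝓞 F →+* AddMonoid.End (Pt (WAB A B) Ω)} {V : ValuationSubring Ω}
  {Kg : AddSubgroup (Pt (WAB A B) Ω)} {u r : Ω}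

theorem a6_ne {V : ValuationSubring Ω} {b : 𝓞 F} (hb : V.valuation (ak Ω b) = 1) : b ≠ 0 := by
  rintro rfl
  have h1 : ak Ω (0 : 𝓞 F) = 0 := by
    show algebraMap F Ω ((0 : 𝓞 F) : F) = 0
    simp
  rw [h1, map_zero] at hb
  exact zero_ne_one hb

/-- Chunk A6 (M). Port of H55K/G9A.lean (g9_surj). b ≠ 0 since V(b) = 1. If act b X = 0 take T = X. It is enough to find Z in Kg with act b Z = act b X (then T = X - Z). S the nonzero points killed by b, none in Kg (tor_unit'). Suppose X + R is not in Kg for R = 0 and all R in S. Y from exists_gen; e2n for X and Y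
(act b X ≠ 0, act b Y ≠ 0): V(b) = 1, V(xn (act b X) - xn (act b Y)) = V(xn (act b X)) > 1 (act b X in Kg, ≠ 0; act b Y not in Kg), V(xn R - xn Y) = 1 for R in S; the right side has value ≤ 1 (X, Y, X + R not in Kg): contradiction. So X + R is in Kg for R = 0 or some R in S: T = - R. -/
theorem tor_surj (h : CMA F A B Om j act) (hR : RM A B V Kg u r) {b : 𝓞 F} (hb : V.valuation (ak Ω b) = 1)
    {X : Pt (WAB A B) Ω} (hX : act b X ∈ Kg) : ∃ T, act b T = 0 ∧ X - T ∈ Kg := by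
  have hb0 : b ≠ 0 := a6_ne hb
  by_cases hK0 : act b X = 0
  · exact ⟨X, hK0, by rw [sub_self]; exact Kg.zero_mem⟩
  by_contra hcon
  push Not at hcon
  have hno : ∀ R, act b R = 0 → X + R ∉ Kg := by
    intro R hR' hk
    refine hcon (-R) (by rw [map_neg, hR', neg_zero]) ?_
    rwa [sub_neg_eq_add]
  obtain ⟨S, hS, -⟩ := exists_TN h hb0
  obtain ⟨Y, hYk, hYb, hYS, hg1, hg2⟩ := exists_gen h hR hb0 hS
  have hY0 : act b Y ≠ 0 := fun h0 => hYb (h0 ▸ Kg.zero_mem)
  have hXk : X ∉ Kg := by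
    have := hno 0 (map_zero (act b))
    rwa [add_zero] at this
  have he := e2n (u := u) (r := r) h hR.une hb0 hS hK0 hY0
  have hv := congrArg V.valuation he
  rw [map_mul, map_mul, map_mul, map_pow, hb, one_pow, one_mul, map_prod, map_prod] at hv
  have h1 : 1 < V.valuation (xn u r (act b X)) := hR.big _ hX hK0
  have h2 : V.valuation (xn u r (act b Y)) ≤ 1 := hR.int _ hYb
  have h3 : V.valuation (xn u r (act b X) - xn u r (act b Y)) = V.valuation (xn u r (act b X)) :=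
    Valuation.map_sub_eq_of_lt_left V.valuation (h2.trans_lt h1)
  have h4 : ∏ R ∈ S, V.valuation (xn u r R - xn u r Y) = 1 := by
    apply Finset.prod_eq_one
    intro R hRS
    have hR' := (hS R).1 hRS
    exact hg1 R hRS (fun hk => hR'.2 (tor_unit' h hR hb hR'.1 hk))
  rw [h3, h4, mul_one] at hv
  have hint : ∀ P : Pt (WAB A B) Ω, P ∉ Kg → V.valuation (xn u r P - xn u r Y) ≤ 1 := fun P hP =>
    (Valuation.map_sub _ _ _).trans (max_le (hR.int _ hP) (hR.int _ hYk))
  have h5 : V.valuation (xn u r X - xn u r Y) * ∏ R ∈ S, V.valuation (xn u r (X + R) - xn u r Y) ≤ 1 := by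
    refine mul_le_one' (hint X hXk) (Finset.prod_le_one' ?_)
    intro R hRS
    exact hint _ (hno R ((hS R).1 hRS).1)
  rw [← hv] at h5
  exact absurd h1 (not_lt.2 h5)

/-- Chunk A6 (M). Port of H55K/G9A.lean (cls_card): the map Tor act b → {classes c of X modulo Kg : act b X in Kg} is bijective (injective: tor_unit'; surjective: tor_surj), Nat.card (Tor act b) = Nm b (tor_card). -/
theorem cls_card' (h : CMA F A B Om j act) (hR : RM A B V Kg u r) {b : 𝓞 F} (hb : V.valuation (ak Ω b) = 1) :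
    Nat.card {c : Pt (WAB A B) Ω ⧸ Kg // ∃ X : Pt (WAB A B) Ω, (X : Pt (WAB A B) Ω ⧸ Kg) = c ∧ act b X ∈ Kg} = Nm b := by
  have hb0 : b ≠ 0 := a6_ne hb
  rw [← tor_card h hb0]
  symm
  have hk : ∀ T : Tor act b, act b (T : Pt (WAB A B) Ω) ∈ Kg := by
    intro T
    have h1 : act b (T : Pt (WAB A B) Ω) = 0 := T.2
    rw [h1]
    exact Kg.zero_mem
  apply Nat.card_eq_of_bijective (fun T : Tor act b =>
    (⟨((T : Pt (WAB A B) Ω) : Pt (WAB A B) Ω ⧸ Kg), T, rfl, hk T⟩ :
      {c : Pt (WAB A B) Ω ⧸ Kg // ∃ X : Pt (WAB A B) Ω, (X : Pt (WAB A B) Ω ⧸ Kg) = c ∧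
        act b X ∈ Kg}))
  constructor
  · intro T T' hTT
    have h1 := congrArg Subtype.val hTT
    simp only at h1
    rw [QuotientAddGroup.eq] at h1
    have h2 : (-T + T' : Tor act b) = 0 := by
      apply Subtype.ext
      exact tor_unit' h hR hb (-T + T' : Tor act b).2 h1
    exact neg_add_eq_zero.1 h2
  · rintro ⟨c, X, rfl, hX⟩
    obtain ⟨T, hT, hXT⟩ := tor_surj h hR hb hX
    refine ⟨⟨T, hT⟩, ?_⟩
    apply Subtype.ext
    show (T : Pt (WAB A B) Ω ⧸ Kg) = X
    rw [QuotientAddGroup.eq, neg_add_eq_sub]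
    exact hXT

end H13D
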