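import Mathlib
import Pool.Agent.Lib.H13D.A5
import Pool.Agent.Lib.H55K.G7C

/-! # H13D, part A: good reduction (generic) -/

open NumberField IsDedekindDomain WeierstrassCurve

namespace H13D

open H55P (IQ embF eF LF Per IsHecke Pt ac Inert Dec Nm)
open H35P (WAB Ker tt GoodW IntW)
open H55K

/-- Chunk A7 (S/M). p prime, V(p) < 1, q = p^f: (x + y)^q is congruent to x^q + y^q and (x - y)^q to x^q - y^q. H55K.g7c_add (G7C.lean) or exists_add_pow_prime_eq; induction on f, or: in the residue field of V (characteristic p) sub_pow_char_pow; IsLocalRing.residue. For p = 2: -1 = 1. -/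
theorem sub_pow_val {k : Type} [Field k] (V : ValuationSubring k) {p : ℕ} (hp : p.Prime) (hpV : V.valuation (p : k) < 1) (f : ℕ)
    {x y : k} (hx : V.valuation x ≤ 1) (hy : V.valuation y ≤ 1) :
    V.valuation ((x - y) ^ p ^ f - (x ^ p ^ f - y ^ p ^ f)) < 1 := by
  set X : V := ⟨x, V.mem_of_valuation_le_one x hx⟩ with hX
  set Y : V := ⟨y, V.mem_of_valuation_le_one y hy⟩ with hY
  have hval : ∀ a : V, V.valuation (a : k) < 1 ↔ IsLocalRing.residue V a = 0 := by
    intro a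
    rw [IsLocalRing.residue_eq_zero_iff, ← ValuationSubring.valuation_lt_one_iff]
  have hp0 : ((p : ℕ) : IsLocalRing.ResidueField V) = 0 := by
    have h1 := (hval (p : V)).1 (by simpa using hpV)
    rw [map_natCast] at h1
    exact h1
  haveI : CharP (IsLocalRing.ResidueField V) p := (CharP.charP_iff_prime_eq_zero hp).2 hp0
  haveI : Fact p.Prime := ⟨hp⟩
  have h2 := (hval ((X - Y) ^ p ^ f - (X ^ p ^ f - Y ^ p ^ f))).2 (by
    rw [map_sub, map_pow, map_sub, map_sub, map_pow, map_pow, sub_pow_char_pow, sub_self])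
  simpa using h2

variable {F : Type} [Field F] [NumberField F] [IQ F] {A B : F} {Om : ℂ} {Ω : Type} [Field Ω] [DecidableEq Ω]
  [Algebra F Ω] {j : Ω →+* ℂ} {act : 𝓞 F →+* AddMonoid.End (Pt (WAB A B) Ω)} {V : ValuationSubring Ω}
  {Kg : AddSubgroup (Pt (WAB A B) Ω)} {u r : Ω}

/-- Chunk A7 (M). Port of H55K/G7C.lean (frob_diff), with xn in place of xc. κ = β^2 * product over S of xn R (S the nonzero points killed by β), V(κ) = 1 (prod_xn). For X, Y not in Kg: act β X, act β Y are not in Kg (ker_red'), so they are not 0; e2n: κ * prod (1 - xn Y/xn R) * (xn (βX) - xn (βY)) =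
(xn X - xn Y) * prod (xn (X + R) - xn Y), where V(xn Y/xn R) < 1 (R in Kg by tor_ker') and V(xn (X + R) - xn X) < 1 (hR.conv): so κ (xn (βX) - xn (βY)) is congruent to (xn X - xn Y)^q, q = Nm β = S.card + 1 (exists_TN), and this to xn X^q - xn Y^q (sub_pow_val). -/
theorem frob_diff' (h : CMA F A B Om j act) (hR : RM A B V Kg u r) {β : 𝓞 F} (hβ : Prime β) (hv : V.valuation (ak Ω β) < 1)
    {p f : ℕ} (hp : p.Prime) (hq : Nm β = p ^ f) (hpV : V.valuation (p : Ω) < 1) : ∃ κ : Ω, V.valuation κ = 1 ∧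
    ∀ X Y : Pt (WAB A B) Ω, X ∉ Kg → Y ∉ Kg →
      V.valuation (κ * (xn u r (act β X) - xn u r (act β Y)) - (xn u r X ^ Nm β - xn u r Y ^ Nm β)) < 1 := by
  classical
  have hβ0 : β ≠ 0 := hβ.ne_zero
  obtain ⟨S, hS, hcard⟩ := exists_TN h hβ0
  have hR1 : ∀ R ∈ S, R ≠ 0 ∧ R ∈ Kg ∧ 1 < V.valuation (xn u r R) := by
    intro R hRS
    obtain ⟨h1, h2⟩ := (hS R).1 hRS
    have h3 : R ∈ Kg := tor_ker' h hR hβ hv h1
    exact ⟨h2, h3, hR.big _ h3 h2⟩
  have hxR : ∀ R ∈ S, xn u r R ≠ 0 := by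
    intro R hRS h0
    have := (hR1 R hRS).2.2
    rw [h0, map_zero] at this
    exact absurd this (not_lt.2 zero_le_one)
  have hred : ∀ X : Pt (WAB A B) Ω, X ∉ Kg → act β X ∉ Kg := fun X hX hX' =>
    hX (ker_red' h hR hβ hv hX')
  have hκ : V.valuation (ak Ω β ^ 2 * ∏ R ∈ S, xn u r R) = 1 := prod_xn h hR hβ hv hS
  refine ⟨ak Ω β ^ 2 * ∏ R ∈ S, xn u r R, hκ, ?_⟩
  intro X Y hX hY
  have hX1 := hR.int _ hX
  have hY1 := hR.int _ hY
  have hbX := hred X hX
  have hbY := hred Y hY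
  have hbX0 : act β X ≠ 0 := fun h0 => hbX (h0 ▸ Kg.zero_mem)
  have hbY0 : act β Y ≠ 0 := fun h0 => hbY (h0 ▸ Kg.zero_mem)
  have hbX1 := hR.int _ hbX
  have hbY1 := hR.int _ hbY
  have he2 := e2n (u := u) (r := r) h hR.une hβ0 hS hbX0 hbY0
  have hu : V.valuation (∏ R ∈ S, (1 - xn u r Y / xn u r R) - ∏ R ∈ S, (1 : Ω)) < 1 := by
    have hlt : ∀ R ∈ S, V.valuation (xn u r Y / xn u r R) < 1 := by
      intro R hRS
      rw [map_div₀]
      have h1 := (hR1 R hRS).2.2
      exact (div_lt_one₀ (zero_lt_one.trans h1)).2 (hY1.trans_lt h1)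
    refine g7c_prod V S _ _ (fun R hRS => ?_) (fun R hRS => (map_one _).le) (fun R hRS => ?_)
    · refine (V.valuation.map_sub _ _).trans (max_le (map_one _).le (hlt R hRS).le)
    · have h1 : 1 - xn u r Y / xn u r R - 1 = -(xn u r Y / xn u r R) := by ring
      rw [h1, Valuation.map_neg]
      exact hlt R hRS
  rw [Finset.prod_const_one] at hu
  have hP : V.valuation (∏ R ∈ S, (xn u r (X + R) - xn u r Y) - ∏ R ∈ S, (xn u r X - xn u r Y)) < 1 := by
    have hc : ∀ R ∈ S, X + R ∉ Kg ∧ V.valuation (xn u r (X + R) - xn u r X) < 1 := by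
      intro R hRS
      have h1 : X + R - X ∈ Kg := by
        rw [add_sub_cancel_left]
        exact (hR1 R hRS).2.1
      refine ⟨fun hk => hX ?_, hR.conv _ _ hX h1⟩
      have h2 := Kg.sub_mem hk h1
      rwa [sub_sub_cancel] at h2
    refine g7c_prod V S _ _ (fun R hRS => ?_) (fun R hRS => ?_) (fun R hRS => ?_)
    · exact (V.valuation.map_sub _ _).trans (max_le (hR.int _ (hc R hRS).1) hY1)
    · exact (V.valuation.map_sub _ _).trans (max_le hX1 hY1)
    · have h1 : xn u r (X + R) - xn u r Y - (xn u r X - xn u r Y) = xn u r (X + R) - xn u r X := by ring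
      rw [h1]
      exact (hc R hRS).2
  rw [Finset.prod_const, hcard] at hP
  have hprod : ∏ R ∈ S, (xn u r R - xn u r Y) = (∏ R ∈ S, xn u r R) * ∏ R ∈ S, (1 - xn u r Y / xn u r R) := by
    rw [← Finset.prod_mul_distrib]
    refine Finset.prod_congr rfl fun R hRS => ?_
    have := hxR R hRS
    field_simp
  rw [hprod] at he2
  have hqpos : 1 ≤ Nm β := by
    rw [hq]
    exact Nat.one_le_pow _ _ hp.pos
  have hpow : (xn u r X - xn u r Y) * (xn u r X - xn u r Y) ^ (Nm β - 1) = (xn u r X - xn u r Y) ^ Nm β := by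
    rw [← pow_succ', Nat.sub_add_cancel hqpos]
  have hsub : V.valuation ((xn u r X - xn u r Y) ^ Nm β - (xn u r X ^ Nm β - xn u r Y ^ Nm β)) < 1 := by
    rw [hq]
    exact sub_pow_val V hp hpV f hX1 hY1
  have hD : V.valuation (xn u r (act β X) - xn u r (act β Y)) ≤ 1 :=
    (V.valuation.map_sub _ _).trans (max_le hbX1 hbY1)
  have hxy : V.valuation (xn u r X - xn u r Y) ≤ 1 := (V.valuation.map_sub _ _).trans (max_le hX1 hY1)
  set κ := ak Ω β ^ 2 * ∏ R ∈ S, xn u r R with hκdef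
  set w := ∏ R ∈ S, (1 - xn u r Y / xn u r R) with hudef
  set p' := ∏ R ∈ S, (xn u r (X + R) - xn u r Y) with hpdef
  have hfin : κ * (xn u r (act β X) - xn u r (act β Y)) - (xn u r X ^ Nm β - xn u r Y ^ Nm β) =
      (xn u r X - xn u r Y) * (p' - (xn u r X - xn u r Y) ^ (Nm β - 1)) - κ * (xn u r (act β X) - xn u r (act β Y)) * (w - 1) +
      ((xn u r X - xn u r Y) ^ Nm β - (xn u r X ^ Nm β - xn u r Y ^ Nm β)) := by
    rw [← hpow]
    have : κ * (xn u r (act β X) - xn u r (act β Y)) * w = (xn u r X - xn u r Y) * p' := by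
      rw [← he2, hκdef]
      ring
    linear_combination this
  rw [hfin]
  refine V.valuation.map_add_lt (V.valuation.map_sub_lt ?_ ?_) hsub
  · exact g7c_mul V hxy hP
  · refine g7c_mul V ?_ hu
    rw [map_mul, hκ, one_mul]
    exact hD

end H13D
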