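import Mathlib
import Pool.Agent.Lib.H13D.A7
import Pool.Agent.Lib.H55K.G8B
import Pool.Agent.Lib.H55K.M4B

/-! # H13D, part A: good reduction (generic) -/

open NumberField IsDedekindDomain WeierstrassCurve

namespace H13D

open H55P (IQ embF eF LF Per IsHecke Pt ac Inert Dec Nm)
open H35P (WAB Ker tt GoodW IntW)
open H55K

variable {F : Type} [Field F] [NumberField F] [IQ F] {A B : F} {Om : ℂ} {Ω : Type} [Field Ω] [DecidableEq Ω]
  [Algebra F Ω] {j : Ω →+* ℂ} {act : 𝓞 F →+* AddMonoid.End (Pt (WAB A B) Ω)} {V : ValuationSubring Ω}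
  {Kg : AddSubgroup (Pt (WAB A B) Ω)} {u r : Ω}

/-- Chunk A8 (S). xn (ac s P) = s (xn P) for P ≠ 0 (H55K.ac_crd in M4B.lean: xc (ac s P) = s (xc P); s u = u, s r = r) and for P = 0 (both are -r/u^2). -/
theorem xn_ac (s : Ω ≃ₐ[F] Ω) (hu : s u = u) (hr : s r = r) (P : Pt (WAB A B) Ω) :
    xn u r (ac (WAB A B) s P) = s (xn u r P) := by
  unfold xn
  rw [xc_ac, map_div₀, map_sub, map_pow, hu, hr]

/-- Chunk A8 (S). mem_iff, xn_ac; s is a Frobenius element, so it is in the decomposition group (H55K.g8c_dec in G8C.lean): V(s x) > 1 iff V(x) > 1. -/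
theorem ac_mem_iff (hR : RM A B V Kg u r) (s : Ω ≃ₐ[F] Ω) (hs : Dec V s) (hu : s u = u) (hr : s r = r) (P : Pt (WAB A B) Ω) :
    ac (WAB A B) s P ∈ Kg ↔ P ∈ Kg := by
  by_cases hP : P = 0
  · rw [hP, map_zero]
  · have h0 : ac (WAB A B) s P ≠ 0 := fun h => hP (by
      obtain ⟨-, -, h1, -⟩ := MG.ac_crd (W := WAB A B) s P
      exact h1 h)
    rw [mem_iff hR h0, mem_iff hR hP, xn_ac s hu hr, ← not_le, ← not_le, V.valuation_le_one_iff, V.valuation_le_one_iff, hs]

/-- Chunk A8 (M). THE FROBENIUS ELEMENT IS A MULTIPLICATION. T, T' are not in Kg, nor T - T', T + T'; β T = ± sT (the x-coordinates agree) and the same for T'. κ from frob_diff'. xn (sT) = s (xn T) is congruent to (xn T)^q (hs; xn T in V by hR.int), the same for T'. So with D = xn (βT) - xn (βT') (V(D) = 1 by hR.diff: βT, βT', β(T - T'), β(T + T') are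
not in Kg by ker_red') frob_diff' says V(κ D - D) < 1, so V(κ - 1) < 1. For X not in Kg: frob_diff' for X and T: xn (βX) - xn (βT) is congruent to xn X^q - xn T^q (xn (βX), xn (βT) in V: ker_red'), and xn (βT) = xn (sT) is congruent to xn T^q: so xn (βX) is congruent to xn X^q, which is congruent to s (xn X) = xn (sX).
Both βX, sX are not in Kg (ker_red', ac_mem_iff): cls_of: βX - sX or βX + sX is in Kg. For X in Kg both are in Kg (act_mem, ac_mem_iff). H55K.two_sub (G8B.lean) with K = Kg, f = act β, g = ac s: γ = β or γ = -β. -/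
theorem frob_gen' (h : CMA F A B Om j act) (hR : RM A B V Kg u r) {β : 𝓞 F} (hβ : Prime β) (hv : V.valuation (ak Ω β) < 1)
    {p f : ℕ} (hp : p.Prime) (hq : Nm β = p ^ f) (hpV : V.valuation (p : Ω) < 1) (s : Ω ≃ₐ[F] Ω) (hs : Dec V s)
    (hsF : ∀ x ∈ V, V.valuation (s x - x ^ Nm β) < 1) (hu : s u = u) (hr : s r = r) {T T' : Pt (WAB A B) Ω}
    (h1 : T ∉ Kg) (h2 : T' ∉ Kg) (h3 : T - T' ∉ Kg) (h4 : T + T' ∉ Kg)
    (h5 : xc (ac (WAB A B) s T) = xc (act β T)) (h6 : xc (ac (WAB A B) s T') = xc (act β T')) :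
    ∃ γ : 𝓞 F, (γ = β ∨ γ = -β) ∧ ∀ X : Pt (WAB A B) Ω, act γ X - ac (WAB A B) s X ∈ Kg := by
  obtain ⟨κ, hκ, hfd⟩ := frob_diff' (u := u) (r := r) h hR hβ hv hp hq hpV
  have hred : ∀ X : Pt (WAB A B) Ω, X ∉ Kg → act β X ∉ Kg := fun X hX hX' =>
    hX (ker_red' h hR hβ hv hX')
  have hxs : ∀ X : Pt (WAB A B) Ω, X ∉ Kg → V.valuation (xn u r (ac (WAB A B) s X) - xn u r X ^ Nm β) < 1 := by
    intro X hX
    rw [xn_ac s hu hr]
    exact hsF _ ((V.valuation_le_one_iff _).1 (hR.int _ hX))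
  have hT : ∀ T : Pt (WAB A B) Ω, T ∉ Kg → xc (ac (WAB A B) s T) = xc (act β T) →
      V.valuation (xn u r (act β T) - xn u r T ^ Nm β) < 1 := by
    intro T hT1 hT2
    have e : xn u r (act β T) = xn u r (ac (WAB A B) s T) := by
      unfold xn
      rw [hT2]
    rw [e]
    exact hxs T hT1
  have hm : act β (T - T') = act β T - act β T' := map_sub _ _ _
  have hm' : act β (T + T') = act β T + act β T' := map_add _ _ _
  have hD : V.valuation (xn u r (act β T) - xn u r (act β T')) = 1 :=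
    hR.diff _ _ (hred T h1) (hred T' h2) (hm ▸ hred _ h3) (hm' ▸ hred _ h4)
  have hκ1 : V.valuation (κ - 1) < 1 := by
    have a1 := hfd T T' h1 h2
    have a2 := hT T h1 h5
    have a3 := hT T' h2 h6
    have a4 : V.valuation ((κ - 1) * (xn u r (act β T) - xn u r (act β T'))) < 1 := by
      have e : (κ - 1) * (xn u r (act β T) - xn u r (act β T')) =
          (κ * (xn u r (act β T) - xn u r (act β T')) - (xn u r T ^ Nm β - xn u r T' ^ Nm β)) -
          (xn u r (act β T) - xn u r T ^ Nm β) + (xn u r (act β T') - xn u r T' ^ Nm β) := by ring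
      rw [e]
      exact V.valuation.map_add_lt (V.valuation.map_sub_lt a1 a2) a3
    rwa [map_mul, hD, mul_one] at a4
  have hbx : ∀ X : Pt (WAB A B) Ω, X ∉ Kg → V.valuation (xn u r (act β X) - xn u r X ^ Nm β) < 1 := by
    intro X hX
    have b1 := hfd X T hX h1
    have b2 := hT T h1 h5
    have b3 : V.valuation ((κ - 1) * (xn u r (act β X) - xn u r (act β T))) < 1 := by
      rw [map_mul]
      refine mul_lt_one_of_lt_of_le hκ1 ?_
      exact (V.valuation.map_sub _ _).trans (max_le (hR.int _ (hred X hX)) (hR.int _ (hred T h1)))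
    have e : xn u r (act β X) - xn u r X ^ Nm β =
        (κ * (xn u r (act β X) - xn u r (act β T)) - (xn u r X ^ Nm β - xn u r T ^ Nm β)) -
        (κ - 1) * (xn u r (act β X) - xn u r (act β T)) + (xn u r (act β T) - xn u r T ^ Nm β) := by ring
    rw [e]
    exact V.valuation.map_add_lt (V.valuation.map_sub_lt b1 b3) b2
  have hall : ∀ X : Pt (WAB A B) Ω, (act β X - ac (WAB A B) s X ∈ Kg) ∨
      (act β X + ac (WAB A B) s X ∈ Kg) := by
    intro X
    by_cases hX : X ∈ Kg
    · left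
      exact Kg.sub_mem (act_mem h hR β hX) ((ac_mem_iff hR s hs hu hr X).2 hX)
    · refine cls_of hR (hred X hX) (fun h' => hX ((ac_mem_iff hR s hs hu hr X).1 h')) ?_
      have c1 := hbx X hX
      have c2 := hxs X hX
      have e : xn u r (act β X) - xn u r (ac (WAB A B) s X) =
          (xn u r (act β X) - xn u r X ^ Nm β) - (xn u r (ac (WAB A B) s X) - xn u r X ^ Nm β) := by ring
      rw [e]
      exact V.valuation.map_sub_lt c1 c2
  rcases two_sub Kg (act β : Pt (WAB A B) Ω →+ Pt (WAB A B) Ω) (ac (WAB A B) s) hall with h7 | h7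
  · exact ⟨β, Or.inl rfl, fun X => h7 X⟩
  · refine ⟨-β, Or.inr rfl, fun X => ?_⟩
    have e : act (-β) X - ac (WAB A B) s X = -(act β X + ac (WAB A B) s X) := by
      rw [map_neg]
      change -(act β X) - ac (WAB A B) s X = _
      abel
    rw [e]
    exact Kg.neg_mem (h7 X)

end H13D
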