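import Mathlib
import Pool.Agent.Lib.H35P.R4
import Pool.Agent.Lib.H55K.M0
import Pool.Agent.Lib.H55K.M3A

/-! # H13D, part B: integral models -/

open NumberField IsDedekindDomain WeierstrassCurve

namespace H13D

open H55P (IQ embF eF LF Per IsHecke Pt ac Inert Dec Nm)
open H35P (WAB Ker tt GoodW IntW)
open H55K
open H55K.MG (VC Crd)

theorem b1_div {k : Type} [Field k] {V : ValuationSubring k} {a b : k} (ha : a ∈ V) (hb : V.valuation b = 1) :
    a / b ∈ V := by
  rw [← V.valuation_le_one_iff, map_div₀, hb, div_one, V.valuation_le_one_iff]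
  exact ha

theorem b1_addX {k : Type} [Field k] {W : WeierstrassCurve k} {V : ValuationSubring k} (h : IntW W V) {x x' l : k}
    (hx : x ∈ V) (hx' : x' ∈ V) (hl : l ∈ V) : W.toAffine.addX x x' l ∈ V := by
  unfold Affine.addX
  exact sub_mem (sub_mem (sub_mem (add_mem (pow_mem hl 2) (mul_mem h.a1 hl)) h.a2) hx) hx'

theorem b1_unit {k : Type} [Field k] {V : ValuationSubring k} {a : k} (ha : a ∈ V) (h : ¬ V.valuation a < 1) :
    V.valuation a = 1 :=
  le_antisymm ((V.valuation_le_one_iff _).2 ha) (not_lt.1 h)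

/-- Chunk B1 (M). Points congruent modulo the kernel of reduction have congruent coordinates (any good Weierstrass equation, all residue characteristics). Ker is a subgroup (MG.kg_ex in M3B.lean with Θ the identity, or H35P.ker_add). Q is not in Ker, else P = Q - (Q - P) is. P, Q have integral coordinates x, y and x', y' (MG.int_crd).
x' congruent to x: otherwise V(x' - x) = 1; Q - P = Q + (-P), -P = (x, y°), y° = -y - a₁ x - a₃ (Affine.Point.neg_some, negY); add_some with the slope l = (y' - y°)/(x' - x) in V (slope_of_X_ne); the x-coordinate l^2 + a₁ l - a₂ - x' - x of Q - P is in V, so Q - P is not in Ker (Ker on some): contradiction.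
y' congruent to y: otherwise V(y' - y) = 1. The equations give (y' - y)(y' - y°) = y'^2 + a₁ x y' + a₃ y' - (y^2 + a₁ x y + a₃ y), which is congruent to the difference of the cubics in x' and x, so it has value < 1: V(y' - y°) < 1, and Ker (Q - (-P)) by MG.cong_ker (Q, -P). So Ker (P + P) (P + P = (Q + P) - (Q - P)). But V(y - y°) = 1 (y - y° = (y - y') + (y' - y°)), so y ≠ y°,
P + P = some with the tangent slope l = (3x^2 + 2a₂ x + a₄ - a₁ y)/(y - y°) in V (Affine.slope_of_Y_ne), x-coordinate l^2 + a₁ l - a₂ - 2x in V: P + P is not in Ker: contradiction. -/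
theorem conv_gen {k : Type} [Field k] [DecidableEq k] {W : WeierstrassCurve k} {V : ValuationSubring k} (h : GoodW W V)
    {P Q : W.toAffine.Point} (hP : ¬ Ker V P) (hK : Ker V (Q - P)) :
    ¬ Ker V Q ∧ V.valuation (xc Q - xc P) < 1 ∧ V.valuation (yc Q - yc P) < 1 := by
  have hQ : ¬ Ker V Q := by
    intro hQ
    apply hP
    have h1 := H35P.ker_add h.toIntW Q (-(Q - P)) hQ ((H35P.ker_neg _).2 hK)
    have h2 : Q + -(Q - P) = P := by abel
    rwa [h2] at h1
  obtain ⟨hP0, hPx, hPy⟩ := MG.int_crd h hP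
  obtain ⟨hQ0, hQx, hQy⟩ := MG.int_crd h hQ
  rcases P with _ | ⟨x, y, hn⟩
  · exact absurd rfl hP0
  rcases Q with _ | ⟨x', y', hn'⟩
  · exact absurd rfl hQ0
  change x ∈ V at hPx
  change y ∈ V at hPy
  change x' ∈ V at hQx
  change y' ∈ V at hQy
  have hy0 : W.toAffine.negY x y ∈ V := by
    unfold Affine.negY
    exact sub_mem (sub_mem (neg_mem hPy) (mul_mem h.a1 hPx)) h.a3
  have hX : V.valuation (x' - x) < 1 := by
    by_contra hlt
    have hu := b1_unit (sub_mem hQx hPx) hlt
    have hne : x' ≠ x := by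
      intro he
      rw [he, sub_self, map_zero] at hu
      exact zero_ne_one hu
    have hK' := hK
    rw [sub_eq_add_neg, Affine.Point.neg_some, Affine.Point.add_some (fun hc => hne hc.1)] at hK'
    have h3 : W.toAffine.addX x' x (W.toAffine.slope x' x y' (W.toAffine.negY x y)) ∈ V := by
      rw [Affine.slope_of_X_ne hne]
      exact b1_addX h.toIntW hQx hPx (b1_div (sub_mem hQy hy0) hu)
    exact absurd ((V.valuation_le_one_iff _).2 h3) (not_le.2 hK')
  refine ⟨hQ, hX, ?_⟩
  show V.valuation (y' - y) < 1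
  by_contra hlt
  have hu := b1_unit (sub_mem hQy hPy) hlt
  have e1 := (Affine.equation_iff _ _).1 hn.1
  have e2 := (Affine.equation_iff _ _).1 hn'.1
  have hkey : (y' - y) * (y' - W.toAffine.negY x y) = (x' ^ 2 + x' * x + x ^ 2 +
      W.a₂ * (x' + x) + W.a₄ - W.a₁ * y') * (x' - x) := by
    unfold Affine.negY
    linear_combination e2 - e1
  have hin : x' ^ 2 + x' * x + x ^ 2 + W.a₂ * (x' + x) + W.a₄ - W.a₁ * y' ∈ V :=
    sub_mem (add_mem (add_mem (add_mem (add_mem (pow_mem hQx 2) (mul_mem hQx hPx)) (pow_mem hPx 2))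
      (mul_mem h.a2 (add_mem hQx hPx))) h.a4) (mul_mem h.a1 hQy)
  have hs : V.valuation (y' - W.toAffine.negY x y) < 1 := by
    have hv := congrArg V.valuation hkey
    rw [map_mul, map_mul, hu, one_mul] at hv
    rw [hv]
    exact mul_lt_one_of_nonneg_of_lt_one_right ((V.valuation_le_one_iff _).2 hin) zero_le hX
  have hPn : ¬ Ker V (-(Affine.Point.some x y hn : W.toAffine.Point)) := fun hk => hP ((H35P.ker_neg _).1 hk)
  have hQP : Ker V ((Affine.Point.some x' y' hn' : W.toAffine.Point) - -(Affine.Point.some x y hn : W.toAffine.Point)) :=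
    MG.cong_ker h hQ hPn (by rw [Affine.Point.neg_some]; exact hX) (by rw [Affine.Point.neg_some]; exact hs)
  have hPP : Ker V ((Affine.Point.some x y hn : W.toAffine.Point) + (Affine.Point.some x y hn : W.toAffine.Point)) := by
    have h1 := H35P.ker_add h.toIntW _ _ hQP ((H35P.ker_neg _).2 hK)
    have h2 : ∀ P Q : W.toAffine.Point, Q - -P + -(Q - P) = P + P := by
      intro P Q
      abel
    rwa [h2] at h1
  have hvy : V.valuation (y - W.toAffine.negY x y) = 1 := by
    have h1 : y - W.toAffine.negY x y = -(y' - y) + (y' - W.toAffine.negY x y) := by ring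
    rw [h1]
    rw [Valuation.map_add_eq_of_lt_left _ (by rw [Valuation.map_neg, hu]; exact hs), Valuation.map_neg, hu]
  have hyne : y ≠ W.toAffine.negY x y := by
    intro he
    rw [← he, sub_self, map_zero] at hvy
    exact zero_ne_one hvy
  rw [Affine.Point.add_some (fun hc => hyne hc.2)] at hPP
  have h3 : W.toAffine.addX x x (W.toAffine.slope x x y y) ∈ V := by
    rw [Affine.slope_of_Y_ne rfl hyne]
    refine b1_addX h.toIntW hPx hPx (b1_div ?_ hvy)
    have two : (2 : k) ∈ V := by exact_mod_cast natCast_mem V 2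
    have three : (3 : k) ∈ V := by exact_mod_cast natCast_mem V 3
    exact sub_mem (add_mem (add_mem (mul_mem three (pow_mem hPx 2)) (mul_mem (mul_mem two h.a2) hPx)) h.a4) (mul_mem h.a1 hPy)
  exact absurd ((V.valuation_le_one_iff _).2 h3) (not_le.2 hPP)

end H13D
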