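import Mathlib
import Pool.Agent.Lib.H13D.B1
import Pool.Agent.Lib.H13D.D
import Pool.Agent.Lib.H55K.M3B

/-! # H13D, part B: integral models -/

open NumberField IsDedekindDomain WeierstrassCurve

namespace H13D

open H55P (IQ embF eF LF Per IsHecke Pt ac Inert Dec Nm)
open H35P (WAB Ker tt GoodW IntW)
open H55K
open H55K.MG (VC Crd)

variable {F : Type} [Field F] {A B : F} {Ω : Type} [Field Ω] [DecidableEq Ω] [Algebra F Ω] {V : ValuationSubring Ω}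

/-- Chunk B2 (S). hc: xc P = u^2 xc (Θ P) + r for P ≠ 0. -/
theorem xn_crd {W' : WeierstrassCurve Ω} {u r s t : Ω} (hu : u ≠ 0) {Θ : Pt (WAB A B) Ω ≃+ W'.toAffine.Point} (hc : Crd u r s t Θ)
    {P : Pt (WAB A B) Ω} (h0 : P ≠ 0) : xn u r P = xc (Θ P) := by
  unfold xn
  rw [(hc P h0).2.1, add_sub_cancel_right, mul_div_cancel_left₀ _ (pow_ne_zero 2 hu)]

/-- Chunk B2 (S/M). For P ≠ 0: xn P = xc (Θ P) (xn_crd). tors: MG.kg_tors (M3B.lean). int, big: P not in Kg is not 0; MG.int_crd, MG.ker_crd (M3A.lean) for Θ P. diff: MG.unit_diff for Θ P, Θ Q (map_sub, map_add). conv: conv_gen for Θ P, Θ Q (P, Q ≠ 0: P not in Kg; Q not in Kg by conv_gen, so Q ≠ 0). -/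
theorem rm_of {W' : WeierstrassCurve Ω} (hG : GoodW W' V) {u r s t : Ω} (hu : u ≠ 0) {Θ : Pt (WAB A B) Ω ≃+ W'.toAffine.Point}
    (hc : Crd u r s t Θ) {Kg : AddSubgroup (Pt (WAB A B) Ω)} (hK : ∀ P, P ∈ Kg ↔ Ker V (Θ P)) : RM A B V Kg u r := by
  have hne : ∀ P : Pt (WAB A B) Ω, P ∉ Kg → P ≠ 0 := by
    intro P hP h0
    rw [h0] at hP
    exact hP Kg.zero_mem
  refine ⟨hu, ?_, ?_, ?_, ?_, ?_⟩
  · intro n hn T hT h0
    exact MG.kg_tors hG hn ((hK T).1 hT) h0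
  · intro P hP
    rw [xn_crd hu hc (hne P hP)]
    exact (V.valuation_le_one_iff _).2 (MG.int_crd hG (fun h => hP ((hK P).2 h))).2.1
  · intro P hP h0
    rw [xn_crd hu hc h0]
    exact (MG.ker_crd (hc P h0).1).1 ((hK P).1 hP)
  · intro P Q hP hQ h1 h2
    rw [xn_crd hu hc (hne P hP), xn_crd hu hc (hne Q hQ)]
    rw [hK] at hP hQ h1 h2
    rw [map_sub] at h1
    rw [map_add] at h2
    exact MG.unit_diff hG hP hQ h1 h2
  · intro P Q hP h1
    have hP' : ¬ Ker V (Θ P) := fun h => hP ((hK P).2 h)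
    rw [hK, map_sub] at h1
    obtain ⟨h2, h3, -⟩ := conv_gen hG hP' h1
    have hQ : Q ∉ Kg := fun h => h2 ((hK Q).1 h)
    rw [xn_crd hu hc (hne P hP), xn_crd hu hc (hne Q hQ)]
    exact h3

end H13D
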