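import Mathlib
import Pool.Agent.Lib.H55K.G10B
import Pool.Agent.Lib.H55K.M1B
import Pool.Agent.Lib.H55K.M4B
import Pool.Agent.Lib.H55K.Y3

/-! # H13D, part B: integral models -/

open NumberField IsDedekindDomain WeierstrassCurve

namespace H13D

open H55P (IQ embF eF LF Per IsHecke Pt ac Inert Dec Nm)
open H35P (WAB Ker tt GoodW IntW)
open H55K
open H55K.MG (VC Crd)

variable {F : Type} [Field F] [NumberField F] {A B : F} {Ω : Type} [Field Ω] [DecidableEq Ω] [Algebra F Ω] {V : ValuationSubring Ω}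

/-- Chunk B3 (M). The change of variables between the short equation and W₀: see the proof of rf_fix in H55K/RF.lean (k1 .. k6: VC with u = 1, r = b₂/12, s = a₁/2, t = a₃/2; there over the rational numbers, here over F with the coefficients of W₀⁄F, i.e. algebraMap (𝓞 F) F W₀.a₁ and so on; map_c₄, map_c₆, map_b₂). MG.vc_iso (M1B.lean); the two
discriminants are not 0 (Y3.lean: y3_ne; hΔ). Equivariance: P = 0 clear; otherwise compare the coordinates (xc_ac, yc_ac; s fixes the images of F; Crd for P and for ac s P; ac s P ≠ 0; H55K.pt_ext in E0.lean). -/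
theorem exists_model (W₀ : WeierstrassCurve (𝓞 F)) (hA : A = -(algebraMap (𝓞 F) F W₀.c₄) / 48)
    (hB : B = -(algebraMap (𝓞 F) F W₀.c₆) / 864) (hΔ : W₀.Δ ≠ 0) : ∃ Θ : Pt (WAB A B) Ω ≃+ Pt (W₀⁄F) Ω,
      Crd 1 (algebraMap F Ω (algebraMap (𝓞 F) F W₀.b₂ / 12)) (algebraMap F Ω (algebraMap (𝓞 F) F W₀.a₁ / 2))
        (algebraMap F Ω (algebraMap (𝓞 F) F W₀.a₃ / 2)) Θ ∧
      ∀ (s : Ω ≃ₐ[F] Ω) (P : Pt (WAB A B) Ω), Θ (ac (WAB A B) s P) = ac (W₀⁄F) s (Θ P) := by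
  have h48 : (48 : F) ≠ 0 := by norm_num
  set w : 𝓞 F →+* F := algebraMap (𝓞 F) F with hw
  have hd0 : (4 * A ^ 3 + 27 * B ^ 2) ≠ 0 := by
    rw [y3_disc W₀ hA hB]
    refine div_ne_zero (neg_ne_zero.2 ?_) (by norm_num)
    exact (map_ne_zero_iff _ (RingOfIntegers.coe_injective)).2 hΔ
  have hd : (WAB A B).Δ ≠ 0 := by
    have h2 : (WAB A B).Δ = -16 * (4 * A ^ 3 + 27 * B ^ 2) := by
      simp only [WAB, WeierstrassCurve.Δ, WeierstrassCurve.b₂, WeierstrassCurve.b₄, WeierstrassCurve.b₆, WeierstrassCurve.b₈]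
      ring
    rw [h2]
    exact mul_ne_zero (by norm_num) hd0
  have hd1 : ((WAB A B)⁄Ω).Δ ≠ 0 := by
    have e1 : ((WAB A B)⁄Ω).Δ = algebraMap F Ω (WAB A B).Δ := (WAB A B).map_Δ _
    rw [e1]
    exact (map_ne_zero _).2 hd
  have hd2 : ((W₀⁄F)⁄Ω).Δ ≠ 0 := by
    have e1 : ((W₀⁄F)⁄Ω).Δ = algebraMap F Ω (W₀⁄F).Δ := (W₀⁄F).map_Δ _
    have e2 : (W₀⁄F).Δ = algebraMap (𝓞 F) F W₀.Δ := W₀.map_Δ _
    rw [e1, e2]
    exact (map_ne_zero _).2 ((map_ne_zero_iff _ (RingOfIntegers.coe_injective)).2 hΔ)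
  have k1 : (1 : F) * (w W₀.a₁) = (WAB A B).a₁ + 2 * (w W₀.a₁ / 2) := by
    simp only [WAB]
    ring
  have k2 : (1 : F) ^ 2 * (w W₀.a₂) = (WAB A B).a₂ - (w W₀.a₁ / 2) * (WAB A B).a₁ + 3 * (w W₀.b₂ / 12) - (w W₀.a₁ / 2) ^ 2 := by
    simp only [WAB, WeierstrassCurve.b₂, map_add, map_sub, map_mul, map_pow, map_ofNat]
    ring
  have k3 : (1 : F) ^ 3 * (w W₀.a₃) = (WAB A B).a₃ + (w W₀.b₂ / 12) * (WAB A B).a₁ + 2 * (w W₀.a₃ / 2) := by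
    simp only [WAB]
    ring
  have k4 : (1 : F) ^ 4 * (w W₀.a₄) = (WAB A B).a₄ - (w W₀.a₁ / 2) * (WAB A B).a₃ + 2 * (w W₀.b₂ / 12) * (WAB A B).a₂ -
      (w W₀.a₃ / 2 + (w W₀.b₂ / 12) * (w W₀.a₁ / 2)) * (WAB A B).a₁ + 3 * (w W₀.b₂ / 12) ^ 2 - 2 * (w W₀.a₁ / 2) * (w W₀.a₃ / 2) := by
    simp only [WAB, WeierstrassCurve.b₂, hA, WeierstrassCurve.c₄, WeierstrassCurve.b₄, map_add, map_sub, map_mul, map_pow, map_ofNat]
    ring
  have k6 : (1 : F) ^ 6 * (w W₀.a₆) = (WAB A B).a₆ + (w W₀.b₂ / 12) * (WAB A B).a₄ + (w W₀.b₂ / 12) ^ 2 * (WAB A B).a₂ + (w W₀.b₂ / 12) ^ 3 -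
      (w W₀.a₃ / 2) * (WAB A B).a₃ - (w W₀.a₃ / 2) ^ 2 - (w W₀.b₂ / 12) * (w W₀.a₃ / 2) * (WAB A B).a₁ := by
    simp only [WAB, WeierstrassCurve.b₂, hA, hB, WeierstrassCurve.c₄, WeierstrassCurve.b₄, WeierstrassCurve.c₆, WeierstrassCurve.b₆, map_neg, map_add, map_sub, map_mul, map_pow, map_ofNat]
    ring
  have j1 := congrArg (algebraMap F Ω) k1
  have j2 := congrArg (algebraMap F Ω) k2
  have j3 := congrArg (algebraMap F Ω) k3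
  have j4 := congrArg (algebraMap F Ω) k4
  have j6 := congrArg (algebraMap F Ω) k6
  simp only [map_add, map_sub, map_mul, map_pow, map_ofNat, map_one] at j1 j2 j3 j4 j6
  have hVC : VC ((WAB A B)⁄Ω) ((W₀⁄F)⁄Ω) 1 (algebraMap F Ω (w W₀.b₂ / 12)) (algebraMap F Ω (w W₀.a₁ / 2))
      (algebraMap F Ω (w W₀.a₃ / 2)) := ⟨one_ne_zero, j1, j2, j3, j4, j6⟩
  obtain ⟨Θ, hΘ⟩ := MG.vc_iso hVC hd1 hd2
  refine ⟨Θ, hΘ, ?_⟩
  intro s P
  by_cases hP : P = 0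
  · rw [hP, map_zero, map_zero, map_zero]
  · obtain ⟨a1, a2, a3⟩ := MG.ac_crd (W := WAB A B) s P
    have hsP : ac (WAB A B) s P ≠ 0 := fun h0 => hP (a3.1 h0)
    obtain ⟨b1, b2, b3⟩ := hΘ P hP
    obtain ⟨c1, c2, c3⟩ := hΘ _ hsP
    obtain ⟨d1, d2, d3⟩ := MG.ac_crd (W := W₀⁄F) s (Θ P)
    have hx : xc (Θ (ac (WAB A B) s P)) = xc (ac (W₀⁄F) s (Θ P)) := by
      rw [d1]
      have e1 := congrArg s b2
      rw [← a1, c2] at e1
      simp only [map_add, map_mul, map_pow, map_one, AlgEquiv.commutes] at e1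
      linear_combination e1
    refine pt_ext c1 (fun h0 => b1 (d3.1 h0)) hx ?_
    rw [d2]
    have e2 := congrArg s b3
    rw [← a2, c3] at e2
    simp only [map_add, map_mul, map_pow, map_one, AlgEquiv.commutes] at e2
    rw [← d1, ← hx] at e2
    linear_combination e2

/-- Chunk B3 (S). The coefficients are ak Ω of integers (ak_le); V(ak Ω Δ) = 1: H55K.g10b_one (G10B.lean) or H55K.TQ.rf_one. -/
theorem good_model (W₀ : WeierstrassCurve (𝓞 F)) {v : HeightOneSpectrum (𝓞 F)} (hΔ : W₀.Δ ∉ v.asIdeal)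
    (hv : ∀ a : 𝓞 F, a ∈ v.asIdeal → V.valuation (ak Ω a) < 1) : GoodW ((W₀⁄F)⁄Ω) V := by
  have hle : ∀ x : 𝓞 F, ak Ω x ∈ V := fun x => (V.valuation_le_one_iff _).1 (y3_le V x)
  refine ⟨⟨hle _, hle _, hle _, hle _, hle _⟩, ?_⟩
  have e : ((W₀⁄F)⁄Ω).Δ = ak Ω W₀.Δ := by
    have e1 : ((W₀⁄F)⁄Ω).Δ = algebraMap F Ω (W₀⁄F).Δ := (W₀⁄F).map_Δ _
    have e2 : (W₀⁄F).Δ = algebraMap (𝓞 F) F W₀.Δ := W₀.map_Δ _
    rw [e1, e2]
  rw [e]
  exact g10b_one V v hv _ hΔ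

end H13D
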