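import Mathlib
import Pool.Agent.Lib.H13D.B1
import Pool.Agent.Lib.H55K.G9B

/-! # H13D, part B: points over the residue fields -/

open NumberField IsDedekindDomain WeierstrassCurve

namespace H13D

open H55P (IQ embF eF LF Per IsHecke Pt ac Inert Dec Nm)
open H35P (WAB Ker tt GoodW IntW)
open H55K
open H55K.MG (VC Crd)

variable {F : Type} [Field F] [NumberField F] {Ω : Type} [Field Ω] [DecidableEq Ω] [Algebra F Ω] {V : ValuationSubring Ω}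

omit [NumberField F] [DecidableEq Ω] in
theorem b4_h (W₀ : WeierstrassCurve (𝓞 F)) (a b : 𝓞 F) : ak Ω (g9E W₀ a b) =
    ak Ω b ^ 2 + ak Ω W₀.a₁ * ak Ω a * ak Ω b + ak Ω W₀.a₃ * ak Ω b -
      (ak Ω a ^ 3 + ak Ω W₀.a₂ * ak Ω a ^ 2 + ak Ω W₀.a₄ * ak Ω a + ak Ω W₀.a₆) := by
  unfold g9E
  simp only [← g9h_eq, map_sub, map_add, map_mul, map_pow]

omit [NumberField F] [DecidableEq Ω] in
theorem b4_coef (W₀ : WeierstrassCurve (𝓞 F)) : ((W₀⁄F)⁄Ω).a₁ = ak Ω W₀.a₁ ∧ ((W₀⁄F)⁄Ω).a₂ = ak Ω W₀.a₂ ∧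
    ((W₀⁄F)⁄Ω).a₃ = ak Ω W₀.a₃ ∧ ((W₀⁄F)⁄Ω).a₄ = ak Ω W₀.a₄ ∧ ((W₀⁄F)⁄Ω).a₆ = ak Ω W₀.a₆ := ⟨rfl, rfl, rfl, rfl, rfl⟩

omit [NumberField F] in
theorem b4_eq (W₀ : WeierstrassCurve (𝓞 F)) {X : Pt (W₀⁄F) Ω} (hX : X ≠ 0) :
    yc X ^ 2 + ak Ω W₀.a₁ * xc X * yc X + ak Ω W₀.a₃ * yc X -
      (xc X ^ 3 + ak Ω W₀.a₂ * xc X ^ 2 + ak Ω W₀.a₄ * xc X + ak Ω W₀.a₆) = 0 := by
  rcases X with _ | ⟨x, y, hn⟩
  · exact absurd rfl hX
  · have h1 := (Affine.equation_iff _ _).1 hn.1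
    obtain ⟨e1, e2, e3, e4, e6⟩ := b4_coef (Ω := Ω) W₀
    show y ^ 2 + ak Ω W₀.a₁ * x * y + ak Ω W₀.a₃ * y - (x ^ 3 + ak Ω W₀.a₂ * x ^ 2 + ak Ω W₀.a₄ * x + ak Ω W₀.a₆) = 0
    rw [← e1, ← e2, ← e3, ← e4, ← e6, sub_eq_zero]
    exact h1

/-- Chunk B4 (M). Port of H55K.g9_lift (G9B.lean), simpler: the curve is W₀ itself. g9E W₀ a b = b^2 + a₁ a b + a₃ b - (a^3 + a₂ a^2 + a₄ a + a₆). The monic quadratic polynomial Y^2 + (a₁ a + a₃) Y - (a^3 + ..) over Ω has roots y₁, y₂ (Ω algebraically closed): (b - y₁)(b - y₂) is the image of g9E W₀ a b, of value < 1, so one factor has value < 1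
(if both had value ≥ 1 so would the product): y with V(b - y) < 1. X = some a y: the equation holds and the curve is nonsingular (good_model: Δ ≠ 0; Affine.equation_iff_nonsingular_of_Δ_ne_zero). Not in Ker: V(ak a) ≤ 1 (ak_le). -/
theorem lift_pt [IsAlgClosed Ω] (W₀ : WeierstrassCurve (𝓞 F)) (hG : GoodW ((W₀⁄F)⁄Ω) V) (a b : 𝓞 F)
    (hE : V.valuation (ak Ω (g9E W₀ a b)) < 1) : ∃ X : Pt (W₀⁄F) Ω, ¬ Ker V X ∧ xc X = ak Ω a ∧
      V.valuation (yc X - ak Ω b) < 1 := by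
  obtain ⟨e1, e2, e3, e4, e6⟩ := b4_coef (Ω := Ω) W₀
  -- the polynomial
  set β : Ω := ak Ω W₀.a₁ * ak Ω a + ak Ω W₀.a₃ with hβ
  set γ : Ω := ak Ω a ^ 3 + ak Ω W₀.a₂ * ak Ω a ^ 2 + ak Ω W₀.a₄ * ak Ω a + ak Ω W₀.a₆ with hγ
  obtain ⟨y₁, hy₁⟩ : ∃ y : Ω, y ^ 2 + β * y - γ = 0 := by
    have hd : (Polynomial.X ^ 2 + Polynomial.C β * Polynomial.X + Polynomial.C (-γ) : Polynomial Ω).degree = 2 := by
      have := Polynomial.degree_quadratic (a := (1 : Ω)) (b := β) (c := -γ) one_ne_zero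
      rwa [Polynomial.C_1, one_mul] at this
    obtain ⟨y, hy⟩ := IsAlgClosed.exists_root (Polynomial.X ^ 2 + Polynomial.C β * Polynomial.X + Polynomial.C (-γ) : Polynomial Ω)
      (by rw [hd]; norm_num)
    refine ⟨y, ?_⟩
    rw [Polynomial.IsRoot.def] at hy
    simp only [Polynomial.eval_add, Polynomial.eval_pow, Polynomial.eval_X, Polynomial.eval_mul, Polynomial.eval_C] at hy
    rw [sub_eq_add_neg]
    exact hy
  have hΔ : ((W₀⁄F)⁄Ω).Δ ≠ 0 := by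
    intro h
    have h1 := hG.disc
    rw [h, map_zero] at h1
    exact zero_ne_one h1
  have hpt : ∀ y' : Ω, y' ^ 2 + β * y' - γ = 0 → V.valuation (y' - ak Ω b) < 1 → ∃ X : Pt (W₀⁄F) Ω, ¬ Ker V X ∧
      xc X = ak Ω a ∧ V.valuation (yc X - ak Ω b) < 1 := by
    intro y' hy' hv'
    have heq : ((W₀⁄F)⁄Ω).toAffine.Equation (ak Ω a) y' := by
      rw [Affine.equation_iff]
      show y' ^ 2 + ((W₀⁄F)⁄Ω).a₁ * ak Ω a * y' + ((W₀⁄F)⁄Ω).a₃ * y' = ak Ω a ^ 3 + ((W₀⁄F)⁄Ω).a₂ * ak Ω a ^ 2 +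
        ((W₀⁄F)⁄Ω).a₄ * ak Ω a + ((W₀⁄F)⁄Ω).a₆
      rw [e1, e2, e3, e4, e6, ← hγ]
      rw [hβ] at hy'
      linear_combination hy'
    have hns := (Affine.equation_iff_nonsingular_of_Δ_ne_zero (W := ((W₀⁄F)⁄Ω).toAffine) hΔ).1 heq
    exact ⟨.some _ _ hns, fun hk => absurd (show 1 < V.valuation (ak Ω a) from hk) (not_lt.2 (ak_le V a)), rfl, hv'⟩
  have hprod : V.valuation (ak Ω b - y₁) * V.valuation (ak Ω b + y₁ + β) < 1 := by
    rw [← map_mul]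
    have : (ak Ω b - y₁) * (ak Ω b + y₁ + β) = ak Ω (g9E W₀ a b) := by
      rw [b4_h, hβ]
      rw [hβ, hγ] at hy₁
      linear_combination -hy₁
    rw [this]
    exact hE
  by_cases h1 : V.valuation (ak Ω b - y₁) < 1
  · refine hpt y₁ hy₁ ?_
    rw [Valuation.map_sub_swap]
    exact h1
  · have h7 : V.valuation (ak Ω b + y₁ + β) < 1 := by
      by_contra h8
      push Not at h1 h8
      exact absurd hprod (not_lt.2 (one_le_mul h1 h8))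
    refine hpt (-y₁ - β) (by linear_combination hy₁) ?_
    have : -y₁ - β - ak Ω b = -(ak Ω b + y₁ + β) := by ring
    rw [this, Valuation.map_neg]
    exact h7

/-- Chunk B4 (S/M). s (xc X) is congruent to (xc X)^q (hs; xc X in V by MG.int_crd), congruent to (ak a)^q (difference of powers), congruent to ak a (H55K.g9_frob in G9B.lean), congruent to xc X; the same for yc. xc_ac, yc_ac; ac s X is not in Ker (V(s x) ≤ 1); MG.cong_ker (M3A.lean). -/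
theorem fix_pt (W₀ : WeierstrassCurve (𝓞 F)) (hG : GoodW ((W₀⁄F)⁄Ω) V) (v : HeightOneSpectrum (𝓞 F))
    (hv : ∀ a : 𝓞 F, a ∈ v.asIdeal → V.valuation (ak Ω a) < 1) (s : Ω ≃ₐ[F] Ω) (hD : Dec V s)
    (hs : ∀ x ∈ V, V.valuation (s x - x ^ Ideal.absNorm v.asIdeal) < 1) (a b : 𝓞 F) {X : Pt (W₀⁄F) Ω}
    (hX : ¬ Ker V X) (hx : V.valuation (xc X - ak Ω a) < 1) (hy : V.valuation (yc X - ak Ω b) < 1) :
    Ker V (ac (W₀⁄F) s X - X) := by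
  obtain ⟨hX0, hxV, hyV⟩ := MG.int_crd hG hX
  have hxi := (V.valuation_le_one_iff _).2 hxV
  have hyi := (V.valuation_le_one_iff _).2 hyV
  have e1 : V.valuation (xc X ^ Ideal.absNorm v.asIdeal - xc X) < 1 := (g9_frob hv hxi).2 ⟨a, hx⟩
  have e2 : V.valuation (yc X ^ Ideal.absNorm v.asIdeal - yc X) < 1 := (g9_frob hv hyi).2 ⟨b, hy⟩
  have e3 := g9_tri (hs _ hxV) e1
  have e4 := g9_tri (hs _ hyV) e2
  have hsX : ¬ Ker V (ac (W₀⁄F) s X) := by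
    rw [MG.ker_crd (ac_ne (W₀⁄F) s hX0), xc_ac, not_lt]
    have : s (xc X) = (s (xc X) - xc X) + xc X := by ring
    rw [this]
    exact (Valuation.map_add _ _ _).trans (max_le e3.le hxi)
  apply MG.cong_ker hG hsX hX
  · rw [xc_ac]
    exact e3
  · rw [yc_ac]
    exact e4

/-- Chunk B4 (S/M). conv_gen (P = X, Q = ac s X): xc (sX) = s (xc X) is congruent to xc X and to (xc X)^q (hs), so V((xc X)^q - xc X) < 1: g9_frob gives a with V(xc X - ak a) < 1; the same for yc and b. The image of g9E W₀ a b is congruent to the value 0 of the equation at (xc X, yc X): value < 1, so g9E W₀ a b is in v (H55K.g9_ker). -/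
theorem conv_pt (W₀ : WeierstrassCurve (𝓞 F)) (hG : GoodW ((W₀⁄F)⁄Ω) V) (v : HeightOneSpectrum (𝓞 F))
    (hv : ∀ a : 𝓞 F, a ∈ v.asIdeal → V.valuation (ak Ω a) < 1) (s : Ω ≃ₐ[F] Ω)
    (hs : ∀ x ∈ V, V.valuation (s x - x ^ Ideal.absNorm v.asIdeal) < 1) {X : Pt (W₀⁄F) Ω}
    (hX : ¬ Ker V X) (hk : Ker V (ac (W₀⁄F) s X - X)) : ∃ a b : 𝓞 F, g9E W₀ a b ∈ v.asIdeal ∧
      V.valuation (xc X - ak Ω a) < 1 ∧ V.valuation (yc X - ak Ω b) < 1 := by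
  obtain ⟨hX0, hxV, hyV⟩ := MG.int_crd hG hX
  have hxi := (V.valuation_le_one_iff _).2 hxV
  have hyi := (V.valuation_le_one_iff _).2 hyV
  obtain ⟨-, hx1, hy1⟩ := conv_gen hG hX hk
  rw [xc_ac] at hx1
  rw [yc_ac] at hy1
  have e1 : V.valuation (xc X ^ Ideal.absNorm v.asIdeal - xc X) < 1 := by
    refine g9_tri ?_ hx1
    rw [Valuation.map_sub_swap]
    exact hs _ hxV
  have e2 : V.valuation (yc X ^ Ideal.absNorm v.asIdeal - yc X) < 1 := by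
    refine g9_tri ?_ hy1
    rw [Valuation.map_sub_swap]
    exact hs _ hyV
  obtain ⟨a, ha⟩ := (g9_frob hv hxi).1 e1
  obtain ⟨b, hb⟩ := (g9_frob hv hyi).1 e2
  refine ⟨a, b, ?_, ha, hb⟩
  rw [← g9_ker hv, b4_h]
  have heq := b4_eq W₀ hX0
  set x := xc X
  set y := yc X
  have h7 : ak Ω b ^ 2 + ak Ω W₀.a₁ * ak Ω a * ak Ω b + ak Ω W₀.a₃ * ak Ω b -
      (ak Ω a ^ 3 + ak Ω W₀.a₂ * ak Ω a ^ 2 + ak Ω W₀.a₄ * ak Ω a + ak Ω W₀.a₆) =
      (y - ak Ω b) * (-(y + ak Ω b + ak Ω W₀.a₁ * ak Ω a + ak Ω W₀.a₃)) +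
      (x - ak Ω a) * (-(ak Ω W₀.a₁ * y) + (x ^ 2 + x * ak Ω a + ak Ω a ^ 2 + ak Ω W₀.a₂ * (x + ak Ω a) + ak Ω W₀.a₄)) := by
    linear_combination heq
  rw [h7]
  have hm : ∀ {x y : Ω}, V.valuation x ≤ 1 → V.valuation y ≤ 1 → V.valuation (x * y) ≤ 1 := by
    intro x y hx hy
    rw [map_mul]
    exact mul_le_one' hx hy
  have hp : ∀ {x y : Ω}, V.valuation x ≤ 1 → V.valuation y ≤ 1 → V.valuation (x + y) ≤ 1 :=
    fun hx hy => (Valuation.map_add _ _ _).trans (max_le hx hy)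
  have k := ak_le (Ω := Ω) V (F := F)
  refine Valuation.map_add_lt _ (g9_mul hb ?_) (g9_mul ha ?_)
  · rw [Valuation.map_neg]
    exact hp (hp (hp hyi (k b)) (hm (k _) (k a))) (k _)
  · refine hp ?_ ?_
    · rw [Valuation.map_neg]
      exact hm (k _) hyi
    · rw [sq, sq]
      exact hp (hp (hp (hp (hm hxi hxi) (hm hxi (k a))) (hm (k a) (k a))) (hm (k _) (hp hxi (k a)))) (k _)

end H13D
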