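import Mathlib
import Pool.Agent.Lib.H13D.B3
import Pool.Agent.Lib.H13D.B4

/-! # H13D, part B: points over the residue fields -/

open NumberField IsDedekindDomain WeierstrassCurve

namespace H13D

open H55P (IQ embF eF LF Per IsHecke Pt ac Inert Dec Nm)
open H35P (WAB Ker tt GoodW IntW)
open H55K
open H55K.MG (VC Crd)

variable {F : Type} [Field F] [NumberField F] {Ω : Type} [Field Ω] [DecidableEq Ω] [Algebra F Ω] {V : ValuationSubring Ω}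

/-- The class c is the class of the lifts of the point P. -/
def b5R (W₀ : WeierstrassCurve (𝓞 F)) (v : HeightOneSpectrum (𝓞 F)) (V : ValuationSubring Ω) (KE : AddSubgroup (Pt (W₀⁄F) Ω))
    (P : (W₀⁄(𝓞 F ⧸ v.asIdeal)).toAffine.Point) (c : Pt (W₀⁄F) Ω ⧸ KE) : Prop :=
  (P = 0 ∧ c = 0) ∨ ∃ (a b : 𝓞 F) (h : (W₀⁄(𝓞 F ⧸ v.asIdeal)).toAffine.Nonsingular (Ideal.Quotient.mk v.asIdeal a)
    (Ideal.Quotient.mk v.asIdeal b)) (X : Pt (W₀⁄F) Ω), P = .some _ _ h ∧ c = (X : Pt (W₀⁄F) Ω ⧸ KE) ∧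
      ¬ Ker V X ∧ V.valuation (xc X - ak Ω a) < 1 ∧ V.valuation (yc X - ak Ω b) < 1

omit [DecidableEq Ω] in
theorem b5_sub (v : HeightOneSpectrum (𝓞 F))
    (hv : ∀ a : 𝓞 F, a ∈ v.asIdeal → V.valuation (ak Ω a) < 1) (a a' : 𝓞 F) :
    V.valuation (ak Ω a - ak Ω a') < 1 ↔ Ideal.Quotient.mk v.asIdeal a = Ideal.Quotient.mk v.asIdeal a' := by
  have h1 : ak Ω a - ak Ω a' = ak Ω (a - a') := by
    rw [← g9h_eq (Ω := Ω) (a - a'), map_sub, g9h_eq, g9h_eq]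
  rw [h1, g9_ker hv, ← Ideal.Quotient.eq]

/-- Chunk B5 (M). Port of H55K.red_card (G9B.lean, the relation g9R), simpler: the points (ā, b̄) of W₀ over k = 𝓞 F ⧸ v correspond to the classes modulo KE of the points X with sX - X in KE. Relation R(P, c): P = 0 and c = 0, or P = some (class of a) (class of b), c = class of X, X not in Ker, V(xc X - ak a) < 1, V(yc X - ak b) < 1.
Every P has a c (lift_pt; g9_nons: the equation modulo v is g9E in v), c is a fixed class (fix_pt), unique (MG.cong_ker: two lifts X, X' have congruent coordinates); every fixed class c has a P (conv_pt; X in Ker: c = 0), unique (conv_gen: X, X' in the same class have congruent coordinates, so a - a' is in v: H55K.g9_ker).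
So there is a bijection: Nat.card_congr (Equiv.ofBijective). -/
theorem red_card' [IsAlgClosed Ω] (W₀ : WeierstrassCurve (𝓞 F)) (v : HeightOneSpectrum (𝓞 F)) (hΔ : W₀.Δ ∉ v.asIdeal)
    (hv : ∀ a : 𝓞 F, a ∈ v.asIdeal → V.valuation (ak Ω a) < 1) (s : Ω ≃ₐ[F] Ω) (hD : Dec V s)
    (hs : ∀ x ∈ V, V.valuation (s x - x ^ Ideal.absNorm v.asIdeal) < 1) {KE : AddSubgroup (Pt (W₀⁄F) Ω)}
    (hKE : ∀ P, P ∈ KE ↔ Ker V P) :
    Nat.card (W₀⁄(𝓞 F ⧸ v.asIdeal)).toAffine.Point =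
      Nat.card {c : Pt (W₀⁄F) Ω ⧸ KE // ∃ X : Pt (W₀⁄F) Ω, (X : Pt (W₀⁄F) Ω ⧸ KE) = c ∧ ac (W₀⁄F) s X - X ∈ KE} := by
  have hG : GoodW ((W₀⁄F)⁄Ω) V := good_model W₀ hΔ hv
  -- every point has a class
  have htot : ∀ P : (W₀⁄(𝓞 F ⧸ v.asIdeal)).toAffine.Point, ∃ c : {c : Pt (W₀⁄F) Ω ⧸ KE //
      ∃ X : Pt (W₀⁄F) Ω, (X : Pt (W₀⁄F) Ω ⧸ KE) = c ∧ ac (W₀⁄F) s X - X ∈ KE},
      b5R W₀ v V KE P c.1 := by
    intro P
    rcases P with _ | ⟨x, y, h⟩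
    · refine ⟨⟨0, 0, rfl, ?_⟩, Or.inl ⟨rfl, rfl⟩⟩
      rw [map_zero, sub_zero]
      exact KE.zero_mem
    · obtain ⟨a, rfl⟩ := Ideal.Quotient.mk_surjective x
      obtain ⟨b, rfl⟩ := Ideal.Quotient.mk_surjective y
      obtain ⟨X, hX, hXx, hXy⟩ := lift_pt W₀ hG a b (hv _ ((g9_nons W₀ v hΔ a b).1 h))
      have hXx' : V.valuation (xc X - ak Ω a) < 1 := by
        rw [hXx, sub_self, map_zero]
        exact zero_lt_one
      exact ⟨⟨(X : Pt (W₀⁄F) Ω ⧸ KE), X, rfl, (hKE _).2 (fix_pt W₀ hG v hv s hD hs a b hX hXx' hXy)⟩,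
        Or.inr ⟨a, b, h, X, rfl, rfl, hX, hXx', hXy⟩⟩
  choose f hf using htot
  apply Nat.card_eq_of_bijective f
  have hno : ∀ X : Pt (W₀⁄F) Ω, ¬ Ker V X → (X : Pt (W₀⁄F) Ω ⧸ KE) ≠ 0 := by
    intro X hX h
    exact hX ((hKE X).1 ((QuotientAddGroup.eq_zero_iff X).1 h))
  constructor
  · intro P P' hPP
    have h1 := hf P
    have h2 := hf P'
    rw [← hPP] at h2
    rcases h1 with ⟨h1, h1'⟩ | ⟨a, b, h, X, hP, hc, hX, hx, hy⟩
    · rcases h2 with ⟨h2, h2'⟩ | ⟨a', b', h', X', hP', hc', hX', hx', hy'⟩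
      · rw [h1, h2]
      · exact (hno X' hX' (hc'.symm.trans h1')).elim
    · rcases h2 with ⟨h2, h2'⟩ | ⟨a', b', h', X', hP', hc', hX', hx', hy'⟩
      · exact (hno X hX (hc.symm.trans h2')).elim
      · have h3 : Ker V (X' - X) := by
          have h4 := hc.symm.trans hc'
          rw [QuotientAddGroup.eq, neg_add_eq_sub] at h4
          exact (hKE _).1 h4
        obtain ⟨-, h5, h6⟩ := conv_gen hG hX h3
        rw [Valuation.map_sub_swap] at h5 h6 hx hy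
        have h7 : V.valuation (ak Ω a - ak Ω a') < 1 := g9_tri (g9_tri hx h5) hx'
        have h8 : V.valuation (ak Ω b - ak Ω b') < 1 := g9_tri (g9_tri hy h6) hy'
        rw [hP, hP', Affine.Point.some.injEq]
        exact ⟨(b5_sub v hv a a').1 h7, (b5_sub v hv b b').1 h8⟩
  · rintro ⟨c, X, rfl, hX⟩
    by_cases hXk : Ker V X
    · refine ⟨0, ?_⟩
      apply Subtype.ext
      have h1 : (X : Pt (W₀⁄F) Ω ⧸ KE) = 0 := (QuotientAddGroup.eq_zero_iff X).2 ((hKE X).2 hXk)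
      show (f 0).1 = (X : Pt (W₀⁄F) Ω ⧸ KE)
      rw [h1]
      rcases hf 0 with ⟨-, h2⟩ | ⟨a, b, h, X, hP, -⟩
      · exact h2
      · exact absurd hP.symm (Affine.Point.some_ne_zero _)
    · obtain ⟨a, b, hE, hx, hy⟩ := conv_pt W₀ hG v hv s hs hXk ((hKE _).1 hX)
      refine ⟨.some _ _ ((g9_nons W₀ v hΔ a b).2 hE), ?_⟩
      apply Subtype.ext
      show (f _).1 = _
      rcases hf (.some _ _ ((g9_nons W₀ v hΔ a b).2 hE)) with ⟨h2, -⟩ | ⟨a', b', h', X', hP', hc', hX', hx', hy'⟩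
      · exact absurd h2 (Affine.Point.some_ne_zero _)
      · rw [hc', QuotientAddGroup.eq, neg_add_eq_sub]
        rw [Affine.Point.some.injEq] at hP'
        rw [Valuation.map_sub_swap] at hx' hy'
        exact (hKE _).2 (MG.cong_ker hG hXk hX' (g9_tri (g9_tri hx ((b5_sub v hv a a').2 hP'.1)) hx')
          (g9_tri (g9_tri hy ((b5_sub v hv b b').2 hP'.2)) hy'))

/-- Chunk B5 (S). Transport along Θ: QuotientAddGroup.congr Kg KE Θ (Θ maps Kg onto KE: hK, hKE), the condition corresponds by hΘ; Nat.card_congr. -/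
theorem card_transport {A B : F} (W₀ : WeierstrassCurve (𝓞 F)) (s : Ω ≃ₐ[F] Ω) {KE : AddSubgroup (Pt (W₀⁄F) Ω)}
    (hKE : ∀ P, P ∈ KE ↔ Ker V P) {Kg : AddSubgroup (Pt (WAB A B) Ω)} (Θ : Pt (WAB A B) Ω ≃+ Pt (W₀⁄F) Ω)
    (hK : ∀ P, P ∈ Kg ↔ Ker V (Θ P)) (hΘ : ∀ P, Θ (ac (WAB A B) s P) = ac (W₀⁄F) s (Θ P)) :
    Nat.card {c : Pt (W₀⁄F) Ω ⧸ KE // ∃ X : Pt (W₀⁄F) Ω, (X : Pt (W₀⁄F) Ω ⧸ KE) = c ∧ ac (W₀⁄F) s X - X ∈ KE} =
      Nat.card {c : Pt (WAB A B) Ω ⧸ Kg // ∃ X : Pt (WAB A B) Ω, (X : Pt (WAB A B) Ω ⧸ Kg) = c ∧ ac (WAB A B) s X - X ∈ Kg} := by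
  have hmap : Kg.map (Θ : Pt (WAB A B) Ω →+ Pt (W₀⁄F) Ω) = KE := by
    ext P
    constructor
    · rintro ⟨Q, hQ, rfl⟩
      exact (hKE _).2 ((hK Q).1 hQ)
    · intro hP
      refine ⟨Θ.symm P, (hK _).2 ?_, ?_⟩
      · rw [Θ.apply_symm_apply]
        exact (hKE _).1 hP
      · exact Θ.apply_symm_apply P
  symm
  refine Nat.card_congr (Equiv.subtypeEquiv (QuotientAddGroup.congr Kg KE Θ hmap).toEquiv ?_)
  intro c
  constructor
  · rintro ⟨X, rfl, hX⟩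
    refine ⟨Θ X, rfl, ?_⟩
    rw [← hΘ, ← map_sub]
    exact (hKE _).2 ((hK _).1 hX)
  · rintro ⟨Y, hY, hYK⟩
    refine ⟨Θ.symm Y, ?_, ?_⟩
    · apply (QuotientAddGroup.congr Kg KE Θ hmap).injective
      change _ = (QuotientAddGroup.congr Kg KE Θ hmap) c at hY
      rw [← hY]
      show ((Θ (Θ.symm Y) : Pt (W₀⁄F) Ω) : Pt (W₀⁄F) Ω ⧸ KE) = _
      rw [Θ.apply_symm_apply]
    · rw [hK, map_sub, hΘ, Θ.apply_symm_apply]
      exact (hKE _).1 hYK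

end H13D
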