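import Mathlib
import Pool.Agent.Lib.H13D.MD

/-! # H13D, part M: elements of trace one -/

open NumberField IsDedekindDomain WeierstrassCurve

namespace H13D

open H55P (IQ embF eF LF Per IsHecke Pt ac Inert Dec Nm)
open H55K

variable {F : Type} [Field F] [NumberField F] [IQ F] {σ : F ≃ₐ[ℚ] F} {v : HeightOneSpectrum (𝓞 F)}

/-- Chunk M3 (S/M). v stable under the conjugation. l odd (2 not in v): e = 1/2. l = 2 (2 in v): a with a - cj a not in v, t = a + cj a = (a - cj a) + 2 cj a is not in v, e = a/t (t is fixed by σ). Values: a integral, v.valuation t = 1, val_cj. -/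
theorem e_inert (hσ : Cj σ) (hun : ∃ a : 𝓞 F, a - cj a ∉ v.asIdeal) (hv : ∀ a : 𝓞 F, a ∈ v.asIdeal → cj a ∈ v.asIdeal) :
    ∃ e : F, e + σ e = 1 ∧ v.valuation F e ≤ 1 ∧ v.valuation F (σ e) ≤ 1 := by
  by_cases h2 : (2 : 𝓞 F) ∈ v.asIdeal
  · obtain ⟨a, ha⟩ := hun
    set t : 𝓞 F := a + cj a with ht
    have ht' : t ∉ v.asIdeal := by
      intro hmem
      apply ha
      have e : a - cj a = t - 2 * cj a := by rw [ht]; ring
      rw [e]
      exact v.asIdeal.sub_mem hmem (v.asIdeal.mul_mem_right _ h2)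
    have ht0 : (t : F) ≠ 0 := by
      intro h0
      apply ht'
      have : t = 0 := by exact_mod_cast h0
      rw [this]
      exact v.asIdeal.zero_mem
    have hvt : v.valuation F (t : F) = 1 := (HeightOneSpectrum.valuation_eq_one_iff_notMem v).2 ht'
    have hst : σ (t : F) = (t : F) := by
      rw [hσ, ht, map_add, cj_cj, add_comm]
    refine ⟨(a : F) / (t : F), ?_, ?_, ?_⟩
    · rw [map_div₀, hst, hσ, ← add_div, div_eq_one_iff_eq ht0, ht]
      simp
    · rw [map_div₀, hvt, div_one]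
      exact v.valuation_le_one a
    · rw [map_div₀, hst, hσ, map_div₀, hvt, div_one]
      exact v.valuation_le_one (cj a)
  · have h2' : v.valuation F (2 : F) = 1 := by
      have h3 := (HeightOneSpectrum.valuation_eq_one_iff_notMem (K := F) v (r := 2)).2 h2
      rwa [map_ofNat] at h3
    have e2 : v.valuation F ((2 : F)⁻¹) = 1 := by rw [map_inv₀, h2', inv_one]
    refine ⟨(2 : F)⁻¹, ?_, e2.le, ?_⟩
    · rw [map_inv₀, map_ofNat]
      norm_num
    · rw [map_inv₀, map_ofNat]
      exact e2.le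

/-- Chunk M3 (M). v not stable: the conjugate prime w (a in w iff cj a in v; Ideal.comap cj) is different from v, so v^K and w^K are coprime ideals: x in 𝓞 F with x - 1 in v^K and x in w^K; cj x is in v^K. t = x + cj x is congruent to 1 modulo v^K (K ≥ 1), so v.valuation t = 1; e = x/t: σ e = cj x/t, e + σ e = 1, v(e) ≤ 1, v(σ e) = v(cj x) ≤ exp (-K)
(HeightOneSpectrum.intValuation_le_pow_iff_mem, valuation_of_algebraMap). -/
theorem e_split (hσ : Cj σ) (hv : ¬ ∀ a : 𝓞 F, a ∈ v.asIdeal → cj a ∈ v.asIdeal) (K : ℕ) :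
    ∃ e : F, e + σ e = 1 ∧ v.valuation F e ≤ 1 ∧ v.valuation F (σ e) ≤ WithZero.exp (-(K : ℤ)) := by
  set w : Ideal (𝓞 F) := Ideal.comap cj v.asIdeal with hw
  have hwmem : ∀ a, a ∈ w ↔ cj a ∈ v.asIdeal := fun a => Ideal.mem_comap
  have hvmax : v.asIdeal.IsMaximal := v.isMaximal
  have hwmax : w.IsMaximal := Ideal.comap_isMaximal_of_equiv cj
  have hne : v.asIdeal ≠ w := by
    intro h
    apply hv
    intro a ha
    rw [← hwmem, ← h]
    exact ha
  have hcop : IsCoprime (v.asIdeal ^ (K + 1)) (w ^ (K + 1)) := (Ideal.isCoprime_of_isMaximal hne).pow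
  obtain ⟨i, hi, x, hx, hix⟩ := Ideal.isCoprime_iff_exists.1 hcop
  have hcx : cj x ∈ v.asIdeal ^ (K + 1) := by
    have := Ideal.le_comap_pow cj (K := v.asIdeal) (K + 1) hx
    exact Ideal.mem_comap.1 this
  have hpow : v.asIdeal ^ (K + 1) ≤ v.asIdeal := Ideal.pow_le_self (by omega)
  set t : 𝓞 F := x + cj x with ht
  have ht' : t ∉ v.asIdeal := by
    intro hmem
    apply v.isPrime.ne_top
    rw [Ideal.eq_top_iff_one]
    have e : (1 : 𝓞 F) = i + t - cj x := by rw [ht, ← hix]; ring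
    rw [e]
    exact v.asIdeal.sub_mem (v.asIdeal.add_mem (hpow hi) hmem) (hpow hcx)
  have ht0 : (t : F) ≠ 0 := by
    intro h0
    apply ht'
    have : t = 0 := by exact_mod_cast h0
    rw [this]
    exact v.asIdeal.zero_mem
  have hvt : v.valuation F (t : F) = 1 := (HeightOneSpectrum.valuation_eq_one_iff_notMem v).2 ht'
  have hst : σ (t : F) = (t : F) := by
    rw [hσ, ht, map_add, cj_cj, add_comm]
  refine ⟨(x : F) / (t : F), ?_, ?_, ?_⟩
  · rw [map_div₀, hst, hσ, ← add_div, div_eq_one_iff_eq ht0, ht]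
    simp
  · rw [map_div₀, hvt, div_one]
    exact v.valuation_le_one x
  · rw [map_div₀, hst, hσ, map_div₀, hvt, div_one, v.valuation_of_algebraMap (K := F)]
    refine ((v.intValuation_le_pow_iff_mem (cj x) (K + 1)).2 hcx).trans ?_
    rw [WithZero.exp_le_exp]
    push_cast
    linarith

end H13D
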