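import Mathlib
import Pool.Agent.Lib.H13D.MD

/-! # H13D, part M: changes of variables between integral equations -/

open NumberField IsDedekindDomain WeierstrassCurve

namespace H13D

variable {k Γ : Type} [Field k] [LinearOrderedCommGroupWithZero Γ] {v : Valuation k Γ} {E : WeierstrassCurve k}

/-- A step of the Horner scheme. -/
theorem m1_add {y c : k} (hy : 1 < v y) (hc : v c ≤ 1) : 1 < v (y + c) := by
  rw [Valuation.map_add_eq_of_lt_left v (lt_of_le_of_lt hc hy)]
  exact hy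

theorem m1_mul {x y : k} (hx : 1 < v x) (hy : 1 < v y) : 1 < v (x * y) := by
  rw [map_mul]
  exact one_lt_mul'' hx hy

theorem m1_unit (e : k) (he : v e = 1) {y : k} (hy : 1 < v y) : 1 < v (e * y) := by
  rw [map_mul, he, one_mul]
  exact hy

theorem m1_b (hE : VI v E) : v E.b₂ ≤ 1 ∧ v E.b₄ ≤ 1 ∧ v E.b₆ ≤ 1 ∧ v E.b₈ ≤ 1 := by
  obtain ⟨h1, h2, h3, h4, h6⟩ := hE
  have g : ∀ n : ℕ, (n : k) ∈ v.integer := fun n => natCast_mem _ n
  have g4 : (4 : k) ∈ v.integer := by exact_mod_cast g 4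
  have g2 : (2 : k) ∈ v.integer := by exact_mod_cast g 2
  change E.a₁ ∈ v.integer at h1
  change E.a₂ ∈ v.integer at h2
  change E.a₃ ∈ v.integer at h3
  change E.a₄ ∈ v.integer at h4
  change E.a₆ ∈ v.integer at h6
  refine ⟨?_, ?_, ?_, ?_⟩
  · change E.b₂ ∈ v.integer
    rw [WeierstrassCurve.b₂]
    exact add_mem (pow_mem h1 2) (mul_mem g4 h2)
  · change E.b₄ ∈ v.integer
    rw [WeierstrassCurve.b₄]
    exact add_mem (mul_mem g2 h4) (mul_mem h1 h3)
  · change E.b₆ ∈ v.integer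
    rw [WeierstrassCurve.b₆]
    exact add_mem (pow_mem h3 2) (mul_mem g4 h6)
  · change E.b₈ ∈ v.integer
    rw [WeierstrassCurve.b₈]
    exact sub_mem (add_mem (sub_mem (add_mem (mul_mem (pow_mem h1 2) h6) (mul_mem (mul_mem g4 h2) h6))
      (mul_mem (mul_mem h1 h3) h4)) (mul_mem h2 (pow_mem h3 2))) (pow_mem h4 2)

/-- Chunk M1 (M). v of an integer is ≤ 1. V(2) = 1 or V(3) = 1 (3 - 2 = 1). The quantities b₂, b₄, b₆, b₈ of both equations are integral. r: suppose V(r) > 1. If V(3) = 1: b₈' = b₈ + 3 r b₆ + 3 r^2 b₄ + r^3 b₂ + 3 r^4 (variableChange_b₈, u = 1) has the value V(r)^4 > 1 (the other terms have value ≤ V(r)^3): contradiction. If V(2) = 1: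
b₆' = b₆ + 2 r b₄ + r^2 b₂ + 4 r^3 has the value V(r)^3 > 1: contradiction. s: s^2 + a₁ s = a₂ - a₂' + 3 r (variableChange_a₂) is integral; if V(s) > 1 then V(s^2 + a₁ s) = V(s)^2 > 1. t: t^2 + (a₃ + r a₁) t = a₆ + r a₄ + r^2 a₂ + r^3 - a₆' is integral: the same argument. -/
theorem vi_uniq (hE : VI v E) {r s t : k} (hE' : VI v ((⟨1, r, s, t⟩ : VariableChange k) • E)) : v r ≤ 1 ∧ v s ≤ 1 ∧ v t ≤ 1 := by
  have g : ∀ n : ℕ, (n : k) ∈ v.integer := fun n => natCast_mem _ n
  have g2 : (2 : k) ∈ v.integer := by exact_mod_cast g 2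
  have g3 : (3 : k) ∈ v.integer := by exact_mod_cast g 3
  obtain ⟨hb2, hb4, hb6, hb8⟩ := m1_b hE
  obtain ⟨hb2', hb4', hb6', hb8'⟩ := m1_b hE'
  obtain ⟨h1, h2, h3, h4, h6⟩ := hE
  obtain ⟨h1', h2', h3', h4', h6'⟩ := hE'
  rw [variableChange_b₆] at hb6'
  rw [variableChange_b₈] at hb8'
  rw [variableChange_a₂] at h2'
  rw [variableChange_a₆] at h6'
  simp only [inv_one, Units.val_one, one_pow, one_mul] at hb6' hb8' h2' h6'
  change E.a₁ ∈ v.integer at h1
  change E.a₂ ∈ v.integer at h2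
  change E.a₃ ∈ v.integer at h3
  change E.a₄ ∈ v.integer at h4
  change E.a₆ ∈ v.integer at h6
  change E.b₂ ∈ v.integer at hb2
  change E.b₄ ∈ v.integer at hb4
  change E.b₆ ∈ v.integer at hb6
  change E.b₈ ∈ v.integer at hb8
  -- `r`
  have hr : v r ≤ 1 := by
    by_contra hlt
    rw [not_le] at hlt
    have h23 : v (2 : k) = 1 ∨ v (3 : k) = 1 := by
      by_contra hcon
      rw [not_or] at hcon
      have l2 : v (2 : k) < 1 := lt_of_le_of_ne g2 hcon.1
      have l3 : v (3 : k) < 1 := lt_of_le_of_ne g3 hcon.2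
      have e : (1 : k) = 3 - 2 := by norm_num
      have := Valuation.map_sub_lt v l3 l2
      rw [← e, map_one] at this
      exact lt_irrefl _ this
    rcases h23 with h | h
    · have e4 : v (4 : k) = 1 := by
        have : (4 : k) = 2 * 2 := by norm_num
        rw [this, map_mul, h, one_mul]
      have k1 : 1 < v (4 * r) := m1_unit 4 e4 hlt
      have k2 := m1_mul hlt (m1_add k1 hb2)
      have k3 := m1_mul hlt (m1_add k2 (mul_mem g2 hb4))
      have k4 := m1_add k3 hb6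
      have e : E.b₆ + 2 * r * E.b₄ + r ^ 2 * E.b₂ + 4 * r ^ 3 = r * (r * (4 * r + E.b₂) + 2 * E.b₄) + E.b₆ := by ring
      rw [e] at hb6'
      exact absurd hb6' (not_le.2 k4)
    · have k1 : 1 < v (3 * r) := m1_unit 3 h hlt
      have k2 := m1_mul hlt (m1_add k1 hb2)
      have k3 := m1_mul hlt (m1_add k2 (mul_mem g3 hb4))
      have k4 := m1_mul hlt (m1_add k3 (mul_mem g3 hb6))
      have k5 := m1_add k4 hb8
      have e : E.b₈ + 3 * r * E.b₆ + 3 * r ^ 2 * E.b₄ + r ^ 3 * E.b₂ + 3 * r ^ 4 =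
        r * (r * (r * (3 * r + E.b₂) + 3 * E.b₄) + 3 * E.b₆) + E.b₈ := by ring
      rw [e] at hb8'
      exact absurd hb8' (not_le.2 k5)
  have hr' : r ∈ v.integer := hr
  -- a quadratic equation
  have quad : ∀ x b c : k, x ^ 2 + b * x = c → b ∈ v.integer → c ∈ v.integer → v x ≤ 1 := by
    intro x b c e hb hc
    by_contra hlt
    rw [not_le] at hlt
    have k1 := m1_mul hlt (m1_add hlt hb)
    have e' : x * (x + b) = c := by rw [← e]; ring
    rw [e'] at k1
    exact absurd hc (not_le.2 k1)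
  refine ⟨hr, quad s E.a₁ (E.a₂ + 3 * r - (E.a₂ - s * E.a₁ + 3 * r - s ^ 2)) (by ring) h1 ?_,
    quad t (E.a₃ + r * E.a₁) (E.a₆ + r * E.a₄ + r ^ 2 * E.a₂ + r ^ 3 -
      (E.a₆ + r * E.a₄ + r ^ 2 * E.a₂ + r ^ 3 - t * E.a₃ - t ^ 2 - r * t * E.a₁)) (by ring) ?_ ?_⟩
  · exact sub_mem (add_mem h2 (mul_mem g3 hr')) h2'
  · exact add_mem h3 (mul_mem hr' h1)
  · exact sub_mem (add_mem (add_mem (add_mem h6 (mul_mem hr' h4)) (mul_mem (pow_mem hr' 2) h2)) (pow_mem hr' 3)) h6'

/-- Chunk M1 (S). The formulas variableChange_a₁, .. with u = 1. -/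
theorem vi_change (hE : VI v E) {r s t : k} (hr : v r ≤ 1) (hs : v s ≤ 1) (ht : v t ≤ 1) :
    VI v ((⟨1, r, s, t⟩ : VariableChange k) • E) := by
  have g : ∀ n : ℕ, (n : k) ∈ v.integer := fun n => natCast_mem _ n
  have g2 : (2 : k) ∈ v.integer := by exact_mod_cast g 2
  have g3 : (3 : k) ∈ v.integer := by exact_mod_cast g 3
  obtain ⟨h1, h2, h3, h4, h6⟩ := hE
  change E.a₁ ∈ v.integer at h1
  change E.a₂ ∈ v.integer at h2
  change E.a₃ ∈ v.integer at h3
  change E.a₄ ∈ v.integer at h4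
  change E.a₆ ∈ v.integer at h6
  change r ∈ v.integer at hr
  change s ∈ v.integer at hs
  change t ∈ v.integer at ht
  constructor
  · rw [variableChange_a₁]
    simp only [inv_one, Units.val_one, one_pow, one_mul]
    exact add_mem h1 (mul_mem g2 hs)
  · rw [variableChange_a₂]
    simp only [inv_one, Units.val_one, one_pow, one_mul]
    exact sub_mem (add_mem (sub_mem h2 (mul_mem hs h1)) (mul_mem g3 hr)) (pow_mem hs 2)
  · rw [variableChange_a₃]
    simp only [inv_one, Units.val_one, one_pow, one_mul]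
    exact add_mem (add_mem h3 (mul_mem hr h1)) (mul_mem g2 ht)
  · rw [variableChange_a₄]
    simp only [inv_one, Units.val_one, one_pow, one_mul]
    exact sub_mem (add_mem (sub_mem (add_mem (sub_mem h4 (mul_mem hs h3)) (mul_mem (mul_mem g2 hr) h2))
      (mul_mem (add_mem ht (mul_mem hr hs)) h1)) (mul_mem g3 (pow_mem hr 2))) (mul_mem (mul_mem g2 hs) ht)
  · rw [variableChange_a₆]
    simp only [inv_one, Units.val_one, one_pow, one_mul]
    exact sub_mem (sub_mem (sub_mem (add_mem (add_mem (add_mem h6 (mul_mem hr h4)) (mul_mem (pow_mem hr 2) h2))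
      (pow_mem hr 3)) (mul_mem ht h3)) (pow_mem ht 2)) (mul_mem (mul_mem hr ht) h1)

/-- Chunk M1 (S). The coefficients of ⟨u ε, r, s, t⟩ • E are those of ⟨u, r, s, t⟩ • E divided by powers of ε, V(ε) = 1. -/
theorem vi_unit {u ε : kˣ} (hε : v (ε : k) = 1) {r s t : k} (h : VI v ((⟨u * ε, r, s, t⟩ : VariableChange k) • E)) :
    VI v ((⟨u, r, s, t⟩ : VariableChange k) • E) := by
  obtain ⟨h1, h2, h3, h4, h6⟩ := h
  have hεi : v ((ε⁻¹ : kˣ) : k) = 1 := by
    rw [Units.val_inv_eq_inv_val, map_inv₀, hε, inv_one]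
  rw [variableChange_a₁] at h1
  rw [variableChange_a₂] at h2
  rw [variableChange_a₃] at h3
  rw [variableChange_a₄] at h4
  rw [variableChange_a₆] at h6
  simp only [mul_inv_rev, Units.val_mul, mul_pow, map_mul, map_pow, hεi, one_pow, one_mul] at h1 h2 h3 h4 h6
  constructor
  · rw [variableChange_a₁, map_mul]
    exact h1
  · rw [variableChange_a₂, map_mul, map_pow]
    exact h2
  · rw [variableChange_a₃, map_mul, map_pow]
    exact h3
  · rw [variableChange_a₄, map_mul, map_pow]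
    exact h4
  · rw [variableChange_a₆, map_mul, map_pow]
    exact h6

/-- Chunk M1 (S). Composition: x = u^2 x' + r, x' = x'' + r' and so on: both sides have the same coefficients (WeierstrassCurve.ext, variableChange formulas, field_simp, ring) or VariableChange multiplication (mul_smul). -/
theorem vi_comp (u : kˣ) (r s t r' s' t' : k) :
    (⟨1, r', s', t'⟩ : VariableChange k) • ((⟨u, r, s, t⟩ : VariableChange k) • E) =
      (⟨u, r + u ^ 2 * r', s + u * s', t + u ^ 3 * t' + u ^ 2 * s * r'⟩ : VariableChange k) • E := by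
  rw [← mul_smul]
  congr 1
  rw [VariableChange.mul_def]
  ext
  · simp
  · simp
    ring
  · simp
    ring
  · simp
    ring

end H13D
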