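import Mathlib
import Pool.Agent.Lib.H13D.MD

/-! # H13D, part M: primes and conjugation -/

open NumberField IsDedekindDomain WeierstrassCurve

namespace H13D

open H55P (IQ embF eF LF Per IsHecke Pt ac Inert Dec Nm)
open H55K

variable {F : Type} [Field F] [NumberField F] [IQ F] {σ : F ≃ₐ[ℚ] F} {v : HeightOneSpectrum (𝓞 F)}

/-- Chunk M2 (S). H55K.d1_sigma (the automorphism which is the complex conjugation), e_cj, injectivity of embF. See the proof of hram_of in H55K/RF.lean (hσ'). -/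
theorem exists_cj (F : Type) [Field F] [NumberField F] [IQ F] : ∃ σ : F ≃ₐ[ℚ] F, Cj σ := by
  obtain ⟨σ, hσ⟩ := d1_sigma F
  refine ⟨σ, fun a => ?_⟩
  apply (embF F).injective
  rw [hσ]
  exact (e_cj a).symm

theorem m2_tr (a : 𝓞 F) : ∃ n : ℤ, a + cj a = (n : 𝓞 F) := by
  refine ⟨(Nm (1 + a) : ℤ) - 1 - Nm a, ?_⟩
  have h1 := mul_cj (1 + a)
  have h2 := mul_cj a
  rw [map_add, map_one] at h1
  push_cast
  linear_combination h1 - h2

/-- Every element is an integer divided by a natural number. -/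
theorem m2_frac (x : F) : ∃ (a : 𝓞 F) (n : ℕ), n ≠ 0 ∧ x * (n : F) = (a : F) := by
  obtain ⟨⟨a, b⟩, hab⟩ := IsLocalization.surj (nonZeroDivisors (𝓞 F)) x
  have hb : (b : 𝓞 F) ≠ 0 := nonZeroDivisors.ne_zero b.2
  refine ⟨a * cj (b : 𝓞 F), Nm (b : 𝓞 F), fun h => hb (H55P.Nm_eq_zero.1 h), ?_⟩
  have h1 := congrArg (algebraMap (𝓞 F) F) (mul_cj (b : 𝓞 F))
  rw [map_mul, map_natCast] at h1
  have h2 : x * algebraMap (𝓞 F) F (b : 𝓞 F) = algebraMap (𝓞 F) F a := hab
  show x * ((Nm (b : 𝓞 F) : ℕ) : F) = algebraMap (𝓞 F) F (a * cj (b : 𝓞 F))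
  rw [← h1, map_mul, ← h2]
  ring

theorem m2_invol (hσ : Cj σ) (x : F) : σ (σ x) = x := by
  obtain ⟨a, n, hn, h⟩ := m2_frac x
  have hn' : (n : F) ≠ 0 := Nat.cast_ne_zero.2 hn
  have h1 : σ x * (n : F) = ((cj a : 𝓞 F) : F) := by
    rw [← hσ a, ← h, map_mul, map_natCast]
  have h2 : σ (σ x) * (n : F) = (a : F) := by
    have h3 := congrArg σ h1
    rw [map_mul, map_natCast, hσ, cj_cj] at h3
    exact h3
  exact mul_right_cancel₀ hn' (h2.trans h.symm)

/-- Chunk M2 (S). σ has order 2; x with σ x = x: x = a/n, .. or: embF x is real, so x is in the image of the rational numbers: the fixed field of σ has degree 1 over ℚ ([F : ℚ] = 2 and σ is not the identity: IQ.im). Or: 2x = x + σ x is the trace. -/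
theorem rat_of_fix (hσ : Cj σ) {x : F} (hx : σ x = x) : ∃ q : ℚ, algebraMap ℚ F q = x := by
  obtain ⟨a, n, hn, h⟩ := m2_frac x
  have hn' : (n : F) ≠ 0 := Nat.cast_ne_zero.2 hn
  obtain ⟨t, ht⟩ := m2_tr a
  have h1 : x * (n : F) = ((cj a : 𝓞 F) : F) := by
    rw [← hσ a, ← h, map_mul, map_natCast, hx]
  have h2 := congrArg (algebraMap (𝓞 F) F) ht
  rw [map_add, map_intCast] at h2
  have h3 : 2 * (n : F) * x = (t : F) := by
    have e1 : (a : F) = algebraMap (𝓞 F) F a := rfl
    have e2 : ((cj a : 𝓞 F) : F) = algebraMap (𝓞 F) F (cj a) := rfl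
    rw [← h2, ← e1, ← e2, ← h1, ← h]
    ring
  refine ⟨(t : ℚ) / (2 * n), ?_⟩
  rw [map_div₀, map_intCast, map_mul, map_ofNat, map_natCast, ← h3]
  field_simp

theorem m2_lt (hσ : Cj σ) (hv : ∀ a : 𝓞 F, a ∈ v.asIdeal → cj a ∈ v.asIdeal) {y : F} (hy : v.valuation F y < 1) :
    v.valuation F (σ y) < 1 := by
  obtain ⟨n, d, hnd⟩ := v.exists_primeCompl_mul_eq_of_integer y hy.le
  have hd : (d : 𝓞 F) ∉ v.asIdeal := d.2
  have hd' : cj (d : 𝓞 F) ∉ v.asIdeal := by
    intro h
    have h1 := hv _ h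
    rw [cj_cj] at h1
    exact hd h1
  have h1 := congrArg (v.valuation F) hnd
  rw [map_mul, (HeightOneSpectrum.valuation_eq_one_iff_notMem (K := F) (v := v)).2 hd, mul_one] at h1
  rw [h1, v.valuation_lt_one_iff_mem] at hy
  have h2 := congrArg σ hnd
  rw [map_mul] at h2
  have h3 : σ y * algebraMap (𝓞 F) F (cj (d : 𝓞 F)) = algebraMap (𝓞 F) F (cj n) := by
    have e1 : algebraMap (𝓞 F) F (cj (d : 𝓞 F)) = σ (algebraMap (𝓞 F) F (d : 𝓞 F)) := (hσ _).symm
    have e2 : algebraMap (𝓞 F) F (cj n) = σ (algebraMap (𝓞 F) F n) := (hσ _).symm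
    rw [e1, e2, h2]
  have h4 := congrArg (v.valuation F) h3
  rw [map_mul, (HeightOneSpectrum.valuation_eq_one_iff_notMem (K := F) (v := v)).2 hd', mul_one] at h4
  rw [h4]
  exact (v.valuation_lt_one_iff_mem _).2 (hv _ hy)

/-- Chunk M2 (S/M). v is stable under the conjugation: a in v implies cj a in v, and conversely (cj_cj). Valuations: x = a/b; v.valuation (a : F) depends only on the largest power of v containing a; or: v.valuation composed with σ is the valuation of the prime cj v = v (HeightOneSpectrum.valuation and maps; intValuation by powers: v.intValuation_le_pow_iff_mem). -/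
theorem val_cj (hσ : Cj σ) (hv : ∀ a : 𝓞 F, a ∈ v.asIdeal → cj a ∈ v.asIdeal) (x : F) : v.valuation F (σ x) = v.valuation F x := by
  by_cases hx : x = 0
  · rw [hx, map_zero]
  have hσx : σ x ≠ 0 := (map_ne_zero σ).2 hx
  have hprod : (σ x / x) * σ (σ x / x) = 1 := by
    rw [map_div₀, m2_invol hσ]
    field_simp
  have hvx : v.valuation F x ≠ 0 := (Valuation.ne_zero_iff _).2 hx
  have h0 : ∀ y : F, y * σ y = 1 → ¬ v.valuation F y < 1 := by
    intro y hy h1
    have h2 := m2_lt hσ hv h1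
    have h3 := congrArg (v.valuation F) hy
    rw [map_mul, map_one] at h3
    have h4 := mul_lt_one_of_lt_of_le h1 h2.le
    rw [h3] at h4
    exact lt_irrefl _ h4
  have h1 := h0 _ hprod
  have h2 := h0 (σ (σ x / x)) (by
    rw [m2_invol hσ, mul_comm]
    exact hprod)
  have h3 : v.valuation F (σ x / x) = 1 := by
    have h4 := congrArg (v.valuation F) hprod
    rw [map_mul, map_one] at h4
    rw [not_lt] at h1 h2
    refine le_antisymm (not_lt.1 fun h5 => ?_) h1
    have h6 : 1 < v.valuation F (σ x / x) * v.valuation F (σ (σ x / x)) := one_lt_mul_of_lt_of_le h5 h2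
    rw [h4] at h6
    exact lt_irrefl _ h6
  rw [map_div₀, div_eq_one_iff_eq hvx] at h3
  exact h3

/-- Chunk M2 (S/M). If l were in v^2: absNorm v is l or l^2 and l^2 = absNorm (l) = absNorm(v)^2 absNorm(..), so absNorm v = l, v^2 = (l) (equal norms, divisibility), cj v = v (unique prime above l); 𝓞 F ⧸ v has l elements, every a is congruent to an integer n modulo v, cj a is congruent to n modulo cj v = v: a - cj a in v for all a: contradiction to hun.
So v.valuation F l = exp (-1) (l in v, not in v^2: HeightOneSpectrum.intValuation_le_pow_iff_mem / valuation_of_algebraMap). -/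
theorem val_l (hun : ∃ a : 𝓞 F, a - cj a ∉ v.asIdeal) {l : ℕ} (hl : l.Prime) (hlv : (l : 𝓞 F) ∈ v.asIdeal) :
    v.valuation F (l : F) = WithZero.exp (-1 : ℤ) := by
  have h2 : (l : 𝓞 F) ∉ v.asIdeal ^ 2 := by
    intro h
    have hdvd : v.asIdeal ^ 2 ∣ Ideal.span {(l : 𝓞 F)} := Ideal.dvd_span_singleton.2 h
    obtain ⟨J, hJ⟩ := hdvd
    have hN : Ideal.absNorm (Ideal.span {(l : 𝓞 F)}) = l ^ 2 := Nm_nat l
    have hN2 := congrArg Ideal.absNorm hJ
    rw [hN, map_mul, map_pow] at hN2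
    have hN1 : Ideal.absNorm v.asIdeal ≠ 1 := by
      rw [Ne, Ideal.absNorm_eq_one_iff]
      exact v.isPrime.ne_top
    have hN3 : Ideal.absNorm v.asIdeal ∣ l := by
      rw [← Nat.pow_dvd_pow_iff two_ne_zero]
      exact ⟨_, hN2⟩
    have hN4 : Ideal.absNorm v.asIdeal = l := (hl.eq_one_or_self_of_dvd _ hN3).resolve_left hN1
    have hJ1 : Ideal.absNorm J = 1 := by
      rw [hN4] at hN2
      have h3 : 0 < l ^ 2 := pow_pos hl.pos 2
      have h4 : l ^ 2 * Ideal.absNorm J = l ^ 2 * 1 := by rw [← hN2, mul_one]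
      exact Nat.eq_of_mul_eq_mul_left h3 h4
    rw [Ideal.absNorm_eq_one_iff] at hJ1
    have hsp : v.asIdeal ^ 2 = Ideal.span {(l : 𝓞 F)} := by
      rw [hJ, hJ1, ← Ideal.one_eq_top, mul_one]
    have hstab : ∀ a : 𝓞 F, a ∈ v.asIdeal → cj a ∈ v.asIdeal := by
      intro a ha
      have h3 : a ^ 2 ∈ v.asIdeal ^ 2 := Ideal.pow_mem_pow ha 2
      rw [hsp, Ideal.mem_span_singleton] at h3
      obtain ⟨c, hc⟩ := h3
      have h4 := congrArg cj hc
      rw [map_pow, map_mul, cj_nat] at h4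
      have h5 : (cj a) ^ 2 ∈ v.asIdeal := by
        rw [h4]
        exact v.asIdeal.mul_mem_right _ hlv
      exact v.isPrime.mem_of_pow_mem 2 h5
    have hex : ∀ a : 𝓞 F, ∃ n : ℕ, a - n ∈ v.asIdeal := by
      have hcard : Nat.card (𝓞 F ⧸ v.asIdeal) = l := hN4
      have hfin : Finite (𝓞 F ⧸ v.asIdeal) := Nat.finite_of_card_ne_zero (by rw [hcard]; exact hl.ne_zero)
      let f : Fin l → 𝓞 F ⧸ v.asIdeal := fun k => Ideal.Quotient.mk _ ((k : ℕ) : 𝓞 F)
      have hf : Function.Injective f := by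
        intro a b hab
        have h1 : Ideal.Quotient.mk v.asIdeal (((a : ℕ) : 𝓞 F)) = Ideal.Quotient.mk v.asIdeal (((b : ℕ) : 𝓞 F)) := hab
        rw [Ideal.Quotient.eq] at h1
        by_contra hne
        have h2 := a.2
        have h3 := b.2
        have h4 : ¬ (l : ℤ) ∣ ((a : ℕ) : ℤ) - ((b : ℕ) : ℤ) := by
          intro h5
          have h7 : ((a : ℕ) : ℤ) - ((b : ℕ) : ℤ) = 0 := by
            apply Int.eq_zero_of_abs_lt_dvd h5
            rw [abs_lt]
            constructor <;> omega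
          apply hne
          apply Fin.ext
          omega
        obtain ⟨u, w, huw⟩ := (Nat.prime_iff_prime_int.1 hl).irreducible.coprime_iff_not_dvd.2 h4
        apply v.isPrime.ne_top
        rw [Ideal.eq_top_iff_one]
        have h5 : (1 : 𝓞 F) = (u : 𝓞 F) * (l : 𝓞 F) + (w : 𝓞 F) * (((a : ℕ) : 𝓞 F) - ((b : ℕ) : 𝓞 F)) := by
          have := congrArg (fun z : ℤ => (z : 𝓞 F)) huw
          push_cast at this
          exact this.symm
        rw [h5]
        exact v.asIdeal.add_mem (v.asIdeal.mul_mem_left _ hlv) (v.asIdeal.mul_mem_left _ h1)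
      have hb : Function.Bijective f := by
        rw [Nat.bijective_iff_injective_and_card]
        refine ⟨hf, ?_⟩
        rw [hcard, Nat.card_eq_fintype_card, Fintype.card_fin]
      intro a
      obtain ⟨k, hk⟩ := hb.2 (Ideal.Quotient.mk _ a)
      refine ⟨(k : ℕ), ?_⟩
      rw [← Ideal.Quotient.eq]
      exact hk.symm
    obtain ⟨a, ha⟩ := hun
    apply ha
    obtain ⟨n, hn⟩ := hex a
    have h3 := hstab _ hn
    rw [map_sub, cj_nat] at h3
    have h4 : a - cj a = (a - n) - (cj a - n) := by ring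
    rw [h4]
    exact v.asIdeal.sub_mem hn h3
  have e1 : v.valuation F (l : F) = v.intValuation (l : 𝓞 F) := by
    rw [← v.valuation_of_algebraMap (K := F)]
    exact congrArg (v.valuation F) (map_natCast (algebraMap (𝓞 F) F) l).symm
  have hl0 : (l : 𝓞 F) ≠ 0 := Nat.cast_ne_zero.2 hl.ne_zero
  have e2 : v.intValuation (l : 𝓞 F) ≤ WithZero.exp (-((1 : ℕ) : ℤ)) := by
    rw [v.intValuation_le_pow_iff_mem, pow_one]
    exact hlv
  have e3 : ¬ v.intValuation (l : 𝓞 F) ≤ WithZero.exp (-((2 : ℕ) : ℤ)) := by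
    rw [v.intValuation_le_pow_iff_mem]
    exact h2
  rw [e1]
  have e4 : v.intValuation (l : 𝓞 F) ≠ 0 := v.intValuation_ne_zero _ hl0
  rw [← WithZero.exp_log e4] at e2 e3 ⊢
  rw [WithZero.exp_le_exp] at e2 e3
  congr 1
  push_cast at e2 e3
  omega

end H13D
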