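import Mathlib
import Pool.Agent.Lib.H13D.M1
import Pool.Agent.Lib.H13D.M2

/-! # H13D, part M: descent of a good equation from F to the rational numbers -/

open NumberField IsDedekindDomain WeierstrassCurve

namespace H13D

open H55P (IQ embF eF LF Per IsHecke Pt ac Inert Dec Nm)
open H55K

variable {F : Type} [Field F] [NumberField F] [IQ F] {σ : F ≃ₐ[ℚ] F} {v : HeightOneSpectrum (𝓞 F)}

theorem m4_ss (hσ : Cj σ) (x : F) : σ (σ x) = x := by
  obtain ⟨a, b, _, rfl⟩ := IsFractionRing.div_surjective (A := 𝓞 F) x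
  rw [map_div₀, map_div₀, hσ a, hσ b, hσ, hσ, cj_cj, cj_cj]

theorem m4_map (σ : F ≃ₐ[ℚ] F) (E : WeierstrassCurve ℚ) (C : VariableChange F) :
    (C.map (σ : F →+* F)) • (E⁄F) = (C • (E⁄F)).map (σ : F →+* F) := by
  have e : (E⁄F).map (σ : F →+* F) = E⁄F := by
    rw [WeierstrassCurve.baseChange, WeierstrassCurve.map_map]
    congr 1
    exact Subsingleton.elim _ _
  rw [← WeierstrassCurve.map_variableChange, e]

/-- Chunk M4 (S/M). v stable. c = l^n as a unit of F (rational). E' = ⟨c, r, s, t⟩ • (E⁄F) is integral, and so is its image under σ, which is ⟨c, σ r, σ s, σ t⟩ • (E⁄F) (map_variableChange; E is over ℚ; val_cj), and this is ⟨1, r', s', t'⟩ • E' with r' = (σ r - r)/c^2, s' = (σ s - s)/c, t' = (σ t - t - s (σ r - r))/c^3 (vi_comp). vi_uniq for E'. -/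
theorem conj_bounds (hσ : Cj σ) (hv : ∀ a : 𝓞 F, a ∈ v.asIdeal → cj a ∈ v.asIdeal) (E : WeierstrassCurve ℚ) {c : Fˣ} (hc : σ (c : F) = c)
    {r s t : F} (h : VI (v.valuation F) ((⟨c, r, s, t⟩ : VariableChange F) • (E⁄F))) :
    v.valuation F ((σ r - r) / (c : F) ^ 2) ≤ 1 ∧ v.valuation F ((σ s - s) / (c : F)) ≤ 1 ∧
      v.valuation F ((σ t - t - s * (σ r - r)) / (c : F) ^ 3) ≤ 1 := by
  have hmap := m4_map σ E (⟨c, r, s, t⟩ : VariableChange F)
  have hcu : Units.map ((σ : F →+* F) : F →* F) c = c := by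
    ext
    exact hc
  have hmap' : (⟨c, σ r, σ s, σ t⟩ : VariableChange F) • (E⁄F) =
      ((⟨c, r, s, t⟩ : VariableChange F) • (E⁄F)).map (σ : F →+* F) := by
    rw [← hmap]
    congr 1
    ext
    · exact hc.symm
    · rfl
    · rfl
    · rfl
  have hVI' : VI (v.valuation F) ((⟨c, σ r, σ s, σ t⟩ : VariableChange F) • (E⁄F)) := by
    rw [hmap']
    obtain ⟨h1, h2, h3, h4, h6⟩ := h
    refine ⟨?_, ?_, ?_, ?_, ?_⟩
    · exact (val_cj hσ hv _).le.trans h1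
    · exact (val_cj hσ hv _).le.trans h2
    · exact (val_cj hσ hv _).le.trans h3
    · exact (val_cj hσ hv _).le.trans h4
    · exact (val_cj hσ hv _).le.trans h6
  have hcomp := vi_comp (E := E⁄F) c r s t ((σ r - r) / (c : F) ^ 2) ((σ s - s) / (c : F))
    ((σ t - t - s * (σ r - r)) / (c : F) ^ 3)
  have hc0 : (c : F) ≠ 0 := c.ne_zero
  have e1 : r + (c : F) ^ 2 * ((σ r - r) / (c : F) ^ 2) = σ r := by field_simp; ring
  have e2 : s + (c : F) * ((σ s - s) / (c : F)) = σ s := by field_simp; ring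
  have e3 : t + (c : F) ^ 3 * ((σ t - t - s * (σ r - r)) / (c : F) ^ 3) + (c : F) ^ 2 * s * ((σ r - r) / (c : F) ^ 2) = σ t := by
    field_simp; ring
  rw [e1, e2, e3] at hcomp
  refine vi_uniq h ?_
  rw [hcomp]
  exact hVI'

/-- Chunk M4 (S/M). r₁ = r + σ e (σ r - r) = e r + σ e σ r is fixed by σ (σ σ = id), s₁ and t₁ = τ + σ e (σ τ - τ) too: rat_of_fix gives rational numbers r₀, s₀, t₀; c is the image of c₀. ⟨c, r₁, s₁, t₁⟩ • (E⁄F) = ⟨1, r', s', t'⟩ • (⟨c, r, s, t⟩ • (E⁄F)) with r' = σ e (σ r - r)/c^2, s' = σ e (σ s - s)/c and t' = (t₁ - τ)/c^3, τ = t + s (r₁ - r)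
(vi_comp: t + c^3 t' + c^2 s r' = t + (t₁ - τ) + s (r₁ - r) = t₁). vi_change. It is the image of ⟨c₀, r₀, s₀, t₀⟩ • E (map_variableChange). -/
theorem descend_core (hσ : Cj σ) (E : WeierstrassCurve ℚ) {c₀ : ℚˣ} {c : Fˣ} (hc : algebraMap ℚ F (c₀ : ℚ) = c)
    {r s t e : F} (h : VI (v.valuation F) ((⟨c, r, s, t⟩ : VariableChange F) • (E⁄F))) (he : e + σ e = 1)
    (h1 : v.valuation F (σ e * (σ r - r) / (c : F) ^ 2) ≤ 1) (h2 : v.valuation F (σ e * (σ s - s) / (c : F)) ≤ 1)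
    (h3 : ∀ τ : F, τ = t + s * (σ e * (σ r - r)) → v.valuation F (σ e * (σ τ - τ) / (c : F) ^ 3) ≤ 1) :
    ∃ r₀ s₀ t₀ : ℚ, VI (v.valuation F) (((⟨c₀, r₀, s₀, t₀⟩ : VariableChange ℚ) • E)⁄F) := by
  have hs2 := m4_ss hσ
  have he' : σ e + e = 1 := by rw [add_comm]; exact he
  have e1 : e = 1 - σ e := by rw [← he]; ring
  -- the new parameters
  set r₁ : F := r + σ e * (σ r - r) with hr₁
  set s₁ : F := s + σ e * (σ s - s) with hs₁
  set τ : F := t + s * (σ e * (σ r - r)) with hτ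
  set t₁ : F := τ + σ e * (σ τ - τ) with ht₁
  have fix : ∀ x : F, σ (x + σ e * (σ x - x)) = x + σ e * (σ x - x) := by
    intro x
    rw [map_add, map_mul, map_sub, hs2, hs2]
    linear_combination (x - σ x) * he
  obtain ⟨r₀, hr₀⟩ := rat_of_fix hσ (fix r)
  obtain ⟨s₀, hs₀⟩ := rat_of_fix hσ (fix s)
  obtain ⟨t₀, ht₀⟩ := rat_of_fix hσ (fix τ)
  refine ⟨r₀, s₀, t₀, ?_⟩
  have hc0 : (c : F) ≠ 0 := c.ne_zero
  have hcomp := vi_comp (E := E⁄F) c r s t (σ e * (σ r - r) / (c : F) ^ 2) (σ e * (σ s - s) / (c : F))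
    (σ e * (σ τ - τ) / (c : F) ^ 3)
  have g1 : r + (c : F) ^ 2 * (σ e * (σ r - r) / (c : F) ^ 2) = r₁ := by rw [hr₁]; field_simp
  have g2 : s + (c : F) * (σ e * (σ s - s) / (c : F)) = s₁ := by rw [hs₁]; field_simp
  have g3 : t + (c : F) ^ 3 * (σ e * (σ τ - τ) / (c : F) ^ 3) + (c : F) ^ 2 * s * (σ e * (σ r - r) / (c : F) ^ 2) = t₁ := by
    rw [ht₁, mul_div_cancel₀ _ (pow_ne_zero 3 hc0)]
    have : (c : F) ^ 2 * s * (σ e * (σ r - r) / (c : F) ^ 2) = s * (σ e * (σ r - r)) := by field_simp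
    rw [this, hτ]
    ring
  rw [g1, g2, g3] at hcomp
  have hVI : VI (v.valuation F) ((⟨c, r₁, s₁, t₁⟩ : VariableChange F) • (E⁄F)) := by
    rw [← hcomp]
    exact vi_change h h1 h2 (h3 τ rfl)
  have hfin : ((⟨c₀, r₀, s₀, t₀⟩ : VariableChange ℚ) • E)⁄F = (⟨c, r₁, s₁, t₁⟩ : VariableChange F) • (E⁄F) := by
    rw [WeierstrassCurve.baseChange, ← WeierstrassCurve.map_variableChange]
    congr 1
    ext
    · exact hc
    · exact hr₀
    · exact hs₀
    · exact ht₀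
  rw [hfin]
  exact hVI

end H13D
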