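import Mathlib
import Pool.Agent.Lib.H13D.M3
import Pool.Agent.Lib.H13D.M4

/-! # H13D, part M: descent of a good equation from F to the rational numbers -/

open NumberField IsDedekindDomain WeierstrassCurve

namespace H13D

open H55P (IQ embF eF LF Per IsHecke Pt ac Inert Dec Nm)
open H55K

variable {F : Type} [Field F] [NumberField F] [IQ F] {σ : F ≃ₐ[ℚ] F} {v : HeightOneSpectrum (𝓞 F)}

theorem m5_big (B : WithZero (Multiplicative ℤ)) : ∃ K : ℕ, WithZero.exp (-(K : ℤ)) * B ≤ 1 := by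
  by_cases hB : B = 0
  · exact ⟨0, by rw [hB, mul_zero]; exact zero_le⟩
  · refine ⟨(WithZero.log B).toNat, ?_⟩
    rw [← WithZero.exp_log hB, ← WithZero.exp_add, ← WithZero.exp_zero, WithZero.exp_le_exp]
    rw [WithZero.log_exp]
    have := Int.self_le_toNat (WithZero.log B)
    omega

theorem m5_mul {Γ : Type} [LinearOrderedCommGroupWithZero Γ] {w : Valuation F Γ} {x y : F} (hx : w x ≤ 1) (hy : w y ≤ 1) :
    w (x * y) ≤ 1 := by
  rw [map_mul]
  exact mul_le_one' hx hy

/-- Chunk M5 (M). c in Q^*, h as in descend_core. v stable: e from e_inert, conj_bounds: h1, h2 are products of integral elements. h3: σ τ - τ with τ = t + s (σ e (σ r - r)): σ τ = σ t + σ s (e (r - σ r)) (σ σ = id, σ σ e = e), so σ τ - τ = (σ t - t - s (σ r - r)) + s (σ r - r) (1 - σ e) - σ s e (σ r - r) = (σ t - t - s (σ r - r)) - e (σ s - s) (σ r - r) (1 - σ e = e);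
divided by c^3 both terms are integral (conj_bounds). v not stable: let B ≥ 1 be a bound for the values of (σ r - r)/c^2, (σ s - s)/c, s (σ r - r)/c^3 and σ s (σ r - r)/c^3, (σ t - t)/c^3; K with exp (-K) B ≤ 1; e from e_split: h1, h2 clear; h3: σ τ - τ = (σ t - t) - σ s e (σ r - r) - s σ e (σ r - r), V(e) ≤ 1, V(σ e) ≤ 1, so the value of
(σ τ - τ)/c^3 is ≤ B. descend_core. -/
theorem descend_vi (hσ : Cj σ) (hun : ∃ a : 𝓞 F, a - cj a ∉ v.asIdeal) (E : WeierstrassCurve ℚ) {c₀ : ℚˣ} {c : Fˣ}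
    (hc : algebraMap ℚ F (c₀ : ℚ) = c) {r s t : F} (h : VI (v.valuation F) ((⟨c, r, s, t⟩ : VariableChange F) • (E⁄F))) :
    ∃ r₀ s₀ t₀ : ℚ, VI (v.valuation F) (((⟨c₀, r₀, s₀, t₀⟩ : VariableChange ℚ) • E)⁄F) := by
  have hc0 : (c : F) ≠ 0 := c.ne_zero
  have hcσ : σ (c : F) = c := by
    rw [← hc]
    exact σ.commutes _
  have hinv := m2_invol hσ
  have hτ : ∀ e : F, σ (t + s * (σ e * (σ r - r))) = σ t + σ s * (e * (r - σ r)) := by
    intro e
    rw [map_add, map_mul, map_mul, map_sub, hinv, hinv]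
  by_cases hv : ∀ a : 𝓞 F, a ∈ v.asIdeal → cj a ∈ v.asIdeal
  · obtain ⟨e, he, he1, he2⟩ := e_inert hσ hun hv
    obtain ⟨b1, b2, b3⟩ := conj_bounds hσ hv E hcσ h
    refine descend_core hσ E hc h he ?_ ?_ ?_
    · rw [mul_div_assoc]
      exact m5_mul he2 b1
    · rw [mul_div_assoc]
      exact m5_mul he2 b2
    · rintro τ rfl
      have e1 : σ e * (σ (t + s * (σ e * (σ r - r))) - (t + s * (σ e * (σ r - r)))) / (c : F) ^ 3 =
          σ e * ((σ t - t - s * (σ r - r)) / (c : F) ^ 3 - e * (((σ s - s) / (c : F)) * ((σ r - r) / (c : F) ^ 2))) := by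
        rw [hτ]
        have he3 : σ e = 1 - e := by rw [← he]; ring
        rw [he3]
        field_simp
        ring
      rw [e1]
      refine m5_mul he2 ((Valuation.map_sub _ _ _).trans (max_le b3 (m5_mul he1 (m5_mul b2 b1))))
  · set w := v.valuation F with hw
    set B : WithZero (Multiplicative ℤ) := max (max (w ((σ r - r) / (c : F) ^ 2)) (w ((σ s - s) / (c : F))))
      (max (max (w (s * (σ r - r) / (c : F) ^ 3)) (w (σ s * (σ r - r) / (c : F) ^ 3))) (w ((σ t - t) / (c : F) ^ 3))) with hB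
    obtain ⟨K, hK⟩ := m5_big B
    obtain ⟨e, he, he1, he2⟩ := e_split hσ hv K
    have he2' : w (σ e) ≤ 1 := he2.trans (by
      rw [← WithZero.exp_zero, WithZero.exp_le_exp]
      omega)
    have hb : ∀ y : F, w y ≤ B → w (σ e * y) ≤ 1 := by
      intro y hy
      rw [map_mul]
      exact (mul_le_mul' he2 hy).trans hK
    have c1 : w ((σ r - r) / (c : F) ^ 2) ≤ B := (le_max_left _ _).trans (le_max_left _ _)
    have c2 : w ((σ s - s) / (c : F)) ≤ B := (le_max_right _ _).trans (le_max_left _ _)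
    have c3 : w (s * (σ r - r) / (c : F) ^ 3) ≤ B := ((le_max_left _ _).trans (le_max_left _ _)).trans (le_max_right _ _)
    have c4 : w (σ s * (σ r - r) / (c : F) ^ 3) ≤ B := ((le_max_right _ _).trans (le_max_left _ _)).trans (le_max_right _ _)
    have c5 : w ((σ t - t) / (c : F) ^ 3) ≤ B := (le_max_right _ _).trans (le_max_right _ _)
    refine descend_core hσ E hc h he ?_ ?_ ?_
    · rw [mul_div_assoc]
      exact hb _ c1
    · rw [mul_div_assoc]
      exact hb _ c2
    · rintro τ rfl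
      have e1 : σ e * (σ (t + s * (σ e * (σ r - r))) - (t + s * (σ e * (σ r - r)))) / (c : F) ^ 3 =
          σ e * ((σ t - t) / (c : F) ^ 3) - e * (σ e * (σ s * (σ r - r) / (c : F) ^ 3)) -
            σ e * (σ e * (s * (σ r - r) / (c : F) ^ 3)) := by
        rw [hτ]
        field_simp
        ring
      rw [e1]
      refine (Valuation.map_sub _ _ _).trans (max_le ((Valuation.map_sub _ _ _).trans (max_le (hb _ c5) ?_)) ?_)
      · exact m5_mul he1 (hb _ c4)
      · exact m5_mul he2' (hb _ c3)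

theorem m5_int {l : ℕ} (hl : l.Prime) (hlv : (l : 𝓞 F) ∈ v.asIdeal) (n : ℤ) : (n : 𝓞 F) ∈ v.asIdeal ↔ (l : ℤ) ∣ n := by
  constructor
  · intro h
    by_contra hn
    obtain ⟨u, w, huw⟩ := (Nat.prime_iff_prime_int.1 hl).irreducible.coprime_iff_not_dvd.2 hn
    apply v.isPrime.ne_top
    rw [Ideal.eq_top_iff_one]
    have h5 : (1 : 𝓞 F) = (u : 𝓞 F) * (l : 𝓞 F) + (w : 𝓞 F) * (n : 𝓞 F) := by
      have := congrArg (fun z : ℤ => (z : 𝓞 F)) huw
      push_cast at this
      exact this.symm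
    rw [h5]
    exact v.asIdeal.add_mem (v.asIdeal.mul_mem_left _ hlv) (v.asIdeal.mul_mem_left _ h)
  · rintro ⟨c, rfl⟩
    push_cast
    exact v.asIdeal.mul_mem_right _ hlv

theorem m5_val (n : ℤ) : v.valuation F ((n : ℤ) : F) < 1 ↔ (n : 𝓞 F) ∈ v.asIdeal := by
  rw [← v.valuation_lt_one_iff_mem (K := F)]
  have e : algebraMap (𝓞 F) F (n : 𝓞 F) = ((n : ℤ) : F) := map_intCast _ n
  rw [← e]

theorem m5_val1 (n : ℤ) : v.valuation F ((n : ℤ) : F) ≤ 1 := by
  have e : algebraMap (𝓞 F) F (n : 𝓞 F) = ((n : ℤ) : F) := map_intCast _ n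
  rw [← e]
  exact v.valuation_le_one _

theorem m5_rat (q : ℚ) : algebraMap ℚ F q * ((q.den : ℤ) : F) = ((q.num : ℤ) : F) := by
  have h1 : q * (q.den : ℚ) = (q.num : ℚ) := Rat.mul_den_eq_num q
  have h2 := congrArg (algebraMap ℚ F) h1
  rw [map_mul, map_natCast, map_intCast] at h2
  rw [← h2]
  push_cast
  rfl

/-- Chunk M5 (S). v.valuation F (q : F) ≤ 1 implies that l does not divide the denominator: q = num/den; if l divides den then not num (coprime), V(den) < 1, V(num) = 1 (an integer prime to l is not in v). -/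
theorem den_of_val {l : ℕ} (hl : l.Prime) (hlv : (l : 𝓞 F) ∈ v.asIdeal) (q : ℚ) (h : v.valuation F (algebraMap ℚ F q) ≤ 1) : ¬ l ∣ q.den := by
  intro hd
  have h1 : ¬ (l : ℤ) ∣ q.num := by
    intro h2
    have h3 := q.reduced
    have h4 : l ∣ q.num.natAbs := Int.natCast_dvd.1 h2
    have h5 := Nat.dvd_gcd h4 hd
    rw [Nat.Coprime] at h3
    rw [h3] at h5
    exact hl.one_lt.ne' (Nat.dvd_one.1 h5)
  have h2 := congrArg (v.valuation F) (m5_rat (F := F) q)
  rw [map_mul] at h2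
  have h3 : v.valuation F ((q.den : ℤ) : F) < 1 := (m5_val _).2 ((m5_int hl hlv _).2 (by exact_mod_cast hd))
  have h4 : v.valuation F (algebraMap ℚ F q) * v.valuation F ((q.den : ℤ) : F) < 1 :=
    mul_lt_one_of_nonneg_of_lt_one_right h zero_le h3
  rw [h2, m5_val, m5_int hl hlv] at h4
  exact h1 h4

/-- Chunk M5 (S). The same for the numerator. -/
theorem num_of_val {l : ℕ} (hl : l.Prime) (hlv : (l : 𝓞 F) ∈ v.asIdeal) (q : ℚ) (h : v.valuation F (algebraMap ℚ F q) = 1) : ¬ (l : ℤ) ∣ q.num := by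
  intro h2
  have h3 := congrArg (v.valuation F) (m5_rat (F := F) q)
  rw [map_mul, h, one_mul] at h3
  have h4 := (m5_val (v := v) q.num).2 ((m5_int hl hlv _).2 h2)
  rw [← h3, m5_val, m5_int hl hlv] at h4
  exact den_of_val hl hlv q h.le (by exact_mod_cast h4)

end H13D
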