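import Mathlib
import Pool.Agent.Lib.H13D.M5
import Pool.Agent.Lib.H55K.D2

/-! # H13D, part M: descent of a good equation from F to the rational numbers -/

open NumberField IsDedekindDomain WeierstrassCurve

namespace H13D

open H55P (IQ embF eF LF Per IsHecke Pt ac Inert Dec Nm)
open H55K

variable {F : Type} [Field F] [NumberField F] [IQ F] {v : HeightOneSpectrum (𝓞 F)}

/-- Chunk M6 (M). UNRAMIFIED PRIMES. h: C = ⟨u, r, s, t⟩ over F with C • (E⁄F) integral, discriminant of value 1. v.valuation F l = exp (-1) (val_l), so V(u) = V(l^n) for an integer n (the valuation of u ≠ 0 is exp of an integer), u = c ε with c the image of c₀ = l^n (a unit of ℚ; zpow), V(ε) = 1: vi_unit gives VI for ⟨c, r, s, t⟩. descend_vi: r₀, s₀, t₀; E' = ⟨c₀, r₀, s₀, t₀⟩ • E.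
The discriminant of E' is E.Δ/c₀^12 (variableChange_Δ), that of C • (E⁄F) is E.Δ/u^12: V(E'.Δ) = V(E.Δ)/V(c)^12 = V(E.Δ)/V(u)^12 = 1. den_of_val, num_of_val (the coefficients of E'⁄F are the images). -/
theorem descend (hun : ∃ a : 𝓞 F, a - cj a ∉ v.asIdeal) {l : ℕ} (hl : l.Prime) (hlv : (l : 𝓞 F) ∈ v.asIdeal) (E : WeierstrassCurve ℚ)
    (h : GoodAt (E⁄F) v) : ∃ C : VariableChange ℚ, IntL (C • E) l := by
  obtain ⟨σ, hσ⟩ := exists_cj F
  obtain ⟨C, k1, k2, k3, k4, k6, kΔ⟩ := h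
  obtain ⟨u, r, s, t⟩ := C
  have hl0 : (l : F) ≠ 0 := by exact_mod_cast hl.ne_zero
  have hlQ : (l : ℚ) ≠ 0 := by exact_mod_cast hl.ne_zero
  have hvl := val_l hun hl hlv
  have hu0 : v.valuation F (u : F) ≠ 0 := (Valuation.ne_zero_iff _).2 u.ne_zero
  set n : ℤ := WithZero.log (v.valuation F (u : F)) with hn
  have hvu : v.valuation F (u : F) = WithZero.exp n := (WithZero.exp_log hu0).symm
  set c₀ : ℚˣ := (Units.mk0 (l : ℚ) hlQ) ^ (-n) with hc₀
  set c : Fˣ := Units.map ((algebraMap ℚ F : ℚ →+* F) : ℚ →* F) c₀ with hc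
  have hcc : algebraMap ℚ F (c₀ : ℚ) = (c : F) := rfl
  have hvc : v.valuation F (c : F) = WithZero.exp n := by
    rw [← hcc, hc₀, Units.val_zpow_eq_zpow_val, Units.val_mk0, map_zpow₀, map_natCast, map_zpow₀, hvl, ← WithZero.exp_zsmul]
    congr 1
    simp
  have hvε : v.valuation F (((c⁻¹ * u : Fˣ) : F)) = 1 := by
    rw [Units.val_mul, Units.val_inv_eq_inv_val, map_mul, map_inv₀, hvc, hvu]
    exact inv_mul_cancel₀ WithZero.exp_ne_zero
  have hVI : VI (v.valuation F) ((⟨c * (c⁻¹ * u), r, s, t⟩ : VariableChange F) • (E⁄F)) := by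
    rw [mul_inv_cancel_left]
    exact ⟨k1, k2, k3, k4, k6⟩
  obtain ⟨r₀, s₀, t₀, h0⟩ := descend_vi hσ hun E hcc (vi_unit hvε hVI)
  have hΔ : v.valuation F (algebraMap ℚ F ((⟨c₀, r₀, s₀, t₀⟩ : VariableChange ℚ) • E).Δ) = 1 := by
    rw [variableChange_Δ] at kΔ ⊢
    have e1 : (E⁄F).Δ = algebraMap ℚ F E.Δ := E.map_Δ _
    rw [e1] at kΔ
    simp only [map_mul, map_pow, Units.val_inv_eq_inv_val, map_inv₀] at kΔ ⊢
    rw [hcc, hvc]
    rw [hvu] at kΔ
    exact kΔ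
  refine ⟨⟨c₀, r₀, s₀, t₀⟩, ?_, ?_, ?_, ?_, ?_, ?_, ?_⟩
  · exact den_of_val hl hlv _ h0.a1
  · exact den_of_val hl hlv _ h0.a2
  · exact den_of_val hl hlv _ h0.a3
  · exact den_of_val hl hlv _ h0.a4
  · exact den_of_val hl hlv _ h0.a6
  · exact num_of_val hl hlv _ hΔ
  · exact den_of_val hl hlv _ hΔ.le

end H13D
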