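import Mathlib

/-! # H13D, part P: the prime number below a prime -/

open NumberField IsDedekindDomain

namespace H13D

/-- Copy of H55K.TQ.ra2_below. -/
theorem below_v {K : Type} [Field K] [NumberField K] (w : HeightOneSpectrum (𝓞 K)) :
    ∃ (l f : ℕ), l.Prime ∧ (l : 𝓞 K) ∈ w.asIdeal ∧ 0 < f ∧ Ideal.absNorm w.asIdeal = l ^ f := by
  have hmax : w.asIdeal.IsMaximal := w.isMaximal
  letI : Field (𝓞 K ⧸ w.asIdeal) := Ideal.Quotient.field w.asIdeal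
  have h0 : Ideal.absNorm w.asIdeal ≠ 0 := by
    rw [Ne, Ideal.absNorm_eq_zero_iff]; exact w.ne_bot
  have hcard : Ideal.absNorm w.asIdeal = Nat.card (𝓞 K ⧸ w.asIdeal) := rfl
  haveI : Finite (𝓞 K ⧸ w.asIdeal) := Nat.finite_of_card_ne_zero (by rw [← hcard]; exact h0)
  letI : Fintype (𝓞 K ⧸ w.asIdeal) := Fintype.ofFinite _
  obtain ⟨p, hp⟩ := CharP.exists (𝓞 K ⧸ w.asIdeal)
  obtain ⟨n, hpp, hn⟩ := FiniteField.card (𝓞 K ⧸ w.asIdeal) p
  refine ⟨p, n, hpp, ?_, n.pos, ?_⟩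
  · rw [← Ideal.Quotient.eq_zero_iff_mem, map_natCast]
    exact CharP.cast_eq_zero _ p
  · rw [hcard, Nat.card_eq_fintype_card, hn]

end H13D
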