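import Mathlib
import Pool.Agent.Lib.H13D.A1
import Pool.Agent.Lib.H55K.CG
import Pool.Agent.Lib.H55K.E0

/-! # H13D, part R: the primes ramified in F: an automorphism of order two -/

open NumberField IsDedekindDomain WeierstrassCurve

namespace H13D

open H55P (IQ embF eF LF Per IsHecke Pt ac Inert Dec Nm)
open H35P (WAB Ker tt GoodW IntW)
open H55K

variable {F : Type} [Field F] [NumberField F] [IQ F] {A B : F} {Ω : Type} [Field Ω] [DecidableEq Ω]
  [Algebra F Ω] {V : ValuationSubring Ω} {Kg : AddSubgroup (Pt (WAB A B) Ω)} {u r : Ω}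

/-- Chunk R1 (S). xn (tP) - xn (tP') = (t (xc P) - t (xc P'))/u^2 = (t u/u)^2 t (xn P - xn P') (xc_acr, xn_sub); z = xn P - xn P' is in V (hR.int), V(t z - z) < 1, V((t u/u)^2) ≤ 1. -/
theorem xn_acr_sub (hR : RM A B V Kg u r) (t : Ω ≃+* Ω) (hA : t (algebraMap F Ω A) = algebraMap F Ω A)
    (hB : t (algebraMap F Ω B) = algebraMap F Ω B) (ht : ∀ x ∈ V, V.valuation (t x - x) < 1) (hu : V.valuation (t u / u) ≤ 1)
    {P P' : Pt (WAB A B) Ω} (hP : P ∉ Kg) (hP' : P' ∉ Kg) :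
    V.valuation (xn u r (acr t hA hB P) - xn u r (acr t hA hB P') - (t u / u) ^ 2 * (xn u r P - xn u r P')) < 1 := by
  have hu0 := hR.une
  set z := xn u r P - xn u r P' with hz
  have hzV : z ∈ V := by
    rw [← V.valuation_le_one_iff]
    exact (V.valuation.map_sub _ _).trans (max_le (hR.int P hP) (hR.int P' hP'))
  have h1 : xn u r (acr t hA hB P) - xn u r (acr t hA hB P') = (t u / u) ^ 2 * t z := by
    have h2 : xc P - xc P' = u ^ 2 * z := by
      rw [hz]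
      unfold xn
      field_simp
      ring
    have h3 : t (xc P) - t (xc P') = t u ^ 2 * t z := by
      rw [← map_sub, h2, map_mul, map_pow]
    unfold xn
    rw [xc_acr, xc_acr]
    field_simp
    linear_combination h3
  have h4 : xn u r (acr t hA hB P) - xn u r (acr t hA hB P') - (t u / u) ^ 2 * z = (t u / u) ^ 2 * (t z - z) := by
    rw [h1]
    ring
  rw [h4, map_mul, map_pow]
  calc V.valuation (t u / u) ^ 2 * V.valuation (t z - z) ≤ 1 * V.valuation (t z - z) :=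
        mul_le_mul_left (pow_le_one' hu 2) _
    _ = V.valuation (t z - z) := one_mul _
    _ < 1 := ht z hzV

/-- Chunk R1 (M). Write tP = acr t P, T = the points killed by l; t maps T to T; the nonzero points of T are not in Kg (hR.tors). Suppose tQ₁ ≠ -Q₁ and tQ₂ ≠ Q₂ for some Q₁, Q₂ in T (otherwise done). P₁ = Q₁ + tQ₁ ≠ 0, tP₁ = P₁; P₂ = Q₂ - tQ₂ ≠ 0, tP₂ = -P₂ (hinv). P₁ ≠ ±P₂ (else tP₁ = -P₁, 2 P₁ = 0, P₁ = 0: l odd), so V(xn P₁ - xn P₂) = 1 (hR.diff).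
xn (tP₁) = xn P₁, xn (tP₂) = xn (-P₂) = xn P₂ (xc (-P) = xc P), so by xn_acr_sub V(((t u/u)^2 - 1) (xn P₁ - xn P₂)) < 1: V((t u/u)^2 - 1) < 1. For R ≠ 0 in T: xn_acr_sub for R and P₁: xn (tR) - xn P₁ is congruent to xn R - xn P₁, so V(xn (tR) - xn R) < 1, cls_of: tR - R or tR + R in Kg, it is in T, so it is 0 (hR.tors). So tR = R or tR = -R for every R in T;
H55K.two_sub (G8B.lean) for the group T (AddMonoidHom.ker or a subgroup type; K = bottom), f = t, g = the identity; or directly: if tR = R ≠ -R and tR' = -R' ≠ R' then t(R + R') is neither R + R' nor -(R + R'). -/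
theorem inv_pm (hR : RM A B V Kg u r) {l : ℕ} (hl : l.Prime) (h2 : l ≠ 2) (hlV : V.valuation (l : Ω) = 1) (t : Ω ≃+* Ω)
    (hA : t (algebraMap F Ω A) = algebraMap F Ω A) (hB : t (algebraMap F Ω B) = algebraMap F Ω B)
    (ht : ∀ x ∈ V, V.valuation (t x - x) < 1) (hu : V.valuation (t u / u) ≤ 1)
    (hinv : ∀ P : Pt (WAB A B) Ω, l • P = 0 → acr t hA hB (acr t hA hB P) = P) :
    (∀ P : Pt (WAB A B) Ω, l • P = 0 → acr t hA hB P = P) ∨ ∀ P : Pt (WAB A B) Ω, l • P = 0 → acr t hA hB P = -P := by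
  by_contra hc
  push Not at hc
  obtain ⟨⟨Q₂, hQ₂, hne₂⟩, Q₁, hQ₁, hne₁⟩ := hc
  -- the odd prime
  have hodd : ∀ P : Pt (WAB A B) Ω, l • P = 0 → P + P = 0 → P = 0 := by
    intro P h1 h3
    have h4 : (addOrderOf P) ∣ l := addOrderOf_dvd_of_nsmul_eq_zero h1
    have h5 : (addOrderOf P) ∣ 2 := addOrderOf_dvd_of_nsmul_eq_zero (by rw [two_nsmul]; exact h3)
    have h6 : Nat.Coprime l 2 := (Nat.coprime_primes hl Nat.prime_two).2 h2
    have h7 := Nat.dvd_gcd h4 h5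
    rw [Nat.Coprime.gcd_eq_one h6] at h7
    exact AddMonoid.addOrderOf_eq_one_iff.1 (Nat.dvd_one.1 h7)
  have hK : ∀ P : Pt (WAB A B) Ω, l • P = 0 → P ∈ Kg → P = 0 := fun P h1 h3 => hR.tors l hlV P h3 h1
  have hTt : ∀ P : Pt (WAB A B) Ω, l • P = 0 → l • (acr t hA hB P) = 0 := by
    intro P h1
    rw [← map_nsmul, h1, map_zero]
  have hTa : ∀ P Q : Pt (WAB A B) Ω, l • P = 0 → l • Q = 0 → l • (P + Q) = 0 := by
    intro P Q h1 h3
    rw [smul_add, h1, h3, add_zero]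
  have hTs : ∀ P Q : Pt (WAB A B) Ω, l • P = 0 → l • Q = 0 → l • (P - Q) = 0 := by
    intro P Q h1 h3
    rw [smul_sub, h1, h3, sub_zero]
  have hxn : ∀ P : Pt (WAB A B) Ω, xn u r (-P) = xn u r P := by
    intro P
    unfold xn
    rw [xc_neg]
  set P₁ := Q₁ + acr t hA hB Q₁ with hP₁
  set P₂ := Q₂ - acr t hA hB Q₂ with hP₂
  have hP₁0 : P₁ ≠ 0 := by
    intro h
    exact hne₁ (eq_neg_of_add_eq_zero_right h)
  have hP₂0 : P₂ ≠ 0 := by
    intro h
    exact hne₂ (sub_eq_zero.1 h).symm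
  have hl₁ : l • P₁ = 0 := hTa _ _ hQ₁ (hTt _ hQ₁)
  have hl₂ : l • P₂ = 0 := hTs _ _ hQ₂ (hTt _ hQ₂)
  have ht₁ : acr t hA hB P₁ = P₁ := by
    rw [hP₁, map_add, hinv _ hQ₁, add_comm]
  have ht₂ : acr t hA hB P₂ = -P₂ := by
    rw [hP₂, map_sub, hinv _ hQ₂, neg_sub]
  have hn₁ : P₁ ∉ Kg := fun h => hP₁0 (hK _ hl₁ h)
  have hn₂ : P₂ ∉ Kg := fun h => hP₂0 (hK _ hl₂ h)
  have hnm : P₁ - P₂ ∉ Kg := by
    intro h
    have h3 := sub_eq_zero.1 (hK _ (hTs _ _ hl₁ hl₂) h)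
    apply hP₁0
    apply hodd _ hl₁
    nth_rewrite 1 [h3]
    rw [← ht₁, h3, ht₂, add_neg_cancel]
  have hnp : P₁ + P₂ ∉ Kg := by
    intro h
    have h3 : P₁ = -P₂ := eq_neg_of_add_eq_zero_left (hK _ (hTa _ _ hl₁ hl₂) h)
    apply hP₂0
    apply hodd _ hl₂
    have h4 : P₂ = -P₁ := by rw [h3, neg_neg]
    have h5 : acr t hA hB P₂ = -P₁ := by rw [h4, map_neg, ht₁]
    rw [ht₂, neg_inj] at h5
    nth_rewrite 1 [h5]
    rw [h3, neg_add_cancel]
  have hd := hR.diff P₁ P₂ hn₁ hn₂ hnm hnp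
  set c := (t u / u) ^ 2 with hc
  have h3 := xn_acr_sub hR t hA hB ht hu hn₁ hn₂
  rw [ht₁, ht₂, hxn, ← hc] at h3
  have h4 : V.valuation (1 - c) < 1 := by
    have h5 : xn u r P₁ - xn u r P₂ - c * (xn u r P₁ - xn u r P₂) = (1 - c) * (xn u r P₁ - xn u r P₂) := by ring
    rw [h5, map_mul, hd, mul_one] at h3
    exact h3
  have hall : ∀ R : Pt (WAB A B) Ω, l • R = 0 → acr t hA hB R = R ∨ acr t hA hB R = -R := by
    intro R hlR
    by_cases hR0 : R = 0
    · left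
      rw [hR0, map_zero]
    have hnR : R ∉ Kg := fun h => hR0 (hK _ hlR h)
    have hntR : acr t hA hB R ∉ Kg := fun h => hR0 ((acr_zero_iff t hA hB R).1 (hK _ (hTt _ hlR) h))
    have h5 := xn_acr_sub hR t hA hB ht hu hnR hn₁
    rw [ht₁, ← hc] at h5
    have h6 : V.valuation (xn u r R - xn u r P₁) ≤ 1 :=
      (V.valuation.map_sub _ _).trans (max_le (hR.int R hnR) (hR.int P₁ hn₁))
    have h7 : V.valuation ((1 - c) * (xn u r R - xn u r P₁)) < 1 := by
      rw [map_mul]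
      calc V.valuation (1 - c) * V.valuation (xn u r R - xn u r P₁) ≤ V.valuation (1 - c) * 1 :=
            mul_le_mul_right h6 _
        _ = V.valuation (1 - c) := mul_one _
        _ < 1 := h4
    have h8 : V.valuation (xn u r (acr t hA hB R) - xn u r R) < 1 := by
      have h9 : xn u r (acr t hA hB R) - xn u r R =
          (xn u r (acr t hA hB R) - xn u r P₁ - c * (xn u r R - xn u r P₁)) -
            (1 - c) * (xn u r R - xn u r P₁) := by ring
      rw [h9]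
      exact lt_of_le_of_lt (V.valuation.map_sub _ _) (max_lt h5 h7)
    rcases cls_of hR hntR hnR h8 with h10 | h10
    · left
      exact sub_eq_zero.1 (hK _ (hTs _ _ (hTt _ hlR) hlR) h10)
    · right
      exact eq_neg_of_add_eq_zero_left (hK _ (hTa _ _ (hTt _ hlR) hlR) h10)
  have e₂ := (hall Q₂ hQ₂).resolve_left hne₂
  have e₁ := (hall Q₁ hQ₁).resolve_right hne₁
  rcases hall (Q₁ + Q₂) (hTa _ _ hQ₁ hQ₂) with h5 | h5
  · rw [map_add, e₁, e₂] at h5
    have h6 : -Q₂ = Q₂ := add_left_cancel h5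
    have h7 : Q₂ = 0 := hodd _ hQ₂ (by nth_rewrite 1 [← h6]; exact neg_add_cancel _)
    apply hne₂
    rw [h7, map_zero]
  · rw [map_add, e₁, e₂, neg_add] at h5
    have h6 : Q₁ = -Q₁ := add_right_cancel h5
    have h7 : Q₁ = 0 := hodd _ hQ₁ (by nth_rewrite 1 [h6]; exact neg_add_cancel _)
    apply hne₁
    rw [h7, map_zero, neg_zero]

end H13D
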