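import Mathlib
import Pool.Agent.Lib.H13D.B2
import Pool.Agent.Lib.H55K.D2
import Pool.Agent.Lib.H55K.K0A
import Pool.Agent.Lib.H55K.T1
import Pool.Agent.Lib.H55K.Y3

/-! # H13D, part R: a good model over F -/

open NumberField IsDedekindDomain WeierstrassCurve

namespace H13D

open H55P (IQ embF eF LF Per IsHecke Pt ac Inert Dec Nm)
open H35P (WAB Ker tt GoodW IntW)
open H55K
open H55K.MG (VC Crd)

theorem r2_vc1 {F : Type} [Field F] [NumberField F] {A B : F} (W₀ : WeierstrassCurve (𝓞 F))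
    (hA : A = -(algebraMap (𝓞 F) F W₀.c₄) / 48) (hB : B = -(algebraMap (𝓞 F) F W₀.c₆) / 864) :
    VC (WAB A B) (W₀⁄F) 1 (algebraMap (𝓞 F) F W₀.b₂ / 12) (algebraMap (𝓞 F) F W₀.a₁ / 2) (algebraMap (𝓞 F) F W₀.a₃ / 2) := by
  set w : 𝓞 F →+* F := algebraMap (𝓞 F) F with hw
  have k1 : (1 : F) * (w W₀.a₁) = (WAB A B).a₁ + 2 * (w W₀.a₁ / 2) := by
    simp only [WAB]
    ring
  have k2 : (1 : F) ^ 2 * (w W₀.a₂) = (WAB A B).a₂ - (w W₀.a₁ / 2) * (WAB A B).a₁ + 3 * (w W₀.b₂ / 12) - (w W₀.a₁ / 2) ^ 2 := by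
    simp only [WAB, WeierstrassCurve.b₂, map_add, map_mul, map_pow, map_ofNat]
    ring
  have k3 : (1 : F) ^ 3 * (w W₀.a₃) = (WAB A B).a₃ + (w W₀.b₂ / 12) * (WAB A B).a₁ + 2 * (w W₀.a₃ / 2) := by
    simp only [WAB]
    ring
  have k4 : (1 : F) ^ 4 * (w W₀.a₄) = (WAB A B).a₄ - (w W₀.a₁ / 2) * (WAB A B).a₃ + 2 * (w W₀.b₂ / 12) * (WAB A B).a₂ -
      (w W₀.a₃ / 2 + (w W₀.b₂ / 12) * (w W₀.a₁ / 2)) * (WAB A B).a₁ + 3 * (w W₀.b₂ / 12) ^ 2 - 2 * (w W₀.a₁ / 2) * (w W₀.a₃ / 2) := by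
    simp only [WAB, WeierstrassCurve.b₂, hA, WeierstrassCurve.c₄, WeierstrassCurve.b₄, map_add, map_sub, map_mul, map_pow, map_ofNat]
    ring
  have k6 : (1 : F) ^ 6 * (w W₀.a₆) = (WAB A B).a₆ + (w W₀.b₂ / 12) * (WAB A B).a₄ + (w W₀.b₂ / 12) ^ 2 * (WAB A B).a₂ + (w W₀.b₂ / 12) ^ 3 -
      (w W₀.a₃ / 2) * (WAB A B).a₃ - (w W₀.a₃ / 2) ^ 2 - (w W₀.b₂ / 12) * (w W₀.a₃ / 2) * (WAB A B).a₁ := by
    simp only [WAB, WeierstrassCurve.b₂, hA, hB, WeierstrassCurve.c₄, WeierstrassCurve.b₄, WeierstrassCurve.c₆, WeierstrassCurve.b₆, map_neg, map_add, map_sub, map_mul, map_pow, map_ofNat]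
    ring
  exact ⟨one_ne_zero, k1, k2, k3, k4, k6⟩

theorem r2_vc2 {k : Type} [Field k] (W : WeierstrassCurve k) (C : VariableChange k) : VC W (C • W) (C.u : k) C.r C.s C.t := by
  have hu : (C.u : k) ≠ 0 := C.u.ne_zero
  have hi : (C.u : k) * ((C.u⁻¹ : kˣ) : k) = 1 := C.u.mul_inv
  refine ⟨hu, ?_, ?_, ?_, ?_, ?_⟩
  · rw [variableChange_a₁]
    linear_combination (W.a₁ + 2 * C.s) * hi
  · rw [variableChange_a₂, ← mul_assoc, ← mul_pow, hi, one_pow, one_mul]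
  · rw [variableChange_a₃, ← mul_assoc, ← mul_pow, hi, one_pow, one_mul]
  · rw [variableChange_a₄, ← mul_assoc, ← mul_pow, hi, one_pow, one_mul]
  · rw [variableChange_a₆, ← mul_assoc, ← mul_pow, hi, one_pow, one_mul]

theorem r2_trans {k : Type} [Field k] {W W' W'' : WeierstrassCurve k} {r s t u' r' s' t' : k} (h : VC W W' 1 r s t)
    (h' : VC W' W'' u' r' s' t') : VC W W'' u' (r' + r) (s' + s) (t' + s * r' + t) := by
  obtain ⟨-, a1, a2, a3, a4, a6⟩ := h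
  obtain ⟨hu, b1, b2, b3, b4, b6⟩ := h'
  rw [one_mul] at a1
  rw [one_pow, one_mul] at a2 a3 a4 a6
  rw [a1, a2, a3, a4, a6] at *
  refine ⟨hu, ?_, ?_, ?_, ?_, ?_⟩
  · linear_combination b1
  · linear_combination b2
  · linear_combination b3
  · linear_combination b4
  · linear_combination b6

theorem r2_map {F : Type} [Field F] {Ω : Type} [Field Ω] [Algebra F Ω] {W W' : WeierstrassCurve F} {u r s t : F} (h : VC W W' u r s t) :
    VC (W⁄Ω) (W'⁄Ω) (algebraMap F Ω u) (algebraMap F Ω r) (algebraMap F Ω s) (algebraMap F Ω t) := by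
  obtain ⟨hu, k1, k2, k3, k4, k6⟩ := h
  have j1 := congrArg (algebraMap F Ω) k1
  have j2 := congrArg (algebraMap F Ω) k2
  have j3 := congrArg (algebraMap F Ω) k3
  have j4 := congrArg (algebraMap F Ω) k4
  have j6 := congrArg (algebraMap F Ω) k6
  simp only [map_add, map_sub, map_mul, map_pow, map_ofNat] at j1 j2 j3 j4 j6
  exact ⟨(map_ne_zero _).2 hu, j1, j2, j3, j4, j6⟩

/-- Chunk R2 (M). h: C over F with C • (W₀⁄F) integral at v and discriminant of value 1; W' = C • (W₀⁄F), GoodW (W'⁄Ω) V (hV : V(x) ≤ 1 iff v(x) ≤ 1, Abw.eq_one). VC ((WAB A B)⁄Ω) (W'⁄Ω) u r s t with the images of u = C.u, r = C.r + ρ, s = C.s + α, t = C.t + C.r α + τ, where ρ = b₂/12, α = a₁/2, τ = a₃/2 (coefficients of W₀⁄F):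
composition of the change of variables of exists_model (B3.lean, H55K.TQ.rf_fix: k1 .. k6) with C (variableChange_a₁, ..; VariableChange.mul_def); check the five equations by field_simp, ring or linear_combination. MG.vc_iso (the discriminants are not 0): Θ; MG.kg_ex: Kg; rm_of. The last statement: H55K.TQ.inert_triv (T1.lean) with M = Set.range (algebraMap F Ω), which g fixes. -/
theorem exists_rm_F {F : Type} [Field F] [NumberField F] {A B : F} {Ω : Type} [Field Ω] [DecidableEq Ω] [Algebra F Ω]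
    (W₀ : WeierstrassCurve (𝓞 F)) (hA : A = -(algebraMap (𝓞 F) F W₀.c₄) / 48) (hB : B = -(algebraMap (𝓞 F) F W₀.c₆) / 864)
    (hΔ : W₀.Δ ≠ 0) (v : HeightOneSpectrum (𝓞 F)) (h : GoodAt (W₀⁄F) v) {V : ValuationSubring Ω} (hV : Abw V v) :
    ∃ (Kg : AddSubgroup (Pt (WAB A B) Ω)) (u r : F), RM A B V Kg (algebraMap F Ω u) (algebraMap F Ω r) ∧
      ∀ g : Ω ≃ₐ[F] Ω, Inert V g → ∀ n : ℕ, V.valuation (n : Ω) = 1 → ∀ T : Pt (WAB A B) Ω, n • T = 0 → ac (WAB A B) g T = T := by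
  obtain ⟨C, c1, c2, c3, c4, c6, cd⟩ := h
  have hVCF := r2_trans (r2_vc1 W₀ hA hB) (r2_vc2 (W₀⁄F) C)
  have hVC := r2_map (Ω := Ω) hVCF
  have hG : GoodW ((C • (W₀⁄F))⁄Ω) V := by
    refine ⟨⟨(hV _).2 c1, (hV _).2 c2, (hV _).2 c3, (hV _).2 c4, (hV _).2 c6⟩, ?_⟩
    have e1 : ((C • (W₀⁄F))⁄Ω).Δ = algebraMap F Ω (C • (W₀⁄F)).Δ := (C • (W₀⁄F)).map_Δ _
    rw [e1]
    exact (hV.eq_one _).2 cd
  have hd0 : (4 * A ^ 3 + 27 * B ^ 2) ≠ 0 := y3_ne W₀ hA hB hΔ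
  have hd : (WAB A B).Δ ≠ 0 := by
    have h2 : (WAB A B).Δ = -16 * (4 * A ^ 3 + 27 * B ^ 2) := by
      simp only [WAB, WeierstrassCurve.Δ, WeierstrassCurve.b₂, WeierstrassCurve.b₄, WeierstrassCurve.b₆, WeierstrassCurve.b₈]
      ring
    rw [h2]
    exact mul_ne_zero (by norm_num) hd0
  have hd1 : ((WAB A B)⁄Ω).Δ ≠ 0 := by
    have e1 : ((WAB A B)⁄Ω).Δ = algebraMap F Ω (WAB A B).Δ := (WAB A B).map_Δ _
    rw [e1]
    exact (map_ne_zero _).2 hd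
  have hd2 : ((C • (W₀⁄F))⁄Ω).Δ ≠ 0 := by
    intro h0
    have h1 := hG.disc
    rw [h0, map_zero] at h1
    exact zero_ne_one h1
  obtain ⟨Θ, hΘ⟩ := MG.vc_iso hVC hd1 hd2
  obtain ⟨Kg, hK⟩ := MG.kg_ex hG Θ
  refine ⟨Kg, _, _, rm_of hG ((map_ne_zero _).2 hVCF.une) hΘ hK, ?_⟩
  intro g hg n hn T hT
  refine TQ.inert_triv (M := Set.range (algebraMap F Ω)) hd ?_ g ?_ hg n hn T hT
  · exact ⟨_, _, _, _, _, ⟨_, rfl⟩, ⟨_, rfl⟩, ⟨_, rfl⟩, ⟨_, rfl⟩, hVC, hG⟩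
  · rintro _ ⟨x, rfl⟩
    exact g.commutes x

end H13D
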