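import Mathlib
import Pool.Agent.Lib.H13D.R1
import Pool.Agent.Lib.H13D.R2
import Pool.Agent.Lib.H13D.M2
import Pool.Agent.Lib.H55K.RF

/-! # H13D, part R: bad reduction at the primes ramified in F -/

open NumberField IsDedekindDomain WeierstrassCurve

namespace H13D

open H55P (IQ embF eF LF Per IsHecke Pt ac Inert Dec Nm)
open H35P (WAB Ker tt GoodW IntW)
open H55K
open H55K.MG (VC Crd)

/-- Chunk R3 (M). A CURVE OVER THE RATIONAL NUMBERS STAYS BAD OVER F AT THE RAMIFIED PRIMES. Follow the proof of H55K.TQ.hram_of (RF.lean) literally: the prime number p (3 or 5, not in v), Ω = AlgebraicClosure F, V above v (exists_abw), σ, the lift s in the inertia group of Gal(Ω/ℚ) with s = σ on F (H13S.inertia_lift), A₀, B₀, A, B, j, act, h : CMA, s' : Ω ≃+* Ω, hsA, hsB, hsc, hsl (semilinear: cma_galr).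
Instead of hGood, hfix: Kg, u, r from exists_rm_F (W₀ = W⁄(𝓞 F)). hu: s' (image of u) = image of σ u, V of the quotient is 1 (val_cj: v is stable since a - cj a in v; Abw.eq) (u = 0 impossible: RM.une). hinv: s' twice is an automorphism g of Ω over F (σ σ = id: cj_cj), inert (s (s x) - x = (s (s x) - s x) + (s x - x); s x in V), so it is trivial on the points killed by p (exists_rm_F), acr_trans, acr_eq_ac.
inv_pm: s' is 1 or -1 on the points killed by p. T₀ a generator (h.gen p): act (cj a) T₀ = ± act (cj a) (s' T₀) = ± s' (act a T₀) = act a T₀ (hsl) in both cases, so p divides a - cj a for all a: rf_card. -/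
theorem bad_ram {F : Type} [Field F] [NumberField F] [IQ F] {W : WeierstrassCurve ℤ} {Om : ℂ} (hΔ : W.Δ ≠ 0)
    (hper : Per F (-(eF F (W⁄(𝓞 F)).c₄) / 48) (-(eF F (W⁄(𝓞 F)).c₆) / 864) Om) (v : HeightOneSpectrum (𝓞 F))
    (hv : ∀ a : 𝓞 F, a - cj a ∈ v.asIdeal) : ¬ GoodAt ((W⁄(𝓞 F))⁄F) v := by
  classical
  intro hgood
  -- the prime number p
  obtain ⟨p, hp, hp2, hpv⟩ : ∃ p : ℕ, p.Prime ∧ p ≠ 2 ∧ (p : 𝓞 F) ∉ v.asIdeal := by
    by_cases h3 : ((3 : ℕ) : 𝓞 F) ∈ v.asIdeal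
    · refine ⟨5, by norm_num, by norm_num, fun h5 => ?_⟩
      apply v.isPrime.ne_top
      rw [Ideal.eq_top_iff_one]
      have e : (1 : 𝓞 F) = 2 * ((3 : ℕ) : 𝓞 F) - ((5 : ℕ) : 𝓞 F) := by norm_num
      rw [e]
      exact v.asIdeal.sub_mem (v.asIdeal.mul_mem_left _ h3) h5
    · exact ⟨3, by norm_num, by norm_num, h3⟩
  set Ω := AlgebraicClosure F with hΩ
  have hcl : IsAlgClosure ℚ Ω := ⟨inferInstance, Algebra.IsAlgebraic.trans ℚ F Ω⟩
  -- the valuation ring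
  obtain ⟨V, hV⟩ := exists_abw Ω v
  -- the automorphism
  obtain ⟨σ, hσ'⟩ := exists_cj F
  have hn : Normal ℚ Ω := IsAlgClosure.normal ℚ Ω
  set s0 : Ω ≃ₐ[ℚ] Ω := AlgEquiv.liftNormal σ Ω with hs0
  have hs0' : ∀ x : F, s0 (algebraMap F Ω x) = algebraMap F Ω (σ x) := fun x => AlgEquiv.liftNormal_commutes _ _ _
  set N' : IntermediateField ℚ Ω := (IsScalarTower.toAlgHom ℚ F Ω).fieldRange with hN'
  have hfin : FiniteDimensional ℚ N' :=
    (AlgEquiv.ofInjectiveField (IsScalarTower.toAlgHom ℚ F Ω)).toLinearEquiv.finiteDimensional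
  have hmem : ∀ x : Ω, x ∈ N' → ∃ y : F, algebraMap F Ω y = x := by
    rintro x ⟨y, hy⟩
    exact ⟨y, hy⟩
  obtain ⟨s, hsI, hs1⟩ := H13S.inertia_lift N' V s0 (by
      intro x hx
      obtain ⟨y, rfl⟩ := hmem x hx
      rw [hs0']
      exact ⟨σ y, rfl⟩) (by
      intro x hx hxV
      obtain ⟨y, rfl⟩ := hmem x hx
      rw [hs0', ← map_sub, hV.lt]
      refine H13S.in4_val v σ ?_ y ((hV y).1 hxV)
      intro z
      have e : σ • z = cj z := by
        apply RingOfIntegers.coe_injective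
        exact hσ' z
      rw [e, ← neg_sub]
      exact v.asIdeal.neg_mem (hv z))
  have hs : ∀ x : F, s (algebraMap F Ω x) = algebraMap F Ω (σ x) := by
    intro x
    rw [hs1 (algebraMap F Ω x) ⟨x, rfl⟩, hs0']
  -- the curve over the rational numbers
  set A₀ : ℚ := -(W⁄ℚ).c₄ / 48 with hA₀
  set B₀ : ℚ := -(W⁄ℚ).c₆ / 864 with hB₀
  have hc4 : algebraMap (𝓞 F) F (W⁄(𝓞 F)).c₄ = algebraMap ℚ F (W⁄ℚ).c₄ := by
    have e1 : (W⁄(𝓞 F)).c₄ = algebraMap ℤ (𝓞 F) W.c₄ := W.map_c₄ _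
    have e2 : (W⁄ℚ).c₄ = algebraMap ℤ ℚ W.c₄ := W.map_c₄ _
    rw [e1, e2]
    simp
  have hc6 : algebraMap (𝓞 F) F (W⁄(𝓞 F)).c₆ = algebraMap ℚ F (W⁄ℚ).c₆ := by
    have e1 : (W⁄(𝓞 F)).c₆ = algebraMap ℤ (𝓞 F) W.c₆ := W.map_c₆ _
    have e2 : (W⁄ℚ).c₆ = algebraMap ℤ ℚ W.c₆ := W.map_c₆ _
    rw [e1, e2]
    simp
  obtain ⟨A, hA⟩ : ∃ A : F, A = -(algebraMap (𝓞 F) F (W⁄(𝓞 F)).c₄) / 48 := ⟨_, rfl⟩
  obtain ⟨B, hB⟩ : ∃ B : F, B = -(algebraMap (𝓞 F) F (W⁄(𝓞 F)).c₆) / 864 := ⟨_, rfl⟩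
  have hA' : A = algebraMap ℚ F A₀ := by
    rw [hA, hc4, hA₀, map_div₀, map_neg, map_ofNat]
  have hB' : B = algebraMap ℚ F B₀ := by
    rw [hB, hc6, hB₀, map_div₀, map_neg, map_ofNat]
  have hΔF : (W⁄(𝓞 F)).Δ = algebraMap ℤ (𝓞 F) W.Δ := W.map_Δ _
  have hΔ0 : (W⁄(𝓞 F)).Δ ≠ 0 := by
    rw [hΔF]
    intro h0
    apply hΔ
    have h1 : ((W.Δ : ℤ) : 𝓞 F) = 0 := h0
    exact_mod_cast h1
  have hd := y3_ne (W⁄(𝓞 F)) hA hB hΔ0
  have hper' : Per F (embF F A) (embF F B) Om := by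
    have e1 : embF F A = -(eF F (W⁄(𝓞 F)).c₄) / 48 := by
      rw [hA, map_div₀, map_neg, map_ofNat]
      rfl
    have e2 : embF F B = -(eF F (W⁄(𝓞 F)).c₆) / 864 := by
      rw [hB, map_div₀, map_neg, map_ofNat]
      rfl
    rw [e1, e2]
    exact hper
  obtain ⟨j, hj⟩ := exists_j F Ω
  obtain ⟨act, h⟩ := exists_CMA F A B Om j hd hper' hj
  set s' : Ω ≃+* Ω := (s : Ω ≃+* Ω) with hs'
  have hsA : s' (algebraMap F Ω A) = algebraMap F Ω A := by
    rw [hA', ← IsScalarTower.algebraMap_apply ℚ F Ω]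
    exact s.commutes _
  have hsB : s' (algebraMap F Ω B) = algebraMap F Ω B := by
    rw [hB', ← IsScalarTower.algebraMap_apply ℚ F Ω]
    exact s.commutes _
  have hsc : ∀ a : 𝓞 F, s' (ak Ω a) = ak Ω (cj a) := by
    intro a
    show s (algebraMap F Ω (a : F)) = _
    rw [hs, hσ']
  have hsl := cma_galr h s' hsA hsB hsc
  have hVp : V.valuation (p : Ω) = 1 := by
    have h1 := TQ.rf_one hV hpv
    have e : ak Ω (p : 𝓞 F) = (p : Ω) := by
      show algebraMap F Ω (((p : 𝓞 F)) : F) = _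
      simp
    rwa [e] at h1
  -- the good model
  obtain ⟨Kg, u, r, hR, hI⟩ := exists_rm_F (Ω := Ω) (W⁄(𝓞 F)) hA hB hΔ0 v hgood hV
  have hstab : ∀ a : 𝓞 F, a ∈ v.asIdeal → cj a ∈ v.asIdeal := by
    intro a ha
    have e : cj a = a - (a - cj a) := by ring
    rw [e]
    exact v.asIdeal.sub_mem ha (hv a)
  have hu : V.valuation (s' (algebraMap F Ω u) / algebraMap F Ω u) ≤ 1 := by
    have h1 : s' (algebraMap F Ω u) = algebraMap F Ω (σ u) := hs u
    have h2 := (hV.eq (σ u) u).2 (val_cj hσ' hstab u)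
    rw [h1, map_div₀, h2, div_self]
    exact (Valuation.ne_zero_iff _).2 hR.une
  have hsV : ∀ x ∈ V, V.valuation (s' x - x) < 1 := hsI
  -- the square
  have hcom : ∀ x : F, (s'.trans s') (algebraMap F Ω x) = algebraMap F Ω x := by
    intro x
    show s (s (algebraMap F Ω x)) = _
    rw [hs, hs, m2_invol hσ']
  set g : Ω ≃ₐ[F] Ω := AlgEquiv.ofRingEquiv (f := s'.trans s') hcom with hg
  have hgI : Inert V g := by
    intro x hx
    have h1 := hsV x hx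
    have h2 : s' x ∈ V := by
      have e : s' x = (s' x - x) + x := by ring
      rw [e]
      exact V.add_mem _ _ ((V.valuation_le_one_iff _).1 h1.le) hx
    have h3 := hsV _ h2
    have e : g x - x = (s' (s' x) - s' x) + (s' x - x) := by
      show s' (s' x) - x = _
      ring
    rw [e]
    exact V.valuation.map_add_lt h3 h1
  have hinv : ∀ P : Pt (WAB A B) Ω, p • P = 0 → acr s' hsA hsB (acr s' hsA hsB P) = P := by
    intro P hP
    have h1 := hI g hgI p hVp P hP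
    rw [acr_trans s' s' hsA hsB hsA hsB (hcom A) (hcom B) P]
    have h2 := acr_eq_ac (A := A) (B := B) g (hcom A) (hcom B) P
    rw [h1] at h2
    exact h2
  have hpm := inv_pm hR hp hp2 hVp s' hsA hsB hsV hu hinv
  -- the contradiction
  refine TQ.rf_card (F := F) hp hp2 (fun a => ?_)
  have hpne : (p : 𝓞 F) ≠ 0 := by exact_mod_cast hp.ne_zero
  obtain ⟨T₀, hT₀, g1, g2, -⟩ := h.gen (p : 𝓞 F) hpne
  have hT₀' : p • T₀ = 0 := by
    rw [← cu_nat act]
    exact hT₀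
  have e0 : p • act a T₀ = 0 := by
    rw [← map_nsmul, hT₀', map_zero]
  have e1 := hsl a T₀
  rw [← g2 (a - cj a), map_sub]
  show act a T₀ - act (cj a) T₀ = 0
  rcases hpm with hfix | hfix
  · rw [hfix T₀ hT₀', hfix _ e0] at e1
    rw [← e1, sub_self]
  · rw [hfix T₀ hT₀', hfix _ e0, map_neg] at e1
    rw [neg_inj.1 e1, sub_self]

end H13D
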