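import Mathlib
import Pool.Agent.Lib.H13D.M6
import Pool.Agent.Lib.H13D.P0
import Pool.Agent.Lib.H13D.R3

/-! # H13D: bad reduction over F -/

open NumberField IsDedekindDomain WeierstrassCurve

namespace H13D

open H55P (IQ embF eF LF Per IsHecke Pt ac Inert Dec Nm)
open H35P (WAB Ker tt GoodW IntW)
open H55K

/-- The primes dividing the discriminant of a global minimal equation are primes of bad reduction over F. -/
theorem bad_F {F : Type} [Field F] [NumberField F] [IQ F] {W : WeierstrassCurve ℤ} {Om : ℂ} (hΔ : W.Δ ≠ 0)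
    (hper : Per F (-(eF F (W⁄(𝓞 F)).c₄) / 48) (-(eF F (W⁄(𝓞 F)).c₆) / 864) Om) (hmin : MinZ W) (v : HeightOneSpectrum (𝓞 F))
    (hv : (W⁄(𝓞 F)).Δ ∈ v.asIdeal) : ¬ GoodAt ((W⁄(𝓞 F))⁄F) v := by
  by_cases hr : ∀ a : 𝓞 F, a - cj a ∈ v.asIdeal
  · exact bad_ram hΔ hper v hr
  · rw [not_forall] at hr
    intro hG
    obtain ⟨l, f, hl, hlv, -, -⟩ := below_v v
    have hΔF : (W⁄(𝓞 F)).Δ = ((W.Δ : ℤ) : 𝓞 F) := by
      have := W.map_Δ (algebraMap ℤ (𝓞 F))
      exact this.trans (by simp)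
    have hdv : (l : ℤ) ∣ W.Δ := by
      by_contra hnd
      have hcop : IsCoprime (l : ℤ) W.Δ := (Nat.prime_iff_prime_int.1 hl).coprime_iff_not_dvd.2 hnd
      obtain ⟨a, b, hab⟩ := hcop
      apply v.isPrime.ne_top
      rw [Ideal.eq_top_iff_one]
      have h5 : (1 : 𝓞 F) = (a : 𝓞 F) * (l : 𝓞 F) + (b : 𝓞 F) * ((W.Δ : ℤ) : 𝓞 F) := by
        have := congrArg (fun z : ℤ => (z : 𝓞 F)) hab
        push_cast at this
        exact this.symm
      rw [h5]
      rw [hΔF] at hv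
      exact Ideal.add_mem _ (Ideal.mul_mem_left _ _ hlv) (Ideal.mul_mem_left _ _ hv)
    have hE : ((W⁄ℚ)⁄F) = ((W⁄(𝓞 F))⁄F) := by
      ext <;> simp [WeierstrassCurve.map, WeierstrassCurve.baseChange]
    obtain ⟨C, hC⟩ := descend hr hl hlv (W⁄ℚ) (by rw [hE]; exact hG)
    exact hmin l hl hdv C hC

end H13D
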