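import Mathlib
import Pool.Agent.Lib.H55K.G10C

/-! # H13D, part C: the cyclotomic character -/

open NumberField IsDedekindDomain WeierstrassCurve

namespace H13D

open H55P (IQ embF eF LF Per IsHecke Pt ac Inert Dec Nm)
open H35P (WAB Ker tt GoodW IntW)
open H55K

variable {F : Type} [Field F] [NumberField F] [IQ F] {A B : F} {Om : ℂ} {Ω : Type} [Field Ω] [DecidableEq Ω]
  [Algebra F Ω] {j : Ω →+* ℂ} {act : 𝓞 F →+* AddMonoid.End (Pt (WAB A B) Ω)}

/-- Chunk C1 (S/M). S from H55K.gv_fin (G10C.lean). v = span {β} (IQ.pid: principal; β prime, Nm β = absNorm v), V(β) < 1. H55K.frob_gen (G8C.lean): γ associated to β (so Nm γ = Nm β) with Ker V (act γ X - ac s X) for all X. For n • T = 0, V(n) = 1: n • (act γ T - ac s T) = 0, H55K.ker_tors: act γ T = ac s T. See the proof of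
H55K.dta_frob (G10C.lean). -/
theorem frob_fin (h : CMA F A B Om j act) : ∃ S : Set (HeightOneSpectrum (𝓞 F)), S.Finite ∧
    ∀ v ∉ S, (Ideal.absNorm v.asIdeal).Prime →
    ∀ V : ValuationSubring Ω, (∀ a : 𝓞 F, a ∈ v.asIdeal → V.valuation (ak Ω a) < 1) →
      ∀ s : Ω ≃ₐ[F] Ω, (∀ x ∈ V, V.valuation (s x - x ^ Ideal.absNorm v.asIdeal) < 1) →
        ∃ γ : 𝓞 F, Nm γ = Ideal.absNorm v.asIdeal ∧ ∀ n : ℕ, V.valuation (n : Ω) = 1 → ∀ T : Pt (WAB A B) Ω, n • T = 0 →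
          ac (WAB A B) s T = act γ T := by
  obtain ⟨S₁, f₁, g₁⟩ := gv_fin (A := A) (B := B) h.disc Ω
  refine ⟨S₁, f₁, fun v v₁ hpr V hV s hs => ?_⟩
  obtain ⟨hG, hA', hB'⟩ := g₁ v v₁ V hV
  obtain ⟨β, hgen⟩ : ∃ β : 𝓞 F, Ideal.span {β} = v.asIdeal := by
    obtain ⟨β, hβ⟩ := (IQ.pid (F := F)).principal v.asIdeal
    exact ⟨β, hβ.symm⟩
  have hβ0 : β ≠ 0 := by
    intro h0
    apply v.ne_bot
    rw [← hgen, h0, Ideal.span_singleton_eq_bot]
  have hβ : Prime β := by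
    rw [← Ideal.span_singleton_prime hβ0, hgen]
    exact v.isPrime
  have hβv : β ∈ v.asIdeal := by
    have h1 := Ideal.mem_span_singleton_self β
    rw [hgen] at h1
    exact h1
  have hNm : Nm β = Ideal.absNorm v.asIdeal := by
    unfold Nm
    rw [hgen]
  obtain ⟨γ, hγ, hker⟩ := frob_gen h hG hβ (hV _ hβv) (by rw [hNm]; exact hpr) hA' hB' s
    (by rw [hNm]; exact hs)
  refine ⟨γ, ?_, fun n hn T hT => ?_⟩
  · rw [← hNm]
    unfold Nm
    rw [(Ideal.span_singleton_eq_span_singleton.2 hγ)]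
  · have hK := hker T
    have hz : n • (act γ T - ac (WAB A B) s T) = 0 := by
      rw [smul_sub, ← map_nsmul, ← map_nsmul, hT, map_zero, map_zero, sub_zero]
    have h0 := ker_tors hG n hn hz hK
    exact (sub_eq_zero.1 h0).symm

end H13D
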