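import Mathlib
import Pool.Agent.Lib.H55K.D0

/-! # H13D: definitions: the square root of -D and the quadratic symbol -/

open NumberField IsDedekindDomain WeierstrassCurve

namespace H13D

open H55P (IQ embF eF LF Per IsHecke Pt ac Inert Dec Nm)
open H35P (WAB Ker tt GoodW IntW)
open H55K

/-- δ is a square root of -D, D a prime number congruent to 3 modulo 4, D > 3. -/
structure Del (F : Type) [Field F] [NumberField F] (δ : 𝓞 F) (D : ℕ) : Prop where
  prime : D.Prime
  mod : D % 4 = 3
  big : 3 < D
  sq : δ ^ 2 = -(D : 𝓞 F)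

open Classical in
/-- The quadratic symbol of x modulo δ (x is congruent to an integer n modulo δ). -/
noncomputable def lam {F : Type} [Field F] (δ : 𝓞 F) (D : ℕ) (x : 𝓞 F) : ℤ :=
  if h : ∃ n : ℤ, δ ∣ x - n then jacobiSym h.choose D else 0

/-- The nonzero squares modulo D, between 0 and D - 1. -/
def QR (D : ℕ) : Finset ℕ := (Finset.range D).filter fun i => jacobiSym (i : ℤ) D = 1

/-- The product of 2y over the points i T₀, i a nonzero square modulo D. -/
noncomputable def Yel {Ω : Type} [Field Ω] [DecidableEq Ω] {W : WeierstrassCurve Ω} (D : ℕ) (T₀ : W.toAffine.Point) : Ω :=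
  ∏ i ∈ QR D, 2 * yc (i • T₀)

end H13D
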