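import Mathlib
import Pool.Agent.Lib.H13D.D2
import Pool.Agent.Lib.H55K.D1

/-! # H13D, part P: arithmetic of the field -/

open NumberField IsDedekindDomain WeierstrassCurve

namespace H13D

open H55P (IQ embF eF LF Per IsHecke Pt ac Inert Dec Nm)
open H35P (WAB Ker tt GoodW IntW)
open H55K

variable {F : Type} [Field F] [NumberField F] [IQ F] {δ : 𝓞 F} {D : ℕ}

/-- Chunk P1 (S/M). (cj δ)^2 = cj (-D) = -D = δ^2, so cj δ = δ or -δ. If cj δ = δ then e = eF F δ is real (e_cj), but e^2 = -D < 0. -/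
theorem cj_del (hd : Del F δ D) : cj δ = -δ := by
  have h1 : (cj δ) ^ 2 = δ ^ 2 := by
    rw [← map_pow, hd.sq, map_neg, cj_nat]
  rcases sq_eq_sq_iff_eq_or_eq_neg.1 h1 with h | h
  · exfalso
    have h2 := e_cj δ
    rw [h] at h2
    obtain ⟨r, hr⟩ := Complex.conj_eq_iff_real.1 h2.symm
    have h3 : (eF F δ) ^ 2 = -(D : ℂ) := by
      rw [← map_pow, hd.sq, map_neg, map_natCast]
    rw [hr] at h3
    have h4 : r ^ 2 = -(D : ℝ) := by exact_mod_cast h3
    have h5 : (0 : ℝ) < D := by exact_mod_cast hd.prime.pos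
    nlinarith [sq_nonneg r]
  · exact h

/-- Chunk P1 (S). mul_cj: δ * cj δ = Nm δ; cj δ = -δ, δ^2 = -D; Nat.cast_injective (characteristic 0). -/
theorem Nm_del (hd : Del F δ D) : Nm δ = D := by
  have h1 := mul_cj δ
  rw [cj_del hd] at h1
  have h2 : (D : 𝓞 F) = (Nm δ : 𝓞 F) := by
    rw [← h1]
    have := hd.sq
    linear_combination this
  exact_mod_cast h2.symm

/-- Chunk P1 (S/M). The ideal span {δ} has prime norm D, so it is prime (Ideal.isPrime_of_irreducible_absNorm; Nm δ = Ideal.absNorm (span {δ}) by definition of Nm); Ideal.span_singleton_prime. -/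
theorem del_prime (hd : Del F δ D) : Prime δ := by
  have h0 : δ ≠ 0 := by
    intro h
    have h1 := Nm_del hd
    rw [h] at h1
    have h2 : Nm (0 : 𝓞 F) = 0 := H55P.Nm_eq_zero.2 rfl
    rw [h2] at h1
    exact hd.prime.ne_zero h1.symm
  rw [← Ideal.span_singleton_prime h0]
  apply Ideal.isPrime_of_irreducible_absNorm
  have h1 : Ideal.absNorm (Ideal.span {δ}) = D := Nm_del hd
  rw [h1]
  exact hd.prime

/-- Chunk P1 (S). If δ divides n then Nm δ = D divides Nm n = n^2 (Nm_mul; Nm (n : ℤ) = n.natAbs^2 from mul_cj, cj n = n), so D divides n. Conversely D = -δ^2. -/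
theorem del_dvd_int (hd : Del F δ D) (n : ℤ) : δ ∣ (n : 𝓞 F) ↔ (D : ℤ) ∣ n := by
  constructor
  · rintro ⟨c, hc⟩
    have h1 : (Nm (n : 𝓞 F) : 𝓞 F) = ((n ^ 2 : ℤ) : 𝓞 F) := by
      rw [← mul_cj, cj_int]
      push_cast
      ring
    have h2 : (Nm (n : 𝓞 F) : ℤ) = n ^ 2 := by exact_mod_cast h1
    rw [hc, Nm_mul, Nm_del hd] at h2
    have h3 : (D : ℤ) ∣ n ^ 2 := ⟨(Nm c : ℤ), by rw [← h2]; push_cast; ring⟩
    exact Int.Prime.dvd_pow' hd.prime h3
  · rintro ⟨c, rfl⟩
    refine ⟨-(δ * c), ?_⟩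
    have := hd.sq
    push_cast
    linear_combination (c : 𝓞 F) * this

/-- Chunk P1 (M). 𝓞 F ⧸ span {δ} has D elements (Nm_del, Ideal.absNorm_apply, Submodule.cardQuot_apply); the map of ZMod D (or of the integers modulo D) to it is injective by del_dvd_int, so it is bijective (equal finite cardinalities). -/
theorem ex_int (hd : Del F δ D) (x : 𝓞 F) : ∃ n : ℤ, δ ∣ x - n := by
  have hcard : Nat.card (𝓞 F ⧸ Ideal.span {δ}) = D := Nm_del hd
  have hfin : Finite (𝓞 F ⧸ Ideal.span {δ}) := Nat.finite_of_card_ne_zero (by rw [hcard]; exact hd.prime.ne_zero)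
  let f : Fin D → 𝓞 F ⧸ Ideal.span {δ} := fun k => Ideal.Quotient.mk _ (((k : ℕ) : ℤ) : 𝓞 F)
  have hf : Function.Injective f := by
    intro a b hab
    have h1 : Ideal.Quotient.mk (Ideal.span {δ}) ((((a : ℕ) : ℤ) : 𝓞 F)) = Ideal.Quotient.mk (Ideal.span {δ}) ((((b : ℕ) : ℤ) : 𝓞 F)) := hab
    rw [Ideal.Quotient.eq, Ideal.mem_span_singleton, ← Int.cast_sub, del_dvd_int hd] at h1
    have h2 := a.2
    have h3 := b.2
    apply Fin.ext
    obtain ⟨c, hc⟩ := h1
    have h4 : c = 0 := by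
      by_contra h5
      rcases lt_or_gt_of_ne h5 with h6 | h6
      · have : (D : ℤ) * c ≤ -D := by nlinarith
        omega
      · have : (D : ℤ) ≤ D * c := by nlinarith
        omega
    rw [h4, mul_zero] at hc
    omega
  have hb : Function.Bijective f := by
    rw [Nat.bijective_iff_injective_and_card]
    refine ⟨hf, ?_⟩
    rw [hcard, Nat.card_eq_fintype_card, Fintype.card_fin]
  obtain ⟨k, hk⟩ := hb.2 (Ideal.Quotient.mk _ x)
  refine ⟨((k : ℕ) : ℤ), ?_⟩
  rw [← Ideal.mem_span_singleton, ← Ideal.Quotient.eq]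
  exact hk.symm

/-- Chunk P1 (S/M). cj x is congruent to n modulo δ too (cj δ = -δ), so Nm x = x cj x is congruent to n^2 modulo δ; del_dvd_int. -/
theorem Nm_mod (hd : Del F δ D) {x : 𝓞 F} {n : ℤ} (h : δ ∣ x - n) : (D : ℤ) ∣ (Nm x : ℤ) - n ^ 2 := by
  rw [← del_dvd_int hd]
  obtain ⟨c, hc⟩ := h
  have h1 : cj x - n = -(δ * cj c) := by
    have := congrArg cj hc
    rw [map_sub, cj_int, map_mul, cj_del hd] at this
    rw [this]
    ring
  have h2 := mul_cj x
  refine ⟨-(x * cj c) + n * c, ?_⟩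
  have h3 : (((Nm x : ℤ) - n ^ 2 : ℤ) : 𝓞 F) = x * cj x - n ^ 2 := by
    rw [h2]
    push_cast
    ring
  rw [h3]
  linear_combination x * h1 + n * hc

end H13D
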