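import Mathlib
import Pool.Agent.Lib.H13D.P1

/-! # H13D, part C: the points killed by δ -/

open NumberField IsDedekindDomain WeierstrassCurve

namespace H13D

open H55P (IQ embF eF LF Per IsHecke Pt ac Inert Dec Nm)
open H35P (WAB Ker tt GoodW IntW)
open H55K

variable {F : Type} [Field F] [NumberField F] [IQ F] {A B : F} {Om : ℂ} {Ω : Type} [Field Ω] [DecidableEq Ω]
  [Algebra F Ω] {j : Ω →+* ℂ} {act : 𝓞 F →+* AddMonoid.End (Pt (WAB A B) Ω)} {δ : 𝓞 F} {D : ℕ}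

omit [NumberField F] [IQ F] in
theorem act_int (n : ℤ) (T : Pt (WAB A B) Ω) : act (n : 𝓞 F) T = n • T := by
  rw [map_intCast]
  rfl

omit [NumberField F] [IQ F] in
theorem act_mul' (a b : 𝓞 F) (T : Pt (WAB A B) Ω) : act (a * b) T = act a (act b T) := by
  rw [map_mul]
  rfl

omit [NumberField F] [IQ F] in
theorem act_sub' (a b : 𝓞 F) (T : Pt (WAB A B) Ω) : act (a - b) T = act a T - act b T := by
  rw [map_sub]
  rfl

omit [NumberField F] [IQ F] in
/-- Chunk C2 (S). x = n + δ c; act n T = n • T for integers (map_intCast), act (c δ) T = 0. -/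
theorem act_tor {x : 𝓞 F} {n : ℤ} (hx : δ ∣ x - n) {T : Pt (WAB A B) Ω} (hT : act δ T = 0) : act x T = n • T := by
  obtain ⟨c, hc⟩ := hx
  have h1 : act (x - n) T = 0 := by
    rw [hc, mul_comm, act_mul', hT, map_zero]
  rw [act_sub', act_int, sub_eq_zero] at h1
  exact h1

/-- Chunk C2 (S). act_tor with x = D = -δ^2. -/
theorem D_tor (hd : Del F δ D) {T : Pt (WAB A B) Ω} (hT : act δ T = 0) : D • T = 0 := by
  have h1 : act (((D : ℕ) : ℤ) : 𝓞 F) T = ((D : ℕ) : ℤ) • T := act_int _ _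
  have h2 : ((((D : ℕ) : ℤ) : 𝓞 F)) = (-δ) * δ := by
    push_cast
    have := hd.sq
    linear_combination this
  rw [h2, act_mul', hT, map_zero] at h1
  rw [natCast_zsmul] at h1
  exact h1.symm

/-- Chunk C2 (S). D_tor; D is prime and T ≠ 0, so the order of T is D. -/
theorem zsmul_iff (hd : Del F δ D) {T : Pt (WAB A B) Ω} (hT : act δ T = 0) (h0 : T ≠ 0) (n : ℤ) : n • T = 0 ↔ (D : ℤ) ∣ n := by
  have hD := D_tor hd hT
  have hp : Fact D.Prime := ⟨hd.prime⟩
  have ho : addOrderOf T = D := addOrderOf_eq_prime hD h0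
  rw [← ho]
  exact addOrderOf_dvd_iff_zsmul_eq_zero.symm

/-- Chunk C2 (S/M). h.gen δ (δ ≠ 0): a generator G with T₀ = act t G, T = act x G, t is congruent to n modulo δ (ex_int), x to k; D does not divide n (T₀ ≠ 0), so k = n m modulo D for an integer m: T = k • G = m • (n • G) = m • T₀. -/
theorem tor_gen (h : CMA F A B Om j act) (hd : Del F δ D) {T₀ T : Pt (WAB A B) Ω} (hT₀ : act δ T₀ = 0) (h0 : T₀ ≠ 0) (hT : act δ T = 0) :
    ∃ m : ℤ, T = m • T₀ := by
  obtain ⟨G, hG, h1, h2, -⟩ := h.gen δ (del_prime hd).ne_zero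
  have hG' : act δ G = 0 := hG
  obtain ⟨t, ht⟩ := h1 T₀ hT₀
  obtain ⟨x, hx⟩ := h1 T hT
  obtain ⟨n, hn⟩ := ex_int hd t
  obtain ⟨k, hk⟩ := ex_int hd x
  rw [act_tor hn hG'] at ht
  rw [act_tor hk hG'] at hx
  have hn' : ¬ (D : ℤ) ∣ n := by
    rintro ⟨c, rfl⟩
    apply h0
    rw [ht, mul_comm, mul_smul, natCast_zsmul, D_tor hd hG', smul_zero]
  have hco : IsCoprime n (D : ℤ) := by
    rw [isCoprime_comm]
    exact (Prime.coprime_iff_not_dvd (Nat.prime_iff_prime_int.1 hd.prime)).2 hn'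
  obtain ⟨a, b, hab⟩ := hco
  refine ⟨k * a, ?_⟩
  rw [hx, ht, ← mul_smul, ← sub_eq_zero, ← sub_smul]
  have e : k - k * a * n = k * b * D := by linear_combination (-k) * hab
  rw [e, mul_smul, natCast_zsmul, D_tor hd hG', smul_zero]

/-- Chunk C2 (S). h.gen δ: act 1 T₀ ≠ 0 since δ does not divide 1 (del_prime). -/
theorem exists_T (h : CMA F A B Om j act) (hd : Del F δ D) : ∃ T₀ : Pt (WAB A B) Ω, act δ T₀ = 0 ∧ T₀ ≠ 0 := by
  obtain ⟨G, hG, h1, h2, -⟩ := h.gen δ (del_prime hd).ne_zero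
  refine ⟨G, hG, fun h0 => ?_⟩
  have h3 : act 1 G = 0 := by rw [h0, map_zero]
  rw [h2] at h3
  exact (del_prime hd).not_unit (isUnit_of_dvd_one h3)

end H13D
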