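import Mathlib
import Pool.Agent.Lib.H13D.C1
import Pool.Agent.Lib.H13D.C2
import Pool.Agent.Lib.H55K.SPA1

/-! # H13D, part C: the cyclotomic character -/

open NumberField IsDedekindDomain WeierstrassCurve

namespace H13D

open H55P (IQ embF eF LF Per IsHecke Pt ac Inert Dec Nm)
open H35P (WAB Ker tt GoodW IntW)
open H55K

variable {F : Type} [Field F] [NumberField F] [IQ F] {A B : F} {Om : ℂ} {Ω : Type} [Field Ω] [DecidableEq Ω]
  [Algebra F Ω] {j : Ω →+* ℂ} {act : 𝓞 F →+* AddMonoid.End (Pt (WAB A B) Ω)} {δ : 𝓞 F} {D : ℕ}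

/-- Chunk C3 (M). THE SQUARE OF THE CHARACTER ON THE POINTS KILLED BY δ IS THE CYCLOTOMIC CHARACTER. Port of H55K.S.char_id (SPA1.lean), simpler: only T₀ (cj δ = -δ has the same points), integers a instead of elements of 𝓞 F. Every t in the group maps T₀ to a(t) • T₀ (ac t T₀ is killed by δ: h.gal; tor_gen) and ζ to ζ^(c(t)); a(t), c(t) are well defined modulo D
(zsmul_iff; order of ζ), multiplicative. D₁(t) = a(t)^2, C₁(t) = c(t) in ZMod D are monoid homomorphisms from Ω ≃ₐ[F] Ω; the subgroup H where they agree (MonoidHom.eqLocus) is normal (ZMod D is commutative) and contains the fixing subgroup of L = F(xc T₀, yc T₀, ζ). H13S.PA1_top with the finite set of frob_fin together with the primes v containing D: for v outside,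
of prime norm q, V above v (V(D) = 1), s a Frobenius element: frob_fin gives γ with Nm γ = q and ac s T₀ = act γ T₀ = n • T₀, γ congruent to n modulo δ (ex_int, act_tor), and q is congruent to n^2 modulo D (Nm_mod); s ζ = ζ^q (H55K.S.PA1_zeta). So s is in H. Hence H = everything. -/
theorem chi_sq [IsAlgClosure F Ω] (h : CMA F A B Om j act) (hd : Del F δ D) {T₀ : Pt (WAB A B) Ω} (hT : act δ T₀ = 0) (h0 : T₀ ≠ 0)
    {ζ : Ω} (hζ : IsPrimitiveRoot ζ D) (s : Ω ≃ₐ[F] Ω) {a : ℤ} {c : ℕ} (ha : ac (WAB A B) s T₀ = a • T₀) (hc : s ζ = ζ ^ c) :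
    (D : ℤ) ∣ a ^ 2 - c := by
  classical
  have hDp := hd.prime
  have hl0 : NeZero D := ⟨hDp.ne_zero⟩
  have hac : IsAlgClosed Ω := IsAlgClosure.isAlgClosed F
  have halg : Algebra.IsAlgebraic F Ω := IsAlgClosure.isAlgebraic
  have hex : ∀ t : Ω ≃ₐ[F] Ω, ∃ p : ℤ × ℕ, ac (WAB A B) t T₀ = p.1 • T₀ ∧ t ζ = ζ ^ p.2 := by
    intro t
    have h1 : act δ (ac (WAB A B) t T₀) = 0 := by rw [← h.gal, hT, map_zero]
    obtain ⟨m, hm⟩ := tor_gen h hd hT h0 h1
    have h1 : (t ζ) ^ D = 1 := by rw [← map_pow, hζ.pow_eq_one, map_one]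
    obtain ⟨i, _, hi⟩ := hζ.eq_pow_of_pow_eq_one h1
    exact ⟨⟨m, i⟩, hm, hi.symm⟩
  choose p hp using hex
  have hmk : ∀ x y : ℤ, (x : ZMod D) = (y : ZMod D) ↔ (D : ℤ) ∣ x - y := by
    intro x y
    rw [← sub_eq_zero, ← Int.cast_sub, ZMod.intCast_zmod_eq_zero_iff_dvd]
  have uniq0 : ∀ (t : Ω ≃ₐ[F] Ω) (x : ℤ), ac (WAB A B) t T₀ = x • T₀ → (x : ZMod D) = ((p t).1 : ZMod D) := by
    intro t x hx
    rw [hmk, ← zsmul_iff hd hT h0, sub_smul, ← hx, ← (hp t).1, sub_self]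
  have uniq1 : ∀ (t : Ω ≃ₐ[F] Ω) (x : ℤ), ac (WAB A B) t T₀ = x • T₀ → ((x : ZMod D)) ^ 2 = ((p t).1 : ZMod D) ^ 2 := by
    intro t x hx
    rw [uniq0 t x hx]
  have uniq2 : ∀ (t : Ω ≃ₐ[F] Ω) (n : ℕ), t ζ = ζ ^ n → (n : ZMod D) = ((p t).2 : ZMod D) := by
    intro t n hn
    have h1 : ζ ^ n = ζ ^ (p t).2 := by rw [← hn, (hp t).2]
    have h2 : n ≡ (p t).2 [MOD D] := by
      rw [← pow_mod_orderOf, ← pow_mod_orderOf ζ (p t).2, ← hζ.eq_orderOf] at h1
      exact hζ.pow_inj (Nat.mod_lt _ hDp.pos) (Nat.mod_lt _ hDp.pos) h1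
    exact (ZMod.natCast_eq_natCast_iff _ _ _).2 h2
  have hzs : ∀ (t : Ω ≃ₐ[F] Ω) (x : ℤ) (P : Pt (WAB A B) Ω), ac (WAB A B) t (x • P) = x • ac (WAB A B) t P :=
    fun t x P => map_zsmul (ac (WAB A B) t) x P
  let D₁ : (Ω ≃ₐ[F] Ω) →* ZMod D :=
    { toFun := fun t => ((p t).1 : ZMod D) ^ 2
      map_one' := by
        rw [← uniq1 1 1 (by rw [H55K.S.ac_one, one_smul])]
        simp
      map_mul' := fun t u => by
        rw [← uniq1 (t * u) ((p u).1 * (p t).1)
          (by rw [H55K.S.ac_mul, (hp u).1, hzs, (hp t).1, mul_smul])]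
        push_cast
        ring }
  let C₁ : (Ω ≃ₐ[F] Ω) →* ZMod D :=
    { toFun := fun t => ((p t).2 : ZMod D)
      map_one' := by
        rw [← uniq2 1 1 (by rw [pow_one]; rfl)]
        simp
      map_mul' := fun t u => by
        rw [← uniq2 (t * u) ((p t).2 * (p u).2) (by
          rw [AlgEquiv.mul_apply, (hp u).2, map_pow, (hp t).2, pow_mul])]
        push_cast
        rfl }
  have hH : ∀ (t : Ω ≃ₐ[F] Ω) (x : ℤ) (n : ℕ), ac (WAB A B) t T₀ = x • T₀ →
      t ζ = ζ ^ n → (t ∈ MonoidHom.eqLocus D₁ C₁ ↔ (D : ℤ) ∣ x ^ 2 - n) := by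
    intro t x n hx hn
    rw [← hmk]
    push_cast
    rw [uniq1 t x hx, uniq2 t n hn]
    exact Iff.rfl
  have key : MonoidHom.eqLocus D₁ C₁ = ⊤ := by
    have hint : ∀ x : Ω, IsIntegral F x := fun x => (Algebra.IsAlgebraic.isAlgebraic x).isIntegral
    let A₁ : Set Ω := {xc T₀, yc T₀, ζ}
    have hAf : A₁.Finite := Set.toFinite A₁
    have hAf' : Finite A₁ := hAf
    have hLf : FiniteDimensional F (IntermediateField.adjoin F A₁) :=
      IntermediateField.finiteDimensional_adjoin fun x _ => hint x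
    obtain ⟨S₀, hS₀, hfr⟩ := frob_fin h
    refine H13S.PA1_top (F₀ := F) (MonoidHom.eqLocus D₁ C₁) ?_ (IntermediateField.adjoin F A₁) ?_
      (S₀ ∪ {v | (D : 𝓞 F) ∈ v.asIdeal}) ?_ ?_
    · constructor
      intro t ht g
      show D₁ (g * t * g⁻¹) = C₁ (g * t * g⁻¹)
      have h1 : D₁ t = C₁ t := ht
      rw [map_mul, map_mul, map_mul, map_mul, mul_right_comm, mul_right_comm (C₁ g), h1, ← map_mul,
        ← map_mul, mul_inv_cancel, map_one, map_one]
    · intro t ht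
      have hfix : ∀ x ∈ A₁, t x = x := fun x hx =>
        ht ⟨x, IntermediateField.subset_adjoin F A₁ hx⟩
      have e1 : ac (WAB A B) t T₀ = (1 : ℤ) • T₀ := by
        rw [one_smul]
        refine pt_ext (H55K.S.ac_ne t h0) h0 ?_ ?_
        · rw [H55K.S.xc_ac]
          exact hfix _ (by simp [A₁])
        · rw [H55K.S.yc_ac]
          exact hfix _ (by simp [A₁])
      rw [hH t 1 1 e1 (by rw [pow_one]; exact hfix _ (by simp [A₁]))]
      simp
    · have hf : ∀ n : ℕ, n ≠ 0 → {v : HeightOneSpectrum (𝓞 F) | (n : 𝓞 F) ∈ v.asIdeal}.Finite := by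
        intro n hn
        have h1 : Ideal.span {(n : 𝓞 F)} ≠ 0 := by
          rw [Ideal.zero_eq_bot, Ne, Ideal.span_singleton_eq_bot]
          exact Nat.cast_ne_zero.2 hn
        refine (Ideal.finite_factors h1).subset ?_
        intro v hv
        exact Ideal.dvd_span_singleton.2 hv
      exact hS₀.union (hf D hDp.ne_zero)
    · intro v hv hq V hV t ht
      rw [Set.mem_union, not_or] at hv
      obtain ⟨hvS, hvl⟩ := hv
      change (D : 𝓞 F) ∉ v.asIdeal at hvl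
      have hV1 : V.valuation (D : Ω) = 1 := by
        rw [← H55K.S.vo_nat (F := F)]
        exact g10b_one V v hV _ hvl
      have hVl : ¬ V.valuation (D : Ω) < 1 := by
        rw [hV1]
        exact lt_irrefl _
      obtain ⟨γ, hγ1, hγ2⟩ := hfr v hvS hq V hV t ht
      have f1 := hγ2 D hV1 T₀ (D_tor hd hT)
      obtain ⟨n, hn⟩ := ex_int hd γ
      rw [act_tor hn hT] at f1
      have f3 := H55K.S.PA1_zeta D hDp ζ hζ V hVl _ t ht
      rw [hH t _ _ f1 f3]
      have h6 := Nm_mod hd hn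
      rw [hγ1] at h6
      have h7 := dvd_neg.2 h6
      rwa [neg_sub] at h7
  have h1 : s ∈ MonoidHom.eqLocus D₁ C₁ := by
    rw [key]
    exact Subgroup.mem_top s
  exact (hH s a c ha hc).1 h1

end H13D
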