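import Mathlib
import Pool.Agent.Lib.H13D.A6
import Pool.Agent.Lib.H13D.B2
import Pool.Agent.Lib.H13D.B5

/-! # H13D, part C: the number of points -/

open NumberField IsDedekindDomain WeierstrassCurve

namespace H13D

open H55P (IQ embF eF LF Per IsHecke Pt ac Inert Dec Nm)
open H35P (WAB Ker tt GoodW IntW)
open H55K
open H55K.MG (VC Crd)

variable {F : Type} [Field F] [NumberField F] [IQ F] {A B : F} {Om : ℂ} {Ω : Type} [Field Ω] [DecidableEq Ω]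
  [Algebra F Ω] {j : Ω →+* ℂ} {act : 𝓞 F →+* AddMonoid.End (Pt (WAB A B) Ω)} {V : ValuationSubring Ω}

/-- Chunk C4 (S/M). The good model at V. Θ from exists_model, good_model, KE from MG.kg_ex (M3B.lean) for the identity, Kg from MG.kg_ex for Θ; rm_of with u = 1; red_card' and card_transport for the last statement. -/
theorem exists_rm [IsAlgClosed Ω] (W₀ : WeierstrassCurve (𝓞 F)) (hA : A = -(algebraMap (𝓞 F) F W₀.c₄) / 48)
    (hB : B = -(algebraMap (𝓞 F) F W₀.c₆) / 864) (v : HeightOneSpectrum (𝓞 F)) (hΔ : W₀.Δ ∉ v.asIdeal)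
    (hv : ∀ a : 𝓞 F, a ∈ v.asIdeal → V.valuation (ak Ω a) < 1) :
    ∃ (Kg : AddSubgroup (Pt (WAB A B) Ω)) (Θ : Pt (WAB A B) Ω ≃+ Pt (W₀⁄F) Ω), (∀ P, P ∈ Kg ↔ Ker V (Θ P)) ∧
      GoodW ((W₀⁄F)⁄Ω) V ∧
      Crd 1 (algebraMap F Ω (algebraMap (𝓞 F) F W₀.b₂ / 12)) (algebraMap F Ω (algebraMap (𝓞 F) F W₀.a₁ / 2))
        (algebraMap F Ω (algebraMap (𝓞 F) F W₀.a₃ / 2)) Θ ∧
      RM A B V Kg 1 (algebraMap F Ω (algebraMap (𝓞 F) F W₀.b₂ / 12)) ∧
      ∀ s : Ω ≃ₐ[F] Ω, Dec V s → (∀ x ∈ V, V.valuation (s x - x ^ Ideal.absNorm v.asIdeal) < 1) →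
        Nat.card (W₀⁄(𝓞 F ⧸ v.asIdeal)).toAffine.Point =
          Nat.card {c : Pt (WAB A B) Ω ⧸ Kg // ∃ X : Pt (WAB A B) Ω, (X : Pt (WAB A B) Ω ⧸ Kg) = c ∧ ac (WAB A B) s X - X ∈ Kg} := by
  have hΔ0 : W₀.Δ ≠ 0 := by
    intro h0
    rw [h0] at hΔ
    exact hΔ v.asIdeal.zero_mem
  obtain ⟨Θ, hC, hΘ⟩ := exists_model (Ω := Ω) W₀ hA hB hΔ0
  have hG : GoodW ((W₀⁄F)⁄Ω) V := good_model W₀ hΔ hv
  obtain ⟨KE, hKE⟩ := MG.kg_ex hG (AddEquiv.refl (Pt (W₀⁄F) Ω))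
  obtain ⟨Kg, hKg⟩ := MG.kg_ex hG Θ
  refine ⟨Kg, Θ, hKg, hG, hC, rm_of hG one_ne_zero hC hKg, fun s hD hs => ?_⟩
  rw [red_card' W₀ v hΔ hv s hD hs hKE, card_transport W₀ s hKE Θ hKg (hΘ s)]

/-- Chunk C4 (S/M). cls_card' for b = γ - 1: V(γ - 1) = 1 because V(γ) < 1; act (γ - 1) X = (act γ X - ac s X) + (ac s X - X), so act (γ - 1) X in Kg iff ac s X - X in Kg; Nm (γ - 1) = Nm (1 - γ) (Nm (-x) = Nm x: Ideal.span_singleton_neg). See the end of the proof of H55K.dta_frob (G10C.lean). -/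
theorem card_gamma (h : CMA F A B Om j act) {Kg : AddSubgroup (Pt (WAB A B) Ω)} {u r : Ω} (hR : RM A B V Kg u r) (s : Ω ≃ₐ[F] Ω)
    {γ : 𝓞 F} (hγ : V.valuation (ak Ω γ) < 1) (hK : ∀ X : Pt (WAB A B) Ω, act γ X - ac (WAB A B) s X ∈ Kg) :
    Nat.card {c : Pt (WAB A B) Ω ⧸ Kg // ∃ X : Pt (WAB A B) Ω, (X : Pt (WAB A B) Ω ⧸ Kg) = c ∧ ac (WAB A B) s X - X ∈ Kg} =
      Nm (1 - γ) := by
  have hγ1 : V.valuation (ak Ω (γ - 1)) = 1 := by
    have e : ak Ω (γ - 1) = -(1 - ak Ω γ) := by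
      have e1 : ((γ - 1 : 𝓞 F) : F) = (γ : F) - 1 := by
        have := map_sub (algebraMap (𝓞 F) F) γ 1
        rw [map_one] at this
        exact this
      unfold ak
      rw [e1, map_sub, map_one]
      ring
    rw [e, Valuation.map_neg]
    have h1 := V.valuation.map_sub_eq_of_lt_right (x := ak Ω γ) (y := (1 : Ω)) (by rw [map_one]; exact hγ)
    rw [← h1.trans (map_one _)]
    exact Valuation.map_sub_swap _ _ _
  have hc2 := cls_card' h hR hγ1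
  have hiff : ∀ X : Pt (WAB A B) Ω, ac (WAB A B) s X - X ∈ Kg ↔ act (γ - 1) X ∈ Kg := by
    intro X
    have e : act (γ - 1) X = act γ X - X := by
      rw [map_sub, map_one]
      rfl
    rw [e]
    constructor
    · intro h1
      have e2 : act γ X - X = (act γ X - ac (WAB A B) s X) + (ac (WAB A B) s X - X) := by abel
      rw [e2]
      exact Kg.add_mem (hK X) h1
    · intro h1
      have e2 : ac (WAB A B) s X - X = (act γ X - X) - (act γ X - ac (WAB A B) s X) := by abel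
      rw [e2]
      exact Kg.sub_mem h1 (hK X)
  simp only [hiff]
  rw [hc2]
  unfold Nm
  rw [← Ideal.span_singleton_neg, neg_sub]

end H13D
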