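import Mathlib
import Pool.Agent.Lib.H13D.A8
import Pool.Agent.Lib.H13D.C3
import Pool.Agent.Lib.H13D.C4
import Pool.Agent.Lib.H13D.P0

/-! # H13D, part C: the Frobenius elements at the good primes -/

open NumberField IsDedekindDomain WeierstrassCurve

namespace H13D

open H55P (IQ embF eF LF Per IsHecke Pt ac Inert Dec Nm)
open H35P (WAB Ker tt GoodW IntW)
open H55K

variable {F : Type} [Field F] [NumberField F] [IQ F] {A B : F} {Om : ℂ} {Ω : Type} [Field Ω] [DecidableEq Ω]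
  [Algebra F Ω] {j : Ω →+* ℂ} {act : 𝓞 F →+* AddMonoid.End (Pt (WAB A B) Ω)} {V : ValuationSubring Ω} {δ : 𝓞 F} {D : ℕ}

/-- Chunk C5 (M). THE FROBENIUS ELEMENT AT A GOOD PRIME v (also above 2 and 3) not containing δ. q = absNorm v = p^f, p in v (below_v in P0.lean). v = span {β} (IQ.pid), β prime, Nm β = q, V(β) < 1, V(p) < 1, V(δ) = 1, V(D) = 1 (g10b_one). Kg, RM from exists_rm (u = 1, r in F: s u = u, s r = r). ac s T₀ = a • T₀ (tor_gen; killed by δ by h.gal), β congruent to b modulo δ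
(ex_int), so act β T₀ = b • T₀ (act_tor). ζ a primitive D-th root of unity in Ω (HasEnoughRootsOfUnity.exists_primitiveRoot or IsAlgClosed), s ζ = ζ^q (H55K.S.PA1_zeta): D divides a^2 - q (chi_sq), and q - b^2 (Nm_mod), so D divides (a - b)(a + b): a • T₀ = b • T₀ or = -(b • T₀), and the same for T' = 2 • T₀: the x-coordinates of ac s T and act β T agree
for T = T₀, T' (xc (-P) = xc P). T₀, T', T₀ - T' = -T₀, T₀ + T' = 3 • T₀ are killed by δ and not 0 (zsmul_iff, D > 3), so they are not in Kg (tor_unit' for δ). frob_gen': γ = β or -β, act γ X - ac s X in Kg for all X; span {γ} = v. act γ T₀ - ac s T₀ is killed by δ and in Kg: it is 0 (tor_unit'); γ is congruent to g modulo δ: (g - a) • T₀ = 0, so δ divides γ - a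
(zsmul_iff, del_dvd_int). The number of points: exists_rm, card_gamma. -/
theorem frob_v [IsAlgClosure F Ω] (h : CMA F A B Om j act) (hd : Del F δ D) (W₀ : WeierstrassCurve (𝓞 F))
    (hA : A = -(algebraMap (𝓞 F) F W₀.c₄) / 48) (hB : B = -(algebraMap (𝓞 F) F W₀.c₆) / 864) (v : HeightOneSpectrum (𝓞 F))
    (hΔ : W₀.Δ ∉ v.asIdeal) (hδ : δ ∉ v.asIdeal) (hv : ∀ a : 𝓞 F, a ∈ v.asIdeal → V.valuation (ak Ω a) < 1)
    (s : Ω ≃ₐ[F] Ω) (hD : Dec V s) (hs : ∀ x ∈ V, V.valuation (s x - x ^ Ideal.absNorm v.asIdeal) < 1)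
    {T₀ : Pt (WAB A B) Ω} (hT : act δ T₀ = 0) (h0 : T₀ ≠ 0) {a : ℤ} (ha : ac (WAB A B) s T₀ = a • T₀) :
    ∃ γ : 𝓞 F, Ideal.span {γ} = v.asIdeal ∧ δ ∣ γ - a ∧
      Nat.card (W₀⁄(𝓞 F ⧸ v.asIdeal)).toAffine.Point = Nm (1 - γ) := by
  have hac : IsAlgClosed Ω := IsAlgClosure.isAlgClosed F
  obtain ⟨p, f, hp, hpv, -, hq⟩ := below_v v
  obtain ⟨Kg, Θ, hK, hG, hc, hR, hcard⟩ := exists_rm (A := A) (B := B) (Ω := Ω) (V := V) W₀ hA hB v hΔ hv
  -- the generator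
  obtain ⟨β, hβv'⟩ := (IQ.pid (F := F)).principal v.asIdeal
  have hgen : Ideal.span {β} = v.asIdeal := hβv'.symm
  have hβ0 : β ≠ 0 := by
    intro h0
    apply v.ne_bot
    rw [← hgen, h0, Ideal.span_singleton_eq_bot]
  have hβ : Prime β := by
    rw [← Ideal.span_singleton_prime hβ0, hgen]
    exact v.isPrime
  have hβv : β ∈ v.asIdeal := by
    have h1 := Ideal.mem_span_singleton_self β
    rw [hgen] at h1
    exact h1
  have hNm : Nm β = Ideal.absNorm v.asIdeal := by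
    unfold Nm
    rw [hgen]
  have hVβ : V.valuation (ak Ω β) < 1 := hv _ hβv
  have hVp : V.valuation (p : Ω) < 1 := by
    have h1 := hv _ hpv
    rwa [show ak Ω (p : 𝓞 F) = (p : Ω) from (map_natCast (g9h F Ω) p)] at h1
  have hVδ : V.valuation (ak Ω δ) = 1 := g10b_one V v hv δ hδ
  have hVD : V.valuation (D : Ω) = 1 := by
    have h1 : (D : Ω) = -(ak Ω δ) ^ 2 := by
      have h2 : g9h F Ω (δ ^ 2) = g9h F Ω (-(D : 𝓞 F)) := by rw [hd.sq]
      rw [map_pow, map_neg, map_natCast, g9h_eq] at h2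
      rw [h2, neg_neg]
    rw [h1, Valuation.map_neg, map_pow, hVδ, one_pow]
  -- the action on T₀
  obtain ⟨b, hb⟩ := ex_int hd β
  have hbT : act β T₀ = b • T₀ := act_tor hb hT
  have hζ0 : NeZero (D : Ω) := ⟨fun h1 => by
    rw [h1, map_zero] at hVD
    exact zero_ne_one hVD⟩
  obtain ⟨ζ, hζ⟩ := HasEnoughRootsOfUnity.exists_primitiveRoot Ω D
  have hsζ : s ζ = ζ ^ Ideal.absNorm v.asIdeal :=
    H55K.S.PA1_zeta D hd.prime ζ hζ V (by rw [hVD]; exact lt_irrefl _) _ s hs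
  have hdiv1 := chi_sq h hd hT h0 hζ s ha hsζ
  have hdiv2 := Nm_mod hd hb
  rw [hNm] at hdiv2
  have hdiv : (D : ℤ) ∣ (a - b) * (a + b) := by
    have h1 := dvd_add hdiv1 hdiv2
    have h2 : a ^ 2 - (Ideal.absNorm v.asIdeal : ℤ) + ((Ideal.absNorm v.asIdeal : ℤ) - b ^ 2) = (a - b) * (a + b) := by ring
    rwa [h2] at h1
  have hpD : Prime (D : ℤ) := Nat.prime_iff_prime_int.1 hd.prime
  have hpm : ac (WAB A B) s T₀ = act β T₀ ∨ ac (WAB A B) s T₀ = -(act β T₀) := by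
    rw [ha, hbT]
    rcases hpD.dvd_or_dvd hdiv with h1 | h1
    · left
      have h2 := (zsmul_iff hd hT h0 (a - b)).2 h1
      rwa [sub_smul, sub_eq_zero] at h2
    · right
      have h2 := (zsmul_iff hd hT h0 (a + b)).2 h1
      rwa [add_smul, add_eq_zero_iff_eq_neg] at h2
  have hDbig := hd.big
  -- multiples of T₀ are not in Kg
  have hnk : ∀ n : ℤ, ¬ (D : ℤ) ∣ n → n • T₀ ∉ Kg := by
    intro n hn hk
    apply hn
    rw [← zsmul_iff hd hT h0]
    refine tor_unit' h hR hVδ ?_ hk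
    have : act δ (n • T₀) = n • act δ T₀ := map_zsmul (act δ : Pt (WAB A B) Ω →+ Pt (WAB A B) Ω) n T₀
    rw [this, hT, smul_zero]
  have hnd : ∀ n : ℤ, 0 < n → n < D → ¬ (D : ℤ) ∣ n := fun n h1 h2 h3 => absurd (Int.le_of_dvd h1 h3) (not_le.2 h2)
  have hk1 : T₀ ∉ Kg := by
    have := hnk 1 (hnd 1 (by norm_num) (by omega))
    rwa [one_smul] at this
  have hk2 : (2 : ℤ) • T₀ ∉ Kg := hnk 2 (hnd 2 (by norm_num) (by omega))
  have hk3 : T₀ - (2 : ℤ) • T₀ ∉ Kg := by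
    have e : T₀ - (2 : ℤ) • T₀ = -T₀ := by rw [two_smul]; abel
    rw [e]
    exact fun hh => hk1 (by have := Kg.neg_mem hh; rwa [neg_neg] at this)
  have hk4 : T₀ + (2 : ℤ) • T₀ ∉ Kg := by
    have e : T₀ + (2 : ℤ) • T₀ = (3 : ℤ) • T₀ := by
      rw [show (3 : ℤ) = 1 + 2 by norm_num, add_smul, one_smul]
    rw [e]
    exact hnk 3 (hnd 3 (by norm_num) (by omega))
  have hx1 : xc (ac (WAB A B) s T₀) = xc (act β T₀) := by
    rcases hpm with h1 | h1
    · rw [h1]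
    · rw [h1, xc_neg]
  have hx2 : xc (ac (WAB A B) s ((2 : ℤ) • T₀)) = xc (act β ((2 : ℤ) • T₀)) := by
    have e1 : ac (WAB A B) s ((2 : ℤ) • T₀) = (2 : ℤ) • ac (WAB A B) s T₀ := map_zsmul _ _ _
    have e2 : act β ((2 : ℤ) • T₀) = (2 : ℤ) • act β T₀ := map_zsmul (act β : Pt (WAB A B) Ω →+ Pt (WAB A B) Ω) 2 T₀
    rw [e1, e2]
    rcases hpm with h1 | h1
    · rw [h1]
    · rw [h1, smul_neg, xc_neg]
  obtain ⟨γ, hγ, hγK⟩ := frob_gen' h hR hβ hVβ hp (hNm.trans hq) hVp s hD (by rw [hNm]; exact hs)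
    (map_one s) (s.commutes _) hk1 hk2 hk3 hk4 hx1 hx2
  have hγs : Ideal.span {γ} = v.asIdeal := by
    rcases hγ with h1 | h1
    · rw [h1, hgen]
    · rw [h1, Ideal.span_singleton_neg, hgen]
  have hγv : γ ∈ v.asIdeal := by
    rw [← hγs]
    exact Ideal.mem_span_singleton_self γ
  refine ⟨γ, hγs, ?_, ?_⟩
  · obtain ⟨g, hg⟩ := ex_int hd γ
    have h1 : act γ T₀ = g • T₀ := act_tor hg hT
    have h2 := hγK T₀
    have h3 : act γ T₀ - ac (WAB A B) s T₀ = (g - a) • T₀ := by rw [h1, ha, sub_smul]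
    rw [h3] at h2
    have h4 : (D : ℤ) ∣ g - a := by
      by_contra hn
      exact hnk _ hn h2
    rw [← del_dvd_int hd] at h4
    have h5 := dvd_add hg h4
    push_cast at h5
    rwa [sub_add_sub_cancel] at h5
  · rw [hcard s hD hs, card_gamma h hR s (hv _ hγv) hγK]

end H13D
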