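import Mathlib
import Pool.Agent.Lib.H13D.C1
import Pool.Agent.Lib.H13S.PA1
import Pool.Agent.Lib.H55K.SPA1
import Pool.Agent.Lib.H55K.G10B

/-! # H13D, part C: the cyclotomic character, general N -/

open NumberField IsDedekindDomain WeierstrassCurve

namespace H13D

open H55P (IQ embF eF LF Per IsHecke Pt ac Inert Dec Nm)
open H35P (WAB Ker tt GoodW IntW)
open H55K

/-- Chunk C6 (S/M). N-th roots of unity at a Frobenius element, N not nec. prime. s ζ and ζ^q are N-th roots of unity congruent modulo the maximal ideal (hs; V(ζ) = 1). If they were different, ξ = s ζ / ζ^q ≠ 1 is an N-th root of unity with V(ξ - 1) < 1; 1 + ξ + .. + ξ^(N-1) = 0 (ξ^N = 1, ξ ≠ 1), and it is congruent to N: V(N) < 1: contradiction. See H55K.S.PA1_zeta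
(SPA1.lean). -/
theorem zeta_N {F Ω : Type} [Field F] [Field Ω] [Algebra F Ω] {N : ℕ} (hN : N ≠ 0) {ζ : Ω} (hζ : IsPrimitiveRoot ζ N) (V : ValuationSubring Ω)
    (hV : V.valuation (N : Ω) = 1) (q : ℕ) (s : Ω ≃ₐ[F] Ω) (hs : ∀ x ∈ V, V.valuation (s x - x ^ q) < 1) : s ζ = ζ ^ q := by
  have hl0 : NeZero N := ⟨hN⟩
  have hz1 : V.valuation ζ = 1 := by
    have h1 : V.valuation ζ ^ N = 1 := by rw [← map_pow, hζ.pow_eq_one, map_one]
    exact (pow_eq_one_iff_of_nonneg zero_le hN).1 h1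
  have hzV : ζ ∈ V := (V.valuation_le_one_iff ζ).1 hz1.le
  by_contra hne
  have hz0 : ζ ^ q ≠ 0 := pow_ne_zero _ (hζ.ne_zero hN)
  let ξ : Ω := s ζ / ζ ^ q
  have hξ1 : ξ ≠ 1 := fun h => hne ((div_eq_one_iff_eq hz0).1 h)
  have hξl : ξ ^ N = 1 := by
    show (s ζ / ζ ^ q) ^ N = 1
    rw [div_pow, ← map_pow, hζ.pow_eq_one, map_one, ← pow_mul, mul_comm, pow_mul, hζ.pow_eq_one,
      one_pow, div_one]
  have hξv : V.valuation (ξ - 1) < 1 := by
    have h1 : ξ - 1 = (s ζ - ζ ^ q) / ζ ^ q := by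
      show s ζ / ζ ^ q - 1 = _
      field_simp
    rw [h1, map_div₀, map_pow, hz1, one_pow, div_one]
    exact hs ζ hzV
  have hξV : ξ ∈ V := by
    have h1 : ξ - 1 ∈ V := (V.valuation_le_one_iff _).1 hξv.le
    have h2 := V.add_mem _ _ h1 V.one_mem
    rwa [sub_add_cancel] at h2
  let x : V := ⟨ξ, hξV⟩
  have hr : IsLocalRing.residue V x = 1 := by
    have h1 : x - 1 ∈ IsLocalRing.maximalIdeal V := by
      rw [ValuationSubring.valuation_lt_one_iff]
      exact hξv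
    have h2 := (IsLocalRing.residue_eq_zero_iff _).2 h1
    rw [map_sub, map_one, sub_eq_zero] at h2
    exact h2
  have hsum : ∑ i ∈ Finset.range N, x ^ i = 0 := by
    apply Subtype.ext
    have h1 := geom_sum_mul ξ N
    rw [hξl, sub_self] at h1
    have h2 := (mul_eq_zero.1 h1).resolve_right (sub_ne_zero.2 hξ1)
    rw [ZeroMemClass.coe_zero, ← h2]
    push_cast
    rfl
  have h1 : IsLocalRing.residue V (N : V) = 0 := by
    have h2 := congrArg (IsLocalRing.residue V) hsum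
    rw [map_sum, map_zero] at h2
    simp only [map_pow, hr, one_pow, Finset.sum_const, Finset.card_range, nsmul_eq_mul, mul_one] at h2
    rw [map_natCast]
    exact h2
  have h2 := (IsLocalRing.residue_eq_zero_iff _).1 h1
  have h4 := (ValuationSubring.valuation_lt_one_iff V (N : V)).1 h2
  have h5 : V.valuation (N : Ω) < 1 := h4
  rw [hV] at h5
  exact lt_irrefl _ h5

variable {F : Type} [Field F] [NumberField F] [IQ F] {A B : F} {Om : ℂ} {Ω : Type} [Field Ω] [DecidableEq Ω]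
  [Algebra F Ω] {j : Ω →+* ℂ} {act : 𝓞 F →+* AddMonoid.End (Pt (WAB A B) Ω)}

/-- Chunk C6 (M). The same as chi_sq (C3.lean; see its proof, port of H55K.S.char_id) for a generator T₀ of the points killed by N. Every t maps T₀ to act (a t) T₀ (N • ac t T₀ = 0; hg) and ζ to ζ^(c t); a t is well defined modulo N, c t modulo N. In the commutative ring R = 𝓞 F ⧸ span {N}: D₁(t) = class of a(t) * cj (a(t)) and C₁(t) = class of c(t) are monoid homomorphisms
(ac (t u) T₀ = act (a u) (act (a t) T₀); h.gal); MonoidHom.eqLocus is normal and contains the fixing subgroup of L = F(xc T₀, yc T₀, ζ). H13S.PA1_top with the finite set of frob_fin and the primes v containing N (N ≠ 0): γ from frob_fin, Nm γ = q, ac s T₀ = act γ T₀, so D₁(s) = class of γ cj γ = q (mul_cj), C₁(s) = q (zeta_N). -/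
theorem chi_N [IsAlgClosure F Ω] (h : CMA F A B Om j act) {N : ℕ} (hN : N ≠ 0) {T₀ : Pt (WAB A B) Ω} (hT : N • T₀ = 0)
    (hg : ∀ T : Pt (WAB A B) Ω, N • T = 0 → ∃ x : 𝓞 F, T = act x T₀) (hz : ∀ x : 𝓞 F, act x T₀ = 0 → (N : 𝓞 F) ∣ x)
    {ζ : Ω} (hζ : IsPrimitiveRoot ζ N) (s : Ω ≃ₐ[F] Ω) {a : 𝓞 F} {c : ℕ} (ha : ac (WAB A B) s T₀ = act a T₀) (hc : s ζ = ζ ^ c) :
    (N : 𝓞 F) ∣ a * cj a - c := by
  classical
  have hl0 : NeZero N := ⟨hN⟩
  have hac : IsAlgClosed Ω := IsAlgClosure.isAlgClosed F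
  have halg : Algebra.IsAlgebraic F Ω := IsAlgClosure.isAlgebraic
  have hex : ∀ t : Ω ≃ₐ[F] Ω, ∃ p : 𝓞 F × ℕ, ac (WAB A B) t T₀ = act p.1 T₀ ∧ t ζ = ζ ^ p.2 := by
    intro t
    obtain ⟨m, hm⟩ := hg (ac (WAB A B) t T₀) (by rw [← map_nsmul, hT, map_zero])
    have h1 : (t ζ) ^ N = 1 := by rw [← map_pow, hζ.pow_eq_one, map_one]
    obtain ⟨i, _, hi⟩ := hζ.eq_pow_of_pow_eq_one h1
    exact ⟨⟨m, i⟩, hm, hi.symm⟩
  choose p hp using hex
  let mk : 𝓞 F →+* 𝓞 F ⧸ Ideal.span {(N : 𝓞 F)} := Ideal.Quotient.mk (Ideal.span {(N : 𝓞 F)})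
  have hmk : ∀ x y : 𝓞 F, mk x = mk y ↔ (N : 𝓞 F) ∣ x - y := by
    intro x y
    rw [← Ideal.mem_span_singleton]
    exact Ideal.Quotient.mk_eq_mk_iff_sub_mem _ _
  have uniq1 : ∀ (t : Ω ≃ₐ[F] Ω) (x : 𝓞 F), ac (WAB A B) t T₀ = act x T₀ →
      mk (x * cj x) = mk ((p t).1 * cj (p t).1) := by
    intro t x hx
    have h1 : (N : 𝓞 F) ∣ x - (p t).1 := by
      apply hz
      rw [S.act_sub, ← hx, ← (hp t).1, sub_self]
    have h2 : (N : 𝓞 F) ∣ cj x - cj (p t).1 := by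
      obtain ⟨c, hc⟩ := h1
      refine ⟨cj c, ?_⟩
      rw [← map_sub, hc, map_mul, cj_nat]
    rw [map_mul mk, map_mul mk, (hmk _ _).2 h1, (hmk _ _).2 h2]
  have uniq2 : ∀ (t : Ω ≃ₐ[F] Ω) (n : ℕ), t ζ = ζ ^ n → mk (n : 𝓞 F) = mk ((p t).2 : 𝓞 F) := by
    intro t n hn
    have h1 : ζ ^ n = ζ ^ (p t).2 := by rw [← hn, (hp t).2]
    have h2 : n ≡ (p t).2 [MOD N] := by
      rw [← pow_mod_orderOf, ← pow_mod_orderOf ζ (p t).2, ← hζ.eq_orderOf] at h1
      exact hζ.pow_inj (Nat.mod_lt _ (Nat.pos_of_ne_zero hN)) (Nat.mod_lt _ (Nat.pos_of_ne_zero hN)) h1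
    rw [hmk]
    have h4 : (N : ℤ) ∣ ((n : ℤ) - ((p t).2 : ℤ)) := (Nat.modEq_iff_dvd.1 h2.symm)
    obtain ⟨m, hm⟩ := h4
    refine ⟨(m : 𝓞 F), ?_⟩
    exact_mod_cast congrArg (fun z : ℤ => (z : 𝓞 F)) hm
  let D₁ : (Ω ≃ₐ[F] Ω) →* (𝓞 F ⧸ Ideal.span {(N : 𝓞 F)}) :=
    { toFun := fun t => mk ((p t).1 * cj (p t).1)
      map_one' := by
        rw [← uniq1 1 1 (by rw [H55K.S.ac_one, S.act_one])]
        simp
      map_mul' := fun t u => by
        rw [← uniq1 (t * u) ((p u).1 * (p t).1)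
          (by rw [H55K.S.ac_mul, (hp u).1, h.gal, (hp t).1, ← S.act_mul]), ← map_mul, map_mul cj]
        congr 1
        ring }
  let C₁ : (Ω ≃ₐ[F] Ω) →* (𝓞 F ⧸ Ideal.span {(N : 𝓞 F)}) :=
    { toFun := fun t => mk ((p t).2 : 𝓞 F)
      map_one' := by
        rw [← uniq2 1 1 (by rw [pow_one]; rfl)]
        simp
      map_mul' := fun t u => by
        rw [← uniq2 (t * u) ((p t).2 * (p u).2) (by
          rw [AlgEquiv.mul_apply, (hp u).2, map_pow, (hp t).2, pow_mul]), ← map_mul]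
        congr 1
        push_cast
        rfl }
  have hH : ∀ (t : Ω ≃ₐ[F] Ω) (x : 𝓞 F) (n : ℕ), ac (WAB A B) t T₀ = act x T₀ →
      t ζ = ζ ^ n → (t ∈ MonoidHom.eqLocus D₁ C₁ ↔ (N : 𝓞 F) ∣ x * cj x - n) := by
    intro t x n hx hn
    rw [← hmk, uniq1 t x hx, uniq2 t n hn]
    exact Iff.rfl
  have key : MonoidHom.eqLocus D₁ C₁ = ⊤ := by
    have hint : ∀ x : Ω, IsIntegral F x := fun x => (Algebra.IsAlgebraic.isAlgebraic x).isIntegral
    let A₁ : Set Ω := {xc T₀, yc T₀, ζ}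
    have hAf : A₁.Finite := Set.toFinite A₁
    have hAf' : Finite A₁ := hAf
    have hLf : FiniteDimensional F (IntermediateField.adjoin F A₁) :=
      IntermediateField.finiteDimensional_adjoin fun x _ => hint x
    obtain ⟨S₀, hS₀, hfr⟩ := frob_fin h
    refine H13S.PA1_top (F₀ := F) (MonoidHom.eqLocus D₁ C₁) ?_ (IntermediateField.adjoin F A₁) ?_
      (S₀ ∪ {v | (N : 𝓞 F) ∈ v.asIdeal}) ?_ ?_
    · constructor
      intro t ht g
      show D₁ (g * t * g⁻¹) = C₁ (g * t * g⁻¹)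
      have h1 : D₁ t = C₁ t := ht
      rw [map_mul, map_mul, map_mul, map_mul, mul_right_comm, mul_right_comm (C₁ g), h1, ← map_mul,
        ← map_mul, mul_inv_cancel, map_one, map_one]
    · intro t ht
      have hfix : ∀ x ∈ A₁, t x = x := fun x hx =>
        ht ⟨x, IntermediateField.subset_adjoin F A₁ hx⟩
      have e1 : ac (WAB A B) t T₀ = act 1 T₀ := by
        rw [S.act_one]
        by_cases h0 : T₀ = 0
        · rw [h0, map_zero]
        refine pt_ext (H55K.S.ac_ne t h0) h0 ?_ ?_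
        · rw [H55K.S.xc_ac]
          exact hfix _ (by simp [A₁])
        · rw [H55K.S.yc_ac]
          exact hfix _ (by simp [A₁])
      rw [hH t 1 1 e1 (by rw [pow_one]; exact hfix _ (by simp [A₁]))]
      simp
    · have hf : ∀ n : ℕ, n ≠ 0 → {v : HeightOneSpectrum (𝓞 F) | (n : 𝓞 F) ∈ v.asIdeal}.Finite := by
        intro n hn
        have h1 : Ideal.span {(n : 𝓞 F)} ≠ 0 := by
          rw [Ideal.zero_eq_bot, Ne, Ideal.span_singleton_eq_bot]
          exact Nat.cast_ne_zero.2 hn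
        refine (Ideal.finite_factors h1).subset ?_
        intro v hv
        exact Ideal.dvd_span_singleton.2 hv
      exact hS₀.union (hf N hN)
    · intro v hv hq V hV t ht
      rw [Set.mem_union, not_or] at hv
      obtain ⟨hvS, hvl⟩ := hv
      change (N : 𝓞 F) ∉ v.asIdeal at hvl
      have hV1 : V.valuation (N : Ω) = 1 := by
        rw [← H55K.S.vo_nat (F := F)]
        exact g10b_one V v hV _ hvl
      obtain ⟨γ, hγ1, hγ2⟩ := hfr v hvS hq V hV t ht
      have f1 := hγ2 N hV1 T₀ hT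
      have f3 := zeta_N hN hζ V hV1 _ t ht
      rw [hH t _ _ f1 f3, mul_cj, hγ1, sub_self]
      exact dvd_zero _
  have h1 : s ∈ MonoidHom.eqLocus D₁ C₁ := by
    rw [key]
    exact Subgroup.mem_top s
  exact (hH s a c ha hc).1 h1

end H13D
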