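import Mathlib
import Pool.Agent.Lib.H13D.D2

/-! # H13D: definitions: Kronecker symbol, the second element -/

open NumberField IsDedekindDomain WeierstrassCurve

namespace H13D

open H55K

/-- χ is the Kronecker symbol of the squarefree integer d, on the natural numbers prime to N (all prime divisors of d divide N). -/
structure Kron (d : ℤ) (N : ℕ) (χ : ℕ → ℤ) : Prop where
  one : χ 1 = 1
  mul : ∀ a b : ℕ, a.Coprime N → b.Coprime N → χ (a * b) = χ a * χ b
  pm : ∀ a : ℕ, a.Coprime N → χ a = 1 ∨ χ a = -1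
  odd : ∀ p : ℕ, p.Prime → ¬ p ∣ N → p ≠ 2 → χ p = jacobiSym d p
  two : ¬ 2 ∣ N → (χ 2 = 1 ↔ d % 8 = 1)
  per : ∀ a b : ℕ, a.Coprime N → b.Coprime N → a ≡ b [MOD N ^ 3] → χ a = χ b

/-- The product of c₁ (x - ρ) + c₃ over the points i T₀, i a nonzero square modulo D. -/
noncomputable def Zel {Ω : Type} [Field Ω] [DecidableEq Ω] {W : WeierstrassCurve Ω} (D : ℕ) (T₀ : W.toAffine.Point) (c₁ ρ c₃ : Ω) : Ω :=
  ∏ i ∈ QR D, (c₁ * (xc (i • T₀) - ρ) + c₃)

end H13D
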