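import Mathlib
import Pool.Agent.Lib.H13D.D2

/-! # H13D, part E: products over the squares modulo D -/

namespace H13D

theorem e1_odd {D : ℕ} (h4 : D % 4 = 3) : Odd D := Nat.odd_iff.2 (by omega)

theorem e1_neg {D : ℕ} (h4 : D % 4 = 3) (x : ℤ) : jacobiSym (-x) D = -jacobiSym x D := by
  rw [jacobiSym.neg _ (e1_odd h4), ZMod.χ₄_nat_three_mod_four h4]
  ring

theorem e1_pm {D : ℕ} (hD : D.Prime) {x : ℤ} (hx : ¬ (D : ℤ) ∣ x) : jacobiSym x D = 1 ∨ jacobiSym x D = -1 := by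
  apply jacobiSym.eq_one_or_neg_one
  have h1 : ¬ D ∣ x.natAbs := fun h => hx (Int.natCast_dvd.2 h)
  have h2 := (Nat.Prime.coprime_iff_not_dvd hD).2 h1
  have h3 : Nat.gcd x.natAbs D = 1 := Nat.coprime_comm.1 h2
  exact h3

theorem e1_ndvd {D : ℕ} (hD : D.Prime) {x : ℤ} (hx : jacobiSym x D = 1 ∨ jacobiSym x D = -1) : ¬ (D : ℤ) ∣ x := by
  intro h
  have h1 : jacobiSym x D = 0 := by
    rw [jacobiSym.eq_zero_iff]
    refine ⟨hD.ne_zero, ?_⟩
    intro h2
    have h3 : D ∣ Int.gcd x D := Int.natCast_dvd_natCast.1 (Int.dvd_coe_gcd h dvd_rfl)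
    rw [h2] at h3
    exact hD.one_lt.ne' (Nat.dvd_one.1 h3)
  rcases hx with hx | hx <;> rw [h1] at hx <;> norm_num at hx

theorem e1_red {D : ℕ} (hD : D.Prime) (x : ℤ) : ((x % D).toNat : ℤ) = x % D :=
  Int.toNat_of_nonneg (Int.emod_nonneg _ (by exact_mod_cast hD.ne_zero))

theorem e1_red_lt {D : ℕ} (hD : D.Prime) (x : ℤ) : (x % D).toNat < D := by
  have h1 := e1_red hD x
  have h2 : x % D < D := Int.emod_lt_of_pos _ (by exact_mod_cast hD.pos)
  omega

theorem e1_red_dvd {D : ℕ} (hD : D.Prime) (x : ℤ) : (D : ℤ) ∣ x - ((x % D).toNat : ℤ) := by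
  rw [e1_red hD]
  exact Int.dvd_self_sub_emod

theorem e1_red_J {D : ℕ} (hD : D.Prime) (x : ℤ) : jacobiSym ((x % D).toNat : ℤ) D = jacobiSym x D := by
  rw [e1_red hD]
  exact (jacobiSym.mod_left x D).symm

/-- Chunk E1 (S). -/
theorem mem_QR {D : ℕ} (hD : D.Prime) (i : ℕ) : i ∈ QR D ↔ i < D ∧ jacobiSym (i : ℤ) D = 1 := by
  simp [QR]

theorem e1_range {D : ℕ} (hD : D.Prime) {x : ℕ} (hx : x < D) (h : jacobiSym (x : ℤ) D = 1 ∨ jacobiSym (x : ℤ) D = -1) : 0 < x := by
  rcases Nat.eq_zero_or_pos x with h1 | h1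
  · exfalso
    exact e1_ndvd hD h (by rw [h1]; simp)
  · exact h1

theorem e1_sub {D : ℕ} (hD : D.Prime) (h4 : D % 4 = 3) {x : ℕ} (hx : x ≤ D) :
    jacobiSym ((D - x : ℕ) : ℤ) D = -jacobiSym (x : ℤ) D := by
  rw [← e1_neg h4]
  apply jacobiSym.mod_left'
  rw [Nat.cast_sub hx]
  have h1 : (D : ℤ) - x = -x + D := by ring
  rw [h1, Int.add_emod_right]

/-- Chunk E1 (M). The map i → D - i is a bijection from QR D onto the set of the i < D with jacobiSym i D = -1 (jacobiSym (-1) D = -1 as D % 4 = 3: jacobiSym.at_neg_one, ZMod.χ₄_nat_three_mod_four; jacobiSym.mul_left, mod_left); together with 0 these two sets are the whole of range D (a prime D does not divide i ≠ 0: value 1 or -1):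
D = 2 card + 1, and D % 4 = 3. -/
theorem card_QR {D : ℕ} (hD : D.Prime) (h4 : D % 4 = 3) : Odd (QR D).card := by
  set N : Finset ℕ := (Finset.range D).filter fun i => jacobiSym (i : ℤ) D = -1 with hN
  have mN : ∀ i, i ∈ N ↔ i < D ∧ jacobiSym (i : ℤ) D = -1 := by
    intro i
    simp [hN]
  have hc : (QR D).card = N.card := by
    refine Finset.card_nbij (fun i => D - i) ?_ ?_ ?_
    · intro i hi
      obtain ⟨h1, h2⟩ := (mem_QR hD i).1 hi
      have h3 := e1_range hD h1 (Or.inl h2)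
      show D - i ∈ N
      refine (mN _).2 ⟨by omega, ?_⟩
      rw [e1_sub hD h4 h1.le, h2]
    · intro i hi j hj hij
      obtain ⟨h1, h2⟩ := (mem_QR hD i).1 hi
      obtain ⟨h3, h4⟩ := (mem_QR hD j).1 hj
      have h5 : D - i = D - j := hij
      omega
    · intro j hj
      obtain ⟨h1, h2⟩ := (mN j).1 hj
      have h3 := e1_range hD h1 (Or.inr h2)
      refine ⟨D - j, (mem_QR hD _).2 ⟨by omega, ?_⟩, ?_⟩
      · rw [e1_sub hD h4 h1.le, h2, neg_neg]
      · show D - (D - j) = j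
        omega
  have hdis : Disjoint (QR D) N := by
    rw [Finset.disjoint_left]
    intro i hi hj
    have h1 := ((mem_QR hD i).1 hi).2
    have h2 := ((mN i).1 hj).2
    rw [h1] at h2
    norm_num at h2
  have hun : Finset.range D = insert 0 (QR D ∪ N) := by
    ext i
    rw [Finset.mem_insert, Finset.mem_union, Finset.mem_range, mem_QR hD, mN]
    constructor
    · intro hi
      rcases Nat.eq_zero_or_pos i with h0 | h0
      · exact Or.inl h0
      · have h1 : ¬ (D : ℤ) ∣ (i : ℤ) := by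
          intro h2
          have h3 := Nat.le_of_dvd h0 (Int.natCast_dvd_natCast.1 h2)
          omega
        rcases e1_pm hD h1 with h2 | h2
        · exact Or.inr (Or.inl ⟨hi, h2⟩)
        · exact Or.inr (Or.inr ⟨hi, h2⟩)
    · rintro (rfl | ⟨h1, _⟩ | ⟨h1, _⟩)
      · exact hD.pos
      · exact h1
      · exact h1
  have h0 : (0 : ℕ) ∉ QR D ∪ N := by
    rw [Finset.mem_union]
    rintro (h | h)
    · have h1 := (mem_QR hD 0).1 h
      exact absurd (e1_range hD h1.1 (Or.inl h1.2)) (lt_irrefl 0)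
    · have h1 := (mN 0).1 h
      exact absurd (e1_range hD h1.1 (Or.inr h1.2)) (lt_irrefl 0)
  have hcard := congrArg Finset.card hun
  rw [Finset.card_range, Finset.card_insert_of_notMem h0, Finset.card_union_of_disjoint hdis, ← hc] at hcard
  rw [Nat.odd_iff]
  omega

/-- Chunk E1 (M). If jacobiSym b D = 1 then i → (b i) mod D is a bijection of QR D (inverse: multiplication by an inverse c of b modulo D); g (b i) = g ((b i) mod D) (hper). Finset.prod_nbij or Finset.prod_bij. -/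
theorem prod_sq {R : Type} [CommRing R] {D : ℕ} (hD : D.Prime) (g : ℤ → R)
    (hper : ∀ i j : ℤ, (D : ℤ) ∣ i - j → g i = g j) {b : ℤ} (hb : jacobiSym b D = 1) :
    ∏ i ∈ QR D, g (b * (i : ℤ)) = ∏ i ∈ QR D, g (i : ℤ) := by
  have hbD : ¬ (D : ℤ) ∣ b := e1_ndvd hD (Or.inl hb)
  have hi : ∀ i ∈ QR D, ((b * (i : ℤ)) % D).toNat ∈ QR D := by
    intro i hi
    refine (mem_QR hD _).2 ⟨e1_red_lt hD _, ?_⟩
    rw [e1_red_J hD, jacobiSym.mul_left, hb, ((mem_QR hD i).1 hi).2, one_mul]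
  have hinj : Set.InjOn (fun i : ℕ => ((b * (i : ℤ)) % D).toNat) (QR D : Set ℕ) := by
    intro i hi j hj hij
    have h1 := e1_red_dvd hD (b * (i : ℤ))
    have h2 := e1_red_dvd hD (b * (j : ℤ))
    have h3 : ((b * (i : ℤ)) % D).toNat = ((b * (j : ℤ)) % D).toNat := hij
    rw [h3] at h1
    have h4 : (D : ℤ) ∣ b * ((i : ℤ) - j) := by
      have h5 := dvd_sub h1 h2
      have h6 : b * (i : ℤ) - (((b * (j : ℤ)) % D).toNat : ℤ) - (b * (j : ℤ) - (((b * (j : ℤ)) % D).toNat : ℤ)) =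
        b * ((i : ℤ) - j) := by ring
      rwa [h6] at h5
    have h7 : (D : ℤ) ∣ (i : ℤ) - j := ((Nat.prime_iff_prime_int.1 hD).dvd_or_dvd h4).resolve_left hbD
    have h8 := ((mem_QR hD i).1 hi).1
    have h9 := ((mem_QR hD j).1 hj).1
    obtain ⟨k, hk⟩ := h7
    have hk0 : k = 0 := by
      have h10 : |(i : ℤ) - j| < D := by
        rw [abs_lt]
        constructor <;> omega
      rw [hk, abs_mul, Nat.abs_cast] at h10
      by_contra hne
      have h11 : 1 ≤ |k| := Int.one_le_abs hne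
      have h12 : (0 : ℤ) < D := by exact_mod_cast hD.pos
      nlinarith
    rw [hk0, mul_zero] at hk
    omega
  have hsurj := Finset.surjOn_of_injOn_of_card_le (fun i : ℕ => ((b * (i : ℤ)) % D).toNat) hi hinj le_rfl
  refine Finset.prod_nbij (fun i => ((b * (i : ℤ)) % D).toNat) hi hinj hsurj ?_
  intro i _
  exact hper _ _ (e1_red_dvd hD _)

end H13D
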