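import Mathlib
import Pool.Agent.Lib.H55K.M0
import Pool.Agent.Lib.H55K.M3A

/-! # H13D, part E: the values of Yel and Zel at the good primes -/

open NumberField IsDedekindDomain WeierstrassCurve

namespace H13D

open H55P (IQ embF eF LF Per IsHecke Pt ac Inert Dec Nm)
open H35P (WAB Ker tt GoodW IntW)
open H55K
open H55K.MG (VC Crd)

variable {F : Type} [Field F] [NumberField F] [IQ F] {A B : F} {Ω : Type} [Field Ω] [DecidableEq Ω] [Algebra F Ω] {V : ValuationSubring Ω}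

omit [NumberField F] [IQ F] in
theorem e5_neg (W₀ : WeierstrassCurve (𝓞 F)) {Q : Pt (W₀⁄F) Ω} (hQ : Q ≠ 0) : xc (-Q) = xc Q ∧
    yc (-Q) = -yc Q - ak Ω W₀.a₁ * xc Q - ak Ω W₀.a₃ := by
  rcases Q with _ | ⟨x, y, hn⟩
  · exact absurd rfl hQ
  · exact ⟨rfl, rfl⟩

omit [NumberField F] [IQ F] in
theorem e5_eq (W₀ : WeierstrassCurve (𝓞 F)) {X : Pt (W₀⁄F) Ω} (hX : X ≠ 0) :
    yc X ^ 2 + ak Ω W₀.a₁ * xc X * yc X + ak Ω W₀.a₃ * yc X =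
      xc X ^ 3 + ak Ω W₀.a₂ * xc X ^ 2 + ak Ω W₀.a₄ * xc X + ak Ω W₀.a₆ := by
  rcases X with _ | ⟨x, y, hn⟩
  · exact absurd rfl hX
  · exact (Affine.equation_iff _ _).1 hn.1

omit [IQ F] in
theorem e5_two (W₀ : WeierstrassCurve (𝓞 F)) {Θ : Pt (WAB A B) Ω ≃+ Pt (W₀⁄F) Ω}
    (hc : Crd 1 (algebraMap F Ω (algebraMap (𝓞 F) F W₀.b₂ / 12)) (algebraMap F Ω (algebraMap (𝓞 F) F W₀.a₁ / 2))
        (algebraMap F Ω (algebraMap (𝓞 F) F W₀.a₃ / 2)) Θ) {P : Pt (WAB A B) Ω} (h0 : P ≠ 0) :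
    2 * yc P = 2 * yc (Θ P) + ak Ω W₀.a₁ * xc (Θ P) + ak Ω W₀.a₃ := by
  have h1 := (hc P h0).2.2
  have h2 : (2 : Ω) * algebraMap F Ω (algebraMap (𝓞 F) F W₀.a₁ / 2) = ak Ω W₀.a₁ := by
    have : (2 : Ω) = algebraMap F Ω 2 := (map_ofNat _ 2).symm
    rw [this, ← map_mul, mul_div_cancel₀ _ two_ne_zero]
  have h3 : (2 : Ω) * algebraMap F Ω (algebraMap (𝓞 F) F W₀.a₃ / 2) = ak Ω W₀.a₃ := by
    have : (2 : Ω) = algebraMap F Ω 2 := (map_ofNat _ 2).symm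
    rw [this, ← map_mul, mul_div_cancel₀ _ two_ne_zero]
  rw [h1, ← h2, ← h3]
  ring

/-- Chunk E5 (S). yc P = y' + (a₁/2) x' + a₃/2 with (x', y') = Θ P (Crd; u = 1), Θ (-P) = -Θ P has the y-coordinate -y' - a₁ x' - a₃ (Affine.Point.neg_some, negY), so 2 yc P = y' - yc (-(Θ P)). -/
theorem two_y (W₀ : WeierstrassCurve (𝓞 F)) {Θ : Pt (WAB A B) Ω ≃+ Pt (W₀⁄F) Ω}
    (hc : Crd 1 (algebraMap F Ω (algebraMap (𝓞 F) F W₀.b₂ / 12)) (algebraMap F Ω (algebraMap (𝓞 F) F W₀.a₁ / 2))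
        (algebraMap F Ω (algebraMap (𝓞 F) F W₀.a₃ / 2)) Θ) {P : Pt (WAB A B) Ω} (h0 : P ≠ 0) :
    2 * yc P = yc (Θ P) - yc (-Θ P) := by
  rw [e5_two W₀ hc h0, (e5_neg W₀ (hc P h0).1).2]
  ring

/-- Chunk E5 (S/M). two_y; Θ P, -Θ P are integral (MG.int_crd, not in Ker), so the value is ≤ 1; if it were < 1 then Ker V (Θ P - (-Θ P)) by MG.cong_ker (equal x-coordinates), i.e. P + P in Kg. -/
theorem val_two_y (W₀ : WeierstrassCurve (𝓞 F)) (hG : GoodW ((W₀⁄F)⁄Ω) V) {Θ : Pt (WAB A B) Ω ≃+ Pt (W₀⁄F) Ω}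
    (hc : Crd 1 (algebraMap F Ω (algebraMap (𝓞 F) F W₀.b₂ / 12)) (algebraMap F Ω (algebraMap (𝓞 F) F W₀.a₁ / 2))
        (algebraMap F Ω (algebraMap (𝓞 F) F W₀.a₃ / 2)) Θ) {Kg : AddSubgroup (Pt (WAB A B) Ω)} (hK : ∀ P, P ∈ Kg ↔ Ker V (Θ P))
    {P : Pt (WAB A B) Ω} (hP : P ∉ Kg) (h2 : P + P ∉ Kg) : V.valuation (2 * yc P) = 1 := by
  have h0 : P ≠ 0 := by
    rintro rfl
    exact hP Kg.zero_mem
  have hΘ : ¬ Ker V (Θ P) := fun h => hP ((hK P).2 h)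
  have hΘ' : ¬ Ker V (-Θ P) := fun h => hΘ ((H35P.ker_neg _).1 h)
  obtain ⟨-, -, hy⟩ := MG.int_crd hG hΘ
  obtain ⟨-, -, hy'⟩ := MG.int_crd hG hΘ'
  rw [two_y W₀ hc h0]
  refine le_antisymm ((V.valuation_le_one_iff _).2 (sub_mem hy hy')) (not_lt.1 fun hlt => ?_)
  have h3 := MG.cong_ker hG hΘ hΘ' (by
    rw [(e5_neg W₀ (hc P h0).1).1, sub_self, map_zero]
    exact zero_lt_one) hlt
  apply h2
  rw [hK, map_add]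
  rwa [sub_neg_eq_add] at h3

/-- Chunk E5 (S). (2 y)^2 = (2y' + a₁ x' + a₃)^2 = 4x'^3 + b₂ x'^2 + 2 b₄ x' + b₆ = (a₁ x' + a₃)^2 + 4 (x'^3 + a₂ x'^2 + a₄ x' + a₆), x' = xc P - b₂/12 (Crd), from the equation of W₀ at Θ P. -/
theorem sq_two_y (W₀ : WeierstrassCurve (𝓞 F)) {Θ : Pt (WAB A B) Ω ≃+ Pt (W₀⁄F) Ω}
    (hc : Crd 1 (algebraMap F Ω (algebraMap (𝓞 F) F W₀.b₂ / 12)) (algebraMap F Ω (algebraMap (𝓞 F) F W₀.a₁ / 2))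
        (algebraMap F Ω (algebraMap (𝓞 F) F W₀.a₃ / 2)) Θ) {P : Pt (WAB A B) Ω} (h0 : P ≠ 0) :
    (2 * yc P) ^ 2 = (ak Ω W₀.a₁ * (xc P - algebraMap F Ω (algebraMap (𝓞 F) F W₀.b₂ / 12)) + ak Ω W₀.a₃) ^ 2 +
      4 * (xc (Θ P) ^ 3 + ak Ω W₀.a₂ * xc (Θ P) ^ 2 + ak Ω W₀.a₄ * xc (Θ P) + ak Ω W₀.a₆) := by
  have hx : xc P - algebraMap F Ω (algebraMap (𝓞 F) F W₀.b₂ / 12) = xc (Θ P) := by
    rw [(hc P h0).2.1]
    ring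
  have he := e5_eq W₀ (hc P h0).1
  rw [hx, e5_two W₀ hc h0]
  linear_combination 4 * he

end H13D
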