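import Mathlib
import Pool.Agent.Lib.H13D.A5
import Pool.Agent.Lib.H13D.C2
import Pool.Agent.Lib.H13D.D3
import Pool.Agent.Lib.H13D.E1
import Pool.Agent.Lib.H13D.E5

/-! # H13D, part E: the values of Yel and Zel at the good primes -/

open NumberField IsDedekindDomain WeierstrassCurve

namespace H13D

open H55P (IQ embF eF LF Per IsHecke Pt ac Inert Dec Nm)
open H35P (WAB Ker tt GoodW IntW)
open H55K
open H55K.MG (VC Crd)

variable {F : Type} [Field F] [NumberField F] [IQ F] {A B : F} {Om : ℂ} {Ω : Type} [Field Ω] [DecidableEq Ω]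
  [Algebra F Ω] {j : Ω →+* ℂ} {act : 𝓞 F →+* AddMonoid.End (Pt (WAB A B) Ω)} {V : ValuationSubring Ω} {δ : 𝓞 F} {D : ℕ}

/-- Chunk E6 (S/M). The points i • T₀ and (2i) • T₀ for i in QR D (0 < i < D: D does not divide i, 2i) are killed by δ and not 0 (zsmul_iff), so they are not in Kg (tor_unit' for δ). -/
theorem QR_out (h : CMA F A B Om j act) (hd : Del F δ D) {Kg : AddSubgroup (Pt (WAB A B) Ω)} {u r : Ω} (hR : RM A B V Kg u r)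
    (hδ : V.valuation (ak Ω δ) = 1) {T₀ : Pt (WAB A B) Ω} (hT : act δ T₀ = 0) (h0 : T₀ ≠ 0) {i : ℕ} (hi : i ∈ QR D) :
    i • T₀ ∉ Kg ∧ i • T₀ + i • T₀ ∉ Kg := by
  have key : ∀ k : ℕ, k • T₀ ∈ Kg → (D : ℤ) ∣ (k : ℤ) := by
    intro k hk
    have h1 : act δ (k • T₀) = 0 := by rw [map_nsmul, hT, smul_zero]
    have h2 := tor_unit' h hR hδ h1 hk
    rw [← zsmul_iff hd hT h0, natCast_zsmul]
    exact h2
  rw [mem_QR hd.prime] at hi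
  have hD : ¬ (D : ℤ) ∣ (i : ℤ) := by
    intro h1
    have h2 : D ∣ i := Int.natCast_dvd_natCast.1 h1
    have h3 : i = 0 := Nat.eq_zero_of_dvd_of_lt h2 hi.1
    have h4 := hi.2
    rw [h3, Nat.cast_zero, jacobiSym.zero_left hd.prime.one_lt] at h4
    exact absurd h4 (by norm_num)
  refine ⟨fun h1 => hD (key i h1), fun h1 => ?_⟩
  rw [← two_nsmul, ← mul_smul] at h1
  have h2 := key _ h1
  push_cast at h2
  rcases (Nat.prime_iff_prime_int.1 hd.prime).dvd_or_dvd h2 with h3 | h3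
  · have h4 := Int.le_of_dvd (by norm_num) h3
    have := hd.big
    omega
  · exact hD h3

/-- Chunk E6 (S). QR_out, val_two_y for every factor. -/
theorem val_Yel (h : CMA F A B Om j act) (hd : Del F δ D) (W₀ : WeierstrassCurve (𝓞 F)) (hG : GoodW ((W₀⁄F)⁄Ω) V)
    {Θ : Pt (WAB A B) Ω ≃+ Pt (W₀⁄F) Ω}
    (hc : Crd 1 (algebraMap F Ω (algebraMap (𝓞 F) F W₀.b₂ / 12)) (algebraMap F Ω (algebraMap (𝓞 F) F W₀.a₁ / 2))
        (algebraMap F Ω (algebraMap (𝓞 F) F W₀.a₃ / 2)) Θ) {Kg : AddSubgroup (Pt (WAB A B) Ω)} (hK : ∀ P, P ∈ Kg ↔ Ker V (Θ P))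
    {u r : Ω} (hR : RM A B V Kg u r) (hδ : V.valuation (ak Ω δ) = 1) {T₀ : Pt (WAB A B) Ω} (hT : act δ T₀ = 0) (h0 : T₀ ≠ 0) :
    V.valuation (Yel D T₀) = 1 := by
  unfold Yel
  rw [map_prod]
  refine Finset.prod_eq_one fun i hi => ?_
  obtain ⟨h1, h2⟩ := QR_out h hd hR hδ hT h0 hi
  exact val_two_y W₀ hG hc hK h1 h2

/-- Chunk E6 (S/M). By sq_two_y every factor of Yel^2 is α^2 + 4 c with α the factor of Zel, V(α) ≤ 1, V(c) ≤ 1 (xc (Θ P) = xc P - b₂/12 in V: MG.int_crd; ak_le). Products of such expressions: (α^2 + 4c)(α'^2 + 4c') = (αα')^2 + 4 (..): induction over the finite set. -/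
theorem sq_Yel (h : CMA F A B Om j act) (hd : Del F δ D) (W₀ : WeierstrassCurve (𝓞 F)) (hG : GoodW ((W₀⁄F)⁄Ω) V)
    {Θ : Pt (WAB A B) Ω ≃+ Pt (W₀⁄F) Ω}
    (hc : Crd 1 (algebraMap F Ω (algebraMap (𝓞 F) F W₀.b₂ / 12)) (algebraMap F Ω (algebraMap (𝓞 F) F W₀.a₁ / 2))
        (algebraMap F Ω (algebraMap (𝓞 F) F W₀.a₃ / 2)) Θ) {Kg : AddSubgroup (Pt (WAB A B) Ω)} (hK : ∀ P, P ∈ Kg ↔ Ker V (Θ P))
    {u r : Ω} (hR : RM A B V Kg u r) (hδ : V.valuation (ak Ω δ) = 1) {T₀ : Pt (WAB A B) Ω} (hT : act δ T₀ = 0) (h0 : T₀ ≠ 0) :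
    V.valuation (Zel D T₀ (ak Ω W₀.a₁) (algebraMap F Ω (algebraMap (𝓞 F) F W₀.b₂ / 12)) (ak Ω W₀.a₃)) ≤ 1 ∧
    ∃ w : Ω, V.valuation w ≤ 1 ∧ Yel D T₀ ^ 2 =
      Zel D T₀ (ak Ω W₀.a₁) (algebraMap F Ω (algebraMap (𝓞 F) F W₀.b₂ / 12)) (ak Ω W₀.a₃) ^ 2 + 4 * w := by
  classical
  have key : ∀ s : Finset ℕ, s ⊆ QR D →
      (∏ i ∈ s, (ak Ω W₀.a₁ * (xc (i • T₀) - algebraMap F Ω (algebraMap (𝓞 F) F W₀.b₂ / 12)) + ak Ω W₀.a₃)) ∈ V ∧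
      ∃ w : Ω, w ∈ V ∧ (∏ i ∈ s, 2 * yc (i • T₀)) ^ 2 =
        (∏ i ∈ s, (ak Ω W₀.a₁ * (xc (i • T₀) - algebraMap F Ω (algebraMap (𝓞 F) F W₀.b₂ / 12)) + ak Ω W₀.a₃)) ^ 2 + 4 * w := by
    intro s
    induction s using Finset.induction_on with
    | empty =>
      intro _
      simp only [Finset.prod_empty]
      exact ⟨V.one_mem, 0, V.zero_mem, by ring⟩
    | insert i s his ih =>
      intro hs
      obtain ⟨h1, w, hw, h2⟩ := ih (fun k hk => hs (Finset.mem_insert_of_mem hk))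
      have hi := hs (Finset.mem_insert_self i s)
      obtain ⟨h3, -⟩ := QR_out h hd hR hδ hT h0 hi
      have hP0 : i • T₀ ≠ 0 := fun h4 => h3 (by rw [h4]; exact Kg.zero_mem)
      have hker : ¬ Ker V (Θ (i • T₀)) := fun h4 => h3 ((hK _).2 h4)
      obtain ⟨-, hx, -⟩ := MG.int_crd hG hker
      obtain ⟨-, hxx, -⟩ := hc _ hP0
      have hx' : xc (i • T₀) - algebraMap F Ω (algebraMap (𝓞 F) F W₀.b₂ / 12) = xc (Θ (i • T₀)) := by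
        rw [hxx]
        ring
      have hak : ∀ a : 𝓞 F, ak Ω a ∈ V := fun a => (V.valuation_le_one_iff _).1 (ak_le V a)
      have hsq := sq_two_y W₀ hc hP0
      rw [hx'] at hsq
      have hα : ak Ω W₀.a₁ * xc (Θ (i • T₀)) + ak Ω W₀.a₃ ∈ V := V.add_mem _ _ (V.mul_mem _ _ (hak _) hx) (hak _)
      have hcc : xc (Θ (i • T₀)) ^ 3 + ak Ω W₀.a₂ * xc (Θ (i • T₀)) ^ 2 + ak Ω W₀.a₄ * xc (Θ (i • T₀)) + ak Ω W₀.a₆ ∈ V :=
        V.add_mem _ _ (V.add_mem _ _ (V.add_mem _ _ (pow_mem hx 3) (V.mul_mem _ _ (hak _) (pow_mem hx 2))) (V.mul_mem _ _ (hak _) hx)) (hak _)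
      rw [Finset.prod_insert his, Finset.prod_insert his, hx']
      generalize ak Ω W₀.a₁ * xc (Θ (i • T₀)) + ak Ω W₀.a₃ = α at hα hsq ⊢
      generalize xc (Θ (i • T₀)) ^ 3 + ak Ω W₀.a₂ * xc (Θ (i • T₀)) ^ 2 + ak Ω W₀.a₄ * xc (Θ (i • T₀)) + ak Ω W₀.a₆ = c at hcc hsq
      generalize (∏ i ∈ s, (ak Ω W₀.a₁ * (xc (i • T₀) - algebraMap F Ω (algebraMap (𝓞 F) F W₀.b₂ / 12)) + ak Ω W₀.a₃)) = β at h1 h2 ⊢
      refine ⟨V.mul_mem _ _ hα h1, α ^ 2 * w + c * β ^ 2 + 4 * (c * w), ?_, ?_⟩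
      · refine V.add_mem _ _ (V.add_mem _ _ (V.mul_mem _ _ (pow_mem hα 2) hw) (V.mul_mem _ _ hcc (pow_mem h1 2))) (V.mul_mem _ _ ?_ (V.mul_mem _ _ hcc hw))
        exact_mod_cast natCast_mem V 4
      · rw [mul_pow, hsq, h2]
        ring
  obtain ⟨h1, w, hw, h2⟩ := key (QR D) (fun _ h => h)
  exact ⟨(V.valuation_le_one_iff _).2 h1, w, (V.valuation_le_one_iff _).2 hw, h2⟩

end H13D
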