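import Mathlib

/-! # H13D, part E: rational numbers and valuation rings -/

namespace H13D

theorem e7_int_le {Ω : Type} [Field Ω] (V : ValuationSubring Ω) (n : ℤ) : V.valuation (n : Ω) ≤ 1 := by
  rw [V.valuation_le_one_iff]
  exact intCast_mem V n

theorem e7_int_lt {Ω : Type} [Field Ω] (V : ValuationSubring Ω) {p : ℕ} (hp : p.Prime) (hV : V.valuation (p : Ω) < 1)
    (n : ℤ) : V.valuation (n : Ω) < 1 ↔ (p : ℤ) ∣ n := by
  constructor
  · intro h
    by_contra hn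
    have hc : IsCoprime (p : ℤ) n := by
      rw [Int.isCoprime_iff_gcd_eq_one]
      rw [← Int.isCoprime_iff_gcd_eq_one]
      exact (Prime.coprime_iff_not_dvd (Nat.prime_iff_prime_int.1 hp)).2 hn
    obtain ⟨u, w, huw⟩ := hc
    have h1 : (u : Ω) * (p : Ω) + (w : Ω) * (n : Ω) = 1 := by exact_mod_cast congrArg (fun z : ℤ => (z : Ω)) huw
    have h2 : V.valuation ((u : Ω) * (p : Ω) + (w : Ω) * (n : Ω)) < 1 := by
      refine Valuation.map_add_lt _ ?_ ?_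
      · rw [map_mul]
        exact mul_lt_one_of_nonneg_of_lt_one_right (e7_int_le V u) zero_le hV
      · rw [map_mul]
        exact mul_lt_one_of_nonneg_of_lt_one_right (e7_int_le V w) zero_le h
    rw [h1, map_one] at h2
    exact lt_irrefl _ h2
  · rintro ⟨c, rfl⟩
    push_cast
    rw [map_mul]
    exact mul_lt_one_of_lt_of_le hV (e7_int_le V c)

theorem e7_int_eq {Ω : Type} [Field Ω] (V : ValuationSubring Ω) {p : ℕ} (hp : p.Prime) (hV : V.valuation (p : Ω) < 1)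
    {n : ℤ} (hn : ¬ (p : ℤ) ∣ n) : V.valuation (n : Ω) = 1 := by
  refine le_antisymm (e7_int_le V n) (not_lt.1 fun h => hn ((e7_int_lt V hp hV n).1 h))

theorem e7_rat {Ω : Type} [Field Ω] [Algebra ℚ Ω] (q : ℚ) : algebraMap ℚ Ω q * ((q.den : ℤ) : Ω) = ((q.num : ℤ) : Ω) := by
  have h1 : q * (q.den : ℚ) = (q.num : ℚ) := Rat.mul_den_eq_num q
  have h2 := congrArg (algebraMap ℚ Ω) h1
  rw [map_mul, map_natCast, map_intCast] at h2
  rw [← h2]
  push_cast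
  rfl

/-- Chunk E7 (S/M). V(n) ≤ 1 for integers n; V(n) < 1 iff p divides n (if not, u n + w p = 1); q = num/den, num and den are coprime. -/
theorem rat_le {Ω : Type} [Field Ω] [Algebra ℚ Ω] (V : ValuationSubring Ω) {p : ℕ} (hp : p.Prime) (hV : V.valuation (p : Ω) < 1)
    (q : ℚ) (hq : V.valuation (algebraMap ℚ Ω q) ≤ 1) : ¬ p ∣ q.den := by
  intro hd
  have h1 : ¬ (p : ℤ) ∣ q.num := by
    intro h2
    have h3 := q.reduced
    have h4 : p ∣ q.num.natAbs := Int.natCast_dvd.1 h2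
    have h5 := Nat.dvd_gcd h4 hd
    rw [Nat.Coprime] at h3
    rw [h3] at h5
    exact hp.one_lt.ne' (Nat.dvd_one.1 h5)
  have h2 := congrArg V.valuation (e7_rat (Ω := Ω) q)
  rw [map_mul, e7_int_eq V hp hV h1] at h2
  have h3 : V.valuation ((q.den : ℤ) : Ω) < 1 := (e7_int_lt V hp hV _).2 (by exact_mod_cast hd)
  have h4 : V.valuation (algebraMap ℚ Ω q) * V.valuation ((q.den : ℤ) : Ω) < 1 :=
    mul_lt_one_of_nonneg_of_lt_one_right hq zero_le h3
  rw [h2] at h4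
  exact lt_irrefl _ h4

/-- Chunk E7 (S). rat_le for q and its inverse (or directly). -/
theorem rat_eq {Ω : Type} [Field Ω] [Algebra ℚ Ω] (V : ValuationSubring Ω) {p : ℕ} (hp : p.Prime) (hV : V.valuation (p : Ω) < 1)
    (q : ℚ) (hq : V.valuation (algebraMap ℚ Ω q) = 1) : ¬ (p : ℤ) ∣ q.num ∧ ¬ p ∣ q.den := by
  have h1 := rat_le V hp hV q hq.le
  refine ⟨fun h2 => ?_, h1⟩
  have h3 := congrArg V.valuation (e7_rat (Ω := Ω) q)
  have h4 : V.valuation ((q.den : ℤ) : Ω) = 1 := e7_int_eq V hp hV (by exact_mod_cast h1)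
  rw [map_mul, hq, h4, one_mul] at h3
  have h5 := (e7_int_lt V hp hV q.num).2 h2
  rw [← h3] at h5
  exact lt_irrefl _ h5

theorem e7_sq {x : ℤ} (hx : ¬ (2 : ℤ) ∣ x) : ∃ k : ℤ, x ^ 2 = 4 * k + 1 := by
  obtain ⟨k, hk⟩ : Odd x := Int.not_even_iff_odd.1 fun h => hx (even_iff_two_dvd.1 h)
  exact ⟨k ^ 2 + k, by rw [hk]; ring⟩

theorem e7_odd_mul {x y : ℤ} (hx : ¬ (2 : ℤ) ∣ x) (hy : ¬ (2 : ℤ) ∣ y) : ¬ (2 : ℤ) ∣ x * y := by
  intro h
  rcases Int.prime_two.dvd_or_dvd h with h | h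
  · exact hx h
  · exact hy h

/-- Chunk E7 (M). Put n = e.num * e.den (an integer ≠ 0), e = n/den^2. |n| = b^2 c with c squarefree (Nat.sq_mul_squarefree), d = sign(n) c, f = b/den: e = d f^2, f ≠ 0. A prime p dividing d divides n, so it divides e.num or e.den, so p divides N (h). If 2 does not divide N: n, den, b, d are odd; e = z^2 + 4w with z, w of odd denominators:
n (z.den w.den)^2 = (z.num e.den w.den)^2 + 4 (integer) (multiply by (e.den z.den w.den)^2), odd squares are 1 modulo 4 (even 8) and the left side is odd, so n is 1 modulo 4, and n = d b^2 gives d % 4 = 1 (Int.emod_emod_of_dvd, decide on residues modulo 4). -/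
theorem e_form {N : ℕ} {e : ℚ} (he : e ≠ 0) (h : ∀ p : ℕ, p.Prime → ¬ p ∣ N → ¬ (p : ℤ) ∣ e.num ∧ ¬ p ∣ e.den)
    (h2 : ¬ 2 ∣ N → ∃ z w : ℚ, e = z ^ 2 + 4 * w ∧ ¬ 2 ∣ z.den ∧ ¬ 2 ∣ w.den) :
    ∃ (d : ℤ) (f : ℚ), Squarefree d ∧ f ≠ 0 ∧ e = d * f ^ 2 ∧ (∀ p : ℕ, p.Prime → (p : ℤ) ∣ d → p ∣ N) ∧ (¬ 2 ∣ N → d % 4 = 1) := by
  have hden0 : (e.den : ℚ) ≠ 0 := by exact_mod_cast e.den_nz
  have hnum0 : e.num ≠ 0 := Rat.num_ne_zero.2 he
  set n : ℤ := e.num * e.den with hn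
  have hn0 : n ≠ 0 := mul_ne_zero hnum0 (by exact_mod_cast e.den_nz)
  have hen : e * (e.den : ℚ) ^ 2 = (n : ℚ) := by
    have h1 : e * (e.den : ℚ) = (e.num : ℚ) := Rat.mul_den_eq_num e
    rw [hn, sq, ← mul_assoc, h1]
    push_cast
    ring
  obtain ⟨c, b, hbc, hcs⟩ := Nat.sq_mul_squarefree n.natAbs
  have hbcn : n = n.sign * c * (b : ℤ) ^ 2 := by
    have h1 : ((b : ℤ) ^ 2 * c) = (n.natAbs : ℤ) := by exact_mod_cast hbc
    rw [mul_assoc, mul_comm (c : ℤ), h1]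
    exact (Int.sign_mul_natAbs n).symm
  set d : ℤ := n.sign * c with hd
  have hdabs : d.natAbs = c := by
    rw [hd, Int.natAbs_mul, Int.natAbs_sign_of_ne_zero hn0, one_mul, Int.natAbs_natCast]
  have hb0 : (b : ℚ) ≠ 0 := by
    intro h1
    have h3 : (b : ℤ) = 0 := by exact_mod_cast h1
    rw [h3] at hbcn
    apply hn0
    rw [hbcn]
    ring
  have hdiv : ∀ p : ℕ, p.Prime → (p : ℤ) ∣ n → p ∣ N := by
    intro p hp hpn
    by_contra hN
    obtain ⟨h3, h4⟩ := h p hp hN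
    rcases (Nat.prime_iff_prime_int.1 hp).dvd_or_dvd hpn with h5 | h5
    · exact h3 h5
    · exact h4 (by exact_mod_cast h5)
  refine ⟨d, b / e.den, ?_, div_ne_zero hb0 hden0, ?_, ?_, ?_⟩
  · rw [← Int.squarefree_natAbs, hdabs]
    exact hcs
  · have h1 : (n : ℚ) = (d : ℚ) * (b : ℚ) ^ 2 := by exact_mod_cast congrArg (fun z : ℤ => (z : ℚ)) hbcn
    rw [h1] at hen
    field_simp
    exact hen
  · intro p hp hpd
    refine hdiv p hp ?_
    rw [hbcn]
    exact dvd_mul_of_dvd_left hpd _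
  · intro h2N
    obtain ⟨z, w, hzw, hz, hw⟩ := h2 h2N
    have hnodd : ¬ (2 : ℤ) ∣ n := fun h3 => h2N (hdiv 2 Nat.prime_two (by exact_mod_cast h3))
    have hz' : ¬ (2 : ℤ) ∣ (z.den : ℤ) := fun h3 => hz (by exact_mod_cast h3)
    have hw' : ¬ (2 : ℤ) ∣ (w.den : ℤ) := fun h3 => hw (by exact_mod_cast h3)
    have hid : n * ((z.den : ℤ) * w.den) ^ 2 = ((e.den : ℤ) * z.num * w.den) ^ 2 +
        4 * ((e.den : ℤ) ^ 2 * w.num * w.den * (z.den : ℤ) ^ 2) := by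
      have h3 : z * (z.den : ℚ) = (z.num : ℚ) := Rat.mul_den_eq_num z
      have h4 : w * (w.den : ℚ) = (w.num : ℚ) := Rat.mul_den_eq_num w
      have h5 : ((n * ((z.den : ℤ) * w.den) ^ 2 : ℤ) : ℚ) = ((((e.den : ℤ) * z.num * w.den) ^ 2 +
        4 * ((e.den : ℤ) ^ 2 * w.num * w.den * (z.den : ℤ) ^ 2) : ℤ) : ℚ) := by
        push_cast
        rw [← hen, ← h3, ← h4, hzw]
        ring
      exact_mod_cast h5
    obtain ⟨k₁, hk₁⟩ := e7_sq (e7_odd_mul hz' hw')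
    have hodd : ¬ (2 : ℤ) ∣ (e.den : ℤ) * z.num * w.den := by
      intro h3
      have h4 : ¬ (2 : ℤ) ∣ n * ((z.den : ℤ) * w.den) ^ 2 := by
        rw [sq]
        exact e7_odd_mul hnodd (e7_odd_mul (e7_odd_mul hz' hw') (e7_odd_mul hz' hw'))
      apply h4
      rw [hid]
      refine dvd_add ?_ ?_
      · rw [sq]
        exact dvd_mul_of_dvd_left h3 _
      · exact dvd_mul_of_dvd_left (by norm_num) _
    obtain ⟨k₂, hk₂⟩ := e7_sq hodd
    have hbodd : ¬ (2 : ℤ) ∣ (b : ℤ) := by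
      intro h3
      apply hnodd
      rw [hbcn, sq]
      exact dvd_mul_of_dvd_right (dvd_mul_of_dvd_left h3 _) _
    obtain ⟨k₃, hk₃⟩ := e7_sq hbodd
    rw [hk₁, hk₂] at hid
    rw [hk₃] at hbcn
    have h6 : n = 4 * (k₂ + (e.den : ℤ) ^ 2 * w.num * w.den * (z.den : ℤ) ^ 2 - n * k₁) + 1 := by
      linear_combination hid
    have h7 : d = 4 * (k₂ + (e.den : ℤ) ^ 2 * w.num * w.den * (z.den : ℤ) ^ 2 - n * k₁ - d * k₃) + 1 := by
      linear_combination h6 - hbcn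
    generalize (k₂ + (e.den : ℤ) ^ 2 * w.num * w.den * (z.den : ℤ) ^ 2 - n * k₁ - d * k₃) = M at h7
    omega

end H13D
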