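import Mathlib
import Pool.Agent.Lib.H13D.E1

/-! # H13D, part E: products over the squares modulo D -/

namespace H13D

theorem e2_pm {D : ℕ} (hD : D.Prime) {a : ℤ} (ha : ¬ (D : ℤ) ∣ a) : jacobiSym a D = 1 ∨ jacobiSym a D = -1 := by
  apply jacobiSym.eq_one_or_neg_one
  have h1 : ¬ D ∣ a.natAbs := fun h => ha (Int.natCast_dvd.2 h)
  have h3 : Nat.gcd a.natAbs D = 1 := Nat.coprime_comm.1 ((Nat.Prime.coprime_iff_not_dvd hD).2 h1)
  exact h3

theorem e2_neg {D : ℕ} (h4 : D % 4 = 3) {a : ℤ} (ha : jacobiSym a D = -1) : jacobiSym (-a) D = 1 := by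
  rw [jacobiSym.neg _ (Nat.odd_iff.2 (by omega)), ZMod.χ₄_nat_three_mod_four h4, ha]
  norm_num

/-- Chunk E2 (S/M). If jacobiSym a D = 1: prod_sq. Otherwise it is -1 (D prime, not dividing a) and jacobiSym (-a) D = 1 (jacobiSym (-1) D = -1 as D % 4 = 3): g (a i) = - g ((-a) i), so the product is (-1)^(card QR) times the product of g ((-a) i) (Finset.prod_neg or prod_mul_distrib), card_QR odd, prod_sq for -a. -/
theorem prod_odd {R : Type} [CommRing R] {D : ℕ} (hD : D.Prime) (h4 : D % 4 = 3) (g : ℤ → R)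
    (hper : ∀ i j : ℤ, (D : ℤ) ∣ i - j → g i = g j) (hodd : ∀ i : ℤ, g (-i) = -g i) {a : ℤ} (ha : ¬ (D : ℤ) ∣ a) :
    ∏ i ∈ QR D, g (a * (i : ℤ)) = ((jacobiSym a D : ℤ) : R) * ∏ i ∈ QR D, g (i : ℤ) := by
  rcases e2_pm hD ha with h | h
  · rw [h, prod_sq hD g hper h, Int.cast_one, one_mul]
  · have h1 := prod_sq hD g hper (e2_neg h4 h)
    have h2 : ∀ i ∈ QR D, g (a * (i : ℤ)) = -1 * g (-a * (i : ℤ)) := by
      intro i _
      rw [neg_one_mul, ← hodd]
      congr 1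
      ring
    rw [Finset.prod_congr rfl h2, Finset.prod_mul_distrib, Finset.prod_const, (card_QR hD h4).neg_one_pow, h1, h]
    push_cast
    ring

/-- Chunk E2 (S). The same with g (a i) = g ((-a) i). -/
theorem prod_even {R : Type} [CommRing R] {D : ℕ} (hD : D.Prime) (h4 : D % 4 = 3) (g : ℤ → R)
    (hper : ∀ i j : ℤ, (D : ℤ) ∣ i - j → g i = g j) (heven : ∀ i : ℤ, g (-i) = g i) {a : ℤ} (ha : ¬ (D : ℤ) ∣ a) :
    ∏ i ∈ QR D, g (a * (i : ℤ)) = ∏ i ∈ QR D, g (i : ℤ) := by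
  rcases e2_pm hD ha with h | h
  · exact prod_sq hD g hper h
  · rw [← prod_sq hD g hper (e2_neg h4 h)]
    refine Finset.prod_congr rfl fun i _ => ?_
    rw [← heven]
    congr 1
    ring

end H13D
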