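import Mathlib
import Pool.Agent.Lib.H13D.D3
import Pool.Agent.Lib.H13D.E2
import Pool.Agent.Lib.H55K.CG
import Pool.Agent.Lib.H55K.E0

/-! # H13D, part E: the action on the elements Yel and Zel -/

open NumberField IsDedekindDomain WeierstrassCurve

namespace H13D

open H55P (IQ embF eF LF Per IsHecke Pt ac Inert Dec Nm)
open H35P (WAB Ker tt GoodW IntW)
open H55K

variable {F : Type} [Field F] [NumberField F] [IQ F] {A B : F} {Ω : Type} [Field Ω] [DecidableEq Ω] [Algebra F Ω] {D : ℕ}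

theorem e3_per {M : Type} [AddCommGroup M] {T₀ : M} (hT : D • T₀ = 0) {i j : ℤ} (h : (D : ℤ) ∣ i - j) : i • T₀ = j • T₀ := by
  obtain ⟨k, hk⟩ := h
  have h1 : i = j + D * k := by linarith
  rw [h1, add_zsmul, mul_comm, mul_zsmul, natCast_zsmul, hT, smul_zero, add_zero]

/-- Chunk E3 (S/M). s (yc (i • T₀)) = yc (acr s (i • T₀)) = yc ((a i) • T₀) (yc_acr, map_nsmul). prod_odd for g i = 2 * yc (i • T₀) (i an integer; hper from D • T₀ = 0; hodd: yc (-P) = -yc P: H55K.yc_neg). -/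
theorem Yel_acr (hD : D.Prime) (h4 : D % 4 = 3) (s : Ω ≃+* Ω) (hA : s (algebraMap F Ω A) = algebraMap F Ω A)
    (hB : s (algebraMap F Ω B) = algebraMap F Ω B) {T₀ : Pt (WAB A B) Ω} (hT : D • T₀ = 0) {a : ℤ} (hDa : ¬ (D : ℤ) ∣ a)
    (ha : acr s hA hB T₀ = a • T₀) : s (Yel D T₀) = ((jacobiSym a D : ℤ) : Ω) * Yel D T₀ := by
  have h1 := prod_odd hD h4 (fun i : ℤ => 2 * yc (i • T₀)) (fun i j hij => by
    show 2 * yc (i • T₀) = 2 * yc (j • T₀)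
    rw [e3_per hT hij]) (fun i => by
    show 2 * yc ((-i) • T₀) = -(2 * yc (i • T₀))
    rw [neg_zsmul, yc_neg, mul_neg]) hDa
  have h2 : Yel D T₀ = ∏ i ∈ QR D, 2 * yc ((i : ℤ) • T₀) := by
    unfold Yel
    refine Finset.prod_congr rfl fun i _ => ?_
    rw [natCast_zsmul]
  rw [h2, ← h1, map_prod]
  refine Finset.prod_congr rfl fun i _ => ?_
  have h3 : acr s hA hB ((i : ℤ) • T₀) = (a * (i : ℤ)) • T₀ := by
    rw [map_zsmul, ha, ← mul_zsmul, mul_comm]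
  show s (2 * yc ((i : ℤ) • T₀)) = 2 * yc ((a * (i : ℤ)) • T₀)
  rw [← h3, yc_acr, map_mul, map_ofNat]

/-- Chunk E3 (S/M). The same for an automorphism over F: xc_ac, yc_ac (E0.lean) or acr_eq_ac. -/
theorem Yel_ac (hD : D.Prime) (h4 : D % 4 = 3) (s : Ω ≃ₐ[F] Ω) {T₀ : Pt (WAB A B) Ω} (hT : D • T₀ = 0) {a : ℤ} (hDa : ¬ (D : ℤ) ∣ a)
    (ha : ac (WAB A B) s T₀ = a • T₀) : s (Yel D T₀) = ((jacobiSym a D : ℤ) : Ω) * Yel D T₀ := by
  have hA : (s : Ω ≃+* Ω) (algebraMap F Ω A) = algebraMap F Ω A := s.commutes A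
  have hB : (s : Ω ≃+* Ω) (algebraMap F Ω B) = algebraMap F Ω B := s.commutes B
  exact Yel_acr hD h4 (s : Ω ≃+* Ω) hA hB hT hDa (by rw [acr_eq_ac, ha])

/-- Chunk E3 (S/M). prod_even for g i = c₁ * (xc (i • T₀) - ρ) + c₃ (xc (-P) = xc P). -/
theorem Zel_acr (hD : D.Prime) (h4 : D % 4 = 3) (s : Ω ≃+* Ω) (hA : s (algebraMap F Ω A) = algebraMap F Ω A)
    (hB : s (algebraMap F Ω B) = algebraMap F Ω B) {T₀ : Pt (WAB A B) Ω} (hT : D • T₀ = 0) {a : ℤ} (hDa : ¬ (D : ℤ) ∣ a)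
    (ha : acr s hA hB T₀ = a • T₀) {c₁ ρ c₃ : Ω} (h1 : s c₁ = c₁) (h2 : s ρ = ρ) (h3 : s c₃ = c₃) :
    s (Zel D T₀ c₁ ρ c₃) = Zel D T₀ c₁ ρ c₃ := by
  have h5 := prod_even hD h4 (fun i : ℤ => c₁ * (xc (i • T₀) - ρ) + c₃) (fun i j hij => by
    show c₁ * (xc (i • T₀) - ρ) + c₃ = c₁ * (xc (j • T₀) - ρ) + c₃
    rw [e3_per hT hij]) (fun i => by
    show c₁ * (xc ((-i) • T₀) - ρ) + c₃ = c₁ * (xc (i • T₀) - ρ) + c₃
    rw [neg_zsmul, xc_neg]) hDa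
  have h6 : Zel D T₀ c₁ ρ c₃ = ∏ i ∈ QR D, (c₁ * (xc ((i : ℤ) • T₀) - ρ) + c₃) := by
    unfold Zel
    refine Finset.prod_congr rfl fun i _ => ?_
    rw [natCast_zsmul]
  have h7 : ∀ i ∈ QR D, s (c₁ * (xc ((i : ℤ) • T₀) - ρ) + c₃) = c₁ * (xc ((a * (i : ℤ)) • T₀) - ρ) + c₃ := by
    intro i _
    have h8 : acr s hA hB ((i : ℤ) • T₀) = (a * (i : ℤ)) • T₀ := by
      rw [map_zsmul, ha, ← mul_zsmul, mul_comm]
    rw [← h8, xc_acr, map_add, map_mul, map_sub, h1, h2, h3]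
  rw [h6, map_prod, Finset.prod_congr rfl h7]
  exact h5

end H13D
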