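import Mathlib
import Pool.Agent.Lib.H13D.C2
import Pool.Agent.Lib.H55K.NK2

/-! # H13D, part E: the Galois group of the rational numbers -/

open NumberField IsDedekindDomain WeierstrassCurve

namespace H13D

open H55P (IQ embF eF LF Per IsHecke Pt ac Inert Dec Nm)
open H35P (WAB Ker tt GoodW IntW)
open H55K

variable {F : Type} [Field F] [NumberField F] [IQ F] {A B : F} {Om : ℂ} {Ω : Type} [Field Ω] [DecidableEq Ω]
  [Algebra F Ω] {j : Ω →+* ℂ} {act : 𝓞 F →+* AddMonoid.End (Pt (WAB A B) Ω)} {δ : 𝓞 F} {D : ℕ}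

/-- Chunk E4 (S/M). H55K.nk2_dich (NK2.lean). If s fixes the image of F: s is an automorphism s' over F (AlgEquiv.ofRingEquiv), acr_eq_ac, h.gal: ac s' T₀ is killed by δ. Otherwise cma_galr (CU.lean): 0 = acr s (act δ T₀) = act (cj δ) (acr s T₀) = -act δ (acr s T₀) (cj_del). So acr s T₀ is killed by δ in both cases: tor_gen gives a;
acr s T₀ ≠ 0 (acr_zero_iff), so D does not divide a (zsmul_iff). -/
theorem acr_T [Algebra ℚ Ω] [IsScalarTower ℚ F Ω] [IsAlgClosed Ω] [Algebra.IsAlgebraic F Ω] (h : CMA F A B Om j act) (hd : Del F δ D)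
    (s : Ω ≃ₐ[ℚ] Ω) (hA : (s : Ω ≃+* Ω) (algebraMap F Ω A) = algebraMap F Ω A)
    (hB : (s : Ω ≃+* Ω) (algebraMap F Ω B) = algebraMap F Ω B) {T₀ : Pt (WAB A B) Ω} (hT : act δ T₀ = 0) (h0 : T₀ ≠ 0) :
    ∃ a : ℤ, ¬ (D : ℤ) ∣ a ∧ acr (s : Ω ≃+* Ω) hA hB T₀ = a • T₀ := by
  have hne : acr (s : Ω ≃+* Ω) hA hB T₀ ≠ 0 := fun h1 => h0 ((acr_zero_iff _ hA hB _).1 h1)
  have hk : act δ (acr (s : Ω ≃+* Ω) hA hB T₀) = 0 := by
    rcases TQ.nk2_dich (F := F) s with h1 | h1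
    · obtain ⟨s', hs'⟩ : ∃ s' : Ω ≃ₐ[F] Ω, (s' : Ω ≃+* Ω) = (s : Ω ≃+* Ω) :=
        ⟨AlgEquiv.ofRingEquiv (f := (s : Ω ≃+* Ω)) h1, by ext; rfl⟩
      have h2 : acr (s : Ω ≃+* Ω) hA hB T₀ = ac (WAB A B) s' T₀ := by
        rw [← acr_eq_ac s' (by rw [hs']; exact hA) (by rw [hs']; exact hB)]
        congr 1
        simp only [hs']
      rw [h2, ← h.gal, hT, map_zero]
    · have h2 := cma_galr h (s : Ω ≃+* Ω) hA hB h1 δ T₀
      rw [hT, map_zero, cj_del hd] at h2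
      have h3 : act (-δ) (acr (s : Ω ≃+* Ω) hA hB T₀) = - act δ (acr (s : Ω ≃+* Ω) hA hB T₀) := by
        rw [map_neg]
        rfl
      rw [h3] at h2
      exact neg_eq_zero.1 h2.symm
  obtain ⟨a, ha⟩ := tor_gen h hd hT h0 hk
  refine ⟨a, fun hD => hne ?_, ha⟩
  rw [ha, zsmul_iff hd hT h0]
  exact hD

/-- Chunk E4 (S). Pure Galois theory: Ω/ℚ is Galois (characteristic 0, normal: IsAlgClosure.normal); an element fixed by all automorphisms is rational: InfiniteGalois.mem_bot_iff_fixed or IsGalois / minpoly: all roots of the minimal polynomial are images of x. -/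
theorem fixed_rat {Ω : Type} [Field Ω] [Algebra ℚ Ω] [IsAlgClosure ℚ Ω] (x : Ω) (h : ∀ s : Ω ≃ₐ[ℚ] Ω, s x = x) :
    ∃ q : ℚ, algebraMap ℚ Ω q = x := by
  have hn : Normal ℚ Ω := IsAlgClosure.normal ℚ Ω
  have hg : IsGalois ℚ Ω := {}
  have h1 : x ∈ (⊥ : IntermediateField ℚ Ω) := (InfiniteGalois.mem_bot_iff_fixed x).2 h
  exact IntermediateField.mem_bot.1 h1

end H13D
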