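import Mathlib
import Pool.Agent.Lib.H13D.E3
import Pool.Agent.Lib.H13D.E4
import Pool.Agent.Lib.H55K.G9B

/-! # H13D, part E: the discriminant of the quadratic character -/

open NumberField IsDedekindDomain WeierstrassCurve

namespace H13D

open H55P (IQ embF eF LF Per IsHecke Pt ac Inert Dec Nm)
open H35P (WAB Ker tt GoodW IntW)
open H55K
open H55K.MG (VC Crd)

/-- Chunk E9 (S). For a prime number p not dividing W.Δ there is a prime v of F containing p (p is not a unit of 𝓞 F: Nm p = p^2), and W.Δ is not in v (an integer in v is divisible by p: u p + w n = 1 otherwise); a valuation ring V above v: exists_abw (K0A.lean), Abw.lt. -/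
theorem exists_vV {F : Type} [Field F] [NumberField F] [IQ F] (Ω : Type) [Field Ω] [Algebra F Ω] {p : ℕ} (hp : p.Prime) {n : ℤ} (hn : ¬ (p : ℤ) ∣ n) :
    ∃ (v : HeightOneSpectrum (𝓞 F)) (V : ValuationSubring Ω), (n : 𝓞 F) ∉ v.asIdeal ∧ (p : 𝓞 F) ∈ v.asIdeal ∧
      (∀ a : 𝓞 F, a ∈ v.asIdeal → V.valuation (ak Ω a) < 1) ∧ V.valuation (p : Ω) < 1 := by
  have hp0 : (p : 𝓞 F) ≠ 0 := Nat.cast_ne_zero.2 hp.ne_zero
  have htop : Ideal.span {(p : 𝓞 F)} ≠ ⊤ := by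
    intro h
    have h1 := Nm_nat (F := F) p
    unfold Nm at h1
    rw [h, Ideal.absNorm_top] at h1
    have h2 := hp.one_lt
    nlinarith
  obtain ⟨m, hm, hle⟩ := Ideal.exists_le_maximal _ htop
  have hpm : (p : 𝓞 F) ∈ m := hle (Ideal.mem_span_singleton_self _)
  have hbot : m ≠ ⊥ := by
    rintro rfl
    exact hp0 ((Submodule.mem_bot _).1 hpm)
  obtain ⟨V, hV⟩ := exists_abw Ω (⟨m, hm.isPrime, hbot⟩ : HeightOneSpectrum (𝓞 F))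
  have hlt : ∀ a : 𝓞 F, a ∈ m → V.valuation (ak Ω a) < 1 := by
    intro a ha
    have h1 := (hV.lt (algebraMap (𝓞 F) F a)).2
      ((HeightOneSpectrum.valuation_lt_one_iff_mem (K := F) ⟨m, hm.isPrime, hbot⟩ a).2 ha)
    exact h1
  refine ⟨⟨m, hm.isPrime, hbot⟩, V, ?_, hpm, hlt, ?_⟩
  · intro hnm
    obtain ⟨u, w, huw⟩ := (Nat.prime_iff_prime_int.1 hp).irreducible.coprime_iff_not_dvd.2 hn
    apply hm.ne_top
    rw [Ideal.eq_top_iff_one]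
    have h1 : (1 : 𝓞 F) = (u : 𝓞 F) * (p : 𝓞 F) + (w : 𝓞 F) * (n : 𝓞 F) := by
      have := congrArg (fun z : ℤ => (z : 𝓞 F)) huw
      push_cast at this
      exact this.symm
    rw [h1]
    exact m.add_mem (m.mul_mem_left _ hpm) (m.mul_mem_left _ hnm)
  · have h1 := hlt _ hpm
    rwa [show ak Ω (p : 𝓞 F) = (p : Ω) from (map_natCast (g9h F Ω) p)] at h1

variable {F : Type} [Field F] [NumberField F] [IQ F] {A B : F} {Om : ℂ} {Ω : Type} [Field Ω] [DecidableEq Ω]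
  [Algebra F Ω] [Algebra ℚ Ω] [IsScalarTower ℚ F Ω] {j : Ω →+* ℂ} {act : 𝓞 F →+* AddMonoid.End (Pt (WAB A B) Ω)} {δ : 𝓞 F} {D : ℕ}

/-- Chunk E9 (M). THE ELEMENTS Yel^2 AND Zel ARE RATIONAL. For s in Ω ≃ₐ[ℚ] Ω: s fixes the images of A and B (A = algebraMap ℚ F (..): the coefficients of W are integers; W⁄(𝓞 F) has c₄ = the integer W.c₄; see hc4, hA', hsA in the proof of H55K.TQ.hram_of in RF.lean), acr_T gives a, Yel_acr: s Yel = ± Yel (the symbol is 1 or -1: D prime, not dividing a),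
Zel_acr: s Zel = Zel (s fixes ak a₁, ak a₃ and the image of b₂/12: rational numbers). fixed_rat (IsAlgClosure ℚ Ω: Ω is algebraically closed and algebraic over F, hence over ℚ). -/
theorem exists_ez [IsAlgClosure F Ω] (h : CMA F A B Om j act) (hd : Del F δ D) (W : WeierstrassCurve ℤ)
    (hA : A = -(algebraMap (𝓞 F) F (W⁄(𝓞 F)).c₄) / 48) (hB : B = -(algebraMap (𝓞 F) F (W⁄(𝓞 F)).c₆) / 864)
    {T₀ : Pt (WAB A B) Ω} (hT : act δ T₀ = 0) (h0 : T₀ ≠ 0) :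
    ∃ e z : ℚ, algebraMap ℚ Ω e = Yel D T₀ ^ 2 ∧
      algebraMap ℚ Ω z = Zel D T₀ (ak Ω (W⁄(𝓞 F)).a₁) (algebraMap F Ω (algebraMap (𝓞 F) F (W⁄(𝓞 F)).b₂ / 12)) (ak Ω (W⁄(𝓞 F)).a₃) := by
  have hac : IsAlgClosed Ω := IsAlgClosure.isAlgClosed F
  have halg : Algebra.IsAlgebraic F Ω := IsAlgClosure.isAlgebraic
  have halg' : Algebra.IsAlgebraic ℚ Ω := Algebra.IsAlgebraic.trans ℚ F Ω
  have hcl : IsAlgClosure ℚ Ω := ⟨hac, halg'⟩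
  have hc4 : algebraMap (𝓞 F) F (W⁄(𝓞 F)).c₄ = algebraMap ℚ F (W.c₄ : ℚ) := by
    have e1 : (W⁄(𝓞 F)).c₄ = algebraMap ℤ (𝓞 F) W.c₄ := W.map_c₄ _
    rw [e1]
    simp
  have hc6 : algebraMap (𝓞 F) F (W⁄(𝓞 F)).c₆ = algebraMap ℚ F (W.c₆ : ℚ) := by
    have e1 : (W⁄(𝓞 F)).c₆ = algebraMap ℤ (𝓞 F) W.c₆ := W.map_c₆ _
    rw [e1]
    simp
  have hb2 : algebraMap (𝓞 F) F (W⁄(𝓞 F)).b₂ / 12 = algebraMap ℚ F ((W.b₂ : ℚ) / 12) := by
    have e1 : (W⁄(𝓞 F)).b₂ = algebraMap ℤ (𝓞 F) W.b₂ := W.map_b₂ _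
    rw [e1]
    simp
  have ha1 : ak Ω (W⁄(𝓞 F)).a₁ = (W.a₁ : Ω) := by
    have e1 : (W⁄(𝓞 F)).a₁ = ((W.a₁ : ℤ) : 𝓞 F) := rfl
    rw [e1]
    exact map_intCast (g9h F Ω) W.a₁
  have ha3 : ak Ω (W⁄(𝓞 F)).a₃ = (W.a₃ : Ω) := by
    have e1 : (W⁄(𝓞 F)).a₃ = ((W.a₃ : ℤ) : 𝓞 F) := rfl
    rw [e1]
    exact map_intCast (g9h F Ω) W.a₃
  have hA' : A = algebraMap ℚ F (-(W.c₄ : ℚ) / 48) := by
    rw [hA, hc4, map_div₀, map_neg, map_ofNat]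
  have hB' : B = algebraMap ℚ F (-(W.c₆ : ℚ) / 864) := by
    rw [hB, hc6, map_div₀, map_neg, map_ofNat]
  have hsA : ∀ s : Ω ≃ₐ[ℚ] Ω, (s : Ω ≃+* Ω) (algebraMap F Ω A) = algebraMap F Ω A := by
    intro s
    rw [hA', ← IsScalarTower.algebraMap_apply ℚ F Ω]
    exact s.commutes _
  have hsB : ∀ s : Ω ≃ₐ[ℚ] Ω, (s : Ω ≃+* Ω) (algebraMap F Ω B) = algebraMap F Ω B := by
    intro s
    rw [hB', ← IsScalarTower.algebraMap_apply ℚ F Ω]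
    exact s.commutes _
  have hDT := D_tor hd hT
  have h1 : ∀ s : Ω ≃ₐ[ℚ] Ω, s (Yel D T₀ ^ 2) = Yel D T₀ ^ 2 := by
    intro s
    obtain ⟨a, hDa, ha⟩ := acr_T h hd s (hsA s) (hsB s) hT h0
    have h2 : s (Yel D T₀) = ((jacobiSym a D : ℤ) : Ω) * Yel D T₀ :=
      Yel_acr hd.prime hd.mod (s : Ω ≃+* Ω) (hsA s) (hsB s) hDT hDa ha
    rw [map_pow, h2]
    rcases e1_pm hd.prime hDa with h3 | h3
    · rw [h3]
      push_cast
      ring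
    · rw [h3]
      push_cast
      ring
  have h2 : ∀ s : Ω ≃ₐ[ℚ] Ω, s (Zel D T₀ (ak Ω (W⁄(𝓞 F)).a₁) (algebraMap F Ω (algebraMap (𝓞 F) F (W⁄(𝓞 F)).b₂ / 12)) (ak Ω (W⁄(𝓞 F)).a₃)) =
      Zel D T₀ (ak Ω (W⁄(𝓞 F)).a₁) (algebraMap F Ω (algebraMap (𝓞 F) F (W⁄(𝓞 F)).b₂ / 12)) (ak Ω (W⁄(𝓞 F)).a₃) := by
    intro s
    obtain ⟨a, hDa, ha⟩ := acr_T h hd s (hsA s) (hsB s) hT h0
    refine Zel_acr hd.prime hd.mod (s : Ω ≃+* Ω) (hsA s) (hsB s) hDT hDa ha ?_ ?_ ?_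
    · rw [ha1]
      exact map_intCast (s : Ω ≃+* Ω) _
    · rw [hb2, ← IsScalarTower.algebraMap_apply ℚ F Ω]
      exact s.commutes _
    · rw [ha3]
      exact map_intCast (s : Ω ≃+* Ω) _
  obtain ⟨e, he⟩ := fixed_rat _ h1
  obtain ⟨z, hz⟩ := fixed_rat _ h2
  exact ⟨e, z, he, hz⟩

end H13D
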