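import Mathlib
import Pool.Agent.Lib.H13D.D3

/-! # H13D, part K: the Kronecker symbol -/

namespace H13D

theorem k1_dvd {d : ℤ} {N : ℕ} (hd : Squarefree d) (hdN : ∀ p : ℕ, p.Prime → (p : ℤ) ∣ d → p ∣ N) (hN : N ≠ 0) : d.natAbs ∣ N := by
  have h1 : Squarefree d.natAbs := Int.squarefree_natAbs.2 hd
  rw [← Nat.prod_primeFactors_of_squarefree h1]
  refine dvd_trans (Finset.prod_dvd_prod_of_subset _ _ _ fun p hp => ?_) (Nat.prod_primeFactors_dvd N)
  have h2 := Nat.prime_of_mem_primeFactors hp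
  have h3 := Nat.dvd_of_mem_primeFactors hp
  exact Nat.mem_primeFactors.2 ⟨h2, hdN p h2 (Int.natCast_dvd.2 h3), hN⟩

theorem k1_cop {d : ℤ} {N : ℕ} (hdN : ∀ p : ℕ, p.Prime → (p : ℤ) ∣ d → p ∣ N) {a : ℕ} (ha : a.Coprime N) : Nat.Coprime d.natAbs a := by
  rw [Nat.coprime_iff_isRelPrime]
  by_contra h
  have h1 : ¬ Nat.Coprime d.natAbs a := fun h2 => h (Nat.coprime_iff_isRelPrime.1 h2)
  obtain ⟨p, hp, h3, h4⟩ := Nat.Prime.not_coprime_iff_dvd.1 h1
  have h5 := hdN p hp (Int.natCast_dvd.2 h3)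
  exact Nat.Prime.not_coprime_iff_dvd.2 ⟨p, hp, h4, h5⟩ ha

/-- Chunk K1 (M). The case of even N: χ a = jacobiSym d a. one: jacobiSym.one_right. mul: jacobiSym.mul_right. pm: a is odd and prime to d (the primes dividing d divide N): jacobiSym.eq_one_or_neg_one. odd: by definition. two: 2 divides N, nothing to prove. per: jacobiSym.mod_right: for odd b jacobiSym d b = jacobiSym d (b % (4 * d.natAbs)); 4 d.natAbs divides N^3: d is squarefree
with all prime divisors dividing N, so d.natAbs divides N (Nat: squarefree and radical, e.g. Squarefree.dvd_of.. or UniqueFactorizationMonoid), and 4 divides N^2 (2 divides N). -/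
theorem kron_even {d : ℤ} {N : ℕ} (hd : Squarefree d) (hdN : ∀ p : ℕ, p.Prime → (p : ℤ) ∣ d → p ∣ N) (h2 : 2 ∣ N) (hN : N ≠ 0) :
    ∃ χ : ℕ → ℤ, Kron d N χ := by
  have hne : ∀ a : ℕ, a.Coprime N → a ≠ 0 := by
    rintro a ha rfl
    rw [Nat.coprime_zero_left] at ha
    rw [ha] at h2
    norm_num at h2
  have hodd : ∀ a : ℕ, a.Coprime N → Odd a := by
    intro a ha
    rw [← Nat.not_even_iff_odd]
    intro h
    have h3 := Nat.dvd_gcd h.two_dvd h2
    rw [ha] at h3
    norm_num at h3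
  refine ⟨fun a => jacobiSym d a, ?_⟩
  constructor
  · exact jacobiSym.one_right d
  · intro a b ha hb
    exact jacobiSym.mul_right' d (hne a ha) (hne b hb)
  · intro a ha
    exact jacobiSym.eq_one_or_neg_one (k1_cop hdN ha)
  · intro p _ _ _
    rfl
  · intro h
    exact absurd h2 h
  · intro a b ha hb hab
    show jacobiSym d a = jacobiSym d b
    rw [jacobiSym.mod_right d (hodd a ha), jacobiSym.mod_right d (hodd b hb)]
    have h3 : 4 * d.natAbs ∣ N ^ 3 := by
      have h4 : 4 ∣ N ^ 2 := by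
        have h5 := pow_dvd_pow_of_dvd h2 2
        norm_num at h5
        exact h5
      have h6 : N ^ 3 = N ^ 2 * N := by ring
      rw [h6]
      exact mul_dvd_mul h4 (k1_dvd hd hdN hN)
    have h7 : a ≡ b [MOD 4 * d.natAbs] := hab.of_dvd h3
    have h8 : a % (4 * d.natAbs) = b % (4 * d.natAbs) := h7
    rw [h8]

theorem k1_rec {d : ℤ} (h4 : d % 4 = 1) {p : ℕ} (hp : Odd p) : jacobiSym (p : ℤ) d.natAbs = jacobiSym d p := by
  rcases le_or_gt 0 d with h0 | h0
  · obtain ⟨m, rfl⟩ := Int.eq_ofNat_of_zero_le h0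
    rw [Int.natAbs_natCast]
    have h1 : m % 4 = 1 := by omega
    exact (jacobiSym.quadratic_reciprocity_one_mod_four h1 hp).symm
  · obtain ⟨m, hm⟩ := Int.eq_ofNat_of_zero_le (show 0 ≤ -d by omega)
    have h1 : d = -(m : ℤ) := by omega
    subst h1
    rw [Int.natAbs_neg, Int.natAbs_natCast]
    have h2 : m % 4 = 3 := by omega
    have h3 : Odd m := Nat.odd_iff.2 (by omega)
    rw [jacobiSym.neg _ hp]
    have h5 : p % 2 = 1 := Nat.odd_iff.1 hp
    have h6 : p % 4 = 1 ∨ p % 4 = 3 := by omega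
    rcases h6 with h6 | h6
    · rw [ZMod.χ₄_nat_one_mod_four h6, one_mul]
      exact jacobiSym.quadratic_reciprocity_one_mod_four h6 h3
    · rw [ZMod.χ₄_nat_three_mod_four h6, jacobiSym.quadratic_reciprocity_three_mod_four h2 h6]
      ring

/-- Chunk K1 (M). The case of odd N: d % 4 = 1. χ a = jacobiSym a d.natAbs. one, mul: jacobiSym.one_left, mul_left. pm: a prime to N is prime to d.natAbs (its primes divide N). odd: quadratic reciprocity: p odd, d = 1 modulo 4: if d > 0: jacobiSym.quadratic_reciprocity' style: jacobiSym d p = jacobiSym p d.natAbs (jacobiSym.quadratic_reciprocity_one_mod_four);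
if d < 0: d = -d.natAbs, d.natAbs = 3 modulo 4: jacobiSym d p = jacobiSym (-1) p * jacobiSym d.natAbs p (jacobiSym.at_neg_one) and quadratic_reciprocity: the signs cancel (p = 1 modulo 4: quadratic_reciprocity_one_mod_four; p = 3 modulo 4: quadratic_reciprocity_three_mod_four and jacobiSym (-1) p = -1). two: jacobiSym.at_two: jacobiSym 2 d.natAbs = ZMod.χ₈ d.natAbs is 1 iff
d.natAbs % 8 is 1 or 7 (d.natAbs odd); with d % 4 = 1: iff d % 8 = 1 (d > 0: natAbs = d; d < 0: natAbs = -d). per: d.natAbs divides N (squarefree, as in kron_even) hence N^3: a % d.natAbs = b % d.natAbs, jacobiSym.mod_left. -/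
theorem kron_odd {d : ℤ} {N : ℕ} (hd : Squarefree d) (hdN : ∀ p : ℕ, p.Prime → (p : ℤ) ∣ d → p ∣ N) (h2 : ¬ 2 ∣ N) (h4 : d % 4 = 1) :
    ∃ χ : ℕ → ℤ, Kron d N χ := by
  have hN : N ≠ 0 := by
    rintro rfl
    exact h2 (dvd_zero 2)
  have hdd := k1_dvd hd hdN hN
  have hno : d.natAbs % 2 = 1 := by omega
  refine ⟨fun a => jacobiSym (a : ℤ) d.natAbs, ?_⟩
  constructor
  · show jacobiSym ((1 : ℕ) : ℤ) d.natAbs = 1
    rw [Nat.cast_one]
    exact jacobiSym.one_left _
  · intro a b _ _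
    show jacobiSym ((a * b : ℕ) : ℤ) d.natAbs = jacobiSym (a : ℤ) d.natAbs * jacobiSym (b : ℤ) d.natAbs
    rw [Nat.cast_mul]
    exact jacobiSym.mul_left _ _ _
  · intro a ha
    apply jacobiSym.eq_one_or_neg_one
    have h3 := k1_cop hdN ha
    have h5 : Nat.gcd (a : ℤ).natAbs d.natAbs = 1 := by
      rw [Int.natAbs_natCast, Nat.gcd_comm]
      exact h3
    exact h5
  · intro p hp hpN hp2
    exact k1_rec h4 (hp.odd_of_ne_two hp2)
  · intro _
    show jacobiSym ((2 : ℕ) : ℤ) d.natAbs = 1 ↔ d % 8 = 1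
    have h3 : ((2 : ℕ) : ℤ) = 2 := rfl
    rw [h3, jacobiSym.at_two (Nat.odd_iff.2 hno), ZMod.χ₈_nat_eq_if_mod_eight]
    rw [if_neg (by omega)]
    by_cases h5 : d.natAbs % 8 = 1 ∨ d.natAbs % 8 = 7
    · rw [if_pos h5]
      constructor
      · intro _
        omega
      · intro _
        rfl
    · rw [if_neg h5]
      constructor
      · intro h6
        norm_num at h6
      · intro h6
        exfalso
        omega
  · intro a b _ _ hab
    show jacobiSym (a : ℤ) d.natAbs = jacobiSym (b : ℤ) d.natAbs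
    apply jacobiSym.mod_left'
    have h3 : a ≡ b [MOD d.natAbs] := hab.of_dvd (dvd_trans hdd (dvd_pow_self N (by norm_num)))
    have h5 : a % d.natAbs = b % d.natAbs := h3
    exact_mod_cast h5

end H13D
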