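import Mathlib

/-! # H13D, part E: Frobenius elements and square roots -/

namespace H13D

theorem e8_int {Ω : Type} [Field Ω] (V : ValuationSubring Ω) (k : ℤ) : V.valuation (k : Ω) ≤ 1 :=
  (V.valuation_le_one_iff _).2 (intCast_mem V k)

theorem e8_dvd {Ω : Type} [Field Ω] (V : ValuationSubring Ω) {p : ℕ} (hp : p.Prime) (hpV : V.valuation (p : Ω) < 1) (k : ℤ) :
    V.valuation (k : Ω) < 1 ↔ (p : ℤ) ∣ k := by
  constructor
  · intro h
    by_contra hk
    have hco : IsCoprime (p : ℤ) k := (Prime.coprime_iff_not_dvd (Nat.prime_iff_prime_int.1 hp)).2 hk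
    obtain ⟨a, b, hab⟩ := hco
    have h1 : ((a * p + b * k : ℤ) : Ω) = 1 := by rw [hab, Int.cast_one]
    have h2 : V.valuation ((a * p + b * k : ℤ) : Ω) < 1 := by
      push_cast
      refine V.valuation.map_add_lt ?_ ?_
      · rw [mul_comm, map_mul]
        exact mul_lt_one_of_lt_of_le hpV (e8_int V a)
      · rw [mul_comm, map_mul]
        exact mul_lt_one_of_lt_of_le h (e8_int V b)
    rw [h1, map_one] at h2
    exact lt_irrefl _ h2
  · rintro ⟨c, rfl⟩
    push_cast
    rw [map_mul]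
    exact mul_lt_one_of_lt_of_le hpV (e8_int V c)

theorem e8_euler {p : ℕ} (hp : p.Prime) (h2 : p ≠ 2) {d : ℤ} (n : ℕ) :
    ∃ m : ℕ, p ^ n = 2 * m + 1 ∧ (p : ℤ) ∣ jacobiSym d p ^ n - d ^ m := by
  have : Fact p.Prime := ⟨hp⟩
  have hodd : p % 2 = 1 := (hp.eq_two_or_odd).resolve_left h2
  induction n with
  | zero => exact ⟨0, by simp, by simp⟩
  | succ n ih =>
    obtain ⟨m, hm, hdv⟩ := ih
    refine ⟨p * m + p / 2, ?_, ?_⟩
    · rw [pow_succ, hm]
      have : p = 2 * (p / 2) + 1 := by omega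
      calc (2 * m + 1) * p = 2 * (p * m) + p := by ring
        _ = 2 * (p * m) + (2 * (p / 2) + 1) := by rw [← this]
        _ = 2 * (p * m + p / 2) + 1 := by ring
    · rw [← ZMod.intCast_zmod_eq_zero_iff_dvd] at hdv ⊢
      push_cast at hdv ⊢
      rw [sub_eq_zero] at hdv ⊢
      rw [pow_succ, hdv, pow_add, pow_mul', ZMod.pow_card, ← jacobiSym.legendreSym.to_jacobiSym, legendreSym.eq_pow]

/-- Chunk E8. Frobenius and square roots at an odd prime. -/
theorem frob_odd {Ω : Type} [Field Ω] (V : ValuationSubring Ω) {p : ℕ} (hp : p.Prime) (h2 : p ≠ 2)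
    (hpV : V.valuation (p : Ω) < 1) {d : ℤ} (hd : ¬ (p : ℤ) ∣ d) {w : Ω} (hw : w ^ 2 = (d : Ω)) (s : Ω →+* Ω) {n : ℕ}
    (hs : ∀ x ∈ V, V.valuation (s x - x ^ p ^ n) < 1) {η : ℤ} (hη : η = 1 ∨ η = -1) (hsw : s w = η * w) :
    η = jacobiSym d p ^ n := by
  have hvd : V.valuation (d : Ω) = 1 := by
    refine le_antisymm (e8_int V d) ?_
    rw [← not_lt, e8_dvd V hp hpV]
    exact hd
  have hvw : V.valuation w = 1 := by
    have h1 : V.valuation w ^ 2 = 1 := by rw [← map_pow, hw, hvd]
    exact (pow_eq_one_iff_of_nonneg zero_le two_ne_zero).1 h1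
  obtain ⟨m, hm, hdv⟩ := e8_euler hp h2 (d := d) n
  have h1 := hs w ((V.valuation_le_one_iff _).1 hvw.le)
  have h3 : s w - w ^ p ^ n = w * ((η - d ^ m : ℤ) : Ω) := by
    rw [hsw, hm, pow_succ, pow_mul, hw]
    push_cast
    ring
  rw [h3, map_mul, hvw, one_mul, e8_dvd V hp hpV] at h1
  have h4 : (p : ℤ) ∣ η - jacobiSym d p ^ n := by
    have h5 : η - jacobiSym d p ^ n = (η - d ^ m) - (jacobiSym d p ^ n - d ^ m) := by ring
    rw [h5]
    exact dvd_sub h1 hdv
  have hco : IsCoprime d (p : ℤ) := by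
    rw [isCoprime_comm]
    exact (Prime.coprime_iff_not_dvd (Nat.prime_iff_prime_int.1 hp)).2 hd
  have hj : jacobiSym d p = 1 ∨ jacobiSym d p = -1 := by
    refine jacobiSym.eq_one_or_neg_one ?_
    rw [← Int.isCoprime_iff_gcd_eq_one]
    exact hco
  have hj' : jacobiSym d p ^ n = 1 ∨ jacobiSym d p ^ n = -1 := by
    rcases hj with h | h
    · left
      rw [h, one_pow]
    · rw [h]
      exact neg_one_pow_eq_or ℤ n
  have hp3 : 3 ≤ p := by
    have := hp.two_le
    omega
  have hle : |η - jacobiSym d p ^ n| < p := by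
    rcases hη with h | h <;> rcases hj' with h' | h' <;> rw [h, h'] <;> norm_num <;> omega
  exact sub_eq_zero.1 (Int.eq_zero_of_abs_lt_dvd h4 hle)

/-- Chunk E8. Frobenius and square roots at 2. -/
theorem frob_two {Ω : Type} [Field Ω] (V : ValuationSubring Ω) (h2 : (2 : Ω) ≠ 0) (hV : V.valuation (2 : Ω) < 1) {d : ℤ} (hd : d % 4 = 1)
    {w : Ω} (hw : w ^ 2 = (d : Ω)) (s : Ω →+* Ω) {n : ℕ} (hs : ∀ x ∈ V, V.valuation (s x - x ^ 2 ^ n) < 1) {η : ℤ}
    (hη : η = 1 ∨ η = -1) (hsw : s w = η * w) : (Even n → η = 1) ∧ (Odd n → (η = 1 ↔ d % 8 = 1)) := by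
  obtain ⟨c, rfl⟩ : ∃ c : ℤ, d = 1 + 4 * c := ⟨d / 4, by omega⟩
  have hpV : V.valuation ((2 : ℕ) : Ω) < 1 := by
    rw [Nat.cast_ofNat]
    exact hV
  have hdvd := e8_dvd V Nat.prime_two hpV
  have hint := e8_int V
  set α : Ω := (1 + w) / 2 with hα
  have hα2 : α ^ 2 = α + (c : Ω) := by
    have h3 : (1 + w) = 2 * α := by
      rw [hα]
      field_simp
    have h4 : w = 2 * α - 1 := by linear_combination h3
    rw [h4] at hw
    push_cast at hw
    have h5 : (2 * 2) * (α ^ 2 - (α + (c : Ω))) = 0 := by linear_combination hw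
    rcases mul_eq_zero.1 h5 with h6 | h6
    · rcases mul_eq_zero.1 h6 with h7 | h7 <;> exact absurd h7 h2
    · exact sub_eq_zero.1 h6
  have hvα : V.valuation α ≤ 1 := by
    by_contra hc
    rw [not_le] at hc
    have h3 : V.valuation (α ^ 2) ≤ max (V.valuation α) (V.valuation (c : Ω)) := by
      rw [hα2]
      exact V.valuation.map_add _ _
    rw [max_eq_left ((hint c).trans hc.le), map_pow, sq] at h3
    have h4 : V.valuation α * 1 < V.valuation α * V.valuation α :=
      mul_lt_mul_of_pos_left hc (zero_lt_one.trans hc)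
    rw [mul_one] at h4
    exact absurd h3 (not_le.2 h4)
  have hpow : ∀ k : ℕ, V.valuation (α ^ 2 ^ k - (α + ((k * c : ℤ) : Ω))) < 1 := by
    intro k
    induction k with
    | zero => simp
    | succ k ih =>
      set a := α ^ 2 ^ k with ha
      set b := α + ((k * c : ℤ) : Ω) with hb
      have hva : V.valuation a ≤ 1 := by
        rw [ha, map_pow]
        exact pow_le_one₀ zero_le hvα
      have hvb : V.valuation b ≤ 1 := (V.valuation.map_add _ _).trans (max_le hvα (hint _))
      have he : α ^ 2 ^ (k + 1) - (α + (((k + 1 : ℕ) * c : ℤ) : Ω)) =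
          (a - b) * (a + b) + (2 * (α * ((k * c : ℤ) : Ω)) + (((k * c) ^ 2 - k * c : ℤ) : Ω)) := by
        have h3 : α ^ 2 ^ (k + 1) = a ^ 2 := by
          rw [ha, ← pow_mul, pow_succ]
        rw [h3, hb]
        push_cast
        linear_combination (1 : Ω) * hα2
      rw [he]
      refine V.valuation.map_add_lt ?_ (V.valuation.map_add_lt ?_ ?_)
      · rw [map_mul]
        exact mul_lt_one_of_lt_of_le ih ((V.valuation.map_add _ _).trans (max_le hva hvb))
      · rw [map_mul]
        refine mul_lt_one_of_lt_of_le hV ?_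
        rw [map_mul]
        exact mul_le_one' hvα (hint _)
      · rw [hdvd]
        have h4 : ((k : ℤ) * c) ^ 2 - k * c = (k * c) * (k * c - 1) := by ring
        rw [h4]
        have h5 := Int.even_mul_pred_self ((k : ℤ) * c)
        exact_mod_cast h5.two_dvd
  have h6 := hs α ((V.valuation_le_one_iff _).1 hvα)
  have h7 : V.valuation (s α - (α + ((n * c : ℤ) : Ω))) < 1 := by
    have h8 : s α - (α + ((n * c : ℤ) : Ω)) = (s α - α ^ 2 ^ n) + (α ^ 2 ^ n - (α + ((n * c : ℤ) : Ω))) := by ring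
    rw [h8]
    exact V.valuation.map_add_lt h6 (hpow n)
  have hsα : s α = (1 + η * w) / 2 := by
    rw [hα, map_div₀, map_add, map_one, hsw, map_ofNat]
  have key : (η = 1 → (2 : ℤ) ∣ n * c) ∧ (η = -1 → (2 : ℤ) ∣ n * c - 1) := by
    constructor
    · rintro rfl
      have h9 : s α - (α + ((n * c : ℤ) : Ω)) = ((-(n * c) : ℤ) : Ω) := by
        rw [hsα, hα]
        push_cast
        ring
      rw [h9, hdvd] at h7
      exact_mod_cast (dvd_neg.1 h7)
    · rintro rfl
      have h9 : s α - (α + ((n * c : ℤ) : Ω)) = ((-(n * c - 1) : ℤ) : Ω) - 2 * α := by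
        rw [hsα, hα]
        push_cast
        field_simp
        ring
      have h10 : V.valuation (2 * α) < 1 := by
        rw [map_mul]
        exact mul_lt_one_of_lt_of_le hV hvα
      have h11 : V.valuation ((-(n * c - 1) : ℤ) : Ω) < 1 := by
        have h12 : ((-(n * c - 1) : ℤ) : Ω) = (s α - (α + ((n * c : ℤ) : Ω))) + 2 * α := by
          rw [h9]
          ring
        rw [h12]
        exact V.valuation.map_add_lt h7 h10
      rw [hdvd] at h11
      exact_mod_cast (dvd_neg.1 h11)
  constructor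
  · rintro ⟨k, rfl⟩
    rcases hη with h | h
    · exact h
    · exfalso
      have h12 := key.2 h
      push_cast at h12
      have h13 : ((k : ℤ) + k) * c - 1 = 2 * (k * c) - 1 := by ring
      omega
  · rintro ⟨k, rfl⟩
    have e : ((2 * k + 1 : ℕ) : ℤ) * c = 2 * (k * c) + c := by
      push_cast
      ring
    rw [e] at key
    rcases hη with h | h
    · have h12 := key.1 h
      constructor
      · intro _
        omega
      · intro _
        exact h
    · have h12 := key.2 h
      constructor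
      · intro h13
        omega
      · intro h13
        exfalso
        omega

end H13D
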