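import Mathlib
import Pool.Agent.Lib.H13D.D3
import Pool.Agent.Lib.H13D.E8

/-! # H13D, part K: the Kronecker symbol and the Frobenius elements -/

namespace H13D

/-- Chunk K2 (S). hχ.mul, hχ.one: induction. -/
theorem kron_pow {d : ℤ} {N : ℕ} {χ : ℕ → ℤ} (hχ : Kron d N χ) {a : ℕ} (ha : a.Coprime N) (n : ℕ) : χ (a ^ n) = χ a ^ n := by
  induction n with
  | zero => rw [pow_zero, pow_zero, hχ.one]
  | succ n ih => rw [pow_succ, pow_succ, hχ.mul _ _ (ha.pow_left n) ha, ih]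

/-- Chunk K2 (S/M). p does not divide N (prime), so p is coprime to N; χ (p^n) = χ(p)^n. p odd: frob_odd and hχ.odd (p does not divide d: hdN). p = 2: d % 4 = 1 (h4), hχ.two, hχ.pm: χ 2 = 1 iff d % 8 = 1, otherwise -1; frob_two: n even: η = 1 = χ(2)^n; n odd: χ(2)^n = χ(2). (2 : Ω) ≠ 0 by CharZero. -/
theorem frob_kron {Ω : Type} [Field Ω] [CharZero Ω] (V : ValuationSubring Ω) {p : ℕ} (hp : p.Prime) (hpV : V.valuation (p : Ω) < 1)
    {d : ℤ} {N : ℕ} {χ : ℕ → ℤ} (hχ : Kron d N χ) (hdN : ∀ p : ℕ, p.Prime → (p : ℤ) ∣ d → p ∣ N) (h4 : ¬ 2 ∣ N → d % 4 = 1)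
    (hpN : ¬ p ∣ N) {w : Ω} (hw : w ^ 2 = (d : Ω)) (s : Ω →+* Ω) {n : ℕ} (hs : ∀ x ∈ V, V.valuation (s x - x ^ p ^ n) < 1) {η : ℤ}
    (hη : η = 1 ∨ η = -1) (hsw : s w = η * w) : η = χ (p ^ n) := by
  have hc : p.Coprime N := (Nat.Prime.coprime_iff_not_dvd hp).2 hpN
  rw [kron_pow hχ hc]
  by_cases h2 : p = 2
  · subst h2
    have h5 := h4 hpN
    have h6 : V.valuation (2 : Ω) < 1 := by
      have h7 := hpV
      rwa [Nat.cast_ofNat] at h7
    obtain ⟨h7, h8⟩ := frob_two V two_ne_zero h6 h5 hw s hs hη hsw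
    have h9 := hχ.two hpN
    have h10 := hχ.pm 2 hc
    rcases Nat.even_or_odd n with hn | hn
    · rw [h7 hn]
      rcases h10 with h10 | h10 <;> rw [h10]
      · rw [one_pow]
      · rw [hn.neg_one_pow]
    · rcases h10 with h10 | h10
      · rw [h10, one_pow]
        exact (h8 hn).2 (h9.1 h10)
      · rw [h10, hn.neg_one_pow]
        rcases hη with hη | hη
        · exfalso
          have h11 := h9.2 ((h8 hn).1 hη)
          rw [h10] at h11
          norm_num at h11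
        · exact hη
  · have h5 : ¬ (p : ℤ) ∣ d := fun h => hpN (hdN p hp h)
    rw [hχ.odd p hp hpN h2]
    exact frob_odd V hp h2 hpV h5 hw s hs hη hsw

end H13D
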