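import Mathlib
import Pool.Agent.Lib.H13D.C4
import Pool.Agent.Lib.H13D.E6
import Pool.Agent.Lib.H13D.E7
import Pool.Agent.Lib.H13D.E9
import Pool.Agent.Lib.H13D.K1
import Pool.Agent.Lib.H13D.K2
import Pool.Agent.Lib.H13D.P0

/-! # H13D, part E: the quadratic character -/

open NumberField IsDedekindDomain WeierstrassCurve

namespace H13D

open H55P (IQ embF eF LF Per IsHecke Pt ac Inert Dec Nm)
open H35P (WAB Ker tt GoodW IntW)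
open H55K
open H55K.MG (VC Crd)

variable {F : Type} [Field F] [NumberField F] [IQ F] {A B : F} {Om : ℂ} {Ω : Type} [Field Ω] [DecidableEq Ω]
  [Algebra F Ω] [Algebra ℚ Ω] [IsScalarTower ℚ F Ω] {j : Ω →+* ℂ} {act : 𝓞 F →+* AddMonoid.End (Pt (WAB A B) Ω)} {δ : 𝓞 F} {D : ℕ}

omit [Algebra ℚ Ω] [IsScalarTower ℚ F Ω] in
theorem e10_key [IsAlgClosure F Ω] (h : CMA F A B Om j act) (hd : Del F δ D) (W : WeierstrassCurve ℤ)
    (hA : A = -(algebraMap (𝓞 F) F (W⁄(𝓞 F)).c₄) / 48) (hB : B = -(algebraMap (𝓞 F) F (W⁄(𝓞 F)).c₆) / 864)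
    (hDN : D ∣ W.Δ.natAbs) {T₀ : Pt (WAB A B) Ω} (hT : act δ T₀ = 0) (h0 : T₀ ≠ 0) {p : ℕ} (hp : p.Prime)
    (hpN : ¬ p ∣ W.Δ.natAbs) : ∃ V : ValuationSubring Ω, V.valuation (p : Ω) < 1 ∧ V.valuation (Yel D T₀) = 1 ∧
      V.valuation (Zel D T₀ (ak Ω (W⁄(𝓞 F)).a₁) (algebraMap F Ω (algebraMap (𝓞 F) F (W⁄(𝓞 F)).b₂ / 12)) (ak Ω (W⁄(𝓞 F)).a₃)) ≤ 1 ∧
      ∃ w : Ω, V.valuation w ≤ 1 ∧ Yel D T₀ ^ 2 =
        Zel D T₀ (ak Ω (W⁄(𝓞 F)).a₁) (algebraMap F Ω (algebraMap (𝓞 F) F (W⁄(𝓞 F)).b₂ / 12)) (ak Ω (W⁄(𝓞 F)).a₃) ^ 2 + 4 * w := by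
  have hac : IsAlgClosed Ω := IsAlgClosure.isAlgClosed F
  have hpZ : ¬ (p : ℤ) ∣ W.Δ := fun h1 => hpN (Int.natCast_dvd.1 h1)
  obtain ⟨v, V, hΔv, hpv, hv, hpV⟩ := exists_vV (F := F) Ω hp hpZ
  have hpD : ¬ (p : ℤ) ∣ (D : ℤ) := by
    intro h1
    have h2 : p ∣ D := by exact_mod_cast h1
    exact hpN (h2.trans hDN)
  have hδ : V.valuation (ak Ω δ) = 1 := by
    have h1 : V.valuation (((D : ℤ)) : Ω) = 1 := e7_int_eq V hp hpV hpD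
    have h2 : ak Ω δ ^ 2 = -(((D : ℤ)) : Ω) := by
      have h3 := congrArg (g9h F Ω) hd.sq
      rw [map_pow, map_neg, map_natCast] at h3
      rw [← g9h_eq, h3]
      push_cast
      rfl
    have h4 : V.valuation (ak Ω δ) ^ 2 = 1 := by rw [← map_pow, h2, Valuation.map_neg, h1]
    exact (pow_eq_one_iff_of_nonneg zero_le two_ne_zero).1 h4
  have hΔ' : (W⁄(𝓞 F)).Δ ∉ v.asIdeal := by
    have e1 : (W⁄(𝓞 F)).Δ = algebraMap ℤ (𝓞 F) W.Δ := W.map_Δ _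
    rw [e1]
    exact hΔv
  obtain ⟨Kg, Θ, hK, hG, hc, hR, -⟩ := exists_rm (Ω := Ω) (V := V) (W⁄(𝓞 F)) hA hB v hΔ' hv
  have h1 := val_Yel h hd (W⁄(𝓞 F)) hG hc hK hR hδ hT h0
  obtain ⟨h2, w, hw, h3⟩ := sq_Yel h hd (W⁄(𝓞 F)) hG hc hK hR hδ hT h0
  exact ⟨V, hpV, h1, h2, w, hw, h3⟩

/-- Chunk E10 (M). THE DISCRIMINANT. e, z from exists_ez; N = W.Δ.natAbs. For a prime p not dividing N (p ≠ D since D divides N): v, V from exists_vV (n = W.Δ), δ is not in v (else D in v, with p in v: 1 in v), V(δ) = 1 (g10b_one in H55K/G10B.lean); (W⁄(𝓞 F)).Δ = W.Δ not in v; Kg, Θ, .. from exists_rm (C4.lean); val_Yel: V(e) = 1 (V(Yel) = 1), so rat_eq: p divides neither e.num nor e.den.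
e ≠ 0 (such p exist, or directly: V(e) = 1 at one V; there are infinitely many primes). p = 2: sq_Yel: e = z^2 + 4 w₀ with V(z) ≤ 1, V(w₀) ≤ 1; w = (e - z^2)/4 is rational with image w₀ (Ω of characteristic 0), rat_le for z and w. e_form. -/
theorem exists_d [IsAlgClosure F Ω] (h : CMA F A B Om j act) (hd : Del F δ D) (W : WeierstrassCurve ℤ) (hΔ : W.Δ ≠ 0)
    (hA : A = -(algebraMap (𝓞 F) F (W⁄(𝓞 F)).c₄) / 48) (hB : B = -(algebraMap (𝓞 F) F (W⁄(𝓞 F)).c₆) / 864)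
    (hDN : D ∣ W.Δ.natAbs) {T₀ : Pt (WAB A B) Ω} (hT : act δ T₀ = 0) (h0 : T₀ ≠ 0) :
    ∃ (d : ℤ) (f : ℚ), Squarefree d ∧ f ≠ 0 ∧ Yel D T₀ ^ 2 = algebraMap ℚ Ω (d * f ^ 2) ∧
      (∀ p : ℕ, p.Prime → (p : ℤ) ∣ d → p ∣ W.Δ.natAbs) ∧ (¬ 2 ∣ W.Δ.natAbs → d % 4 = 1) := by
  have hch : CharZero Ω := algebraRat.charZero Ω
  obtain ⟨e, z, he, hz⟩ := exists_ez h hd W hA hB hT h0
  have hN : W.Δ.natAbs ≠ 0 := Int.natAbs_ne_zero.2 hΔ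
  have he0 : e ≠ 0 := by
    obtain ⟨p, hpl, hp⟩ := Nat.exists_infinite_primes (W.Δ.natAbs + 1)
    have hpN : ¬ p ∣ W.Δ.natAbs := fun h1 => by
      have := Nat.le_of_dvd (Nat.pos_of_ne_zero hN) h1
      omega
    obtain ⟨V, hpV, h1, -⟩ := e10_key h hd W hA hB hDN hT h0 hp hpN
    rintro rfl
    rw [map_zero] at he
    have h2 : Yel D T₀ = 0 := pow_eq_zero_iff two_ne_zero |>.1 he.symm
    rw [h2, map_zero] at h1
    exact zero_ne_one h1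
  obtain ⟨d, f, h1, h2, h3, h4, h5⟩ := e_form (N := W.Δ.natAbs) he0 (by
    intro p hp hpN
    obtain ⟨V, hpV, h1, -⟩ := e10_key h hd W hA hB hDN hT h0 hp hpN
    exact rat_eq V hp hpV e (by rw [he, map_pow, h1, one_pow])) (by
    intro h2N
    obtain ⟨V, hpV, h1, h2, w, hw, h3⟩ := e10_key h hd W hA hB hDN hT h0 Nat.prime_two h2N
    refine ⟨z, (e - z ^ 2) / 4, by ring, rat_le V Nat.prime_two hpV z (by rw [hz]; exact h2), rat_le V Nat.prime_two hpV _ ?_⟩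
    have h4 : algebraMap ℚ Ω ((e - z ^ 2) / 4) = w := by
      rw [map_div₀, map_sub, map_pow, he, hz, h3, map_ofNat]
      field_simp
      ring
    rw [h4]
    exact hw)
  exact ⟨d, f, h1, h2, by rw [← he, h3], h4, h5⟩

/-- Chunk E10 (M). THE QUADRATIC CHARACTER. d, f from exists_d, χ from kron_even or kron_odd with N = W.Δ.natAbs (squarefree d). For a good prime v: p, n from below_v, p does not divide N (else Δ in v: Δ is an integer divisible by p). w = Yel / f: w^2 = d. s w = η w with η = jacobiSym a D (Yel_ac: D does not divide a, because ac s T₀ ≠ 0; s fixes the rational number f),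
η = 1 or -1. V(p) < 1 (hv). frob_kron (s as a ring homomorphism): η = χ (p^n) = χ (absNorm v). -/
theorem exists_chi [IsAlgClosure F Ω] (h : CMA F A B Om j act) (hd : Del F δ D) (W : WeierstrassCurve ℤ) (hΔ : W.Δ ≠ 0)
    (hA : A = -(algebraMap (𝓞 F) F (W⁄(𝓞 F)).c₄) / 48) (hB : B = -(algebraMap (𝓞 F) F (W⁄(𝓞 F)).c₆) / 864)
    (hDN : D ∣ W.Δ.natAbs) {T₀ : Pt (WAB A B) Ω} (hT : act δ T₀ = 0) (h0 : T₀ ≠ 0) :
    ∃ (d : ℤ) (χ : ℕ → ℤ), Kron d W.Δ.natAbs χ ∧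
      ∀ v : HeightOneSpectrum (𝓞 F), (W⁄(𝓞 F)).Δ ∉ v.asIdeal → ∀ V : ValuationSubring Ω,
        (∀ a : 𝓞 F, a ∈ v.asIdeal → V.valuation (ak Ω a) < 1) → ∀ s : Ω ≃ₐ[F] Ω,
        (∀ x ∈ V, V.valuation (s x - x ^ Ideal.absNorm v.asIdeal) < 1) → ∀ a : ℤ, ac (WAB A B) s T₀ = a • T₀ →
        jacobiSym a D = χ (Ideal.absNorm v.asIdeal) := by
  have hch : CharZero Ω := algebraRat.charZero Ω
  obtain ⟨d, f, hsq, hf, hYd, hdN, h4⟩ := exists_d h hd W hΔ hA hB hDN hT h0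
  have hN : W.Δ.natAbs ≠ 0 := Int.natAbs_ne_zero.2 hΔ
  obtain ⟨χ, hχ⟩ : ∃ χ : ℕ → ℤ, Kron d W.Δ.natAbs χ := by
    by_cases h2 : 2 ∣ W.Δ.natAbs
    · exact kron_even hsq hdN h2 hN
    · exact kron_odd hsq hdN h2 (h4 h2)
  refine ⟨d, χ, hχ, fun v hΔv V hv s hs a ha => ?_⟩
  obtain ⟨p, n, hp, hpv, hn0, hnorm⟩ := below_v v
  have hpN : ¬ p ∣ W.Δ.natAbs := by
    intro h1
    apply hΔv
    obtain ⟨c, hc⟩ : (p : ℤ) ∣ W.Δ := Int.natCast_dvd.2 h1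
    have e1 : (W⁄(𝓞 F)).Δ = ((W.Δ : ℤ) : 𝓞 F) := W.map_Δ _
    rw [e1, hc]
    push_cast
    exact Ideal.mul_mem_right _ _ hpv
  have hpV : V.valuation (p : Ω) < 1 := by
    have h1 := hv _ hpv
    rwa [show ak Ω (p : 𝓞 F) = (p : Ω) from (map_natCast (g9h F Ω) p)] at h1
  have hne : ac (WAB A B) s T₀ ≠ 0 := H55K.ac_ne _ s h0
  have hDa : ¬ (D : ℤ) ∣ a := by
    intro h1
    apply hne
    rw [ha]
    exact (zsmul_iff hd hT h0 a).2 h1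
  have hY := Yel_ac hd.prime hd.mod s (D_tor hd hT) hDa ha
  set fΩ : Ω := algebraMap ℚ Ω f with hfΩ
  have hfΩ0 : fΩ ≠ 0 := by
    rw [hfΩ]
    exact (map_ne_zero _).2 hf
  have hsf : s fΩ = fΩ := by
    rw [hfΩ, IsScalarTower.algebraMap_apply ℚ F Ω]
    exact s.commutes _
  have hw : (Yel D T₀ / fΩ) ^ 2 = (d : Ω) := by
    rw [div_pow, hYd, map_mul, map_pow, ← hfΩ, map_intCast]
    field_simp
  have hsw : (s : Ω →+* Ω) (Yel D T₀ / fΩ) = ((jacobiSym a D : ℤ) : Ω) * (Yel D T₀ / fΩ) := by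
    show s (Yel D T₀ / fΩ) = _
    rw [map_div₀, hY, hsf, mul_div_assoc]
  rw [hnorm] at hs ⊢
  exact frob_kron V hp hpV hχ hdN h4 hpN hw (s : Ω →+* Ω) hs (e1_pm hd.prime hDa) hsw

end H13D
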