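import Mathlib
import Pool.Agent.Lib.H55K.D1
import Pool.Agent.Lib.H55P.EDef
import Pool.Agent.Lib.H55P.Sel
import Pool.Agent.Lib.H55P.TD

/-! # H13D, part H: norms and congruences -/

open NumberField IsDedekindDomain WeierstrassCurve

namespace H13D

open H55P (IQ embF eF LF Per IsHecke Pt ac Inert Dec Nm)
open H55K

variable {F : Type} [Field F] [NumberField F] [IQ F]

/-- Chunk H1 (S). If n = N c in 𝓞 F then Nm n = n^2 = N^2 Nm c (Nm_mul, Nm of an integer is its square: mul_cj, cj_int), so N^2 divides n^2 and N divides n. -/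
theorem dvd_int (N : ℕ) (n : ℤ) (h : (N : 𝓞 F) ∣ (n : 𝓞 F)) : (N : ℤ) ∣ n := by
  have h1 : (N : 𝓞 F) ∣ ((n.natAbs : ℕ) : 𝓞 F) := by
    rcases Int.natAbs_eq n with h2 | h2
    · rw [h2, Int.cast_natCast] at h
      exact h
    · rw [h2, Int.cast_neg, Int.cast_natCast] at h
      exact (dvd_neg.1 h)
  obtain ⟨c, hc⟩ := h1
  have h2 := congrArg Nm hc
  rw [Nm_mul, Nm_nat, Nm_nat] at h2
  have h3 : N ^ 2 ∣ n.natAbs ^ 2 := ⟨_, h2⟩
  have h4 : N ∣ n.natAbs := (Nat.pow_dvd_pow_iff two_ne_zero).1 h3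
  exact Int.natCast_dvd.2 h4

/-- Chunk H1 (S/M). Ideal.isCoprime_span_singleton_iff, IsCoprime.pow_right_iff: the left side says a x + b N = 1. If so, multiply with the conjugate equation (cj a) (cj x) + (cj b) N = 1: a (cj a) Nm x = 1 + N (..) (mul_cj), so a prime p dividing Nm x and N divides 1 in 𝓞 F: contradiction (dvd_int). Conversely u Nm x + w N = 1 with integers u, w and Nm x = x cj x. -/
theorem cop_iff (N : ℕ) (x : 𝓞 F) : IsCoprime (Ideal.span {x}) (Ideal.span {(N : 𝓞 F) ^ 3}) ↔ (Nm x).Coprime N := by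
  rw [Ideal.isCoprime_span_singleton_iff, IsCoprime.pow_right_iff (by norm_num)]
  constructor
  · rintro ⟨a, b, hab⟩
    have h1 := congrArg cj hab
    rw [map_add, map_mul, map_mul, map_natCast, map_one] at h1
    have h2 := mul_cj x
    have h3 : (1 : 𝓞 F) = a * cj a * (Nm x : 𝓞 F) + (N : 𝓞 F) * (b + cj b - b * cj b * N) := by
      rw [← h2]
      linear_combination (-(cj a * cj x)) * hab - (1 - b * N) * h1
    have h4 : ((Nat.gcd (Nm x) N : ℕ) : 𝓞 F) ∣ ((1 : ℤ) : 𝓞 F) := by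
      rw [Int.cast_one, h3]
      refine dvd_add (Dvd.dvd.mul_left ?_ _) (Dvd.dvd.mul_right ?_ _)
      · exact Nat.cast_dvd_cast (Nat.gcd_dvd_left _ _)
      · exact Nat.cast_dvd_cast (Nat.gcd_dvd_right _ _)
    have h5 := dvd_int _ _ h4
    have h6 : Nat.gcd (Nm x) N ∣ 1 := by exact_mod_cast h5
    exact Nat.dvd_one.1 h6
  · intro h
    have h1 : IsCoprime ((Nm x : ℕ) : ℤ) (N : ℤ) := Nat.isCoprime_iff_coprime.2 h
    obtain ⟨u, w, huw⟩ := h1
    have h2 := congrArg (fun k : ℤ => (k : 𝓞 F)) huw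
    simp only [Int.cast_add, Int.cast_mul, Int.cast_natCast, Int.cast_one] at h2
    rw [← mul_cj x] at h2
    exact ⟨u * cj x, w, by linear_combination h2⟩

/-- Chunk H1 (S/M). Nm x - Nm y = x cj x - y cj y (mul_cj); x - y is divisible by N^3 and so is cj x - cj y: dvd_int for N^3 (Nat.modEq_iff_dvd). -/
theorem Nm_congr (N : ℕ) {x y : 𝓞 F} (h : x - y ∈ Ideal.span {(N : 𝓞 F) ^ 3}) : Nm x ≡ Nm y [MOD N ^ 3] := by
  rw [Nat.modEq_iff_dvd]
  apply dvd_int (F := F)
  obtain ⟨c, hc⟩ := Ideal.mem_span_singleton.1 h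
  have h1 := congrArg cj hc
  rw [map_sub, map_mul, map_pow, map_natCast] at h1
  have h2 := mul_cj x
  have h3 := mul_cj y
  refine ⟨-(x * cj c + c * cj y), ?_⟩
  push_cast
  linear_combination h2 - h3 - x * h1 - cj y * hc

end H13D
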