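import Mathlib
import Pool.Agent.Lib.H13D.P1
import Pool.Agent.Lib.H55K.RF

/-! # H13D, part P: arithmetic of the field -/

open NumberField IsDedekindDomain WeierstrassCurve

namespace H13D

open H55P (IQ embF eF LF Per IsHecke Pt ac Inert Dec Nm)
open H35P (WAB Ker tt GoodW IntW)
open H55K

variable {F : Type} [Field F] [NumberField F] [IQ F] {δ : 𝓞 F} {D : ℕ}

/-- Chunk P2 (M). x + cj x = a is an integer (H55K.TQ.rf_tr in RF.lean). x - cj x is divisible by δ (x and cj x are congruent to the same integer n modulo δ: ex_int, cj δ = -δ): x - cj x = δ w, and cj w = w (apply cj: cj x - x = -δ cj w; δ ≠ 0). w is an integer: 2 w = w + cj w = t is an integer (rf_tr), and w * w = Nm w (mul_cj) is an integer n, t^2 = 4 n, so t is even, w = t/2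
(characteristic 0, 2 ≠ 0). -/
theorem two_mul_eq (hd : Del F δ D) (x : 𝓞 F) : ∃ a b : ℤ, 2 * x = a + b * δ := by
  obtain ⟨a, ha⟩ := TQ.rf_tr x
  obtain ⟨n, c, hc⟩ := ex_int hd x
  obtain ⟨b, hb⟩ := TQ.rf_tr c
  refine ⟨a, b, ?_⟩
  have h1 := congrArg cj hc
  rw [map_sub, map_mul, cj_int, cj_del hd] at h1
  linear_combination ha + hc - h1 + δ * hb

/-- Chunk P2 (S/M). 2 u = a + b δ (two_mul_eq); Nm u = 1 (u * cj u = Nm u is a unit of 𝓞 F and a natural number; or Ideal.absNorm of the unit ideal), so 4 = (a + b δ)(a - b δ) = a^2 + D b^2 with D ≥ 7 (D > 3 prime, D % 4 = 3): b = 0, a = 2 or -2. -/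
theorem unit_pm (hd : Del F δ D) (u : (𝓞 F)ˣ) : (u : 𝓞 F) = 1 ∨ (u : 𝓞 F) = -1 := by
  obtain ⟨a, b, h1⟩ := two_mul_eq hd (u : 𝓞 F)
  have h2 := congrArg cj h1
  rw [map_mul, map_ofNat, map_add, map_mul, cj_int, cj_int, cj_del hd] at h2
  have h3 : Nm (u : 𝓞 F) = 1 := by
    unfold Nm
    rw [Ideal.absNorm_eq_one_iff, Ideal.span_singleton_eq_top]
    exact u.isUnit
  have h4 := mul_cj (u : 𝓞 F)
  rw [h3, Nat.cast_one] at h4
  have h5 : ((a ^ 2 + D * b ^ 2 : ℤ) : 𝓞 F) = ((4 : ℤ) : 𝓞 F) := by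
    push_cast
    have h6 := hd.sq
    linear_combination 4 * h4 - 2 * cj (u : 𝓞 F) * h1 - (a + b * δ) * h2 + b ^ 2 * h6
  have h6 : a ^ 2 + D * b ^ 2 = 4 := Int.cast_injective h5
  have hD : (7 : ℤ) ≤ D := by
    have h7 := hd.big
    have h8 := hd.mod
    omega
  have hb : b = 0 := by
    by_contra hb
    have h7 : 1 ≤ b ^ 2 := by
      have := pow_pos (abs_pos.2 hb) 2
      rw [sq_abs] at this
      omega
    nlinarith [sq_nonneg a]
  rw [hb] at h6 h1
  have ha : a = 2 ∨ a = -2 := by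
    have h7 : (a - 2) * (a + 2) = 0 := by linear_combination h6
    rcases mul_eq_zero.1 h7 with h8 | h8
    · left; linarith
    · right; linarith
  have h20 : (2 : 𝓞 F) ≠ 0 := two_ne_zero
  rcases ha with ha | ha
  · left
    apply mul_left_cancel₀ h20
    rw [h1, ha]
    push_cast
    ring
  · right
    apply mul_left_cancel₀ h20
    rw [h1, ha]
    push_cast
    ring

/-- Chunk P2 (S). Ideal.span_singleton_eq_span_singleton, unit_pm. -/
theorem span_pm (hd : Del F δ D) {x y : 𝓞 F} (h : Ideal.span {x} = Ideal.span {y}) : y = x ∨ y = -x := by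
  obtain ⟨u, hu⟩ := Ideal.span_singleton_eq_span_singleton.1 h
  rcases unit_pm hd u with h1 | h1
  · left
    rw [← hu, h1, mul_one]
  · right
    rw [← hu, h1, mul_neg, mul_one]

end H13D
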