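import Mathlib
import Pool.Agent.Lib.H13D.P1

/-! # H13D, part P: the quadratic symbol modulo δ -/

open NumberField IsDedekindDomain WeierstrassCurve

namespace H13D

open H55P (IQ embF eF LF Per IsHecke Pt ac Inert Dec Nm)
open H35P (WAB Ker tt GoodW IntW)
open H55K

variable {F : Type} [Field F] [NumberField F] [IQ F] {δ : 𝓞 F} {D : ℕ}

/-- Chunk P3 (S/M). The chosen integer n' is congruent to n modulo D (del_dvd_int): jacobiSym.mod_left. -/
theorem lam_eq (hd : Del F δ D) {x : 𝓞 F} {n : ℤ} (h : δ ∣ x - n) : lam δ D x = jacobiSym n D := by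
  have hex : ∃ n : ℤ, δ ∣ x - n := ⟨n, h⟩
  unfold lam
  rw [dif_pos hex]
  have h1 := hex.choose_spec
  have h2 : δ ∣ ((n - hex.choose : ℤ) : 𝓞 F) := by
    have h3 := dvd_sub h1 h
    push_cast
    have e : (n : 𝓞 F) - (hex.choose : 𝓞 F) = x - (hex.choose : 𝓞 F) - (x - n) := by ring
    rw [e]
    exact h3
  rw [del_dvd_int hd] at h2
  rw [jacobiSym.mod_left hex.choose, jacobiSym.mod_left n]
  congr 1
  exact (Int.emod_eq_emod_iff_emod_sub_eq_zero.2 (Int.emod_eq_zero_of_dvd h2)).symm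

/-- Chunk P3 (S). lam_eq, ex_int, jacobiSym.mul_left: x is congruent to n, y to k, x y to n k. -/
theorem lam_mul (hd : Del F δ D) (x y : 𝓞 F) : lam δ D (x * y) = lam δ D x * lam δ D y := by
  obtain ⟨n, hn⟩ := ex_int hd x
  obtain ⟨k, hk⟩ := ex_int hd y
  have h1 : δ ∣ x * y - ((n * k : ℤ) : 𝓞 F) := by
    push_cast
    have e : x * y - (n : 𝓞 F) * k = (x - n) * y + n * (y - k) := by ring
    rw [e]
    exact dvd_add (hn.mul_right y) (hk.mul_left _)
  rw [lam_eq hd h1, lam_eq hd hn, lam_eq hd hk, jacobiSym.mul_left]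

/-- Chunk P3 (S). -/
theorem lam_one (hd : Del F δ D) : lam δ D 1 = 1 := by
  have h1 : δ ∣ (1 : 𝓞 F) - ((1 : ℤ) : 𝓞 F) := by
    rw [Int.cast_one, sub_self]
    exact dvd_zero _
  rw [lam_eq hd h1, jacobiSym.one_left]

/-- Chunk P3 (S/M). jacobiSym (-1) D = -1 because D % 4 = 3 (jacobiSym.at_neg_one, ZMod.χ₄_nat_three_mod_four); jacobiSym.mul_left / jacobiSym.neg. -/
theorem lam_neg (hd : Del F δ D) (x : 𝓞 F) : lam δ D (-x) = -lam δ D x := by
  obtain ⟨n, hn⟩ := ex_int hd x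
  have h1 : δ ∣ -x - ((-n : ℤ) : 𝓞 F) := by
    push_cast
    have e : -x - -(n : 𝓞 F) = -(x - n) := by ring
    rw [e]
    exact (dvd_neg).2 hn
  have hodd : Odd D := by
    have := hd.mod
    exact Nat.odd_iff.2 (by omega)
  rw [lam_eq hd h1, lam_eq hd hn, jacobiSym.neg n hodd, ZMod.χ₄_nat_three_mod_four hd.mod, neg_one_mul]

/-- Chunk P3 (S). -/
theorem lam_congr (hd : Del F δ D) {x y : 𝓞 F} (h : δ ∣ x - y) : lam δ D x = lam δ D y := by
  obtain ⟨n, hn⟩ := ex_int hd x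
  have h1 : δ ∣ y - (n : 𝓞 F) := by
    have e : y - (n : 𝓞 F) = (x - n) - (x - y) := by ring
    rw [e]
    exact dvd_sub hn h
  rw [lam_eq hd h1, lam_eq hd hn]

/-- Chunk P3 (S). x is congruent to n, D does not divide n (del_dvd_int), so n and D are coprime: jacobiSym.eq_one_or_neg_one. -/
theorem lam_pm (hd : Del F δ D) {x : 𝓞 F} (h : ¬ δ ∣ x) : lam δ D x = 1 ∨ lam δ D x = -1 := by
  obtain ⟨n, hn⟩ := ex_int hd x
  have h1 : ¬ (D : ℤ) ∣ n := by
    intro h2
    apply h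
    have h3 := (del_dvd_int hd n).2 h2
    have e : x = (x - n) + n := by ring
    rw [e]
    exact dvd_add hn h3
  rw [lam_eq hd hn]
  apply jacobiSym.eq_one_or_neg_one
  have h2 : IsCoprime (D : ℤ) n := (Nat.prime_iff_prime_int.1 hd.prime).irreducible.coprime_iff_not_dvd.2 h1
  rw [Int.gcd_comm]
  exact Int.isCoprime_iff_gcd_eq_one.1 h2

end H13D
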