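import Mathlib
import Pool.Agent.Lib.H13D.D3
import Pool.Agent.Lib.H13D.H1
import Pool.Agent.Lib.H13D.P2
import Pool.Agent.Lib.H13D.P3
import Pool.Agent.Lib.H55W.HB

/-! # H13D, part H: the Hecke character -/

open NumberField IsDedekindDomain WeierstrassCurve

namespace H13D

open H55P (IQ embF eF LF Per IsHecke Pt ac Inert Dec Nm)
open H55K

variable {F : Type} [Field F] [NumberField F] [IQ F] {δ : 𝓞 F} {D : ℕ}

/-- Chunk H2 (S/M). For x with Nm x prime to N: δ does not divide x (D = Nm δ divides N), so the value is 1 or -1 (lam_pm, hχ.pm). -/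
theorem eps_pm (hd : Del F δ D) {N : ℕ} (hDN : D ∣ N) {d : ℤ} {χ : ℕ → ℤ} (hχ : Kron d N χ) {x : 𝓞 F} (hx : (Nm x).Coprime N) :
    lam δ D x * χ (Nm x) = 1 ∨ lam δ D x * χ (Nm x) = -1 := by
  have h1 : ¬ δ ∣ x := by
    rintro ⟨c, rfl⟩
    rw [Nm_mul, Nm_del hd] at hx
    have h2 : D.Coprime N := Nat.Coprime.coprime_mul_right hx
    have h3 := Nat.Coprime.eq_one_of_dvd h2 hDN
    exact hd.prime.one_lt.ne' h3
  rcases lam_pm hd h1 with h2 | h2 <;> rcases hχ.pm _ hx with h3 | h3 <;> rw [h2, h3]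
  · left; norm_num
  · right; norm_num
  · right; norm_num
  · left; norm_num

/-- Chunk H2 (M). THE HECKE CHARACTER. M = span {N^3} is not bottom (N ≠ 0: D divides N and N ≠ 0) and not top (the prime D divides N). ε(x) = lam x * χ (Nm x) for x with Nm x prime to N (cop_iff): multiplicative (lam_mul, hχ.mul, Nm_mul), ε(-x) = -ε(x) (lam_neg, Nm (-x) = Nm x), ε(x) = ε(y) if x - y is in M (δ divides D, which divides N: lam_congr; Nm_congr, hχ.per).
ψ(J) = ε(x) x for J = span {x} (IQ.pid; a generator is unique up to the sign: span_pm, and (-1)(-1) = 1) if J is prime to M, and 0 otherwise: a monoid homomorphism with zero (J K is prime to M iff J and K are; 0 is not). gen: ε(x) = ± 1. per: ε(x) = ε(y). If H55W/HB.lean (Hecke builder of helper55) is on main use it with f x = ε(x). -/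
theorem exists_psi (hd : Del F δ D) {N : ℕ} (hN : N ≠ 0) (hDN : D ∣ N) {d : ℤ} {χ : ℕ → ℤ} (hχ : Kron d N χ) :
    ∃ ψ : Ideal (𝓞 F) →*₀ 𝓞 F, IsHecke (Ideal.span {(N : 𝓞 F) ^ 3}) ψ ∧
      ∀ x : 𝓞 F, (Nm x).Coprime N → ψ (Ideal.span {x}) = ((lam δ D x * χ (Nm x) : ℤ) : 𝓞 F) * x := by
  have hbot : Ideal.span {(N : 𝓞 F) ^ 3} ≠ ⊥ := by
    rw [Ne, Ideal.span_singleton_eq_bot]
    exact pow_ne_zero 3 (Nat.cast_ne_zero.2 hN)
  have htop : Ideal.span {(N : 𝓞 F) ^ 3} ≠ ⊤ := by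
    intro h
    have h1 : IsCoprime (Ideal.span {δ}) (Ideal.span {(N : 𝓞 F) ^ 3}) := by
      rw [h, ← Ideal.one_eq_top]
      exact isCoprime_one_right
    rw [cop_iff, Nm_del hd] at h1
    exact hd.prime.one_lt.ne' (Nat.Coprime.eq_one_of_dvd h1 hDN)
  have hNneg : ∀ x : 𝓞 F, Nm (-x) = Nm x := by
    intro x
    unfold Nm
    rw [Ideal.span_singleton_neg]
  have key : ∃ ψ : Ideal (𝓞 F) →*₀ 𝓞 F, IsHecke (Ideal.span {(N : 𝓞 F) ^ 3}) ψ ∧
      ∀ x, IsCoprime (Ideal.span {x}) (Ideal.span {(N : 𝓞 F) ^ 3}) → ψ (Ideal.span {x}) =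
        (fun x => ((lam δ D x * χ (Nm x) : ℤ) : 𝓞 F)) x * x := by
    refine H55W.exists_hecke (Ideal.span {(N : 𝓞 F) ^ 3}) hbot htop
      (fun x => ((lam δ D x * χ (Nm x) : ℤ) : 𝓞 F)) ?_ ?_ ?_ ?_
    · intro x hx
      rcases eps_pm hd hDN hχ ((cop_iff N x).1 hx) with h | h
      · show IsUnit (((lam δ D x * χ (Nm x) : ℤ) : 𝓞 F))
        rw [h]
        simp
      · show IsUnit (((lam δ D x * χ (Nm x) : ℤ) : 𝓞 F))
        rw [h]
        simp
    · intro x y hx hy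
      show ((lam δ D (x * y) * χ (Nm (x * y)) : ℤ) : 𝓞 F) = ((lam δ D x * χ (Nm x) : ℤ) : 𝓞 F) * ((lam δ D y * χ (Nm y) : ℤ) : 𝓞 F)
      rw [lam_mul hd, Nm_mul, hχ.mul _ _ ((cop_iff N x).1 hx) ((cop_iff N y).1 hy)]
      push_cast
      ring
    · intro u x hu hx
      show ((lam δ D (u * x) * χ (Nm (u * x)) : ℤ) : 𝓞 F) * u = ((lam δ D x * χ (Nm x) : ℤ) : 𝓞 F)
      obtain ⟨w, rfl⟩ := hu
      rcases unit_pm hd w with h | h
      · rw [h, one_mul, mul_one]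
      · rw [h, neg_one_mul, lam_neg hd, hNneg]
        push_cast
        ring
    · intro x y hx hy hxy
      show ((lam δ D x * χ (Nm x) : ℤ) : 𝓞 F) = ((lam δ D y * χ (Nm y) : ℤ) : 𝓞 F)
      have h1 : δ ∣ x - y := by
        obtain ⟨c, hc⟩ := Ideal.mem_span_singleton.1 hxy
        have h3 : δ ∣ (N : 𝓞 F) := by
          obtain ⟨e, he⟩ := hDN
          refine ⟨-δ * e, ?_⟩
          rw [he]
          push_cast
          have := hd.sq
          linear_combination (e : 𝓞 F) * this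
        rw [hc]
        exact dvd_mul_of_dvd_left (dvd_pow h3 (by norm_num)) _
      rw [lam_congr hd h1, hχ.per _ _ ((cop_iff N x).1 hx) ((cop_iff N y).1 hy) (Nm_congr N hxy)]
  obtain ⟨ψ, h1, h2⟩ := key
  exact ⟨ψ, h1, fun x hx => h2 x ((cop_iff N x).2 hx)⟩

end H13D
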