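import Mathlib
import Pool.Agent.Lib.H55K.RF

/-! # H13D, part M: the primes ramified in F -/

open NumberField IsDedekindDomain WeierstrassCurve

namespace H13D

open H55P (IQ embF eF LF Per IsHecke Pt ac Inert Dec Nm)
open H35P (WAB Ker tt GoodW IntW)
open H55K H55K.TQ
open H55K.MG (VC Crd)

/-- Chunk M0 (S). Copy of the proof of H55K.TQ.hram_of (RF.lean), which uses of hH only hH.data.ell (the discriminant of W⁄(𝓞 F) is not 0: hΔ, W.map_Δ) and hH.data.per (hper). -/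
theorem disc_ram {F : Type} [Field F] [NumberField F] [IQ F] {W : WeierstrassCurve ℤ} {Om : ℂ} (hΔ : W.Δ ≠ 0)
    (hper : Per F (-(eF F (W⁄(𝓞 F)).c₄) / 48) (-(eF F (W⁄(𝓞 F)).c₆) / 864) Om) (v : HeightOneSpectrum (𝓞 F))
    (hv : ∀ a : 𝓞 F, a - cj a ∈ v.asIdeal) : (W⁄(𝓞 F)).Δ ∈ v.asIdeal := by
  classical
  by_contra hΔv
  -- the prime number p
  obtain ⟨p, hp, hp2, hpv⟩ : ∃ p : ℕ, p.Prime ∧ p ≠ 2 ∧ (p : 𝓞 F) ∉ v.asIdeal := by
    by_cases h3 : ((3 : ℕ) : 𝓞 F) ∈ v.asIdeal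
    · refine ⟨5, by norm_num, by norm_num, fun h5 => ?_⟩
      apply v.isPrime.ne_top
      rw [Ideal.eq_top_iff_one]
      have e : (1 : 𝓞 F) = 2 * ((3 : ℕ) : 𝓞 F) - ((5 : ℕ) : 𝓞 F) := by norm_num
      rw [e]
      exact v.asIdeal.sub_mem (v.asIdeal.mul_mem_left _ h3) h5
    · exact ⟨3, by norm_num, by norm_num, h3⟩
  set Ω := AlgebraicClosure F with hΩ
  have hcl : IsAlgClosure ℚ Ω := ⟨inferInstance, Algebra.IsAlgebraic.trans ℚ F Ω⟩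
  -- the valuation ring
  obtain ⟨V, hV⟩ := exists_abw Ω v
  -- the automorphism
  obtain ⟨σ, hσ⟩ := d1_sigma F
  have hσ' : ∀ a : 𝓞 F, σ (a : F) = ((cj a : 𝓞 F) : F) := by
    intro a
    apply (embF F).injective
    rw [hσ]
    exact (e_cj a).symm
  have hn : Normal ℚ Ω := IsAlgClosure.normal ℚ Ω
  set s0 : Ω ≃ₐ[ℚ] Ω := AlgEquiv.liftNormal σ Ω with hs0
  have hs0' : ∀ x : F, s0 (algebraMap F Ω x) = algebraMap F Ω (σ x) := fun x => AlgEquiv.liftNormal_commutes _ _ _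
  set N' : IntermediateField ℚ Ω := (IsScalarTower.toAlgHom ℚ F Ω).fieldRange with hN'
  have hfin : FiniteDimensional ℚ N' :=
    (AlgEquiv.ofInjectiveField (IsScalarTower.toAlgHom ℚ F Ω)).toLinearEquiv.finiteDimensional
  have hmem : ∀ x : Ω, x ∈ N' → ∃ y : F, algebraMap F Ω y = x := by
    rintro x ⟨y, hy⟩
    exact ⟨y, hy⟩
  obtain ⟨s, hsI, hs1⟩ := H13S.inertia_lift N' V s0 (by
      intro x hx
      obtain ⟨y, rfl⟩ := hmem x hx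
      rw [hs0']
      exact ⟨σ y, rfl⟩) (by
      intro x hx hxV
      obtain ⟨y, rfl⟩ := hmem x hx
      rw [hs0', ← map_sub, hV.lt]
      refine H13S.in4_val v σ ?_ y ((hV y).1 hxV)
      intro z
      have e : σ • z = cj z := by
        apply RingOfIntegers.coe_injective
        exact hσ' z
      rw [e, ← neg_sub]
      exact v.asIdeal.neg_mem (hv z))
  have hs : ∀ x : F, s (algebraMap F Ω x) = algebraMap F Ω (σ x) := by
    intro x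
    rw [hs1 (algebraMap F Ω x) ⟨x, rfl⟩, hs0']
  -- the curve over the rational numbers
  set A₀ : ℚ := -(W⁄ℚ).c₄ / 48 with hA₀
  set B₀ : ℚ := -(W⁄ℚ).c₆ / 864 with hB₀
  have hc4 : algebraMap (𝓞 F) F (W⁄(𝓞 F)).c₄ = algebraMap ℚ F (W⁄ℚ).c₄ := by
    have e1 : (W⁄(𝓞 F)).c₄ = algebraMap ℤ (𝓞 F) W.c₄ := W.map_c₄ _
    have e2 : (W⁄ℚ).c₄ = algebraMap ℤ ℚ W.c₄ := W.map_c₄ _
    rw [e1, e2]
    simp
  have hc6 : algebraMap (𝓞 F) F (W⁄(𝓞 F)).c₆ = algebraMap ℚ F (W⁄ℚ).c₆ := by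
    have e1 : (W⁄(𝓞 F)).c₆ = algebraMap ℤ (𝓞 F) W.c₆ := W.map_c₆ _
    have e2 : (W⁄ℚ).c₆ = algebraMap ℤ ℚ W.c₆ := W.map_c₆ _
    rw [e1, e2]
    simp
  obtain ⟨A, hA⟩ : ∃ A : F, A = -(algebraMap (𝓞 F) F (W⁄(𝓞 F)).c₄) / 48 := ⟨_, rfl⟩
  obtain ⟨B, hB⟩ : ∃ B : F, B = -(algebraMap (𝓞 F) F (W⁄(𝓞 F)).c₆) / 864 := ⟨_, rfl⟩
  have hA' : A = algebraMap ℚ F A₀ := by
    rw [hA, hc4, hA₀, map_div₀, map_neg, map_ofNat]
  have hB' : B = algebraMap ℚ F B₀ := by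
    rw [hB, hc6, hB₀, map_div₀, map_neg, map_ofNat]
  have hΔ0 : (W⁄(𝓞 F)).Δ ≠ 0 := by
    intro h0
    have e1 : (W⁄(𝓞 F)).Δ = algebraMap ℤ (𝓞 F) W.Δ := W.map_Δ _
    rw [e1] at h0
    apply hΔ
    have e2 : ((W.Δ : ℤ) : 𝓞 F) = 0 := h0
    exact_mod_cast e2
  have hd := y3_ne (W⁄(𝓞 F)) hA hB hΔ0
  have hper' : Per F (embF F A) (embF F B) Om := by
    have e1 : embF F A = -(eF F (W⁄(𝓞 F)).c₄) / 48 := by
      rw [hA, map_div₀, map_neg, map_ofNat]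
      rfl
    have e2 : embF F B = -(eF F (W⁄(𝓞 F)).c₆) / 864 := by
      rw [hB, map_div₀, map_neg, map_ofNat]
      rfl
    rw [e1, e2]
    exact hper
  obtain ⟨j, hj⟩ := exists_j F Ω
  obtain ⟨act, h⟩ := exists_CMA F A B Om j hd hper' hj
  set s' : Ω ≃+* Ω := (s : Ω ≃+* Ω) with hs'
  have hsA : s' (algebraMap F Ω A) = algebraMap F Ω A := by
    rw [hA', ← IsScalarTower.algebraMap_apply ℚ F Ω]
    exact s.commutes _
  have hsB : s' (algebraMap F Ω B) = algebraMap F Ω B := by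
    rw [hB', ← IsScalarTower.algebraMap_apply ℚ F Ω]
    exact s.commutes _
  have hsc : ∀ a : 𝓞 F, s' (ak Ω a) = ak Ω (cj a) := by
    intro a
    show s (algebraMap F Ω (a : F)) = _
    rw [hs, hσ']
  have hsl := cma_galr h s' hsA hsB hsc
  -- good reduction
  have hVp : V.valuation (p : Ω) = 1 := by
    have h1 := rf_one hV hpv
    have e : ak Ω (p : 𝓞 F) = (p : Ω) := by
      show algebraMap F Ω (((p : 𝓞 F)) : F) = _
      simp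
    rwa [e] at h1
  have hcast : ∀ n : ℤ, algebraMap ℚ Ω (algebraMap ℤ ℚ n) = (n : Ω) := fun n => by simp
  have hcast' : ∀ n : ℤ, algebraMap ℚ Ω (algebraMap ℤ ℚ n) ∈ V := fun n => by
    rw [hcast]
    exact intCast_mem V n
  have hΔQ : (W⁄ℚ).Δ = algebraMap ℤ ℚ W.Δ := W.map_Δ _
  have hΔF : (W⁄(𝓞 F)).Δ = algebraMap ℤ (𝓞 F) W.Δ := W.map_Δ _
  have hΔQ0 : (W⁄ℚ).Δ ≠ 0 := by
    intro h0
    apply hΔ0
    rw [hΔQ] at h0
    have h1 : W.Δ = 0 := by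
      have h2 : (W.Δ : ℚ) = 0 := h0
      exact_mod_cast h2
    rw [hΔF, h1, map_zero]
  have hGood : GoodW ((W⁄ℚ)⁄Ω) V := by
    refine ⟨⟨hcast' _, hcast' _, hcast' _, hcast' _, hcast' _⟩, ?_⟩
    have e1 : ((W⁄ℚ)⁄Ω).Δ = algebraMap ℚ Ω (W⁄ℚ).Δ := (W⁄ℚ).map_Δ _
    have h1 := rf_one hV hΔv
    have e2 : ak Ω (W⁄(𝓞 F)).Δ = (W.Δ : Ω) := by
      rw [hΔF]
      show algebraMap F Ω ((algebraMap ℤ (𝓞 F) W.Δ : 𝓞 F) : F) = _
      simp
    rw [e1, hΔQ, hcast, ← e2]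
    exact h1
  have hE : (WAB A B)⁄Ω = (WAB A₀ B₀)⁄Ω := by
    have e1 : algebraMap F Ω A = algebraMap ℚ Ω A₀ := by rw [hA', ← IsScalarTower.algebraMap_apply ℚ F Ω]
    have e2 : algebraMap F Ω B = algebraMap ℚ Ω B₀ := by rw [hB', ← IsScalarTower.algebraMap_apply ℚ F Ω]
    ext <;> simp [WAB, WeierstrassCurve.map, WeierstrassCurve.baseChange, e1, e2]
  have hfix : ∀ T : Pt (WAB A B) Ω, p • T = 0 → acr s' hsA hsB T = T := by
    intro T hT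
    obtain ⟨f1, f2⟩ := rf_fix (W⁄ℚ) hGood hΔQ0 hA₀ hB₀ s hsI p hVp ((WAB A B)⁄Ω) hE T hT
    by_cases hT0 : T = 0
    · rw [hT0, map_zero]
    · refine CC.c27_ext (fun h0 => hT0 ((acr_zero_iff s' hsA hsB T).1 h0)) hT0 ?_ ?_
      · rw [xc_acr]
        exact f1
      · rw [yc_acr]
        exact f2
  -- the contradiction
  refine rf_card (F := F) hp hp2 (fun a => ?_)
  have hpne : (p : 𝓞 F) ≠ 0 := by exact_mod_cast hp.ne_zero
  obtain ⟨T₀, hT₀, g1, g2, -⟩ := h.gen (p : 𝓞 F) hpne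
  have hT₀' : p • T₀ = 0 := by
    rw [← cu_nat act]
    exact hT₀
  have e0 : p • act a T₀ = 0 := by
    rw [← map_nsmul, hT₀', map_zero]
  have e1 := hsl a T₀
  rw [hfix T₀ hT₀', hfix _ e0] at e1
  rw [← g2 (a - cj a), map_sub]
  show act a T₀ - act (cj a) T₀ = 0
  rw [← e1, sub_self]

end H13D
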