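import Mathlib
import Pool.Agent.Lib.H13D.C5
import Pool.Agent.Lib.H13D.E10
import Pool.Agent.Lib.H13D.H2
import Pool.Agent.Lib.H13D.M0

/-! # H13D: Deuring's theorem: the curves over the rational numbers with complex multiplication by the integers of the field of discriminant -D -/

open NumberField IsDedekindDomain WeierstrassCurve

namespace H13D

open H55P (IQ embF eF LF Per IsHecke Pt ac Inert Dec Nm)
open H35P (WAB Ker tt GoodW IntW)
open H55K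
open H55K.TQ (BaseH)

/-- The Hecke character of a curve over the rational numbers with complex multiplication by the integers of F, F of
discriminant -D, D > 3 a prime number. -/
theorem base_D {F : Type} [Field F] [NumberField F] [IQ F] {δ : 𝓞 F} {D : ℕ} (hd : Del F δ D) (W : WeierstrassCurve ℤ) (Om : ℂ)
    (hΔ : W.Δ ≠ 0) (hper : Per F (-(eF F (W⁄(𝓞 F)).c₄) / 48) (-(eF F (W⁄(𝓞 F)).c₆) / 864) Om)
    (hbad : ∀ v : HeightOneSpectrum (𝓞 F), (W⁄(𝓞 F)).Δ ∈ v.asIdeal → ¬ GoodAt ((W⁄(𝓞 F))⁄F) v) :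
    ∃ ψ : Ideal (𝓞 F) →*₀ 𝓞 F, BaseH F (W⁄(𝓞 F)) Om (Ideal.span {((W.Δ.natAbs : ℕ) : 𝓞 F) ^ 3}) ψ := by
  classical
  set N := W.Δ.natAbs with hN
  have hN0 : N ≠ 0 := Int.natAbs_ne_zero.2 hΔ
  have hΔF : (W⁄(𝓞 F)).Δ = ((W.Δ : ℤ) : 𝓞 F) := by
    have := W.map_Δ (algebraMap ℤ (𝓞 F))
    exact this.trans (by simp)
  have hΔ0 : (W⁄(𝓞 F)).Δ ≠ 0 := by
    rw [hΔF]
    exact_mod_cast hΔ
  -- D divides the discriminant
  have hD1 := hd.prime.one_lt
  obtain ⟨vδ, hvδ⟩ : ∃ v : HeightOneSpectrum (𝓞 F), v.asIdeal = Ideal.span {δ} := by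
    have hp := del_prime hd
    exact ⟨⟨Ideal.span {δ}, (Ideal.span_singleton_prime hp.ne_zero).2 hp, by
      rw [Ne, Ideal.span_singleton_eq_bot]
      exact hp.ne_zero⟩, rfl⟩
  have hram : (W⁄(𝓞 F)).Δ ∈ vδ.asIdeal := by
    refine disc_ram hΔ hper vδ (fun a => ?_)
    rw [hvδ, Ideal.mem_span_singleton]
    obtain ⟨n, c, hc⟩ := ex_int hd a
    have hc' : cj a - n = -δ * cj c := by
      have := congrArg cj hc
      rw [map_sub, map_mul, cj_int, cj_del hd] at this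
      exact this
    exact ⟨c + cj c, by linear_combination hc - hc'⟩
  have hDN : D ∣ N := by
    rw [hvδ, Ideal.mem_span_singleton, hΔF, del_dvd_int hd] at hram
    exact Int.natCast_dvd.1 hram
  -- the analytic data
  obtain ⟨A, hA⟩ : ∃ A : F, A = -(algebraMap (𝓞 F) F (W⁄(𝓞 F)).c₄) / 48 := ⟨_, rfl⟩
  obtain ⟨B, hB⟩ : ∃ B : F, B = -(algebraMap (𝓞 F) F (W⁄(𝓞 F)).c₆) / 864 := ⟨_, rfl⟩
  have hdisc := y3_ne (W⁄(𝓞 F)) hA hB hΔ0
  have hper' : Per F (embF F A) (embF F B) Om := by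
    have e1 : embF F A = -(eF F (W⁄(𝓞 F)).c₄) / 48 := by
      rw [hA, map_div₀, map_neg, map_ofNat]
      rfl
    have e2 : embF F B = -(eF F (W⁄(𝓞 F)).c₆) / 864 := by
      rw [hB, map_div₀, map_neg, map_ofNat]
      rfl
    rw [e1, e2]
    exact hper
  set Ω := AlgebraicClosure F with hΩ
  obtain ⟨j, hj⟩ := exists_j F Ω
  obtain ⟨act, h⟩ := exists_CMA F A B Om j hdisc hper' hj
  obtain ⟨T₀, hT, h0⟩ := exists_T h hd
  obtain ⟨d, χ, hχ, hfr⟩ := exists_chi h hd W hΔ hA hB hDN hT h0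
  obtain ⟨ψ, hψ, hval⟩ := exists_psi (F := F) hd hN0 hDN hχ
  have hmem : ∀ v : HeightOneSpectrum (𝓞 F), (W⁄(𝓞 F)).Δ ∈ v.asIdeal ↔ (N : 𝓞 F) ∈ v.asIdeal := by
    intro v
    rw [hΔF]
    rcases Int.natAbs_eq W.Δ with h1 | h1
    · rw [h1, ← hN, Int.cast_natCast]
    · rw [h1, ← hN, Int.cast_neg, Int.cast_natCast, neg_mem_iff]
  have hsupp : ∀ v : HeightOneSpectrum (𝓞 F), (W⁄(𝓞 F)).Δ ∈ v.asIdeal ↔ Ideal.span {(N : 𝓞 F) ^ 3} ≤ v.asIdeal := by
    intro v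
    rw [hmem, Ideal.span_singleton_le_iff_mem]
    exact ⟨fun h1 => Ideal.pow_mem_of_mem _ h1 3 (by norm_num), fun h1 => v.isPrime.mem_of_pow_mem 3 h1⟩
  refine ⟨ψ, ⟨⟨hΔ0, hper, hψ⟩, ?_, hsupp, hbad⟩⟩
  intro v hv
  obtain ⟨V, hV⟩ := exists_abw Ω v
  have hVv : ∀ a : 𝓞 F, a ∈ v.asIdeal → V.valuation (ak Ω a) < 1 := by
    intro a ha
    rw [hV.lt]
    exact (v.valuation_lt_one_iff_mem _).2 ha
  obtain ⟨s, hDec, hs⟩ := H13S.exists_frob v V hVv
  have hsT : act δ (ac (WAB A B) s T₀) = 0 := by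
    rw [← h.gal, hT, map_zero]
  obtain ⟨a, ha⟩ := tor_gen h hd hT h0 hsT
  have hδv : δ ∉ v.asIdeal := by
    intro h1
    apply hv
    rw [hmem]
    obtain ⟨c, hc⟩ := hDN
    rw [hc, Nat.cast_mul]
    refine Ideal.mul_mem_right _ _ ?_
    have h2 : (D : 𝓞 F) = -(δ * δ) := by
      have := hd.sq
      linear_combination this
    rw [h2]
    exact neg_mem (Ideal.mul_mem_left _ _ h1)
  obtain ⟨γ, hγ, hγa, hcard⟩ := frob_v h hd (W⁄(𝓞 F)) hA hB v hv hδv hVv s hDec hs hT h0 ha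
  have hNγ : Nm γ = Ideal.absNorm v.asIdeal := by
    unfold Nm
    rw [hγ]
  have hcopI : IsCoprime (Ideal.span {γ}) (Ideal.span {(N : 𝓞 F) ^ 3}) := by
    rw [hγ, Ideal.isCoprime_iff_sup_eq]
    by_contra hne
    have h1 := v.isMaximal.eq_of_le hne le_sup_left
    exact hv ((hsupp v).2 (by rw [h1]; exact le_sup_right))
  have hcop : (Nm γ).Coprime N := (cop_iff N γ).1 hcopI
  have e1 : lam δ D γ = jacobiSym a D := lam_eq hd hγa
  have e2 := hfr v hv V hVv s hs a ha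
  have e3 := hχ.pm _ hcop
  have e4 : ψ v.asIdeal = γ := by
    rw [← hγ, hval γ hcop, e1, e2, hNγ]
    rw [hNγ] at e3
    rcases e3 with e3 | e3
    · rw [e3]
      simp
    · rw [e3]
      simp
  rw [hcard, e4]

end H13D
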