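import Mathlib
import Pool.Agent.Lib.H13D.H3
import Pool.Agent.Lib.H13D.BF

/-! # H13D: Deuring's theorem for the global minimal equations over the rational numbers with complex multiplication by the integers
of the field of discriminant -D, D = 7, 11, 19, 43, 67, 163 -/

open NumberField IsDedekindDomain WeierstrassCurve

namespace H13D

open H55P (IQ embF eF LF Per IsHecke Pt ac Inert Dec Nm)
open H55K
open H55K.TQ (BaseH)

theorem base_exists {F : Type} [Field F] [NumberField F] [IQ F] {δ : 𝓞 F} {D : ℕ} (hd : Del F δ D) (W : WeierstrassCurve ℤ) (Om : ℂ)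
    (hΔ : W.Δ ≠ 0) (hper : Per F (-(eF F (W⁄(𝓞 F)).c₄) / 48) (-(eF F (W⁄(𝓞 F)).c₆) / 864) Om) (hmin : MinZ W) :
    ∃ ψ : Ideal (𝓞 F) →*₀ 𝓞 F, BaseH F (W⁄(𝓞 F)) Om (Ideal.span {((W.Δ.natAbs : ℕ) : 𝓞 F) ^ 3}) ψ :=
  base_D hd W Om hΔ hper (bad_F hΔ hper hmin)

end H13D
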